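import Pool.Agent.Work.MP_7453a1_st.Grow
import Pool.Agent.Work.MP_7453a1_nt_two.Low12

set_option autoImplicit false

/-!
Parallelogram norms, `m + n = 3`: the lower bound.
-/

namespace Pool.Agent.Work.MP_7453a1_st

open Pool.Agent.Work.MP_7453a1_nt_norm Pool.Agent.Work.MP_7453a1_nt_sup
open Pool.Agent.Work.MP_7453a1_nt_h45 (IsFrame)
open Pool.Agent.Work.MP_7453a1_nt_sym (IsFrame2)
open Pool.Agent.Work.MP_7453a1_nt_two (UG V)
open scoped ENNReal

lemma one_le_tau : 1 ≤ tau := by unfold tau; norm_num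

/-- The constant. -/
noncomputable def kappa : ℝ := (1646357 * tau ^ 4)⁻¹

lemma kappa_pos : 0 < kappa := by
  have := one_le_tau
  unfold kappa
  positivity

/-- Uniform growth for parallelogram norms. -/
theorem UG_tau {N : Seminorm ℝ V} {f g : V →ₗ[ℝ] ℝ} (hfg : ∀ x, N x = max |f x| |g x|) :
    UG N tau kappa := by
  intro Θ z hz2 k
  have hz : IsFrame N Θ z := hz2.toIsFrame
  let X : Pt 2 →+ ℝ := f.toAddMonoidHom.comp (ev Θ)
  let Y : Pt 2 →+ ℝ := g.toAddMonoidHom.comp (ev Θ)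
  have her : ∀ w : Pt 2, er N Θ w = max |X w| |Y w| := fun w => hfg (ev Θ w)
  have hmod : Mod sup X Y z (fun k => er N Θ (z k)) := by
    refine mod_sup hz.pos (fun k => hz.mono k (k + 1) (by omega)) ?_
      (fun k => hz.anti k (k + 1) (by omega)) ?_ ?_ ?_
    · intro k
      have h2 := hz.anti k (k + 1) (by omega)
      have h3 : 0 ≤ er N Θ (z (k + 1)) := er_nonneg _
      exact lt_of_le_of_lt h3 h2
    · intro k
      simp only [her]
      exact ⟨le_max_left _ _, le_max_right _ _⟩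
    · intro k
      simp only [her]
      exact le_max_iff.mp le_rfl
    · intro k w hw hw'
      have h2 := hz.excl k w hw hw'
      simp only [her w] at h2
      exact le_max_iff.mp h2
  have h1 := growth hmod k
  have h2 := one_le_tau
  unfold kappa
  rw [mul_assoc, inv_mul_le_iff₀ (by positivity)]
  exact h1

variable {N : Seminorm ℝ V} {N₁ : Seminorm ℝ (Fin 1 → ℝ)}

/-- `m = 1`, `n = 2`. -/
theorem low_one (hN : IsNorm N) (hN₁ : IsNorm N₁) {f g : V →ₗ[ℝ] ℝ}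
    (hfg : ∀ x, N x = max |f x| |g x|) {Θ : Matrix (Fin 2) (Fin 1) ℝ}
    (hΘ : Pool.Agent.Work.MP_7453a1_nt_two.Admissible Θ) :
    ENNReal.ofReal tau ≤ Pool.Agent.Work.MP_7453a1_nt_two.G N₁ N Θ :=
  (Pool.Agent.Work.MP_7453a1_nt_two.low12 hN hN₁ hΘ one_le_tau kappa_pos (UG_tau hfg)).2

/-- `m = 2`, `n = 1`. -/
theorem low_two (hN : IsNorm N) (hN₁ : IsNorm N₁) {f g : V →ₗ[ℝ] ℝ}
    (hfg : ∀ x, N x = max |f x| |g x|) {Θ : Matrix (Fin 1) (Fin 2) ℝ}
    (hΘ : Pool.Agent.Work.MP_7453a1_nt_two.Admissible Θ) :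
    ENNReal.ofReal (Real.sqrt tau) ≤ Pool.Agent.Work.MP_7453a1_nt_two.G N N₁ Θ := by
  refine (Pool.Agent.Work.MP_7453a1_nt_two.low hN hN₁ hΘ one_le_tau kappa_pos
    (fun A _ => ?_)).2
  exact UG_tau (f := f ∘ₗ A) (g := g ∘ₗ A) (fun x => hfg (A x))

end Pool.Agent.Work.MP_7453a1_st
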