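import Pool.Agent.Work.MP_7453a1_st.Word

set_option autoImplicit false

/-!
The alphabet.
-/

namespace Pool.Agent.Work.MP_7453a1_st

open Pool.Agent.Work.MP_7453a1_nt_norm Pool.Agent.Work.MP_7453a1_nt_sup

/-- The triple is slow: the third denominator is less than the sum of the first two. -/
def slowC : Bool × List (ℤ × ℕ) := (true, [(1, 0), (1, 1), (-1, 2)])

/-- The triple is fast. -/
def fastC : Bool × List (ℤ × ℕ) := (false, [(1, 2), (-1, 0), (-1, 1)])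

/-- The sixteen moves `P, X, Q, R, b, c, d, e, f, S, T, V, r, E, K, o`. -/
def letters : List Letter :=
  [⟨[(1, 1, 0)], 0, [slowC]⟩,
   ⟨[(-1, 1, 1)], 0, [slowC]⟩,
   ⟨[(1, 0, 1)], 0, [slowC]⟩,
   ⟨[(1, -1, 2)], 0, [slowC, (true, [(1, 1), (1, 2), (-1, 3)])]⟩,
   ⟨[(0, 1, 1), (-1, 1, 2)], 0, [slowC, (true, [(1, 2), (1, 3), (-1, 4)])]⟩,
   ⟨[(0, 1, 1), (-1, 2, 1)], 0, [slowC, (true, [(1, 2), (1, 3), (-1, 4)])]⟩,
   ⟨[(0, 1, 1), (1, 0, 2)], 0, [slowC, (true, [(1, 2), (1, 3), (-1, 4)])]⟩,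
   ⟨[(0, 1, 1), (1, 1, 1)], 0, [slowC, (true, [(1, 2), (1, 3), (-1, 4)])]⟩,
   ⟨[(0, 1, 1), (1, 2, 0)], 0, [slowC, (true, [(1, 2), (1, 3), (-1, 4)])]⟩,
   ⟨[(1, 2, 0)], 1, [slowC]⟩,
   ⟨[(-1, 1, 2)], 1, [slowC]⟩,
   ⟨[(-1, 2, 1)], 1, [slowC]⟩,
   ⟨[(1, -1, 2)], 1, [slowC, (false, [(1, 3), (-1, 1), (-1, 2)])]⟩,
   ⟨[], 2, [slowC, (false, [(1, 3), (-1, 0), (-1, 1), (-1, 2)])]⟩,
   ⟨[(0, 1, 1)], 2, [slowC, (false, [(1, 4), (-1, 3), (-1, 2)])]⟩,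
   ⟨[], 1, [fastC]⟩]

/-- The move with a given number. -/
def lt (n : ℕ) : Letter := letters.getD n ⟨[], 1, []⟩

/-- A word of numbers. -/
def wr (w : List ℕ) : List Letter := w.map lt

/-- The words that do not occur. -/
def forb : List (List ℕ) :=
  [[0, 3], [0, 9], [0, 11], [0, 5], [0, 8], [0, 12], [3, 0], [3, 1], [11, 0], [11, 2], [1, 3], [1,
    10], [1, 11], [1, 1], [1, 4], [1, 5], [1, 12], [6, 0], [8, 0], [0, 0, 2], [0, 2, 1], [0, 1,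
    2], [10, 2, 1], [1, 2, 0], [1, 2, 1], [1, 7, 0], [4, 2, 1], [5, 2, 1], [0, 0, 0, 1], [0, 0,
    7, 0], [0, 2, 2, 0], [0, 1, 0, 1], [1, 0, 2, 0], [0, 0, 1, 0, 0, 0], [0, 0, 1, 0, 0, 1], [1,
    0, 1, 0, 0, 1], [4, 0, 1, 0, 0, 1], [4, 0, 1, 0, 0, 0, 0, 0, 0], [0, 0, 0, 0, 0, 0, 0, 0, 0,
    0], [2, 1, 0, 1, 0, 0, 0, 0, 0, 0]]

/-- The word does not occur. -/
def NoWord (w : List ℕ) : Prop :=
  ∀ (X Y : Pt 2 →+ ℝ) (z : ℕ → Pt 2) (r : ℕ → ℝ), Mod sup X Y z r → ∀ s, ¬ Rel z s (wr w)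

theorem no_of_check {w : List ℕ} (n : ℕ) (c : List ℤ) {D : Data} {T : Tree}
    (hc : (pts (wr w))[n]? = some c) (hD : wd (wr w) (symExt c) = D)
    (hT : check D.clause T D.base none = true) : NoWord w :=
  fun _ _ _ _ h s => forb_of_check hc hD hT h s

end Pool.Agent.Work.MP_7453a1_st
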