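import Pool.Agent.Work.MP_7453a1_st.Alph

set_option autoImplicit false

/-!
Tables of linear potentials on the histories.
-/

namespace Pool.Agent.Work.MP_7453a1_st

open Pool.Agent.Work.MP_7453a1_nt_norm Pool.Agent.Work.MP_7453a1_nt_sup

/-- A state: the word of the last moves, the type of the present triple, and a linear form in the
denominators of the present triple. -/
structure St where
  w : List ℕ
  fast : Bool
  v : ℤ × ℤ × ℤ

/-- What happens after a move: either a word that does not occur has been completed, or a new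
state is reached, with a certificate for the inequality between the linear forms. -/
structure Entry where
  forb : Bool
  k : ℕ
  tgt : ℕ
  cert : List (ℕ × ℕ)

/-- Equality test. -/
def neq : List ℕ → List ℕ → Bool
  | [], [] => true
  | a :: l, b :: m => Nat.beq a b && neq l m
  | _, _ => false

lemma neq_eq {l m : List ℕ} (h : neq l m = true) : l = m := by
  induction l generalizing m with
  | nil => cases m with
    | nil => rfl
    | cons b m => simp [neq] at h
  | cons a l ih => cases m with
    | nil => simp [neq] at h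
    | cons b m =>
      simp only [neq, Bool.and_eq_true] at h
      rw [Nat.eq_of_beq_eq_true h.1, ih h.2]

/-- The condition of a type. -/
def flagC (b : Bool) : Bool × List (ℤ × ℕ) := if b then fastC else slowC

/-- The condition of a type at position `j`. -/
def flagE (b : Bool) (j : ℕ) : Ext :=
  ⟨(flagC b).1, (flagC b).2.map (fun a => (a.1, j + a.2)), [], [], []⟩

/-- The negation of the inequality between the linear forms. -/
def potE (tn td : ℤ) (k : ℕ) (v v' : ℤ × ℤ × ℤ) (pa pb : ℕ) : Ext :=
  ⟨true, [(tn ^ k * v.1, pa), (tn ^ k * v.2.1, pa + 1), (tn ^ k * v.2.2, pa + 2),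
    (-(td ^ k * v'.1), pb), (-(td ^ k * v'.2.1), pb + 1), (-(td ^ k * v'.2.2), pb + 2)], [], [],
    []⟩

/-- Check of one entry. -/
def entryOK (tn td : ℤ) (fb : List (List ℕ)) (sts : List St) (S : St) (l : ℕ) (tf : Bool)
    (e : Entry) : Bool :=
  if e.forb then
    match fb[e.tgt]? with
    | some u => neq u ((S.w ++ [l]).drop e.k)
    | none => false
  else
    match sts[e.tgt]? with
    | some S' => neq S'.w ((S.w ++ [l]).drop e.k) && ((S'.fast == tf) &&
        farkas (wd (wr (S.w ++ [l])) [flagE tf (steps (wr (S.w ++ [l]))),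
          potE tn td (lt l).step S.v S'.v (steps (wr S.w)) (steps (wr (S.w ++ [l])))]).base
          e.cert)
    | none => false

/-- Check of the entries of a state. -/
def chkSlots (tn td : ℤ) (fb : List (List ℕ)) (sts : List St) (S : St) :
    List (ℕ × Bool) → List Entry → Bool
  | [], _ => true
  | _ :: _, [] => false
  | s :: ss, e :: es => entryOK tn td fb sts S s.1 s.2 e && chkSlots tn td fb sts S ss es

/-- The moves and the types after them, for the two types of the present triple. -/
def slots (fast : Bool) : List (ℕ × Bool) :=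
  if fast then [(15, false), (15, true)] else
    [(0, false), (1, false), (2, false), (3, false), (4, false), (5, false), (6, false),
      (7, false), (8, false), (9, false), (9, true), (10, false), (10, true), (11, false),
      (11, true), (12, false), (12, true), (13, false), (13, true), (14, false), (14, true)]

/-- Check of a table. -/
def chkTab (tn td : ℤ) (fb : List (List ℕ)) (sts : List St) : List (St × List Entry) → Bool
  | [] => true
  | a :: l => chkSlots tn td fb sts a.1 (slots a.1.fast) a.2 && chkTab tn td fb sts l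

/-- The state is correct. -/
def StOK (tn td : ℤ) (fb : List (List ℕ)) (sts : List St) (S : St) : Prop :=
  ∀ x ∈ slots S.fast, ∃ e, entryOK tn td fb sts S x.1 x.2 e = true

lemma chkSlots_sound {tn td : ℤ} {fb : List (List ℕ)} {sts : List St} {S : St}
    {ss : List (ℕ × Bool)} {es : List Entry} (h : chkSlots tn td fb sts S ss es = true) :
    ∀ x ∈ ss, ∃ e, entryOK tn td fb sts S x.1 x.2 e = true := by
  induction ss generalizing es with
  | nil => intro x hx; simp at hx
  | cons s ss ih =>
    cases es with
    | nil => simp [chkSlots] at h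
    | cons e es =>
      simp only [chkSlots, Bool.and_eq_true] at h
      intro x hx
      rcases List.mem_cons.mp hx with rfl | hx
      · exact ⟨e, h.1⟩
      · exact ih h.2 x hx

lemma chkTab_sound {tn td : ℤ} {fb : List (List ℕ)} {sts : List St} {T : List (St × List Entry)}
    (h : chkTab tn td fb sts T = true) : ∀ S ∈ T.map Prod.fst, StOK tn td fb sts S := by
  induction T with
  | nil => intro S hS; simp at hS
  | cons a T ih =>
    simp only [chkTab, Bool.and_eq_true] at h
    intro S hS
    rw [List.map_cons, List.mem_cons] at hS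
    rcases hS with rfl | hS
    · exact chkSlots_sound h.1
    · exact ih h.2 S hS

/-- Check of an initial state. -/
def startOK (sts : List St) (i : ℕ) (f : Bool) (cert : List (ℕ × ℕ)) : Bool :=
  match sts[i]? with
  | some S => neq S.w [] && ((S.fast == f) &&
      farkas (wd [] [flagE f 0,
        ⟨true, [(1, 0), (-S.v.1, 0), (-S.v.2.1, 1), (-S.v.2.2, 2)], [], [], []⟩]).base cert)
  | none => false

/-- Bound for the coefficients. -/
def bndOK (K : ℕ) (sts : List St) : Bool :=
  sts.all fun S => Nat.ble (S.v.1.natAbs + (S.v.2.1.natAbs + S.v.2.2.natAbs)) K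

variable {X Y : Pt 2 →+ ℝ} {z : ℕ → Pt 2} {r : ℕ → ℝ} {p s : ℕ}

/-- The history and the type of the triple at `p` are those of the state. -/
def Inv (z : ℕ → Pt 2) (p : ℕ) (S : St) : Prop :=
  (∃ s, s + steps (wr S.w) = p ∧ Rel z s (wr S.w)) ∧ condH z p (flagC S.fast)

/-- The value of a linear form. -/
def lv (z : ℕ → Pt 2) (p : ℕ) (v : ℤ × ℤ × ℤ) : ℝ :=
  v.1 * ((z p).1 : ℝ) + v.2.1 * ((z (p + 1)).1 : ℝ) + v.2.2 * ((z (p + 2)).1 : ℝ)

lemma shift_holds {g : ℕ → Pt 2} {j : ℕ} {c : Bool × List (ℤ × ℕ)} (h : condH z (s + j) c) :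
    (⟨c.1, c.2.map (fun a => (a.1, j + a.2)), [], [], []⟩ : Ext).holds X Y z s g := by
  apply holds_ms
  unfold condH at h ⊢
  have e1 : dval z s (c.2.map fun a => (a.1, j + a.2)) = dval z (s + j) c.2 :=
    foldr_shift z s j c.2
  simp only [e1]
  exact h

lemma wr_append (u v : List ℕ) : wr (u ++ v) = wr u ++ wr v := by simp [wr]

lemma rel_drop {u : List ℕ} (k : ℕ) (h : Rel z s (wr u)) :
    Rel z (s + steps (wr (u.take k))) (wr (u.drop k)) := by
  have h1 : wr u = wr (u.take k) ++ wr (u.drop k) := by
    rw [← wr_append, List.take_append_drop]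
  rw [h1] at h
  exact (rel_append.mp h).2

/-- Soundness of an entry. -/
theorem entry_sound (hM : Mod sup X Y z r) {fb : List (List ℕ)} (hfb : ∀ w ∈ fb, NoWord w)
    {tn td : ℤ} {sts : List St} {S : St} (hS : Inv z p S) {l : ℕ} {tf : Bool} {e : Entry}
    (he : entryOK tn td fb sts S l tf e = true) (hl : (lt l).holds z p)
    (hf : condH z (p + (lt l).step) (flagC tf)) :
    ∃ S' ∈ sts, Inv z (p + (lt l).step) S' ∧
      (tn : ℝ) ^ (lt l).step * lv z p S.v ≤ (td : ℝ) ^ (lt l).step * lv z (p + (lt l).step) S'.v := by
  obtain ⟨⟨s, hs, hrel⟩, -⟩ := hS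
  have hst : steps (wr (S.w ++ [l])) = steps (wr S.w) + (lt l).step := by
    rw [wr_append, steps_append]
    simp [wr, steps]
  have hW : Rel z s (wr (S.w ++ [l])) := by
    rw [wr_append, rel_append, hs]
    exact ⟨hrel, hl, trivial⟩
  unfold entryOK at he
  split at he
  · exfalso
    split at he
    · next u hu =>
      have h1 := neq_eq he
      have h2 := rel_drop e.k hW
      rw [← h1] at h2
      exact hfb u (List.mem_of_getElem? hu) X Y z r hM _ h2
    · simp at he
  · split at he
    · next S' hS' =>
      simp only [Bool.and_eq_true, beq_iff_eq] at he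
      obtain ⟨h1, h2, h3⟩ := he
      have h1 := neq_eq h1
      refine ⟨S', List.mem_of_getElem? hS', ⟨⟨s + steps (wr ((S.w ++ [l]).take e.k)), ?_, ?_⟩, ?_⟩,
        ?_⟩
      · have h4 : steps (wr (S.w ++ [l])) = steps (wr ((S.w ++ [l]).take e.k)) +
            steps (wr ((S.w ++ [l]).drop e.k)) := by
          rw [← steps_append, ← wr_append, List.take_append_drop]
        rw [h1]
        omega
      · rw [h1]
        exact rel_drop e.k hW
      · rw [h2]; exact hf
      · by_contra hcon
        push Not at hcon
        refine word_refute hM hW _ (cons_holds ?_ (singleton_holds ?_)) (Tree.leaf e.cert) h3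
        · apply shift_holds
          rw [hst, ← Nat.add_assoc, hs]
          exact hf
        · apply holds_ms
          rw [hst]
          simp only [condH, if_true, dval, List.foldr_cons, List.foldr_nil, den_apply]
          unfold lv at hcon
          have e1 : s + steps (wr S.w) = p := hs
          have e2 : s + (steps (wr S.w) + 1) = p + 1 := by omega
          have e3 : s + (steps (wr S.w) + 2) = p + 2 := by omega
          have e4 : s + (steps (wr S.w) + (lt l).step) = p + (lt l).step := by omega
          have e5 : s + (steps (wr S.w) + (lt l).step + 1) = p + (lt l).step + 1 := by omega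
          have e6 : s + (steps (wr S.w) + (lt l).step + 2) = p + (lt l).step + 2 := by omega
          rw [e1, e2, e3, e4, e5, e6]
          push_cast
          linarith
    · simp at he

/-- Soundness of an initial state. -/
theorem start_sound (hM : Mod sup X Y z r) {sts : List St} {i : ℕ} {f : Bool}
    {cert : List (ℕ × ℕ)} (h : startOK sts i f cert = true) (hf : condH z 0 (flagC f)) :
    ∃ S ∈ sts, Inv z 0 S ∧ ((z 0).1 : ℝ) ≤ lv z 0 S.v := by
  unfold startOK at h
  split at h
  · next S hS =>
    simp only [Bool.and_eq_true, beq_iff_eq] at h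
    obtain ⟨h1, h2, h3⟩ := h
    have h1 := neq_eq h1
    refine ⟨S, List.mem_of_getElem? hS, ⟨⟨0, by rw [h1]; rfl, by rw [h1]; trivial⟩, by rw [h2]; exact hf⟩, ?_⟩
    by_contra hcon
    push Not at hcon
    refine word_refute hM (s := 0) (w := []) trivial _ (cons_holds ?_ (singleton_holds ?_))
      (Tree.leaf cert) h3
    · exact shift_holds (j := 0) hf
    · apply holds_ms
      simp only [condH, if_true, dval, List.foldr_cons, List.foldr_nil, den_apply, Nat.zero_add]
      unfold lv at hcon
      simp only [Nat.zero_add] at hcon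
      push_cast
      linarith
  · simp at h

lemma bnd_sound {K : ℕ} {sts : List St} (h : bndOK K sts = true) {S : St} (hS : S ∈ sts)
    (h0 : 0 < (z p).1) (h1 : (z p).1 < (z (p + 1)).1) (h2 : (z (p + 1)).1 < (z (p + 2)).1) :
    lv z p S.v ≤ (K : ℝ) * ((z (p + 2)).1 : ℝ) := by
  have h3 := List.all_eq_true.mp h S hS
  have h4 : S.v.1.natAbs + (S.v.2.1.natAbs + S.v.2.2.natAbs) ≤ K := Nat.le_of_ble_eq_true h3
  have h5 : |(S.v.1 : ℝ)| + (|(S.v.2.1 : ℝ)| + |(S.v.2.2 : ℝ)|) ≤ (K : ℝ) := by
    have e : ∀ a : ℤ, |(a : ℝ)| = ((a.natAbs : ℕ) : ℝ) := fun a => by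
      rw [← Int.cast_abs, Int.abs_eq_natAbs]; simp
    rw [e, e, e]
    exact_mod_cast h4
  have g0 : (0 : ℝ) < ((z p).1 : ℝ) := by exact_mod_cast h0
  have g1 : ((z p).1 : ℝ) < ((z (p + 1)).1 : ℝ) := by exact_mod_cast h1
  have g2 : ((z (p + 1)).1 : ℝ) < ((z (p + 2)).1 : ℝ) := by exact_mod_cast h2
  have k : ∀ a b : ℝ, 0 ≤ b → b ≤ ((z (p + 2)).1 : ℝ) → a * b ≤ |a| * ((z (p + 2)).1 : ℝ) := by
    intro a b hb hb'
    have := mul_le_mul_of_nonneg_right (le_abs_self a) hb
    have := mul_le_mul_of_nonneg_left hb' (abs_nonneg a)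
    linarith
  have k1 := k S.v.1 _ g0.le (by linarith)
  have k2 := k S.v.2.1 _ (by linarith : (0 : ℝ) ≤ ((z (p + 1)).1 : ℝ)) (by linarith)
  have k3 := k S.v.2.2 _ (by linarith : (0 : ℝ) ≤ ((z (p + 2)).1 : ℝ)) le_rfl
  have k4 := mul_le_mul_of_nonneg_right h5 (by linarith : (0 : ℝ) ≤ ((z (p + 2)).1 : ℝ))
  unfold lv
  linarith

end Pool.Agent.Work.MP_7453a1_st
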