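import Pool.Agent.Work.MP_7453a1_st.Alph

set_option autoImplicit false
set_option maxRecDepth 100000

/-! Certificates (the next point of a slow triple). -/

namespace Pool.Agent.Work.MP_7453a1_st

open Pool.Agent.Work.MP_7453a1_nt_norm Pool.Agent.Work.MP_7453a1_nt_sup

/-- The refutation problem. -/
def C1.D : Data :=
  ⟨[some [1, 0, 0], some [0, 1, 0], some [0, 0, 1], none], sup, [⟨true, [(1, 0), (1, 1), (-1, 2)],
    [], [], []⟩, ⟨true, [(1, 0), (1, 1), (1, 2), (-1, 3)], [], [], []⟩, ⟨false, [], [], [0, 0,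
    1], []⟩, ⟨false, [], [], [], [0, 0, 1]⟩, ⟨false, [], [], [0, 0, 1], [0, 0, -1]⟩], []⟩

end Pool.Agent.Work.MP_7453a1_st
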