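import Pool.Agent.Work.MP_7453a1_st.CertC1D

set_option autoImplicit false
set_option maxRecDepth 100000

/-! Certificates (the next point of a slow triple). -/

namespace Pool.Agent.Work.MP_7453a1_st

open Pool.Agent.Work.MP_7453a1_nt_norm Pool.Agent.Work.MP_7453a1_nt_sup

/-- Class (0, 0, 0). -/
def C1.T0 : Tree :=
  .split 2 [0, 0, 0, 1] (.alt (.leaf [(0, 2), (1, 1), (3, 1), (5, 1), (7, 1)]) (.alt (.leaf [(0,
    2), (1, 3), (3, 3), (5, 3), (7, 3)]) (.alt (.leaf [(0, 2), (2, 1), (8, 2), (21, 1)]) (.alt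
    (.leaf [(0, 2), (2, 1), (8, 2), (22, 1)]) (.alt (.leaf [(0, 2), (2, 1), (8, 2), (23, 1)])
    (.alt (.leaf [(0, 2), (2, 1), (8, 2), (24, 1)]) (.alt (.leaf [(1, 2), (6, 1), (8, 1), (10,
    1), (12, 1)]) (.done))))))))

theorem C1.chk0 : checkOne C1.D 3 [(1, 1, 0), (-1, 1, 1), (1, 0, 1), (1, -1, 2), (0, 1, 1), (1, 2, 0), (-1, 1, 2), (-1, 2, 1)] (0, 0, 0) C1.T0 = true := by decide +kernel

/-- Class (1, 0, 0). -/
def C1.T1 : Tree :=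
  .split 0 [1, 0, 0, -1] (.alt (.leaf [(0, 2), (3, 3), (5, 3), (7, 1), (25, 2)]) (.alt (.split 2
    [] (.alt (.split 0 [0, 0, 1, -1] (.alt (.leaf [(0, 2), (5, 1), (7, 1), (9, 1), (27, 2)])
    (.alt (.leaf [(0, 2), (5, 2), (7, 1), (28, 1)]) (.alt (.split 1 [1, 0, 0, -1] (.alt (.leaf
    [(0, 2), (6, 3), (8, 5), (10, 1), (28, 2)]) (.alt (.leaf [(0, 2), (8, 1), (29, 1)]) (.alt
    (.leaf [(0, 1), (1, 1), (7, 1), (9, 2), (11, 1), (20, 1), (25, 1)]) (.alt (.leaf [(0, 1),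
    (1, 1), (9, 1), (13, 1), (20, 1)]) (.alt (.split 2 [0, 0, 0, 1] (.alt (.leaf [(0, 1), (4,
    1), (7, 1), (9, 1), (29, 1)]) (.alt (.leaf [(0, 2), (7, 3), (9, 7), (11, 3), (29, 4)]) (.alt
    (.leaf [(0, 1), (2, 1), (6, 1), (8, 1), (10, 1), (12, 1), (21, 1)]) (.alt (.split 0 [1, 0,
    1, -1] (.alt (.leaf [(0, 1), (5, 1), (8, 1), (30, 1)]) (.alt (.leaf [(0, 2), (8, 2), (10,
    3), (30, 2), (31, 1)]) (.alt (.leaf [(0, 1), (1, 1), (9, 1), (11, 1), (13, 1), (22, 1), (27,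
    1)]) (.alt (.leaf [(0, 1), (3, 1), (7, 1), (9, 1), (11, 1), (13, 1), (15, 1)]) (.alt (.split
    0 [0, 1, 1, -1] (.alt (.leaf [(0, 1), (6, 1), (31, 1)]) (.alt (.leaf [(0, 2), (9, 4), (11,
    3), (31, 2), (32, 1)]) (.alt (.split 0 [1, 1, 0, -1] (.alt (.leaf [(0, 1), (7, 1), (10, 1),
    (12, 1), (32, 1)]) (.alt (.leaf [(0, 2), (10, 2), (12, 1), (32, 2), (33, 1)]) (.alt (.leaf
    [(0, 1), (3, 1), (4, 2), (13, 1), (15, 2), (18, 1), (20, 1), (29, 1), (31, 1)]) (.alt (.leaf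
    [(0, 1), (1, 1), (11, 1), (13, 1), (17, 1), (24, 1)]) (.alt (.split 0 [0, 1, -1, 0] (.alt
    (.leaf [(0, 1), (11, 1), (13, 2), (33, 1)]) (.alt (.leaf [(0, 1), (11, 1), (33, 1)]) (.alt
    (.leaf [(0, 2), (3, 2), (12, 3), (14, 1), (16, 1), (19, 1), (21, 2), (32, 1), (37, 2)])
    (.alt (.split 1 [0, 1, 0, -1] (.alt (.leaf [(0, 2), (12, 1), (14, 5), (16, 1), (34, 2)])
    (.alt (.leaf [(0, 2), (12, 2), (14, 1), (35, 1)]) (.alt (.leaf [(0, 2), (1, 2), (13, 1),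
    (15, 3), (17, 1), (19, 1), (26, 2), (31, 1)]) (.alt (.leaf [(0, 1), (3, 1), (11, 1), (13,
    1), (15, 2), (17, 1), (26, 1)]) (.alt (.leaf [(0, 1), (6, 1), (15, 1), (17, 1), (24, 1),
    (33, 1)]) (.alt (.leaf [(0, 1), (2, 1), (11, 1), (15, 1), (17, 1), (20, 1)]) (.alt (.leaf
    [(0, 1), (14, 1), (19, 1), (39, 1)]) (.done))))))))) (.alt (.leaf [(0, 2), (3, 2), (12, 3),
    (14, 1), (16, 1), (19, 1), (23, 2), (32, 1)]) (.alt (.leaf [(0, 2), (1, 2), (12, 3), (14,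
    3), (16, 1), (19, 1), (25, 2), (32, 1), (37, 2)]) (.alt (.leaf [(0, 1), (18, 1)])
    (.done))))))))) (.alt (.leaf [(0, 1), (4, 1), (9, 1), (11, 1), (13, 1), (15, 1), (23, 1)])
    (.done)))))))) (.alt (.leaf [(0, 1), (4, 1), (8, 1), (10, 2), (12, 1), (14, 1), (20, 1)])
    (.alt (.split 1 [0, 1, 0, -1] (.alt (.leaf [(0, 2), (10, 1), (12, 5), (14, 1), (32, 2)])
    (.alt (.leaf [(0, 2), (10, 2), (12, 1), (33, 1)]) (.alt (.split 0 [0, 1, -1, 0] (.alt (.leaf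
    [(0, 1), (11, 1), (13, 2), (33, 1)]) (.alt (.leaf [(0, 1), (11, 1), (33, 1)]) (.alt (.leaf
    [(0, 2), (2, 1), (3, 1), (12, 4), (14, 1), (16, 1), (21, 2), (23, 1), (32, 1), (37, 2)])
    (.alt (.leaf [(0, 2), (1, 2), (12, 1), (14, 3), (16, 1), (18, 1), (25, 2), (30, 1)]) (.alt
    (.leaf [(0, 2), (2, 1), (3, 1), (12, 4), (14, 1), (16, 1), (23, 3), (32, 1)]) (.alt (.leaf
    [(0, 1), (2, 1), (5, 1), (12, 2), (14, 3), (16, 1), (25, 2), (32, 1), (37, 2)]) (.alt (.leaf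
    [(0, 1), (18, 1)]) (.done))))))))) (.alt (.leaf [(0, 1), (5, 1), (11, 1), (13, 1), (21, 1),
    (24, 1)]) (.alt (.leaf [(0, 1), (4, 1), (13, 1), (15, 1), (22, 1), (31, 1)]) (.alt (.leaf
    [(0, 1), (1, 1), (9, 1), (11, 1), (13, 2), (15, 1), (24, 1), (36, 1)]) (.alt (.leaf [(5, 1),
    (6, 1), (16, 1), (18, 1), (29, 1), (41, 1)]) (.done))))))))) (.alt (.leaf [(0, 1), (1, 1),
    (10, 1), (17, 1), (22, 1)]) (.alt (.leaf [(1, 2), (14, 2), (16, 1), (37, 1)])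
    (.done))))))))) (.alt (.leaf [(0, 1), (2, 1), (7, 2), (9, 1), (11, 2), (13, 2), (33, 1)])
    (.alt (.leaf [(5, 1), (7, 1), (12, 1), (16, 1), (18, 1), (38, 1)]) (.done))))))))) (.alt
    (.split 0 [1, 0, 1, -1] (.alt (.leaf [(0, 1), (5, 1), (8, 1), (30, 1)]) (.alt (.leaf [(0,
    2), (8, 2), (10, 3), (30, 2), (31, 1)]) (.alt (.leaf [(0, 1), (1, 1), (2, 1), (3, 1), (9,
    1), (11, 2), (13, 1), (16, 1), (22, 2), (27, 1)]) (.alt (.leaf [(0, 1), (3, 1), (7, 1), (9,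
    1), (11, 1), (13, 1), (15, 1)]) (.alt (.split 0 [0, 1, 1, -1] (.alt (.leaf [(0, 1), (6, 1),
    (31, 1)]) (.alt (.leaf [(0, 2), (9, 4), (11, 3), (31, 2), (32, 1)]) (.alt (.split 0 [1, 1,
    0, -1] (.alt (.leaf [(0, 1), (7, 1), (10, 1), (12, 1), (32, 1)]) (.alt (.leaf [(0, 2), (10,
    2), (12, 1), (32, 2), (33, 1)]) (.alt (.leaf [(0, 1), (3, 1), (4, 3), (5, 1), (13, 2), (15,
    2), (18, 2), (20, 1), (24, 1), (29, 1), (31, 1)]) (.alt (.leaf [(0, 1), (1, 1), (11, 1),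
    (13, 1), (17, 1), (24, 1)]) (.alt (.split 0 [0, 1, -1, 0] (.alt (.leaf [(0, 1), (11, 1),
    (13, 2), (33, 1)]) (.alt (.leaf [(0, 1), (11, 1), (33, 1)]) (.alt (.leaf [(0, 2), (3, 2),
    (12, 3), (14, 1), (16, 1), (19, 1), (21, 2), (32, 1), (37, 2)]) (.alt (.leaf [(0, 2), (2,
    2), (4, 2), (5, 2), (12, 1), (14, 3), (16, 1), (18, 1), (19, 2), (25, 4), (30, 1)]) (.alt
    (.leaf [(0, 2), (3, 2), (12, 3), (14, 1), (16, 1), (19, 1), (23, 2), (32, 1)]) (.alt (.leaf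
    [(0, 2), (1, 2), (12, 3), (14, 3), (16, 1), (19, 1), (25, 2), (32, 1), (37, 2)]) (.alt
    (.leaf [(0, 1), (18, 1)]) (.done))))))))) (.alt (.leaf [(0, 1), (4, 1), (9, 1), (11, 1),
    (13, 1), (15, 1), (23, 1)]) (.done)))))))) (.alt (.leaf [(0, 1), (4, 1), (8, 1), (10, 2),
    (12, 1), (14, 1), (20, 1)]) (.alt (.leaf [(0, 1), (2, 1), (3, 2), (12, 1), (14, 1), (17, 1),
    (21, 1), (23, 1), (30, 1), (35, 1)]) (.alt (.leaf [(0, 1), (1, 1), (10, 1), (17, 1), (22,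
    1)]) (.alt (.leaf [(1, 2), (14, 2), (16, 1), (37, 1)]) (.done))))))))) (.alt (.leaf [(0, 1),
    (2, 1), (7, 2), (9, 1), (11, 2), (13, 2), (33, 1)]) (.alt (.leaf [(5, 1), (7, 1), (12, 1),
    (16, 1), (18, 1), (38, 1)]) (.done))))))))) (.alt (.leaf [(0, 1), (1, 1), (6, 1), (10, 1),
    (12, 2), (28, 1)]) (.alt (.leaf [(1, 2), (12, 1), (14, 3), (16, 1), (34, 2)])
    (.done))))))))) (.alt (.split 0 [1, 0, 1, -1] (.alt (.leaf [(0, 1), (4, 1), (7, 1), (29,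
    1)]) (.alt (.leaf [(0, 2), (7, 2), (9, 3), (29, 2), (30, 1)]) (.alt (.split 2 [0, 0, 0, 1]
    (.alt (.leaf [(0, 1), (5, 1), (8, 1), (10, 1), (30, 1)]) (.alt (.leaf [(0, 2), (8, 3), (10,
    7), (12, 3), (30, 4)]) (.alt (.leaf [(0, 1), (3, 1), (7, 1), (9, 1), (11, 1), (13, 1), (22,
    1)]) (.alt (.leaf [(0, 1), (1, 1), (9, 1), (11, 1), (13, 1), (22, 1), (27, 1)]) (.alt (.leaf
    [(0, 1), (2, 1), (7, 1), (11, 1), (13, 2), (28, 1)]) (.alt (.leaf [(0, 1), (1, 1), (2, 1),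
    (3, 1), (9, 1), (11, 2), (13, 1), (17, 1), (22, 2), (27, 1)]) (.alt (.leaf [(1, 2), (13, 1),
    (15, 3), (17, 1), (35, 2)]) (.done))))))))) (.alt (.leaf [(0, 1), (2, 1), (6, 1), (8, 1),
    (10, 1), (12, 1), (14, 1)]) (.alt (.leaf [(0, 1), (1, 1), (6, 1), (8, 1), (10, 2), (12, 1),
    (21, 1), (33, 1)]) (.alt (.leaf [(0, 1), (1, 1), (10, 1), (12, 1), (16, 1), (27, 1), (32,
    1)]) (.alt (.leaf [(1, 2), (14, 1), (35, 1)]) (.done))))))))) (.alt (.leaf [(0, 1), (8, 1),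
    (11, 1), (13, 1), (33, 1)]) (.done))))))))) (.alt (.leaf [(0, 2), (1, 2), (4, 2), (6, 1),
    (8, 1), (10, 3), (11, 1), (23, 1)]) (.alt (.split 1 [1, 0, 0, -1] (.alt (.leaf [(0, 2), (6,
    3), (8, 5), (10, 1), (28, 2)]) (.alt (.leaf [(0, 2), (8, 1), (29, 1)]) (.alt (.split 2 [0,
    0, 0, 1] (.alt (.leaf [(0, 1), (4, 1), (7, 1), (9, 1), (29, 1)]) (.alt (.leaf [(0, 2), (7,
    3), (9, 7), (11, 3), (29, 4)]) (.alt (.split 0 [0, 1, 1, -1] (.alt (.leaf [(0, 1), (5, 1),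
    (30, 1)]) (.alt (.leaf [(0, 2), (8, 4), (10, 3), (30, 2), (31, 1)]) (.alt (.leaf [(0, 1),
    (1, 1), (2, 2), (11, 1), (13, 1), (14, 1), (18, 1), (22, 1), (27, 1)]) (.alt (.leaf [(0, 2),
    (2, 2), (3, 2), (9, 1), (11, 1), (13, 1), (14, 2), (17, 1), (19, 2), (29, 1), (34, 2)])
    (.alt (.split 0 [1, 1, 0, -1] (.alt (.leaf [(0, 1), (6, 1), (9, 1), (11, 1), (31, 1)]) (.alt
    (.leaf [(0, 2), (9, 2), (11, 1), (31, 2), (32, 1)]) (.alt (.split 0 [0, 1, -1, 0] (.alt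
    (.leaf [(0, 1), (10, 1), (12, 2), (32, 1)]) (.alt (.leaf [(0, 1), (10, 1), (32, 1)]) (.alt
    (.leaf [(0, 2), (5, 2), (11, 3), (13, 1), (15, 1), (19, 1), (20, 2), (31, 1), (36, 2)])
    (.alt (.leaf [(0, 2), (1, 2), (11, 3), (13, 3), (15, 1), (16, 1), (24, 2), (29, 1)]) (.alt
    (.leaf [(0, 2), (5, 2), (11, 3), (13, 1), (15, 1), (19, 1), (22, 2), (31, 1)]) (.alt (.leaf
    [(0, 2), (2, 2), (3, 2), (4, 2), (11, 1), (13, 3), (15, 1), (16, 2), (19, 1), (24, 4), (31,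
    1), (36, 4)]) (.alt (.leaf [(0, 1), (17, 1)]) (.done))))))))) (.alt (.leaf [(0, 1), (3, 1),
    (8, 1), (10, 1), (12, 1), (14, 1), (20, 1)]) (.alt (.leaf [(0, 1), (2, 1), (3, 3), (4, 1),
    (12, 2), (14, 2), (15, 2), (21, 1), (23, 1), (28, 1), (30, 1), (35, 1)]) (.alt (.leaf [(0,
    1), (1, 1), (10, 1), (12, 1), (18, 1), (23, 1), (35, 1)]) (.done)))))))) (.alt (.leaf [(0,
    1), (3, 1), (7, 1), (9, 2), (11, 1), (13, 1), (21, 1)]) (.alt (.leaf [(1, 2), (13, 2), (15,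
    1), (36, 1)]) (.done))))))))) (.alt (.leaf [(0, 1), (1, 1), (6, 1), (10, 1), (12, 2), (26,
    1)]) (.alt (.leaf [(0, 1), (2, 1), (6, 1), (8, 1), (10, 1), (12, 1), (21, 1), (33, 1)])
    (.alt (.split 0 [0, 1, 1, -1] (.alt (.leaf [(0, 1), (5, 1), (30, 1)]) (.alt (.leaf [(0, 2),
    (8, 4), (10, 3), (30, 2), (31, 1)]) (.alt (.split 1 [0, 1, 0, -1] (.alt (.leaf [(0, 2), (9,
    1), (11, 5), (13, 1), (31, 2)]) (.alt (.leaf [(0, 2), (9, 2), (11, 1), (32, 1)]) (.alt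
    (.leaf [(0, 1), (3, 1), (12, 1), (14, 1), (19, 1), (28, 1)]) (.alt (.leaf [(0, 1), (1, 1),
    (8, 1), (10, 1), (12, 2), (14, 1), (23, 1)]) (.alt (.split 0 [0, 1, -1, 0] (.alt (.leaf [(0,
    1), (10, 1), (12, 2), (32, 1)]) (.alt (.leaf [(0, 1), (10, 1), (32, 1)]) (.alt (.leaf [(0,
    1), (2, 1), (4, 1), (11, 2), (13, 1), (15, 1), (20, 2), (29, 1)]) (.alt (.leaf [(0, 1), (2,
    1), (4, 1), (11, 2), (13, 3), (15, 1), (24, 2), (29, 1)]) (.alt (.leaf [(0, 2), (5, 2), (11,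
    3), (13, 1), (15, 1), (19, 1), (22, 2), (31, 1)]) (.alt (.leaf [(0, 2), (1, 2), (11, 1),
    (13, 3), (15, 1), (19, 1), (24, 2), (31, 1), (36, 2)]) (.alt (.leaf [(0, 1), (17, 1)])
    (.done))))))))) (.alt (.leaf [(0, 1), (4, 1), (10, 1), (12, 1), (22, 1), (23, 1), (35, 1)])
    (.alt (.leaf [(3, 1), (6, 1), (15, 1), (17, 1), (28, 1)]) (.done))))))))) (.alt (.leaf [(0,
    2), (2, 2), (3, 2), (9, 1), (11, 1), (13, 1), (14, 2), (17, 1), (19, 2), (29, 1), (34, 2)])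
    (.alt (.split 0 [1, 1, 0, -1] (.alt (.leaf [(0, 1), (6, 1), (9, 1), (11, 1), (31, 1)]) (.alt
    (.leaf [(0, 2), (9, 2), (11, 1), (31, 2), (32, 1)]) (.alt (.split 0 [0, 1, -1, 0] (.alt
    (.leaf [(0, 1), (10, 1), (12, 2), (32, 1)]) (.alt (.leaf [(0, 1), (10, 1), (32, 1)]) (.alt
    (.leaf [(0, 2), (5, 2), (11, 3), (13, 1), (15, 1), (19, 1), (20, 2), (31, 1), (36, 2)])
    (.alt (.leaf [(0, 2), (1, 2), (11, 3), (13, 3), (15, 1), (16, 1), (24, 2), (29, 1)]) (.alt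
    (.leaf [(0, 2), (5, 2), (11, 3), (13, 1), (15, 1), (19, 1), (22, 2), (31, 1)]) (.alt (.split
    1 [0, 1, 0, -1] (.alt (.leaf [(0, 2), (11, 1), (13, 5), (15, 1), (33, 2)]) (.alt (.leaf [(0,
    2), (11, 2), (13, 1), (34, 1)]) (.alt (.leaf [(0, 1), (5, 1), (14, 1), (16, 1), (21, 1),
    (30, 1)]) (.alt (.leaf [(0, 1), (2, 1), (10, 1), (14, 1), (16, 1), (17, 1)]) (.alt (.leaf
    [(0, 2), (1, 2), (12, 1), (14, 3), (16, 1), (20, 1), (25, 2), (32, 1), (37, 2)]) (.alt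
    (.leaf [(0, 1), (3, 1), (10, 1), (12, 1), (14, 2), (16, 1), (25, 1), (37, 1)]) (.alt (.leaf
    [(0, 1), (13, 1), (18, 1), (38, 1)]) (.done))))))))) (.alt (.leaf [(0, 1), (17, 1)])
    (.done))))))))) (.alt (.leaf [(0, 1), (3, 1), (8, 1), (10, 1), (12, 1), (14, 1), (20, 1)])
    (.alt (.leaf [(0, 1), (2, 1), (3, 2), (12, 1), (14, 2), (15, 1), (21, 1), (28, 1), (30, 1)])
    (.alt (.leaf [(0, 1), (1, 1), (10, 1), (12, 1), (18, 1), (23, 1), (35, 1)]) (.done))))))))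
    (.alt (.leaf [(0, 1), (3, 1), (7, 1), (9, 2), (11, 1), (13, 1), (21, 1)]) (.alt (.leaf [(1,
    2), (13, 2), (15, 1), (36, 1)]) (.done))))))))) (.alt (.leaf [(1, 2), (12, 1), (14, 3), (16,
    1), (34, 2)]) (.done))))))))) (.alt (.split 0 [1, -1, 1, -1] (.alt (.leaf [(0, 2), (7, 3),
    (9, 1), (11, 1), (29, 2)]) (.alt (.leaf [(0, 2), (9, 1), (30, 1)]) (.alt (.leaf [(0, 1), (1,
    1), (8, 1), (10, 1), (18, 1), (21, 1)]) (.alt (.leaf [(0, 1), (1, 1), (3, 1), (12, 1), (14,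
    1), (17, 1), (25, 1)]) (.alt (.split 0 [1, 0, 1, -1] (.alt (.leaf [(0, 1), (5, 1), (8, 1),
    (30, 1)]) (.alt (.leaf [(0, 2), (8, 2), (10, 3), (30, 2), (31, 1)]) (.alt (.leaf [(0, 1),
    (2, 1), (7, 1), (9, 1), (11, 2), (13, 1), (22, 1)]) (.alt (.leaf [(0, 2), (1, 1), (3, 1),
    (9, 3), (11, 2), (13, 2), (15, 1), (21, 1), (26, 1), (29, 1), (34, 2)]) (.alt (.split 2 [0,
    0, 0, 1] (.alt (.leaf [(0, 1), (6, 1), (9, 1), (11, 1), (31, 1)]) (.alt (.leaf [(0, 2), (9,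
    3), (11, 7), (13, 3), (31, 4)]) (.alt (.leaf [(0, 1), (3, 1), (8, 1), (12, 1), (14, 2), (27,
    1)]) (.alt (.leaf [(0, 1), (1, 1), (3, 1), (4, 1), (10, 1), (12, 2), (14, 1), (16, 1), (23,
    2), (30, 1), (35, 2)]) (.alt (.leaf [(0, 1), (4, 1), (8, 1), (10, 1), (12, 1), (14, 1), (23,
    1), (35, 1)]) (.alt (.leaf [(0, 1), (1, 1), (10, 1), (12, 1), (14, 1), (23, 1), (30, 1),
    (35, 1)]) (.alt (.leaf [(1, 2), (14, 1), (16, 3), (18, 1), (36, 2)]) (.done))))))))) (.alt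
    (.leaf [(0, 1), (1, 1), (7, 1), (9, 2), (11, 1), (13, 1), (21, 1)]) (.alt (.leaf [(1, 2),
    (15, 1), (36, 1)]) (.done))))))))) (.alt (.leaf [(0, 1), (1, 2), (2, 1), (10, 1), (12, 1),
    (14, 1), (16, 1), (19, 1), (25, 1)]) (.alt (.leaf [(0, 1), (9, 1), (12, 1), (34, 1)])
    (.done))))))))) (.alt (.leaf [(0, 1), (1, 1), (7, 1), (9, 2), (11, 1), (20, 1), (27, 1),
    (32, 1)]) (.alt (.leaf [(0, 1), (1, 1), (9, 1), (15, 1), (20, 1), (32, 1)]) (.alt (.leaf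
    [(0, 1), (8, 1), (11, 1), (13, 1), (33, 1)]) (.done))))))))) (.alt (.leaf [(0, 2), (6, 1),
    (8, 1), (10, 1), (13, 1), (25, 1), (30, 2)]) (.alt (.leaf [(0, 1), (7, 1), (32, 1)])
    (.done))))))))) (.alt (.leaf [(0, 1), (3, 1), (9, 1), (28, 1)]) (.alt (.split 0 [0, 0, 1,
    -1] (.alt (.leaf [(0, 2), (5, 1), (7, 1), (9, 1), (27, 2)]) (.alt (.leaf [(0, 2), (5, 2),
    (7, 1), (28, 1)]) (.alt (.split 1 [1, 0, 0, -1] (.alt (.leaf [(0, 2), (6, 3), (8, 5), (10,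
    1), (28, 2)]) (.alt (.leaf [(0, 2), (8, 1), (29, 1)]) (.alt (.leaf [(0, 1), (1, 1), (7, 1),
    (9, 2), (11, 1), (20, 1), (25, 1)]) (.alt (.leaf [(0, 1), (1, 1), (9, 1), (13, 1), (20, 1)])
    (.alt (.split 2 [0, 0, 0, 1] (.alt (.leaf [(0, 1), (4, 1), (7, 1), (9, 1), (29, 1)]) (.alt
    (.leaf [(0, 2), (7, 3), (9, 7), (11, 3), (29, 4)]) (.alt (.leaf [(0, 1), (2, 1), (6, 1), (8,
    1), (10, 1), (12, 1), (21, 1)]) (.alt (.split 0 [0, 1, 1, -1] (.alt (.leaf [(0, 1), (5, 1),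
    (30, 1)]) (.alt (.leaf [(0, 2), (8, 4), (10, 3), (30, 2), (31, 1)]) (.alt (.split 0 [1, 1,
    0, -1] (.alt (.leaf [(0, 1), (6, 1), (9, 1), (11, 1), (31, 1)]) (.alt (.leaf [(0, 2), (9,
    2), (11, 1), (31, 2), (32, 1)]) (.alt (.leaf [(0, 1), (2, 1), (3, 2), (12, 1), (14, 2), (17,
    1), (19, 1), (28, 1), (30, 1)]) (.alt (.leaf [(0, 1), (1, 1), (10, 1), (12, 1), (16, 1),
    (23, 1)]) (.alt (.split 0 [0, 1, -1, 0] (.alt (.leaf [(0, 1), (10, 1), (12, 2), (32, 1)])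
    (.alt (.leaf [(0, 1), (10, 1), (32, 1)]) (.alt (.leaf [(0, 2), (5, 2), (11, 3), (13, 1),
    (15, 1), (17, 1), (20, 2), (29, 1)]) (.alt (.split 1 [0, 1, 0, -1] (.alt (.leaf [(0, 2),
    (11, 1), (13, 5), (15, 1), (33, 2)]) (.alt (.leaf [(0, 2), (11, 2), (13, 1), (34, 1)]) (.alt
    (.leaf [(0, 2), (1, 2), (12, 1), (14, 3), (16, 1), (18, 1), (25, 2), (30, 1)]) (.alt (.leaf
    [(0, 1), (3, 1), (10, 1), (12, 1), (14, 2), (16, 1), (25, 1)]) (.alt (.leaf [(0, 1), (5, 1),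
    (14, 1), (16, 1), (23, 1), (32, 1)]) (.alt (.leaf [(0, 1), (2, 1), (10, 1), (14, 1), (16,
    1), (19, 1)]) (.alt (.leaf [(0, 1), (13, 1), (18, 1), (38, 1)]) (.done))))))))) (.alt (.leaf
    [(0, 1), (6, 1), (9, 1), (11, 1), (15, 1), (22, 1)]) (.alt (.leaf [(0, 2), (1, 2), (11, 3),
    (13, 3), (15, 1), (18, 1), (24, 2), (31, 1), (36, 2)]) (.alt (.leaf [(0, 1), (17, 1)])
    (.done))))))))) (.alt (.leaf [(0, 1), (3, 1), (8, 1), (10, 1), (12, 1), (14, 1), (22, 1)])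
    (.done)))))))) (.alt (.leaf [(0, 1), (3, 1), (7, 1), (9, 2), (11, 1), (13, 1), (19, 1)])
    (.alt (.split 1 [0, 1, 0, -1] (.alt (.leaf [(0, 2), (9, 1), (11, 5), (13, 1), (31, 2)])
    (.alt (.leaf [(0, 2), (9, 2), (11, 1), (32, 1)]) (.alt (.split 0 [0, 1, -1, 0] (.alt (.leaf
    [(0, 1), (10, 1), (12, 2), (32, 1)]) (.alt (.leaf [(0, 1), (10, 1), (32, 1)]) (.alt (.leaf
    [(0, 2), (5, 2), (11, 3), (13, 1), (15, 1), (17, 1), (20, 2), (29, 1)]) (.alt (.leaf [(0,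
    2), (1, 2), (11, 1), (13, 3), (15, 1), (17, 1), (24, 2), (29, 1)]) (.alt (.leaf [(0, 1), (6,
    1), (9, 1), (11, 1), (15, 1), (22, 1)]) (.alt (.leaf [(0, 1), (2, 1), (4, 1), (11, 2), (13,
    3), (15, 1), (24, 2), (31, 1), (36, 2)]) (.alt (.leaf [(0, 1), (17, 1)]) (.done)))))))))
    (.alt (.leaf [(0, 1), (4, 1), (10, 1), (12, 1), (20, 1), (23, 1)]) (.alt (.leaf [(0, 1), (3,
    1), (12, 1), (14, 1), (21, 1), (30, 1)]) (.alt (.leaf [(0, 1), (1, 1), (8, 1), (10, 1), (12,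
    2), (14, 1), (23, 1), (35, 1)]) (.alt (.leaf [(5, 1), (6, 1), (15, 1), (17, 1), (28, 1),
    (40, 1)]) (.done))))))))) (.alt (.leaf [(0, 1), (2, 1), (4, 1), (7, 1), (13, 1), (16, 1),
    (21, 1)]) (.alt (.leaf [(1, 2), (13, 2), (15, 1), (36, 1)]) (.done))))))))) (.alt (.split 0
    [0, 1, 1, -1] (.alt (.leaf [(0, 1), (5, 1), (30, 1)]) (.alt (.leaf [(0, 2), (8, 4), (10, 3),
    (30, 2), (31, 1)]) (.alt (.split 0 [1, 1, 0, -1] (.alt (.leaf [(0, 1), (6, 1), (9, 1), (11,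
    1), (31, 1)]) (.alt (.leaf [(0, 2), (9, 2), (11, 1), (31, 2), (32, 1)]) (.alt (.leaf [(0,
    1), (2, 1), (3, 3), (4, 1), (12, 2), (14, 2), (17, 2), (19, 1), (23, 1), (28, 1), (30, 1)])
    (.alt (.leaf [(0, 1), (1, 1), (10, 1), (12, 1), (16, 1), (23, 1)]) (.alt (.split 0 [0, 1,
    -1, 0] (.alt (.leaf [(0, 1), (10, 1), (12, 2), (32, 1)]) (.alt (.leaf [(0, 1), (10, 1), (32,
    1)]) (.alt (.leaf [(0, 2), (5, 2), (11, 3), (13, 1), (15, 1), (17, 1), (20, 2), (29, 1)])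
    (.alt (.leaf [(0, 2), (2, 2), (3, 2), (4, 2), (11, 1), (13, 3), (15, 1), (17, 1), (18, 2),
    (24, 4), (29, 1)]) (.alt (.leaf [(0, 1), (6, 1), (9, 1), (11, 1), (15, 1), (22, 1)]) (.alt
    (.leaf [(0, 2), (1, 2), (11, 3), (13, 3), (15, 1), (18, 1), (24, 2), (31, 1), (36, 2)])
    (.alt (.leaf [(0, 1), (17, 1)]) (.done))))))))) (.alt (.leaf [(0, 1), (3, 1), (8, 1), (10,
    1), (12, 1), (14, 1), (22, 1)]) (.done)))))))) (.alt (.leaf [(0, 1), (3, 1), (7, 1), (9, 2),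
    (11, 1), (13, 1), (19, 1)]) (.alt (.leaf [(0, 1), (1, 1), (2, 2), (11, 1), (13, 1), (16, 1),
    (20, 1), (24, 1), (29, 1)]) (.alt (.leaf [(0, 1), (2, 1), (4, 1), (7, 1), (13, 1), (16, 1),
    (21, 1)]) (.alt (.leaf [(1, 2), (13, 2), (15, 1), (36, 1)]) (.done))))))))) (.alt (.leaf
    [(0, 1), (1, 1), (6, 1), (10, 1), (12, 2), (28, 1)]) (.alt (.leaf [(1, 2), (12, 1), (14, 3),
    (16, 1), (34, 2)]) (.done))))))))) (.alt (.split 0 [1, -1, 1, -1] (.alt (.leaf [(0, 2), (7,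
    3), (9, 1), (11, 1), (29, 2)]) (.alt (.leaf [(0, 2), (9, 1), (30, 1)]) (.alt (.split 0 [1,
    0, 1, -1] (.alt (.leaf [(0, 1), (5, 1), (8, 1), (30, 1)]) (.alt (.leaf [(0, 2), (8, 2), (10,
    3), (30, 2), (31, 1)]) (.alt (.split 2 [0, 0, 0, 1] (.alt (.leaf [(0, 1), (6, 1), (9, 1),
    (11, 1), (31, 1)]) (.alt (.leaf [(0, 2), (9, 3), (11, 7), (13, 3), (31, 4)]) (.alt (.leaf
    [(0, 1), (4, 1), (8, 1), (10, 1), (12, 1), (14, 1), (23, 1)]) (.alt (.leaf [(0, 1), (1, 1),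
    (10, 1), (12, 1), (14, 1), (23, 1), (28, 1)]) (.alt (.leaf [(0, 1), (3, 1), (8, 1), (12, 1),
    (14, 2), (29, 1)]) (.alt (.leaf [(0, 1), (1, 1), (3, 1), (4, 1), (10, 1), (12, 2), (14, 1),
    (18, 1), (23, 2), (28, 1)]) (.alt (.leaf [(1, 2), (14, 1), (16, 3), (18, 1), (36, 2)])
    (.done))))))))) (.alt (.leaf [(0, 1), (1, 1), (7, 1), (9, 2), (11, 1), (13, 1), (19, 1)])
    (.alt (.leaf [(0, 1), (2, 1), (7, 1), (9, 1), (11, 2), (13, 1), (22, 1), (34, 1)]) (.alt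
    (.leaf [(0, 2), (4, 2), (7, 2), (9, 1), (11, 1), (13, 3), (17, 1), (28, 1)]) (.alt (.leaf
    [(1, 2), (15, 1), (36, 1)]) (.done))))))))) (.alt (.leaf [(0, 1), (2, 1), (8, 1), (14, 1),
    (17, 1)]) (.alt (.leaf [(0, 1), (1, 1), (8, 1), (10, 1), (20, 1), (23, 1)]) (.alt (.leaf
    [(0, 1), (1, 1), (3, 1), (12, 1), (16, 1), (19, 1), (27, 1)]) (.alt (.leaf [(0, 1), (9, 1),
    (12, 1), (34, 1)]) (.done))))))))) (.alt (.leaf [(0, 1), (8, 1), (11, 1), (13, 1), (33, 1)])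
    (.done))))))))) (.alt (.leaf [(0, 2), (1, 2), (4, 2), (6, 1), (8, 1), (10, 3), (11, 1), (23,
    1), (31, 2)]) (.alt (.split 1 [1, 0, 0, -1] (.alt (.leaf [(0, 2), (6, 3), (8, 5), (10, 1),
    (28, 2)]) (.alt (.leaf [(0, 2), (8, 1), (29, 1)]) (.alt (.split 2 [0, 0, 0, 1] (.alt (.leaf
    [(0, 1), (4, 1), (7, 1), (9, 1), (29, 1)]) (.alt (.leaf [(0, 2), (7, 3), (9, 7), (11, 3),
    (29, 4)]) (.alt (.split 0 [0, 1, 1, -1] (.alt (.leaf [(0, 1), (5, 1), (30, 1)]) (.alt (.leaf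
    [(0, 2), (8, 4), (10, 3), (30, 2), (31, 1)]) (.alt (.leaf [(0, 1), (1, 1), (2, 2), (11, 1),
    (13, 1), (14, 1), (18, 1), (22, 1), (27, 1)]) (.alt (.leaf [(0, 2), (2, 2), (3, 2), (9, 1),
    (11, 1), (13, 1), (14, 2), (17, 1), (19, 2), (29, 1), (34, 2)]) (.alt (.split 0 [1, 1, 0,
    -1] (.alt (.leaf [(0, 1), (6, 1), (9, 1), (11, 1), (31, 1)]) (.alt (.leaf [(0, 2), (9, 2),
    (11, 1), (31, 2), (32, 1)]) (.alt (.split 0 [0, 1, -1, 0] (.alt (.leaf [(0, 1), (10, 1),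
    (12, 2), (32, 1)]) (.alt (.leaf [(0, 1), (10, 1), (32, 1)]) (.alt (.leaf [(0, 2), (5, 2),
    (11, 3), (13, 1), (15, 1), (19, 1), (20, 2), (31, 1), (36, 2)]) (.alt (.leaf [(0, 2), (1,
    2), (11, 3), (13, 3), (15, 1), (16, 1), (24, 2), (29, 1)]) (.alt (.leaf [(0, 2), (5, 2),
    (11, 3), (13, 1), (15, 1), (19, 1), (22, 2), (31, 1)]) (.alt (.leaf [(0, 2), (2, 2), (3, 2),
    (4, 2), (11, 1), (13, 3), (15, 1), (16, 2), (19, 1), (24, 4), (31, 1), (36, 4)]) (.alt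
    (.leaf [(0, 1), (17, 1)]) (.done))))))))) (.alt (.leaf [(0, 1), (3, 1), (8, 1), (10, 1),
    (12, 1), (14, 1), (20, 1)]) (.alt (.leaf [(0, 1), (2, 1), (3, 3), (4, 1), (12, 2), (14, 2),
    (15, 2), (21, 1), (23, 1), (28, 1), (30, 1), (35, 1)]) (.alt (.leaf [(0, 1), (1, 1), (10,
    1), (12, 1), (18, 1), (23, 1), (35, 1)]) (.done)))))))) (.alt (.leaf [(0, 1), (3, 1), (7,
    1), (9, 2), (11, 1), (13, 1), (21, 1)]) (.alt (.leaf [(1, 2), (13, 2), (15, 1), (36, 1)])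
    (.done))))))))) (.alt (.leaf [(0, 1), (1, 1), (6, 1), (10, 1), (12, 2), (26, 1)]) (.alt
    (.leaf [(0, 1), (2, 1), (6, 1), (8, 1), (10, 1), (12, 1), (21, 1), (33, 1)]) (.alt (.split 0
    [0, 1, 1, -1] (.alt (.leaf [(0, 1), (5, 1), (30, 1)]) (.alt (.leaf [(0, 2), (8, 4), (10, 3),
    (30, 2), (31, 1)]) (.alt (.split 1 [0, 1, 0, -1] (.alt (.leaf [(0, 2), (9, 1), (11, 5), (13,
    1), (31, 2)]) (.alt (.leaf [(0, 2), (9, 2), (11, 1), (32, 1)]) (.alt (.leaf [(0, 1), (3, 1),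
    (12, 1), (14, 1), (19, 1), (28, 1)]) (.alt (.leaf [(0, 1), (1, 1), (8, 1), (10, 1), (12, 2),
    (14, 1), (23, 1)]) (.alt (.split 0 [0, 1, -1, 0] (.alt (.leaf [(0, 1), (10, 1), (12, 2),
    (32, 1)]) (.alt (.leaf [(0, 1), (10, 1), (32, 1)]) (.alt (.leaf [(0, 1), (2, 1), (4, 1),
    (11, 2), (13, 1), (15, 1), (20, 2), (29, 1)]) (.alt (.leaf [(0, 1), (2, 1), (4, 1), (11, 2),
    (13, 3), (15, 1), (24, 2), (29, 1)]) (.alt (.leaf [(0, 2), (5, 2), (11, 3), (13, 1), (15,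
    1), (19, 1), (22, 2), (31, 1)]) (.alt (.leaf [(0, 2), (1, 2), (11, 1), (13, 3), (15, 1),
    (19, 1), (24, 2), (31, 1), (36, 2)]) (.alt (.leaf [(0, 1), (17, 1)]) (.done))))))))) (.alt
    (.leaf [(0, 1), (4, 1), (10, 1), (12, 1), (22, 1), (23, 1), (35, 1)]) (.alt (.leaf [(3, 1),
    (6, 1), (15, 1), (17, 1), (28, 1)]) (.done))))))))) (.alt (.leaf [(0, 2), (2, 2), (3, 2),
    (9, 1), (11, 1), (13, 1), (14, 2), (17, 1), (19, 2), (29, 1), (34, 2)]) (.alt (.split 0 [1,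
    1, 0, -1] (.alt (.leaf [(0, 1), (6, 1), (9, 1), (11, 1), (31, 1)]) (.alt (.leaf [(0, 2), (9,
    2), (11, 1), (31, 2), (32, 1)]) (.alt (.split 0 [0, 1, -1, 0] (.alt (.leaf [(0, 1), (10, 1),
    (12, 2), (32, 1)]) (.alt (.leaf [(0, 1), (10, 1), (32, 1)]) (.alt (.leaf [(0, 2), (5, 2),
    (11, 3), (13, 1), (15, 1), (19, 1), (20, 2), (31, 1), (36, 2)]) (.alt (.leaf [(0, 2), (1,
    2), (11, 3), (13, 3), (15, 1), (16, 1), (24, 2), (29, 1)]) (.alt (.leaf [(0, 2), (5, 2),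
    (11, 3), (13, 1), (15, 1), (19, 1), (22, 2), (31, 1)]) (.alt (.split 1 [0, 1, 0, -1] (.alt
    (.leaf [(0, 2), (11, 1), (13, 5), (15, 1), (33, 2)]) (.alt (.leaf [(0, 2), (11, 2), (13, 1),
    (34, 1)]) (.alt (.leaf [(0, 1), (5, 1), (14, 1), (16, 1), (21, 1), (30, 1)]) (.alt (.leaf
    [(0, 1), (2, 1), (10, 1), (14, 1), (16, 1), (17, 1)]) (.alt (.leaf [(0, 2), (1, 2), (12, 1),
    (14, 3), (16, 1), (20, 1), (25, 2), (32, 1), (37, 2)]) (.alt (.leaf [(0, 1), (3, 1), (10,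
    1), (12, 1), (14, 2), (16, 1), (25, 1), (37, 1)]) (.alt (.leaf [(0, 1), (13, 1), (18, 1),
    (38, 1)]) (.done))))))))) (.alt (.leaf [(0, 1), (17, 1)]) (.done))))))))) (.alt (.leaf [(0,
    1), (3, 1), (8, 1), (10, 1), (12, 1), (14, 1), (20, 1)]) (.alt (.leaf [(0, 1), (2, 1), (3,
    2), (12, 1), (14, 2), (15, 1), (21, 1), (28, 1), (30, 1)]) (.alt (.leaf [(0, 1), (1, 1),
    (10, 1), (12, 1), (18, 1), (23, 1), (35, 1)]) (.done)))))))) (.alt (.leaf [(0, 1), (3, 1),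
    (7, 1), (9, 2), (11, 1), (13, 1), (21, 1)]) (.alt (.leaf [(1, 2), (13, 2), (15, 1), (36,
    1)]) (.done))))))))) (.alt (.leaf [(1, 2), (12, 1), (14, 3), (16, 1), (34, 2)])
    (.done))))))))) (.alt (.split 0 [1, -1, 1, -1] (.alt (.leaf [(0, 2), (7, 3), (9, 1), (11,
    1), (29, 2)]) (.alt (.leaf [(0, 2), (9, 1), (30, 1)]) (.alt (.leaf [(0, 1), (1, 1), (8, 1),
    (10, 1), (18, 1), (21, 1)]) (.alt (.leaf [(0, 1), (1, 1), (3, 1), (12, 1), (14, 1), (17, 1),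
    (25, 1), (33, 1)]) (.alt (.split 0 [1, 0, 1, -1] (.alt (.leaf [(0, 1), (5, 1), (8, 1), (30,
    1)]) (.alt (.leaf [(0, 2), (8, 2), (10, 3), (30, 2), (31, 1)]) (.alt (.leaf [(0, 1), (2, 1),
    (7, 1), (9, 1), (11, 2), (13, 1), (22, 1)]) (.alt (.leaf [(0, 2), (1, 1), (3, 1), (9, 3),
    (11, 2), (13, 2), (15, 1), (21, 1), (26, 1), (29, 1), (34, 2)]) (.alt (.split 2 [0, 0, 0, 1]
    (.alt (.leaf [(0, 1), (6, 1), (9, 1), (11, 1), (31, 1)]) (.alt (.leaf [(0, 2), (9, 3), (11,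
    7), (13, 3), (31, 4)]) (.alt (.leaf [(0, 1), (3, 1), (8, 1), (12, 1), (14, 2), (27, 1)])
    (.alt (.leaf [(0, 1), (1, 1), (3, 1), (4, 1), (10, 1), (12, 2), (14, 1), (16, 1), (23, 2),
    (30, 1), (35, 2)]) (.alt (.leaf [(0, 1), (4, 1), (8, 1), (10, 1), (12, 1), (14, 1), (23, 1),
    (35, 1)]) (.alt (.leaf [(0, 1), (1, 1), (10, 1), (12, 1), (14, 1), (23, 1), (30, 1), (35,
    1)]) (.alt (.leaf [(1, 2), (14, 1), (16, 3), (18, 1), (36, 2)]) (.done))))))))) (.alt (.leaf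
    [(0, 1), (1, 1), (7, 1), (9, 2), (11, 1), (13, 1), (21, 1)]) (.alt (.leaf [(1, 2), (15, 1),
    (36, 1)]) (.done))))))))) (.alt (.leaf [(0, 1), (1, 2), (2, 1), (10, 1), (12, 1), (14, 1),
    (16, 1), (19, 1), (25, 1)]) (.alt (.leaf [(0, 1), (9, 1), (12, 1), (34, 1)]) (.done)))))))))
    (.alt (.leaf [(0, 1), (1, 1), (7, 1), (9, 2), (11, 1), (20, 1), (27, 1), (32, 1)]) (.alt
    (.leaf [(0, 1), (1, 1), (9, 1), (15, 1), (20, 1), (32, 1)]) (.alt (.leaf [(0, 1), (8, 1),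
    (11, 1), (13, 1), (33, 1)]) (.done))))))))) (.alt (.leaf [(0, 2), (1, 2), (4, 2), (6, 1),
    (8, 1), (10, 3), (13, 1), (25, 1)]) (.alt (.leaf [(0, 1), (7, 1), (32, 1)]) (.done)))))))))
    (.alt (.leaf [(0, 1), (3, 1), (9, 1), (29, 1)]) (.done)))))) (.alt (.leaf [(0, 2), (4, 1),
    (6, 1), (8, 1), (9, 1), (22, 1)]) (.alt (.leaf [(0, 2), (4, 1), (6, 1), (8, 1), (10, 1),
    (21, 1)]) (.alt (.leaf [(0, 2), (4, 1), (6, 1), (8, 1), (11, 1), (24, 1)]) (.alt (.leaf [(0,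
    2), (4, 1), (6, 1), (8, 1), (12, 1), (23, 1)]) (.alt (.leaf [(0, 2), (8, 1), (10, 1), (12,
    1)]) (.done))))))))

theorem C1.chk1 : checkOne C1.D 3 [(1, 1, 0), (-1, 1, 1), (1, 0, 1), (1, -1, 2), (0, 1, 1), (1, 2, 0), (-1, 1, 2), (-1, 2, 1)] (1, 0, 0) C1.T1 = true := by decide +kernel

end Pool.Agent.Work.MP_7453a1_st
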