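import Pool.Agent.Work.MP_7453a1_st.CertC1D

set_option autoImplicit false
set_option maxRecDepth 100000

/-! Certificates (the next point of a slow triple). -/

namespace Pool.Agent.Work.MP_7453a1_st

open Pool.Agent.Work.MP_7453a1_nt_norm Pool.Agent.Work.MP_7453a1_nt_sup

/-- Class (0, 1, 0). -/
def C1.T2 : Tree :=
  .split 1 [0, 1, 0, -1] (.alt (.leaf [(0, 2), (3, 1), (5, 3), (7, 2), (26, 1)]) (.alt (.leaf [(0,
    2), (3, 1), (5, 1), (26, 1)]) (.alt (.leaf [(0, 2), (6, 1), (8, 1), (13, 1), (22, 1)]) (.alt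
    (.leaf [(0, 2), (6, 1), (8, 1), (14, 1), (21, 1)]) (.alt (.leaf [(0, 2), (6, 1), (8, 1),
    (15, 1), (24, 1)]) (.alt (.leaf [(0, 2), (6, 1), (8, 1), (16, 1), (23, 1)]) (.alt (.leaf
    [(0, 2), (10, 1), (12, 1)]) (.done))))))))

theorem C1.chk2 : checkOne C1.D 3 [(1, 1, 0), (-1, 1, 1), (1, 0, 1), (1, -1, 2), (0, 1, 1), (1, 2, 0), (-1, 1, 2), (-1, 2, 1)] (0, 1, 0) C1.T2 = true := by decide +kernel

/-- Class (0, 0, 1). -/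
def C1.T3 : Tree :=
  .split 2 [0, 0, 0, 1] (.alt (.leaf [(0, 2), (7, 1)]) (.alt (.leaf [(0, 2), (3, 2), (5, 4), (7,
    5), (26, 2)]) (.alt (.leaf [(0, 2), (8, 1), (17, 1), (21, 1)]) (.alt (.leaf [(0, 2), (2, 1),
    (8, 2), (22, 1), (27, 1)]) (.alt (.leaf [(0, 2), (8, 1), (17, 1), (23, 1), (29, 1)]) (.alt
    (.leaf [(0, 2), (2, 1), (8, 2), (24, 1), (28, 1)]) (.alt (.leaf [(1, 2), (8, 1), (10, 2),
    (12, 2), (31, 1)]) (.done))))))))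

theorem C1.chk3 : checkOne C1.D 3 [(1, 1, 0), (-1, 1, 1), (1, 0, 1), (1, -1, 2), (0, 1, 1), (1, 2, 0), (-1, 1, 2), (-1, 2, 1)] (0, 0, 1) C1.T3 = true := by decide +kernel

/-- Class (1, 1, 0). -/
def C1.T4 : Tree :=
  .split 2 [] (.alt (.split 0 [0, 1, -1, 0] (.alt (.leaf [(0, 2), (4, 1), (6, 2), (8, 1), (27,
    1)]) (.alt (.leaf [(0, 1), (4, 1), (26, 1)]) (.alt (.leaf [(0, 1), (1, 1), (3, 1), (5, 1),
    (9, 1), (14, 1)]) (.alt (.split 1 [] (.alt (.leaf [(0, 1), (1, 1), (4, 1), (6, 1), (8, 2),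
    (10, 1), (19, 1)]) (.alt (.split 2 [0, 1, 0, -1] (.alt (.leaf [(0, 4), (6, 1), (8, 6), (10,
    9), (29, 3)]) (.alt (.leaf [(0, 4), (6, 3), (8, 2), (10, 3), (29, 1)]) (.alt (.leaf [(0, 2),
    (2, 1), (11, 1), (13, 1), (20, 1), (25, 1)]) (.alt (.split 0 [0, 1, 1, -1] (.alt (.leaf [(0,
    2), (11, 1), (29, 1)]) (.alt (.leaf [(0, 4), (7, 5), (9, 2), (11, 1), (30, 3)]) (.alt (.leaf
    [(0, 1), (1, 1), (6, 1), (8, 1), (10, 1), (12, 1), (21, 1)]) (.alt (.leaf [(0, 2), (4, 2),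
    (6, 1), (8, 1), (12, 2), (13, 1), (18, 1), (25, 1)]) (.alt (.split 0 [1, 1, 0, -1] (.alt
    (.leaf [(0, 4), (8, 3), (10, 2), (12, 3), (31, 1)]) (.alt (.leaf [(0, 2), (8, 1), (30, 1),
    (31, 1)]) (.alt (.leaf [(0, 2), (3, 1), (7, 1), (9, 1), (11, 2), (13, 2), (14, 1), (27, 1)])
    (.alt (.leaf [(0, 1), (2, 1), (9, 1), (13, 1), (19, 1), (26, 1)]) (.alt (.split 0 [1, 0, -1,
    0] (.alt (.leaf [(0, 2), (9, 3), (11, 2), (13, 1), (32, 1)]) (.alt (.leaf [(0, 1), (31, 1)])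
    (.alt (.leaf [(0, 1), (1, 1), (2, 1), (10, 2), (12, 1), (14, 1), (15, 1), (21, 1), (30, 1),
    (35, 1)]) (.alt (.leaf [(0, 1), (3, 2), (10, 1), (14, 1), (20, 1), (23, 1), (27, 1)]) (.alt
    (.leaf [(0, 2), (2, 2), (8, 1), (10, 3), (12, 2), (14, 2), (17, 1), (21, 1), (30, 1)]) (.alt
    (.leaf [(0, 1), (1, 2), (10, 3), (12, 2), (14, 1), (21, 1), (23, 1), (30, 1), (35, 1)])
    (.alt (.leaf [(0, 1), (14, 1), (16, 1)]) (.done))))))))) (.alt (.leaf [(0, 1), (1, 1), (9,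
    1), (11, 1), (17, 1), (22, 1), (34, 1)]) (.done)))))))) (.alt (.split 0 [1, 1, 0, -1] (.alt
    (.leaf [(0, 4), (8, 3), (10, 2), (12, 3), (31, 1)]) (.alt (.leaf [(0, 2), (8, 1), (30, 1),
    (31, 1)]) (.alt (.leaf [(0, 2), (3, 1), (7, 1), (9, 1), (11, 2), (13, 2), (14, 1), (27, 1)])
    (.alt (.leaf [(0, 1), (2, 1), (9, 1), (13, 1), (19, 1), (26, 1)]) (.alt (.leaf [(0, 1), (1,
    1), (7, 1), (9, 1), (11, 1), (13, 1), (16, 1), (33, 1)]) (.alt (.leaf [(0, 1), (1, 1), (9,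
    2), (11, 1), (13, 1), (21, 1), (28, 1), (33, 1)]) (.done)))))))) (.done)))))))) (.alt
    (.split 0 [1, 1, 0, -1] (.alt (.leaf [(0, 4), (7, 3), (9, 2), (11, 3), (30, 1)]) (.alt
    (.leaf [(0, 2), (7, 1), (29, 1), (30, 1)]) (.alt (.leaf [(0, 2), (2, 1), (6, 1), (8, 1),
    (10, 2), (12, 2), (13, 1), (26, 1)]) (.alt (.split 0 [0, 1, 1, -1] (.alt (.leaf [(0, 2),
    (12, 1), (30, 1)]) (.alt (.leaf [(0, 4), (8, 5), (10, 2), (12, 1), (31, 3)]) (.alt (.leaf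
    [(0, 1), (1, 1), (9, 1), (11, 1), (15, 1), (22, 1)]) (.alt (.leaf [(0, 1), (1, 1), (5, 1),
    (7, 1), (9, 2), (11, 1), (13, 2), (19, 1), (26, 1)]) (.alt (.split 0 [1, 0, 1, -1] (.alt
    (.leaf [(0, 2), (9, 2), (13, 1), (31, 1)]) (.alt (.leaf [(0, 4), (9, 1), (11, 2), (13, 1),
    (32, 3)]) (.alt (.leaf [(0, 1), (2, 1), (10, 2), (12, 1), (20, 1), (23, 1)]) (.alt (.leaf
    [(0, 2), (4, 1), (6, 2), (8, 3), (10, 1), (12, 2), (14, 4), (16, 1), (27, 1)]) (.alt (.leaf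
    [(0, 1), (3, 1), (10, 1), (12, 1), (14, 1), (23, 1), (30, 1), (35, 1)]) (.alt (.leaf [(0,
    1), (1, 1), (10, 1), (18, 1), (21, 1)]) (.done)))))))) (.alt (.leaf [(0, 1), (2, 1), (7, 2),
    (9, 1), (11, 1), (13, 2), (33, 1)]) (.done)))))))) (.alt (.leaf [(0, 1), (1, 1), (8, 1),
    (12, 1), (19, 1), (28, 1)]) (.alt (.leaf [(0, 1), (1, 1), (6, 1), (12, 1), (16, 1)])
    (.done)))))))) (.alt (.split 0 [1, 1, 0, -1] (.alt (.leaf [(0, 4), (7, 3), (9, 2), (11, 3),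
    (30, 1)]) (.alt (.leaf [(0, 2), (7, 1), (29, 1), (30, 1)]) (.alt (.leaf [(0, 2), (2, 1), (6,
    1), (8, 1), (10, 2), (12, 2), (13, 1), (26, 1)]) (.alt (.split 0 [0, 1, 1, -1] (.alt (.leaf
    [(0, 2), (12, 1), (30, 1)]) (.alt (.leaf [(0, 4), (8, 5), (10, 2), (12, 1), (31, 3)]) (.alt
    (.leaf [(0, 1), (1, 1), (9, 1), (11, 1), (15, 1), (22, 1)]) (.alt (.leaf [(0, 1), (1, 1),
    (5, 1), (7, 1), (9, 2), (11, 1), (13, 2), (19, 1), (26, 1)]) (.alt (.leaf [(0, 1), (2, 1),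
    (7, 1), (9, 1), (11, 1), (13, 1), (22, 1), (34, 1)]) (.alt (.split 0 [1, 0, 1, -1] (.alt
    (.leaf [(0, 2), (9, 2), (13, 1), (31, 1)]) (.alt (.leaf [(0, 4), (9, 1), (11, 2), (13, 1),
    (32, 3)]) (.alt (.leaf [(0, 1), (2, 1), (10, 2), (12, 1), (20, 1), (23, 1)]) (.alt (.leaf
    [(0, 2), (5, 1), (6, 1), (8, 2), (10, 2), (12, 2), (14, 3), (16, 1), (27, 1)]) (.alt (.leaf
    [(0, 1), (1, 1), (10, 1), (17, 1), (22, 1)]) (.alt (.leaf [(0, 1), (1, 1), (8, 1), (10, 2),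
    (12, 2), (14, 2), (29, 1), (34, 2)]) (.done)))))))) (.done)))))))) (.alt (.leaf [(0, 1), (1,
    1), (6, 1), (12, 1), (15, 1)]) (.alt (.leaf [(0, 1), (1, 1), (8, 1), (12, 1), (20, 1), (27,
    1)]) (.done)))))))) (.alt (.leaf [(0, 2), (13, 2), (15, 1), (33, 1)]) (.done))))))))) (.alt
    (.split 0 [0, 1, 1, -1] (.alt (.leaf [(0, 2), (10, 1), (28, 1)]) (.alt (.leaf [(0, 4), (6,
    5), (8, 2), (10, 1), (29, 3)]) (.alt (.split 0 [1, 1, 0, -1] (.alt (.leaf [(0, 4), (7, 3),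
    (9, 2), (11, 3), (30, 1)]) (.alt (.leaf [(0, 2), (7, 1), (29, 1), (30, 1)]) (.alt (.leaf
    [(0, 1), (1, 1), (3, 1), (8, 3), (10, 3), (12, 1), (21, 2), (26, 1)]) (.alt (.leaf [(0, 1),
    (1, 1), (8, 1), (10, 1), (14, 1), (21, 1)]) (.alt (.split 2 [0, 1, 0, -1] (.alt (.leaf [(0,
    4), (8, 1), (10, 6), (12, 9), (31, 3)]) (.alt (.leaf [(0, 4), (8, 3), (10, 2), (12, 3), (31,
    1)]) (.alt (.leaf [(0, 2), (4, 1), (13, 1), (15, 1), (22, 1), (27, 1)]) (.alt (.leaf [(0,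
    1), (2, 1), (7, 1), (9, 1), (11, 1), (13, 1), (22, 1)]) (.alt (.leaf [(0, 1), (1, 1), (9,
    1), (13, 1), (20, 1), (29, 1)]) (.alt (.leaf [(0, 1), (1, 1), (7, 1), (13, 1), (16, 1)])
    (.alt (.leaf [(3, 1), (7, 1), (14, 1), (16, 1), (27, 1)]) (.done))))))))) (.alt (.leaf [(0,
    2), (2, 1), (6, 1), (8, 1), (10, 2), (12, 2), (16, 1), (27, 1)]) (.done)))))))) (.alt (.leaf
    [(0, 2), (3, 2), (5, 1), (7, 1), (11, 2), (12, 1), (17, 1), (24, 1)]) (.alt (.split 0 [1, 0,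
    1, -1] (.alt (.leaf [(0, 2), (7, 2), (11, 1), (29, 1)]) (.alt (.leaf [(0, 4), (7, 1), (9,
    2), (11, 1), (30, 3)]) (.alt (.split 0 [1, 1, 0, -1] (.alt (.leaf [(0, 4), (8, 3), (10, 2),
    (12, 3), (31, 1)]) (.alt (.leaf [(0, 2), (8, 1), (30, 1), (31, 1)]) (.alt (.leaf [(0, 2),
    (4, 1), (9, 2), (11, 2), (13, 1), (14, 1), (22, 1), (27, 1)]) (.alt (.leaf [(0, 1), (1, 1),
    (9, 2), (11, 1), (19, 1), (22, 1)]) (.alt (.split 2 [0, 1, 0, -1] (.alt (.leaf [(0, 4), (9,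
    1), (11, 6), (13, 9), (32, 3)]) (.alt (.leaf [(0, 4), (9, 3), (11, 2), (13, 3), (32, 1)])
    (.alt (.leaf [(0, 1), (2, 1), (10, 1), (12, 1), (14, 1), (23, 1), (28, 1)]) (.alt (.split 0
    [1, 0, -1, 0] (.alt (.leaf [(0, 2), (10, 3), (12, 2), (14, 1), (33, 1)]) (.alt (.leaf [(0,
    1), (32, 1)]) (.alt (.leaf [(0, 1), (2, 1), (4, 1), (11, 2), (13, 1), (15, 1), (16, 1), (22,
    1), (31, 1), (36, 1)]) (.alt (.leaf [(0, 1), (1, 1), (3, 1), (11, 2), (13, 1), (21, 1), (24,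
    2)]) (.alt (.leaf [(0, 2), (4, 2), (9, 1), (11, 3), (13, 2), (15, 2), (18, 1), (22, 1), (31,
    1)]) (.alt (.leaf [(0, 1), (2, 2), (11, 3), (13, 2), (15, 1), (22, 1), (26, 1), (31, 1)])
    (.alt (.leaf [(0, 1), (15, 1), (17, 1)]) (.done))))))))) (.alt (.leaf [(0, 1), (1, 1), (10,
    1), (14, 1), (21, 1), (30, 1)]) (.alt (.leaf [(0, 1), (3, 1), (8, 1), (10, 1), (12, 1), (14,
    1), (23, 1), (35, 1)]) (.alt (.leaf [(5, 1), (8, 1), (15, 1), (17, 1), (28, 1), (40, 1)])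
    (.done))))))))) (.alt (.leaf [(0, 2), (3, 1), (7, 1), (9, 1), (11, 2), (13, 2), (17, 1),
    (28, 1)]) (.done)))))))) (.alt (.leaf [(0, 4), (1, 2), (3, 2), (6, 1), (8, 5), (10, 4), (12,
    4), (14, 2), (16, 1), (19, 1), (25, 2), (28, 1), (33, 2)]) (.alt (.split 2 [0, 1, 0, -1]
    (.alt (.leaf [(0, 4), (8, 1), (10, 6), (12, 9), (31, 3)]) (.alt (.leaf [(0, 4), (8, 3), (10,
    2), (12, 3), (31, 1)]) (.alt (.leaf [(0, 2), (4, 1), (13, 1), (15, 1), (22, 1), (27, 1)])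
    (.alt (.split 0 [1, 0, -1, 0] (.alt (.leaf [(0, 2), (9, 3), (11, 2), (13, 1), (32, 1)])
    (.alt (.leaf [(0, 1), (31, 1)]) (.alt (.leaf [(0, 2), (2, 1), (3, 1), (8, 1), (10, 2), (12,
    2), (14, 2), (15, 2), (30, 1), (35, 2)]) (.alt (.leaf [(0, 1), (1, 2), (10, 1), (14, 1),
    (20, 1), (23, 1), (27, 1)]) (.alt (.leaf [(0, 2), (3, 2), (8, 1), (10, 3), (12, 2), (14, 2),
    (17, 1), (21, 1), (30, 1)]) (.alt (.leaf [(0, 1), (2, 2), (4, 1), (10, 3), (12, 4), (14, 1),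
    (23, 3), (30, 1), (35, 3)]) (.alt (.leaf [(0, 1), (14, 1), (16, 1)]) (.done))))))))) (.alt
    (.leaf [(0, 1), (1, 1), (9, 1), (11, 1), (13, 1), (22, 1), (29, 1), (34, 1)]) (.alt (.leaf
    [(0, 1), (2, 1), (7, 1), (9, 1), (11, 1), (13, 1), (22, 1), (34, 1)]) (.alt (.leaf [(5, 1),
    (7, 1), (14, 1), (16, 1), (27, 1), (39, 1)]) (.done))))))))) (.alt (.leaf [(0, 1), (1, 1),
    (8, 1), (16, 1), (19, 1)]) (.done)))))))) (.alt (.leaf [(0, 2), (1, 1), (5, 1), (7, 1), (9,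
    2), (11, 2), (14, 1), (26, 1), (31, 2)]) (.done)))))))) (.alt (.split 2 [0, 1, 0, -1] (.alt
    (.leaf [(0, 4), (6, 1), (8, 6), (10, 9), (29, 3)]) (.alt (.leaf [(0, 4), (6, 3), (8, 2),
    (10, 3), (29, 1)]) (.alt (.leaf [(0, 2), (2, 1), (11, 1), (13, 1), (20, 1), (25, 1)]) (.alt
    (.split 0 [1, 1, 0, -1] (.alt (.leaf [(0, 4), (7, 3), (9, 2), (11, 3), (30, 1)]) (.alt
    (.leaf [(0, 2), (7, 1), (29, 1), (30, 1)]) (.alt (.leaf [(0, 2), (3, 1), (8, 2), (10, 2),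
    (12, 1), (13, 1), (21, 1), (26, 1)]) (.alt (.leaf [(0, 1), (1, 1), (8, 1), (12, 1), (18, 1),
    (25, 1)]) (.alt (.leaf [(0, 2), (2, 1), (6, 1), (8, 1), (10, 2), (12, 2), (15, 1), (28, 1)])
    (.alt (.split 0 [0, 1, 1, -1] (.alt (.leaf [(0, 2), (12, 1), (30, 1)]) (.alt (.leaf [(0, 4),
    (8, 5), (10, 2), (12, 1), (31, 3)]) (.alt (.leaf [(0, 1), (2, 1), (7, 1), (9, 1), (11, 1),
    (13, 1), (22, 1)]) (.alt (.leaf [(0, 2), (5, 2), (7, 1), (9, 1), (13, 2), (14, 1), (19, 1),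
    (26, 1)]) (.alt (.leaf [(0, 1), (1, 1), (9, 1), (11, 1), (17, 1), (22, 1), (34, 1)]) (.alt
    (.leaf [(0, 1), (1, 1), (9, 2), (11, 1), (13, 1), (21, 1), (28, 1), (33, 1)]) (.done))))))))
    (.done)))))))) (.alt (.leaf [(0, 2), (1, 1), (2, 1), (11, 1), (15, 1), (17, 1), (20, 1),
    (27, 1)]) (.alt (.split 0 [1, 1, 0, -1] (.alt (.leaf [(0, 4), (7, 3), (9, 2), (11, 3), (30,
    1)]) (.alt (.leaf [(0, 2), (7, 1), (29, 1), (30, 1)]) (.alt (.leaf [(0, 2), (3, 1), (8, 2),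
    (10, 2), (12, 1), (13, 1), (21, 1), (26, 1)]) (.alt (.split 0 [0, 1, 1, -1] (.alt (.leaf
    [(0, 2), (12, 1), (30, 1)]) (.alt (.leaf [(0, 4), (8, 5), (10, 2), (12, 1), (31, 3)]) (.alt
    (.leaf [(0, 1), (1, 1), (9, 1), (11, 1), (15, 1), (22, 1)]) (.alt (.leaf [(0, 1), (1, 1),
    (5, 1), (7, 1), (9, 2), (11, 1), (13, 2), (19, 1), (26, 1)]) (.alt (.leaf [(0, 1), (2, 1),
    (7, 1), (9, 1), (11, 1), (13, 1), (22, 1), (34, 1)]) (.alt (.split 0 [1, 0, 1, -1] (.alt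
    (.leaf [(0, 2), (9, 2), (13, 1), (31, 1)]) (.alt (.leaf [(0, 4), (9, 1), (11, 2), (13, 1),
    (32, 3)]) (.alt (.leaf [(0, 1), (2, 1), (10, 2), (12, 1), (20, 1), (23, 1)]) (.alt (.leaf
    [(0, 2), (5, 1), (6, 1), (8, 2), (10, 2), (12, 2), (14, 3), (16, 1), (27, 1)]) (.alt (.leaf
    [(0, 1), (1, 1), (10, 1), (17, 1), (22, 1)]) (.alt (.leaf [(0, 1), (1, 1), (8, 1), (10, 2),
    (12, 2), (14, 2), (29, 1), (34, 2)]) (.done)))))))) (.done)))))))) (.alt (.leaf [(0, 2), (2,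
    1), (6, 1), (8, 1), (10, 2), (12, 2), (15, 1), (28, 1)]) (.alt (.leaf [(0, 1), (1, 1), (8,
    1), (12, 1), (20, 1), (27, 1)]) (.done)))))))) (.alt (.leaf [(0, 2), (13, 2), (15, 1), (33,
    1)]) (.done))))))))) (.done)))))) (.alt (.leaf [(0, 1), (5, 1), (16, 1), (29, 1)]) (.alt
    (.split 0 [1, 0, 1, -1] (.alt (.leaf [(0, 2), (5, 2), (9, 1), (27, 1)]) (.alt (.leaf [(0,
    4), (5, 1), (7, 2), (9, 1), (28, 3)]) (.alt (.split 2 [0, 1, 0, -1] (.alt (.leaf [(0, 4),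
    (6, 1), (8, 6), (10, 9), (29, 3)]) (.alt (.leaf [(0, 4), (6, 3), (8, 2), (10, 3), (29, 1)])
    (.alt (.leaf [(0, 1), (1, 1), (7, 1), (9, 1), (11, 1), (20, 1), (25, 1)]) (.alt (.split 0
    [1, 1, 0, -1] (.alt (.leaf [(0, 4), (7, 3), (9, 2), (11, 3), (30, 1)]) (.alt (.leaf [(0, 2),
    (7, 1), (29, 1), (30, 1)]) (.alt (.leaf [(0, 1), (1, 1), (6, 1), (12, 1), (13, 1)]) (.alt
    (.leaf [(0, 1), (2, 1), (8, 2), (10, 1), (18, 1), (21, 1)]) (.alt (.leaf [(0, 2), (3, 1),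
    (8, 2), (10, 2), (12, 1), (15, 1), (23, 1), (28, 1)]) (.alt (.split 0 [0, 1, 1, -1] (.alt
    (.leaf [(0, 2), (12, 1), (30, 1)]) (.alt (.leaf [(0, 4), (8, 5), (10, 2), (12, 1), (31, 3)])
    (.alt (.leaf [(0, 1), (2, 1), (7, 1), (9, 1), (11, 1), (13, 1), (22, 1)]) (.alt (.leaf [(0,
    2), (5, 2), (7, 1), (9, 1), (13, 2), (14, 1), (19, 1), (26, 1)]) (.alt (.leaf [(0, 1), (1,
    1), (9, 1), (11, 1), (17, 1), (22, 1), (34, 1)]) (.alt (.leaf [(0, 1), (1, 1), (4, 1), (9,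
    3), (11, 1), (13, 1), (21, 2), (28, 1)]) (.done)))))))) (.done)))))))) (.alt (.leaf [(0, 2),
    (2, 1), (11, 1), (15, 1), (22, 1), (27, 1)]) (.alt (.split 0 [1, 0, -1, 0] (.alt (.leaf [(0,
    2), (7, 3), (9, 2), (11, 1), (30, 1)]) (.alt (.leaf [(0, 1), (29, 1)]) (.alt (.leaf [(0, 1),
    (4, 1), (6, 1), (12, 1), (13, 1)]) (.alt (.split 0 [1, 1, 0, -1] (.alt (.leaf [(0, 4), (8,
    3), (10, 2), (12, 3), (31, 1)]) (.alt (.leaf [(0, 2), (8, 1), (30, 1), (31, 1)]) (.alt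
    (.leaf [(0, 1), (1, 1), (3, 1), (9, 3), (11, 3), (13, 1), (22, 2), (27, 1)]) (.alt (.leaf
    [(0, 1), (3, 1), (9, 2), (11, 1), (19, 1), (22, 1)]) (.alt (.leaf [(0, 2), (4, 1), (9, 2),
    (11, 2), (13, 1), (16, 1), (24, 1), (29, 1)]) (.alt (.leaf [(0, 1), (2, 1), (9, 1), (13, 1),
    (21, 1), (28, 1)]) (.done)))))))) (.alt (.leaf [(0, 1), (3, 1), (8, 1), (15, 1), (20, 1)])
    (.alt (.leaf [(0, 1), (1, 2), (8, 1), (12, 1), (20, 1), (23, 1), (27, 1)]) (.alt (.leaf [(0,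
    1), (12, 1), (14, 1)]) (.done))))))))) (.alt (.leaf [(0, 2), (13, 2), (15, 1), (33, 1)])
    (.done))))))))) (.alt (.leaf [(0, 2), (2, 2), (4, 1), (6, 1), (10, 2), (12, 1), (15, 1),
    (23, 1)]) (.alt (.split 0 [0, 1, 1, -1] (.alt (.leaf [(0, 2), (10, 1), (28, 1)]) (.alt
    (.leaf [(0, 4), (6, 5), (8, 2), (10, 1), (29, 3)]) (.alt (.split 0 [1, 1, 0, -1] (.alt
    (.leaf [(0, 4), (7, 3), (9, 2), (11, 3), (30, 1)]) (.alt (.leaf [(0, 2), (7, 1), (29, 1),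
    (30, 1)]) (.alt (.split 2 [0, 1, 0, -1] (.alt (.leaf [(0, 4), (8, 1), (10, 6), (12, 9), (31,
    3)]) (.alt (.leaf [(0, 4), (8, 3), (10, 2), (12, 3), (31, 1)]) (.alt (.leaf [(0, 1), (1, 1),
    (9, 1), (13, 1), (18, 1), (27, 1)]) (.alt (.leaf [(0, 1), (2, 1), (7, 1), (9, 1), (11, 1),
    (13, 1), (22, 1)]) (.alt (.leaf [(0, 1), (3, 1), (9, 1), (11, 1), (13, 1), (24, 1), (29,
    1)]) (.alt (.split 0 [1, 0, -1, 0] (.alt (.leaf [(0, 2), (9, 3), (11, 2), (13, 1), (32, 1)])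
    (.alt (.leaf [(0, 1), (31, 1)]) (.alt (.leaf [(0, 2), (3, 2), (8, 1), (10, 3), (12, 2), (14,
    2), (15, 1), (19, 1), (28, 1)]) (.alt (.leaf [(0, 1), (2, 2), (10, 3), (12, 2), (14, 1),
    (19, 1), (23, 1), (28, 1)]) (.alt (.leaf [(0, 1), (5, 1), (10, 1), (17, 1), (22, 1)]) (.alt
    (.leaf [(0, 1), (1, 1), (4, 1), (10, 2), (12, 1), (22, 1), (23, 2), (35, 2)]) (.alt (.leaf
    [(0, 1), (14, 1), (16, 1)]) (.done))))))))) (.alt (.leaf [(3, 1), (7, 1), (14, 1), (16, 1),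
    (27, 1)]) (.done))))))))) (.alt (.leaf [(0, 1), (1, 1), (8, 1), (10, 1), (14, 1), (21, 1)])
    (.alt (.leaf [(0, 2), (3, 1), (8, 2), (10, 2), (12, 1), (15, 1), (23, 1), (28, 1)]) (.alt
    (.leaf [(0, 1), (2, 1), (8, 2), (10, 1), (20, 1), (21, 1), (33, 1)]) (.done)))))))) (.alt
    (.leaf [(0, 2), (3, 2), (5, 1), (7, 1), (11, 2), (12, 1), (17, 1), (24, 1)]) (.alt (.split 2
    [0, 1, 0, -1] (.alt (.leaf [(0, 4), (7, 1), (9, 6), (11, 9), (30, 3)]) (.alt (.leaf [(0, 4),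
    (7, 3), (9, 2), (11, 3), (30, 1)]) (.alt (.split 0 [1, 1, 0, -1] (.alt (.leaf [(0, 4), (8,
    3), (10, 2), (12, 3), (31, 1)]) (.alt (.leaf [(0, 2), (8, 1), (30, 1), (31, 1)]) (.alt
    (.leaf [(0, 1), (1, 1), (9, 1), (13, 1), (18, 1), (27, 1)]) (.alt (.leaf [(0, 1), (1, 1),
    (7, 1), (13, 1), (15, 1)]) (.alt (.leaf [(0, 1), (2, 1), (4, 1), (9, 3), (11, 3), (13, 1),
    (22, 2), (29, 1), (34, 2)]) (.alt (.leaf [(0, 1), (3, 1), (9, 2), (11, 1), (21, 1), (22, 1),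
    (34, 1)]) (.done)))))))) (.alt (.split 0 [1, 1, 0, -1] (.alt (.leaf [(0, 4), (8, 3), (10,
    2), (12, 3), (31, 1)]) (.alt (.leaf [(0, 2), (8, 1), (30, 1), (31, 1)]) (.alt (.leaf [(0,
    1), (1, 1), (7, 1), (13, 1), (14, 1)]) (.alt (.leaf [(0, 1), (1, 1), (9, 1), (13, 1), (19,
    1), (26, 1)]) (.alt (.leaf [(0, 1), (2, 1), (4, 1), (9, 3), (11, 3), (13, 1), (22, 2), (29,
    1), (34, 2)]) (.alt (.leaf [(0, 1), (3, 1), (9, 2), (11, 1), (21, 1), (22, 1), (34, 1)])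
    (.done)))))))) (.alt (.leaf [(0, 1), (2, 1), (8, 1), (10, 1), (12, 1), (21, 1), (28, 1),
    (33, 1)]) (.alt (.leaf [(0, 1), (1, 1), (6, 1), (8, 1), (10, 1), (12, 1), (21, 1), (33, 1)])
    (.alt (.leaf [(5, 1), (6, 1), (13, 1), (15, 1), (26, 1), (38, 1)]) (.done))))))))) (.alt
    (.leaf [(0, 1), (1, 1), (7, 1), (14, 1), (19, 1)]) (.done)))))))) (.alt (.leaf [(0, 2), (1,
    2), (4, 1), (6, 3), (8, 2), (10, 2), (14, 1), (18, 1), (25, 1)]) (.done)))))))) (.alt (.leaf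
    [(0, 1), (11, 1)]) (.done))))))))) (.alt (.leaf [(0, 1), (2, 1), (8, 1), (27, 1)]) (.alt
    (.split 0 [0, 1, -1, 0] (.alt (.leaf [(0, 2), (4, 1), (6, 2), (8, 1), (27, 1)]) (.alt (.leaf
    [(0, 1), (4, 1), (26, 1)]) (.alt (.leaf [(0, 1), (1, 1), (3, 1), (5, 1), (9, 1), (14, 1),
    (30, 1)]) (.alt (.split 0 [0, 1, 1, -1] (.alt (.leaf [(0, 2), (9, 1), (27, 1)]) (.alt (.leaf
    [(0, 4), (5, 5), (7, 2), (9, 1), (28, 3)]) (.alt (.split 2 [0, 1, 0, -1] (.alt (.leaf [(0,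
    4), (6, 1), (8, 6), (10, 9), (29, 3)]) (.alt (.leaf [(0, 4), (6, 3), (8, 2), (10, 3), (29,
    1)]) (.alt (.leaf [(0, 2), (2, 1), (11, 1), (13, 1), (20, 1), (25, 1)]) (.alt (.leaf [(0,
    1), (1, 1), (5, 1), (7, 1), (9, 1), (11, 1), (20, 1)]) (.alt (.split 0 [1, 1, 0, -1] (.alt
    (.leaf [(0, 4), (7, 3), (9, 2), (11, 3), (30, 1)]) (.alt (.leaf [(0, 2), (7, 1), (29, 1),
    (30, 1)]) (.alt (.leaf [(0, 1), (2, 1), (3, 1), (8, 3), (10, 3), (12, 1), (21, 2), (26, 1)])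
    (.alt (.leaf [(0, 1), (2, 1), (8, 1), (10, 1), (14, 1), (21, 1)]) (.alt (.leaf [(0, 1), (1,
    1), (8, 1), (12, 1), (19, 1), (28, 1)]) (.alt (.leaf [(0, 1), (1, 1), (6, 1), (12, 1), (16,
    1)]) (.done)))))))) (.alt (.split 0 [1, 1, 0, -1] (.alt (.leaf [(0, 4), (7, 3), (9, 2), (11,
    3), (30, 1)]) (.alt (.leaf [(0, 2), (7, 1), (29, 1), (30, 1)]) (.alt (.leaf [(0, 1), (2, 1),
    (3, 1), (8, 3), (10, 3), (12, 1), (21, 2), (26, 1)]) (.alt (.leaf [(0, 1), (2, 1), (8, 1),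
    (10, 1), (14, 1), (21, 1)]) (.alt (.leaf [(0, 1), (1, 1), (6, 1), (12, 1), (15, 1)]) (.alt
    (.leaf [(0, 1), (1, 1), (8, 1), (12, 1), (20, 1), (27, 1)]) (.done)))))))) (.alt (.leaf [(3,
    1), (6, 1), (12, 1), (14, 1), (25, 1)]) (.done))))))))) (.alt (.leaf [(0, 2), (2, 2), (4,
    1), (6, 1), (10, 2), (11, 1), (16, 1), (23, 1), (31, 2)]) (.alt (.split 0 [1, -1, 0, 0]
    (.alt (.leaf [(0, 2), (6, 3), (10, 1), (29, 1)]) (.alt (.leaf [(0, 1), (8, 1), (28, 1)])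
    (.alt (.split 0 [1, 1, 0, -1] (.alt (.leaf [(0, 4), (7, 3), (9, 2), (11, 3), (30, 1)]) (.alt
    (.leaf [(0, 2), (7, 1), (29, 1), (30, 1)]) (.alt (.leaf [(0, 2), (3, 1), (8, 2), (10, 2),
    (12, 1), (13, 1), (21, 1), (26, 1)]) (.alt (.leaf [(0, 2), (1, 1), (8, 3), (10, 1), (12, 1),
    (18, 2), (25, 1)]) (.alt (.split 0 [1, 0, -1, 0] (.alt (.leaf [(0, 2), (8, 3), (10, 2), (12,
    1), (31, 1)]) (.alt (.leaf [(0, 1), (30, 1)]) (.alt (.leaf [(0, 1), (1, 1), (3, 1), (9, 2),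
    (11, 1), (13, 1), (14, 1), (20, 1), (29, 1), (34, 1)]) (.alt (.leaf [(0, 1), (2, 1), (9, 2),
    (11, 1), (19, 1), (22, 1)]) (.alt (.leaf [(0, 2), (3, 2), (7, 1), (9, 3), (11, 2), (13, 2),
    (16, 1), (20, 1), (29, 1)]) (.alt (.leaf [(0, 1), (1, 2), (9, 3), (11, 2), (13, 1), (20, 1),
    (22, 1), (29, 1), (34, 1)]) (.alt (.leaf [(0, 1), (13, 1), (15, 1)]) (.done))))))))) (.alt
    (.leaf [(0, 1), (2, 1), (8, 1), (10, 1), (16, 1), (21, 1), (33, 1)]) (.done)))))))) (.alt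
    (.leaf [(0, 1), (2, 1), (7, 1), (9, 1), (13, 1), (20, 1)]) (.alt (.leaf [(0, 1), (1, 2), (7,
    3), (9, 3), (11, 1), (20, 2), (27, 1), (32, 2)]) (.alt (.split 0 [1, 0, 1, -1] (.alt (.leaf
    [(0, 2), (7, 2), (11, 1), (29, 1)]) (.alt (.leaf [(0, 4), (7, 1), (9, 2), (11, 1), (30, 3)])
    (.alt (.split 0 [1, 1, 0, -1] (.alt (.leaf [(0, 4), (8, 3), (10, 2), (12, 3), (31, 1)])
    (.alt (.leaf [(0, 2), (8, 1), (30, 1), (31, 1)]) (.alt (.leaf [(0, 2), (4, 1), (9, 2), (11,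
    2), (13, 1), (14, 1), (22, 1), (27, 1)]) (.alt (.leaf [(0, 1), (1, 1), (9, 2), (11, 1), (19,
    1), (22, 1)]) (.alt (.leaf [(0, 2), (2, 1), (9, 3), (11, 1), (13, 1), (20, 2), (29, 1)])
    (.alt (.leaf [(0, 2), (2, 1), (9, 1), (11, 1), (13, 1), (17, 2), (28, 1)]) (.done))))))))
    (.alt (.leaf [(0, 4), (2, 2), (3, 2), (6, 1), (8, 5), (10, 4), (12, 4), (14, 2), (16, 1),
    (19, 1), (25, 2), (28, 1), (33, 2)]) (.alt (.leaf [(0, 2), (1, 1), (8, 3), (10, 3), (12, 1),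
    (21, 2), (28, 1), (33, 2)]) (.alt (.leaf [(0, 2), (4, 2), (6, 1), (8, 1), (12, 2), (16, 1),
    (19, 1), (27, 1)]) (.done)))))))) (.alt (.leaf [(0, 1), (11, 1)]) (.done))))))))) (.alt
    (.leaf [(0, 2), (2, 2), (4, 1), (6, 1), (10, 2), (13, 1), (18, 1), (25, 1)]) (.done))))))))
    (.alt (.leaf [(0, 1), (1, 1), (3, 1), (5, 1), (9, 1), (16, 1)]) (.alt (.split 0 [0, 1, 1,
    -1] (.alt (.leaf [(0, 2), (9, 1), (27, 1)]) (.alt (.leaf [(0, 4), (5, 5), (7, 2), (9, 1),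
    (28, 3)]) (.alt (.split 0 [1, -1, 0, 0] (.alt (.leaf [(0, 2), (6, 3), (10, 1), (29, 1)])
    (.alt (.leaf [(0, 1), (8, 1), (28, 1)]) (.alt (.leaf [(0, 1), (1, 2), (7, 3), (9, 3), (11,
    1), (20, 2), (25, 1)]) (.alt (.split 0 [1, 0, 1, -1] (.alt (.leaf [(0, 2), (7, 2), (11, 1),
    (29, 1)]) (.alt (.leaf [(0, 4), (7, 1), (9, 2), (11, 1), (30, 3)]) (.alt (.leaf [(0, 2), (1,
    1), (8, 3), (10, 3), (12, 1), (21, 2), (26, 1)]) (.alt (.leaf [(0, 2), (4, 2), (6, 1), (8,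
    1), (12, 2), (14, 1), (17, 1), (25, 1), (33, 2)]) (.alt (.split 0 [1, 1, 0, -1] (.alt (.leaf
    [(0, 4), (8, 3), (10, 2), (12, 3), (31, 1)]) (.alt (.leaf [(0, 2), (8, 1), (30, 1), (31,
    1)]) (.alt (.leaf [(0, 2), (2, 1), (9, 3), (11, 1), (13, 1), (18, 2), (27, 1)]) (.alt (.leaf
    [(0, 2), (2, 1), (9, 1), (11, 1), (13, 1), (15, 2), (26, 1)]) (.alt (.leaf [(0, 2), (4, 1),
    (9, 2), (11, 2), (13, 1), (16, 1), (24, 1), (29, 1)]) (.alt (.leaf [(0, 1), (1, 1), (9, 2),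
    (11, 1), (21, 1), (22, 1), (34, 1)]) (.done)))))))) (.alt (.leaf [(0, 2), (3, 1), (4, 1),
    (6, 2), (8, 2), (10, 2), (12, 3), (16, 1), (27, 1)]) (.done)))))))) (.alt (.split 0 [1, 1,
    0, -1] (.alt (.leaf [(0, 4), (7, 3), (9, 2), (11, 3), (30, 1)]) (.alt (.leaf [(0, 2), (7,
    1), (29, 1), (30, 1)]) (.alt (.split 0 [1, 0, -1, 0] (.alt (.leaf [(0, 2), (8, 3), (10, 2),
    (12, 1), (31, 1)]) (.alt (.leaf [(0, 1), (30, 1)]) (.alt (.leaf [(0, 2), (3, 2), (7, 1), (9,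
    3), (11, 2), (13, 2), (14, 1), (18, 1), (27, 1)]) (.alt (.leaf [(0, 1), (1, 2), (9, 3), (11,
    2), (13, 1), (18, 1), (22, 1), (27, 1)]) (.alt (.leaf [(0, 1), (1, 1), (3, 1), (5, 1), (9,
    2), (11, 1), (13, 1), (16, 1), (18, 1), (22, 1), (27, 1)]) (.alt (.leaf [(0, 1), (2, 1), (9,
    2), (11, 1), (21, 1), (24, 1)]) (.alt (.leaf [(0, 1), (13, 1), (15, 1)]) (.done)))))))))
    (.alt (.leaf [(0, 1), (2, 1), (8, 1), (10, 1), (14, 1), (21, 1)]) (.alt (.leaf [(0, 2), (3,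
    1), (8, 2), (10, 2), (12, 1), (15, 1), (23, 1), (28, 1)]) (.alt (.leaf [(0, 2), (1, 1), (8,
    3), (10, 1), (12, 1), (20, 2), (27, 1)]) (.done)))))))) (.alt (.leaf [(0, 1), (2, 1), (7,
    1), (9, 1), (15, 1), (22, 1)]) (.alt (.leaf [(0, 1), (11, 1)]) (.done))))))))) (.alt (.leaf
    [(0, 2), (2, 2), (4, 1), (6, 1), (10, 2), (11, 1), (16, 1), (23, 1), (31, 2)]) (.alt (.split
    2 [0, 1, 0, -1] (.alt (.leaf [(0, 4), (6, 1), (8, 6), (10, 9), (29, 3)]) (.alt (.leaf [(0,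
    4), (6, 3), (8, 2), (10, 3), (29, 1)]) (.alt (.split 0 [1, 1, 0, -1] (.alt (.leaf [(0, 4),
    (7, 3), (9, 2), (11, 3), (30, 1)]) (.alt (.leaf [(0, 2), (7, 1), (29, 1), (30, 1)]) (.alt
    (.leaf [(0, 1), (1, 1), (8, 1), (12, 1), (17, 1), (26, 1)]) (.alt (.leaf [(0, 1), (1, 1),
    (6, 1), (12, 1), (14, 1)]) (.alt (.leaf [(0, 1), (2, 1), (3, 1), (8, 3), (10, 3), (12, 1),
    (21, 2), (28, 1), (33, 2)]) (.alt (.leaf [(0, 1), (2, 1), (8, 1), (10, 1), (16, 1), (21, 1),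
    (33, 1)]) (.done)))))))) (.alt (.split 0 [1, 1, 0, -1] (.alt (.leaf [(0, 4), (7, 3), (9, 2),
    (11, 3), (30, 1)]) (.alt (.leaf [(0, 2), (7, 1), (29, 1), (30, 1)]) (.alt (.leaf [(0, 1),
    (1, 1), (6, 1), (12, 1), (13, 1)]) (.alt (.leaf [(0, 1), (1, 1), (8, 1), (12, 1), (18, 1),
    (25, 1)]) (.alt (.leaf [(0, 1), (2, 1), (3, 1), (8, 3), (10, 3), (12, 1), (21, 2), (28, 1),
    (33, 2)]) (.alt (.leaf [(0, 1), (2, 1), (8, 1), (10, 1), (16, 1), (21, 1), (33, 1)])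
    (.done)))))))) (.alt (.leaf [(0, 2), (2, 1), (11, 1), (15, 1), (20, 1), (27, 1), (32, 1)])
    (.alt (.leaf [(0, 1), (1, 1), (5, 1), (7, 1), (9, 1), (11, 1), (20, 1), (32, 1)]) (.alt
    (.leaf [(5, 1), (6, 1), (12, 1), (14, 1), (25, 1), (37, 1)]) (.done))))))))) (.alt (.leaf
    [(0, 2), (2, 2), (4, 1), (6, 1), (10, 2), (13, 1), (18, 1), (25, 1)]) (.done)))))))) (.alt
    (.leaf [(0, 1), (11, 1)]) (.done))))))))) (.alt (.leaf [(0, 1), (2, 1), (8, 1), (28, 1)])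
    (.done)))))

theorem C1.chk4 : checkOne C1.D 3 [(1, 1, 0), (-1, 1, 1), (1, 0, 1), (1, -1, 2), (0, 1, 1), (1, 2, 0), (-1, 1, 2), (-1, 2, 1)] (1, 1, 0) C1.T4 = true := by decide +kernel

/-- Class (1, 0, 1). -/
def C1.T5 : Tree :=
  .split 2 [] (.alt (.split 0 [0, 1, -1, 0] (.alt (.leaf [(0, 2), (4, 1), (6, 2), (8, 1), (27,
    1)]) (.alt (.leaf [(0, 1), (4, 1), (26, 1)]) (.alt (.leaf [(0, 1), (1, 1), (3, 1), (5, 1),
    (9, 1), (14, 1)]) (.alt (.split 0 [1, 0, 1, -1] (.alt (.leaf [(0, 4), (5, 3), (9, 3), (28,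
    1)]) (.alt (.leaf [(0, 2), (5, 1), (7, 1), (27, 1), (28, 1)]) (.alt (.split 0 [0, 0, 1, -1]
    (.alt (.leaf [(0, 4), (6, 1), (10, 5), (29, 3)]) (.alt (.split 2 [0, 0, 1, -1] (.alt (.leaf
    [(0, 4), (7, 1), (9, 4), (11, 9), (30, 3)]) (.alt (.leaf [(0, 4), (7, 3), (9, 4), (11, 3),
    (30, 1)]) (.alt (.leaf [(0, 1), (2, 1), (8, 1), (10, 1), (12, 1), (21, 1), (26, 1)]) (.alt
    (.leaf [(0, 1), (2, 1), (6, 1), (12, 1), (13, 1)]) (.alt (.split 0 [0, 1, 1, -1] (.alt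
    (.leaf [(0, 2), (10, 1), (12, 1), (30, 1)]) (.alt (.leaf [(0, 4), (8, 5), (12, 1), (31, 3)])
    (.alt (.leaf [(0, 1), (3, 1), (4, 1), (9, 3), (11, 3), (13, 1), (22, 2), (27, 1)]) (.alt
    (.leaf [(0, 1), (3, 1), (9, 1), (14, 1), (19, 1)]) (.alt (.split 1 [1, 1, 0, -1] (.alt
    (.leaf [(0, 4), (9, 3), (11, 8), (13, 3), (32, 1)]) (.alt (.leaf [(0, 2), (9, 1), (11, 1),
    (31, 1), (32, 1)]) (.alt (.leaf [(0, 2), (5, 2), (8, 1), (10, 1), (12, 3), (14, 2), (15, 1),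
    (23, 1), (28, 1)]) (.alt (.leaf [(0, 1), (4, 1), (10, 1), (12, 1), (20, 1), (23, 1)]) (.alt
    (.leaf [(0, 1), (2, 1), (14, 1), (21, 1), (30, 1)]) (.alt (.leaf [(0, 1), (1, 1), (12, 1),
    (18, 1), (23, 1), (35, 1)]) (.alt (.leaf [(0, 1), (8, 1), (14, 1), (16, 1)]) (.done)))))))))
    (.alt (.leaf [(0, 1), (1, 1), (7, 1), (9, 1), (13, 1), (21, 1)]) (.done)))))))) (.alt
    (.split 2 [1, 0, 0, -1] (.alt (.leaf [(0, 4), (8, 5), (10, 8), (12, 9), (31, 3)]) (.alt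
    (.leaf [(0, 2), (10, 1), (12, 1), (30, 1)]) (.alt (.leaf [(0, 1), (3, 1), (13, 1), (14, 1),
    (27, 1)]) (.alt (.leaf [(0, 1), (3, 1), (7, 1), (9, 1), (11, 1), (13, 1), (22, 1)]) (.alt
    (.leaf [(0, 1), (1, 1), (3, 2), (13, 1), (14, 1), (16, 1), (22, 1), (27, 1), (33, 1)]) (.alt
    (.leaf [(0, 1), (1, 1), (7, 1), (13, 2), (28, 1)]) (.alt (.leaf [(0, 4), (13, 3), (15, 4),
    (17, 3), (36, 1)]) (.done))))))))) (.alt (.leaf [(0, 2), (14, 1), (16, 1), (34, 1)])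
    (.done))))))))) (.alt (.leaf [(0, 1), (1, 1), (7, 2), (9, 2), (11, 1), (20, 1), (25, 1)])
    (.alt (.leaf [(0, 1), (1, 1), (5, 1), (7, 1), (9, 1), (11, 1), (12, 1)]) (.alt (.split 0 [0,
    1, 1, -1] (.alt (.leaf [(0, 2), (9, 1), (11, 1), (29, 1)]) (.alt (.leaf [(0, 4), (7, 5),
    (11, 1), (30, 3)]) (.alt (.leaf [(0, 1), (2, 1), (3, 1), (8, 3), (10, 3), (12, 1), (21, 2),
    (26, 1)]) (.alt (.leaf [(0, 1), (2, 1), (8, 1), (13, 1), (18, 1)]) (.alt (.split 1 [1, 0, 0,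
    -1] (.alt (.leaf [(0, 4), (8, 5), (10, 8), (12, 5), (31, 3)]) (.alt (.split 1 [1, 1, 0, -1]
    (.alt (.leaf [(0, 4), (9, 3), (11, 8), (13, 3), (32, 1)]) (.alt (.leaf [(0, 2), (9, 1), (11,
    1), (31, 1), (32, 1)]) (.alt (.leaf [(0, 2), (5, 2), (8, 1), (10, 1), (12, 3), (14, 2), (15,
    1), (23, 1), (28, 1)]) (.alt (.leaf [(0, 1), (4, 1), (10, 1), (12, 1), (20, 1), (23, 1)])
    (.alt (.leaf [(0, 1), (3, 1), (10, 1), (12, 1), (14, 1), (21, 1), (30, 1)]) (.alt (.leaf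
    [(0, 1), (2, 1), (12, 1), (18, 1), (23, 1), (35, 1)]) (.alt (.leaf [(0, 1), (6, 1), (16,
    1)]) (.done))))))))) (.alt (.leaf [(0, 1), (3, 1), (11, 1), (13, 1), (14, 1), (27, 1)])
    (.alt (.leaf [(0, 1), (3, 1), (7, 1), (9, 1), (11, 2), (13, 1), (22, 1)]) (.alt (.leaf [(0,
    1), (2, 1), (7, 1), (9, 1), (11, 2), (13, 2), (29, 1)]) (.alt (.leaf [(0, 1), (2, 1), (11,
    1), (17, 1), (24, 1)]) (.alt (.leaf [(0, 4), (13, 3), (15, 4), (17, 3), (36, 1)])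
    (.done))))))))) (.alt (.leaf [(0, 1), (1, 1), (6, 1), (8, 2), (10, 1), (12, 1), (20, 1)])
    (.done)))))))) (.alt (.leaf [(0, 2), (7, 1), (9, 1), (11, 1), (14, 1), (26, 1), (31, 1)])
    (.alt (.leaf [(0, 2), (13, 1), (15, 1), (33, 1)]) (.done))))))))) (.alt (.leaf [(0, 2), (2,
    1), (4, 1), (6, 1), (8, 1), (10, 2), (12, 1), (23, 1)]) (.alt (.split 2 [1, 0, 0, -1] (.alt
    (.leaf [(0, 4), (6, 5), (8, 8), (10, 9), (29, 3)]) (.alt (.leaf [(0, 2), (8, 1), (10, 1),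
    (28, 1)]) (.alt (.leaf [(0, 2), (1, 2), (11, 2), (12, 1), (14, 1), (25, 1), (27, 1), (32,
    1)]) (.alt (.split 2 [0, 0, 1, -1] (.alt (.leaf [(0, 4), (7, 1), (9, 4), (11, 9), (30, 3)])
    (.alt (.leaf [(0, 4), (7, 3), (9, 4), (11, 3), (30, 1)]) (.alt (.split 0 [0, 1, 1, -1] (.alt
    (.leaf [(0, 2), (10, 1), (12, 1), (30, 1)]) (.alt (.leaf [(0, 4), (8, 5), (12, 1), (31, 3)])
    (.alt (.leaf [(0, 1), (2, 1), (4, 1), (9, 1), (11, 1), (15, 1), (22, 2)]) (.alt (.leaf [(0,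
    1), (1, 1), (7, 1), (9, 1), (13, 1), (19, 1)]) (.alt (.split 0 [1, -1, 0, 0] (.alt (.leaf
    [(0, 2), (9, 3), (13, 1), (32, 1)]) (.alt (.leaf [(0, 1), (11, 1), (31, 1)]) (.alt (.leaf
    [(0, 1), (1, 1), (2, 1), (3, 1), (4, 1), (10, 3), (12, 1), (14, 1), (20, 1), (21, 1), (23,
    2), (30, 1), (35, 1)]) (.alt (.leaf [(0, 1), (5, 1), (10, 1), (12, 1), (16, 1), (23, 1)])
    (.alt (.leaf [(0, 1), (1, 2), (10, 3), (12, 2), (14, 1), (21, 1), (23, 1), (30, 1), (35,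
    1)]) (.alt (.leaf [(0, 1), (4, 2), (10, 3), (12, 2), (14, 1), (21, 1), (23, 1), (30, 1),
    (35, 1)]) (.alt (.leaf [(0, 1), (14, 1)]) (.done))))))))) (.alt (.leaf [(0, 1), (3, 1), (9,
    1), (16, 1), (21, 1)]) (.done)))))))) (.alt (.leaf [(0, 1), (1, 1), (6, 1), (12, 2), (25,
    1)]) (.alt (.leaf [(0, 1), (2, 1), (8, 1), (10, 1), (12, 1), (21, 1), (28, 1), (33, 1)])
    (.alt (.leaf [(0, 1), (2, 1), (6, 1), (12, 1), (15, 1)]) (.alt (.leaf [(0, 2), (14, 1), (16,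
    1), (34, 1)]) (.done))))))))) (.alt (.leaf [(0, 1), (1, 1), (11, 1), (14, 1), (27, 1)])
    (.alt (.leaf [(0, 1), (1, 1), (5, 1), (7, 1), (9, 1), (11, 1), (20, 1), (32, 1)]) (.alt
    (.leaf [(0, 4), (11, 3), (13, 4), (15, 3), (34, 1)]) (.done))))))))) (.alt (.leaf [(0, 2),
    (6, 1), (8, 1), (10, 1), (14, 1), (25, 1), (30, 1)]) (.done)))))))) (.alt (.leaf [(0, 1),
    (5, 1), (16, 1), (29, 1)]) (.alt (.split 0 [1, 0, 1, -1] (.alt (.leaf [(0, 4), (5, 3), (9,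
    3), (28, 1)]) (.alt (.leaf [(0, 2), (5, 1), (7, 1), (27, 1), (28, 1)]) (.alt (.split 0 [0,
    0, 1, -1] (.alt (.leaf [(0, 4), (6, 1), (10, 5), (29, 3)]) (.alt (.split 1 [0, 0, 1, -1]
    (.alt (.leaf [(0, 4), (7, 1), (9, 4), (11, 5), (30, 3)]) (.alt (.split 2 [0, 1, 1, 0] (.alt
    (.leaf [(0, 1), (1, 2), (8, 1), (10, 2)]) (.alt (.leaf [(0, 2), (8, 3), (10, 4), (12, 5),
    (31, 3)]) (.alt (.split 1 [] (.alt (.split 2 [0, 1, 0, -1] (.alt (.leaf [(0, 4), (10, 1),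
    (12, 8), (14, 9), (33, 3)]) (.alt (.leaf [(0, 1), (3, 3), (10, 3), (12, 3), (33, 1)]) (.alt
    (.leaf [(0, 1), (5, 1), (11, 1), (15, 1), (20, 1), (29, 1)]) (.alt (.leaf [(0, 1), (1, 1),
    (5, 1), (9, 1), (13, 1), (15, 1), (16, 1), (24, 1)]) (.alt (.leaf [(0, 2), (6, 2), (9, 1),
    (11, 1), (13, 1), (15, 2), (19, 1), (26, 1), (31, 1)]) (.alt (.split 2 [1, -1, 0, -1] (.alt
    (.leaf [(0, 4), (11, 7), (13, 8), (15, 11), (34, 5)]) (.alt (.leaf [(0, 1), (4, 1), (13,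
    1)]) (.alt (.leaf [(0, 1), (2, 1), (6, 1), (10, 1), (14, 1), (16, 2), (17, 1), (30, 1)])
    (.alt (.leaf [(0, 1), (6, 1), (12, 1), (21, 1), (25, 1)]) (.alt (.split 0 [1, 0, -1, 0]
    (.alt (.leaf [(0, 2), (12, 3), (14, 2), (16, 1), (35, 1)]) (.alt (.leaf [(0, 1), (5, 2),
    (12, 1), (14, 1), (35, 1)]) (.alt (.leaf [(0, 1), (7, 2), (13, 1), (15, 1), (17, 1), (18,
    2), (31, 1)]) (.alt (.leaf [(0, 1), (7, 2), (13, 3), (15, 3), (17, 1), (26, 2), (31, 1)])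
    (.alt (.leaf [(0, 1), (8, 1), (13, 1), (20, 1), (25, 1)]) (.alt (.split 0 [1, -1, 0, 0]
    (.alt (.leaf [(0, 2), (13, 3), (17, 1), (36, 1)]) (.alt (.leaf [(0, 1), (6, 2), (13, 1),
    (15, 2), (36, 1)]) (.alt (.leaf [(0, 1), (4, 1), (12, 1), (16, 1), (18, 1), (19, 1)]) (.alt
    (.leaf [(0, 1), (8, 2), (14, 3), (16, 2), (18, 1), (23, 1), (27, 1), (32, 1)]) (.alt (.leaf
    [(0, 1), (1, 1), (14, 2), (16, 1), (26, 1), (29, 1)]) (.alt (.leaf [(0, 3), (2, 2), (9, 1),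
    (12, 3), (14, 2), (16, 2), (18, 4), (22, 2), (34, 1)]) (.alt (.leaf [(3, 1), (5, 1), (7, 1),
    (8, 1), (13, 2), (19, 2), (23, 1), (28, 1), (31, 1), (32, 1), (37, 1)]) (.done)))))))))
    (.alt (.leaf [(0, 1), (17, 1), (19, 1)]) (.done))))))))) (.alt (.leaf [(0, 1), (1, 1), (16,
    1), (27, 1), (31, 1)]) (.alt (.leaf [(0, 4), (16, 5), (18, 4), (20, 5), (39, 3)])
    (.done))))))))) (.alt (.leaf [(0, 3), (8, 1), (17, 4), (19, 2), (38, 1)]) (.done)))))))))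
    (.alt (.leaf [(0, 1), (1, 1), (8, 1), (12, 1), (14, 1), (23, 1)]) (.alt (.leaf [(0, 1), (5,
    1), (8, 1), (10, 1), (12, 2), (14, 1), (25, 1)]) (.alt (.split 2 [1, -1, 0, -1] (.alt (.leaf
    [(0, 4), (10, 7), (12, 8), (14, 11), (33, 5)]) (.alt (.leaf [(0, 1), (3, 1), (12, 1)]) (.alt
    (.leaf [(0, 1), (2, 1), (5, 1), (15, 1), (16, 1), (24, 1), (29, 1)]) (.alt (.leaf [(0, 1),
    (5, 1), (11, 1), (20, 1), (24, 1)]) (.alt (.split 0 [1, 0, -1, 0] (.alt (.leaf [(0, 2), (11,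
    3), (13, 2), (15, 1), (34, 1)]) (.alt (.leaf [(0, 1), (4, 2), (11, 1), (13, 1), (34, 1)])
    (.alt (.leaf [(0, 1), (6, 2), (12, 1), (14, 1), (16, 1), (17, 2), (30, 1)]) (.alt (.leaf
    [(0, 1), (6, 2), (12, 3), (14, 3), (16, 1), (25, 2), (30, 1)]) (.alt (.leaf [(0, 1), (7, 1),
    (12, 1), (19, 1), (24, 1)]) (.alt (.split 2 [1, 0, 0, -1] (.alt (.leaf [(0, 4), (12, 5),
    (14, 8), (16, 9), (35, 3)]) (.alt (.leaf [(0, 1), (5, 3), (12, 2), (14, 3), (35, 1)]) (.alt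
    (.leaf [(0, 1), (7, 1), (17, 1), (18, 1), (31, 1)]) (.alt (.leaf [(0, 1), (7, 1), (11, 1),
    (13, 1), (15, 1), (17, 1), (26, 1)]) (.alt (.leaf [(0, 2), (1, 1), (11, 2), (13, 1), (15,
    1), (17, 3), (33, 1)]) (.alt (.leaf [(0, 1), (2, 1), (7, 2), (13, 1), (17, 1), (18, 1), (25,
    1), (26, 1), (31, 1)]) (.alt (.leaf [(0, 4), (17, 3), (19, 4), (21, 3), (40, 1)])
    (.done))))))))) (.alt (.leaf [(0, 1), (16, 1), (18, 1)]) (.done))))))))) (.alt (.leaf [(0,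
    2), (1, 2), (5, 2), (13, 2), (15, 2), (16, 1), (19, 1), (24, 1), (26, 1), (29, 1), (30, 1)])
    (.alt (.leaf [(0, 4), (15, 5), (17, 4), (19, 5), (38, 3)]) (.done))))))))) (.done))))))
    (.alt (.leaf [(0, 1), (3, 2), (9, 1), (13, 1), (14, 1), (19, 1), (27, 1)]) (.alt (.leaf [(0,
    1), (4, 1), (9, 1), (11, 1), (24, 2)]) (.alt (.split 0 [0, 1, 1, -1] (.alt (.leaf [(0, 1),
    (2, 3), (9, 2), (11, 3), (32, 1)]) (.alt (.leaf [(0, 4), (9, 5), (13, 1), (32, 3)]) (.alt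
    (.split 2 [0, 1, 0, -1] (.alt (.leaf [(0, 4), (10, 1), (12, 8), (14, 9), (33, 3)]) (.alt
    (.leaf [(0, 1), (3, 3), (10, 3), (12, 3), (33, 1)]) (.alt (.leaf [(0, 1), (5, 1), (11, 1),
    (15, 1), (20, 1), (29, 1)]) (.alt (.leaf [(0, 1), (1, 1), (9, 1), (11, 1), (13, 1), (15, 1),
    (24, 1)]) (.alt (.leaf [(0, 4), (2, 1), (6, 3), (9, 4), (11, 1), (13, 1), (15, 6), (19, 2),
    (31, 2)]) (.alt (.split 2 [0, 0, 0, 1] (.alt (.leaf [(0, 1), (4, 1), (11, 1), (13, 1)])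
    (.alt (.leaf [(0, 4), (11, 3), (13, 8), (15, 11), (34, 5)]) (.alt (.leaf [(0, 1), (2, 1),
    (12, 1), (21, 1), (25, 1)]) (.alt (.leaf [(0, 1), (6, 1), (10, 1), (12, 1), (14, 1), (16,
    2), (30, 1)]) (.alt (.split 0 [1, 0, -1, 0] (.alt (.leaf [(0, 2), (12, 3), (14, 2), (16, 1),
    (35, 1)]) (.alt (.leaf [(0, 1), (5, 2), (12, 1), (14, 1), (35, 1)]) (.alt (.leaf [(0, 1),
    (3, 2), (13, 3), (15, 1), (17, 1), (22, 2), (31, 1)]) (.alt (.leaf [(0, 1), (7, 2), (13, 3),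
    (15, 3), (17, 1), (26, 2), (31, 1)]) (.alt (.leaf [(0, 1), (8, 1), (13, 1), (20, 1), (25,
    1)]) (.alt (.leaf [(0, 1), (1, 2), (3, 1), (4, 2), (7, 1), (11, 1), (13, 3), (17, 3), (22,
    1), (25, 2), (26, 1), (31, 1), (32, 1)]) (.alt (.leaf [(0, 1), (17, 1), (19, 1)])
    (.done))))))))) (.alt (.leaf [(0, 1), (1, 1), (2, 1), (6, 1), (12, 2), (16, 1), (21, 1),
    (24, 1), (25, 1), (30, 1)]) (.alt (.leaf [(1, 4), (16, 1), (18, 4), (20, 5), (39, 3)])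
    (.done))))))))) (.alt (.leaf [(3, 1), (6, 1), (16, 1), (18, 1), (29, 1)]) (.done)))))))))
    (.alt (.leaf [(0, 1), (4, 1), (10, 1), (15, 1), (20, 1)]) (.alt (.leaf [(0, 4), (1, 3), (5,
    1), (8, 4), (10, 3), (12, 3), (14, 6), (18, 2), (30, 2)]) (.alt (.split 0 [1, 0, -1, 0]
    (.alt (.leaf [(0, 2), (10, 3), (12, 2), (14, 1), (33, 1)]) (.alt (.leaf [(0, 1), (3, 2),
    (10, 1), (12, 1), (33, 1)]) (.alt (.leaf [(0, 1), (5, 2), (11, 1), (13, 1), (15, 1), (16,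
    2), (29, 1)]) (.alt (.leaf [(0, 1), (5, 2), (11, 3), (13, 3), (15, 1), (24, 2), (29, 1)])
    (.alt (.leaf [(0, 1), (6, 1), (11, 1), (18, 1), (23, 1)]) (.alt (.leaf [(0, 1), (1, 2), (11,
    3), (13, 1), (15, 1), (23, 2), (30, 1)]) (.alt (.leaf [(0, 1), (15, 1), (17, 1)])
    (.done))))))))) (.done)))))))) (.alt (.leaf [(1, 1), (13, 1), (15, 1), (17, 1), (36, 1)])
    (.done))))))))) (.alt (.leaf [(0, 1), (2, 1), (8, 1), (10, 2), (12, 1), (21, 1), (26, 1)])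
    (.alt (.leaf [(0, 1), (2, 1), (6, 1), (10, 1), (12, 1), (13, 1)]) (.alt (.split 2 [1, 0, 0,
    -1] (.alt (.leaf [(0, 4), (8, 5), (10, 8), (12, 9), (31, 3)]) (.alt (.leaf [(0, 2), (10, 1),
    (12, 1), (30, 1)]) (.alt (.leaf [(0, 1), (3, 1), (13, 1), (14, 1), (27, 1)]) (.alt (.leaf
    [(0, 1), (3, 1), (7, 1), (9, 1), (11, 1), (13, 1), (22, 1)]) (.alt (.leaf [(0, 1), (1, 1),
    (7, 1), (11, 1), (13, 2), (29, 1)]) (.alt (.split 0 [0, 1, 1, -1] (.alt (.leaf [(0, 2), (11,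
    1), (13, 1), (31, 1)]) (.alt (.leaf [(0, 4), (9, 5), (13, 1), (32, 3)]) (.alt (.split 2 [0,
    0, 0, 1] (.alt (.leaf [(0, 1), (4, 1), (10, 1)]) (.alt (.leaf [(0, 4), (10, 3), (12, 8),
    (14, 11), (33, 5)]) (.alt (.leaf [(0, 1), (1, 1), (11, 1), (20, 1), (24, 1)]) (.alt (.leaf
    [(0, 1), (5, 1), (9, 1), (11, 1), (13, 1), (15, 2), (29, 1)]) (.alt (.leaf [(0, 1), (1, 1),
    (3, 1), (5, 1), (11, 2), (13, 2), (15, 1), (20, 1), (24, 1), (26, 1), (29, 1)]) (.alt (.leaf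
    [(0, 1), (1, 1), (2, 1), (5, 1), (11, 1), (15, 1), (19, 1), (20, 1), (24, 1), (29, 1)])
    (.alt (.leaf [(1, 4), (15, 1), (17, 4), (19, 5), (38, 3)]) (.done))))))))) (.alt (.leaf [(0,
    1), (4, 1), (10, 1), (15, 1), (20, 1)]) (.alt (.leaf [(0, 1), (1, 1), (5, 1), (10, 1), (12,
    1), (18, 1), (23, 2), (35, 2)]) (.alt (.leaf [(0, 1), (2, 1), (8, 1), (10, 1), (12, 1), (14,
    1), (22, 1)]) (.done)))))))) (.alt (.leaf [(0, 4), (13, 3), (15, 4), (17, 3), (36, 1)])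
    (.done))))))))) (.alt (.leaf [(0, 2), (3, 1), (10, 1), (12, 1), (15, 1), (20, 1), (27, 1)])
    (.alt (.leaf [(0, 2), (14, 1), (16, 1), (34, 1)]) (.done))))))))) (.alt (.leaf [(0, 1), (1,
    1), (7, 2), (9, 2), (11, 1), (20, 1), (25, 1)]) (.alt (.leaf [(0, 1), (1, 1), (5, 1), (7,
    1), (9, 1), (11, 1), (12, 1)]) (.alt (.split 0 [0, 1, 1, -1] (.alt (.leaf [(0, 2), (9, 1),
    (11, 1), (29, 1)]) (.alt (.leaf [(0, 4), (7, 5), (11, 1), (30, 3)]) (.alt (.split 2 [0, 1,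
    0, -1] (.alt (.leaf [(0, 4), (8, 1), (10, 8), (12, 9), (31, 3)]) (.alt (.leaf [(0, 4), (8,
    3), (12, 3), (31, 1)]) (.alt (.leaf [(0, 1), (3, 1), (9, 1), (13, 1), (18, 1), (27, 1)])
    (.alt (.leaf [(0, 1), (1, 1), (7, 1), (9, 1), (11, 1), (13, 1), (22, 1)]) (.alt (.leaf [(0,
    2), (4, 2), (7, 1), (9, 1), (11, 1), (13, 2), (17, 1), (24, 1), (29, 1)]) (.alt (.leaf [(0,
    1), (2, 1), (9, 1), (21, 1), (24, 1)]) (.alt (.leaf [(3, 1), (6, 1), (14, 1), (16, 1), (27,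
    1)]) (.done))))))))) (.alt (.leaf [(0, 1), (2, 1), (8, 1), (13, 1), (18, 1)]) (.alt (.split
    2 [1, 0, 0, -1] (.alt (.leaf [(0, 4), (8, 5), (10, 8), (12, 9), (31, 3)]) (.alt (.leaf [(0,
    2), (10, 1), (12, 1), (30, 1)]) (.alt (.leaf [(0, 2), (1, 2), (4, 2), (9, 2), (11, 2), (13,
    2), (14, 1), (17, 1), (22, 2), (27, 1), (29, 1), (34, 3)]) (.alt (.leaf [(0, 1), (3, 1), (7,
    1), (9, 1), (11, 1), (13, 1), (22, 1)]) (.alt (.leaf [(0, 3), (1, 1), (4, 1), (7, 2), (9,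
    1), (11, 1), (13, 4), (16, 1), (29, 2)]) (.alt (.leaf [(0, 1), (1, 1), (4, 1), (9, 1), (11,
    1), (17, 1), (22, 2), (34, 2)]) (.alt (.leaf [(0, 4), (13, 3), (15, 4), (17, 3), (36, 1)])
    (.done))))))))) (.alt (.leaf [(0, 1), (1, 1), (6, 1), (8, 2), (10, 1), (12, 1), (20, 1)])
    (.done)))))))) (.alt (.leaf [(0, 2), (2, 1), (7, 2), (9, 1), (11, 1), (14, 1), (19, 1), (26,
    1)]) (.alt (.leaf [(0, 2), (13, 1), (15, 1), (33, 1)]) (.done))))))))) (.alt (.leaf [(0, 2),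
    (2, 1), (4, 1), (6, 1), (8, 1), (10, 2), (12, 1), (23, 1)]) (.alt (.split 2 [1, 0, 0, -1]
    (.alt (.leaf [(0, 4), (6, 5), (8, 8), (10, 9), (29, 3)]) (.alt (.leaf [(0, 2), (8, 1), (10,
    1), (28, 1)]) (.alt (.leaf [(0, 2), (1, 2), (11, 2), (12, 1), (14, 1), (25, 1), (27, 1),
    (32, 1)]) (.alt (.split 2 [0, 0, 1, -1] (.alt (.leaf [(0, 4), (7, 1), (9, 4), (11, 9), (30,
    3)]) (.alt (.leaf [(0, 4), (7, 3), (9, 4), (11, 3), (30, 1)]) (.alt (.split 0 [0, 1, 1, -1]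
    (.alt (.leaf [(0, 2), (10, 1), (12, 1), (30, 1)]) (.alt (.leaf [(0, 4), (8, 5), (12, 1),
    (31, 3)]) (.alt (.split 1 [1, 1, 0, -1] (.alt (.leaf [(0, 4), (9, 3), (11, 8), (13, 3), (32,
    1)]) (.alt (.leaf [(0, 2), (9, 1), (11, 1), (31, 1), (32, 1)]) (.alt (.leaf [(0, 1), (3, 1),
    (8, 1), (14, 1), (19, 1)]) (.alt (.leaf [(0, 1), (1, 1), (12, 1), (16, 1), (23, 1)]) (.alt
    (.leaf [(0, 2), (5, 2), (8, 1), (10, 1), (12, 3), (14, 2), (17, 1), (23, 1), (30, 1), (35,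
    1)]) (.alt (.leaf [(0, 1), (4, 1), (10, 1), (12, 1), (22, 1), (23, 1), (35, 1)]) (.alt
    (.split 1 [] (.alt (.split 0 [0, 0, 1, -1] (.alt (.leaf [(0, 4), (16, 1), (20, 5), (39, 3)])
    (.alt (.leaf [(0, 1), (2, 1), (16, 1), (18, 1)]) (.alt (.leaf [(0, 1), (1, 1), (5, 1), (19,
    1), (23, 1), (30, 1)]) (.alt (.leaf [(0, 2), (5, 1), (8, 1), (15, 2), (17, 3), (19, 3), (21,
    3), (34, 1)]) (.alt (.leaf [(0, 1), (11, 1), (17, 2), (19, 2), (21, 1), (30, 1), (37, 1),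
    (42, 1)]) (.alt (.leaf [(0, 1), (11, 1), (15, 1), (17, 1), (19, 1), (21, 1), (24, 1)]) (.alt
    (.leaf [(3, 2), (10, 1), (13, 1), (22, 1), (24, 1), (26, 1), (39, 1)]) (.done))))))))) (.alt
    (.leaf [(0, 2), (3, 1), (7, 1), (14, 2), (16, 1), (18, 3), (20, 3), (34, 1)]) (.alt (.leaf
    [(0, 1), (11, 1), (14, 1), (16, 1), (18, 2), (20, 1), (29, 1), (41, 1)]) (.alt (.leaf [(0,
    1), (5, 1), (10, 1), (18, 1), (20, 1), (23, 1), (36, 1)]) (.done)))))) (.done))))))))) (.alt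
    (.leaf [(0, 1), (1, 1), (7, 1), (9, 1), (13, 1), (19, 1)]) (.alt (.leaf [(0, 1), (3, 1), (4,
    1), (9, 3), (11, 3), (13, 1), (22, 2), (29, 1), (34, 2)]) (.alt (.leaf [(0, 1), (3, 1), (9,
    1), (16, 1), (21, 1)]) (.done)))))))) (.alt (.leaf [(0, 1), (1, 1), (6, 1), (12, 2), (25,
    1)]) (.alt (.leaf [(0, 1), (2, 1), (8, 1), (10, 1), (12, 1), (21, 1), (28, 1), (33, 1)])
    (.alt (.leaf [(0, 1), (2, 1), (6, 1), (12, 1), (15, 1)]) (.alt (.leaf [(0, 2), (14, 1), (16,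
    1), (34, 1)]) (.done))))))))) (.alt (.leaf [(0, 1), (1, 1), (11, 1), (14, 1), (27, 1)])
    (.alt (.leaf [(0, 1), (1, 1), (5, 1), (7, 1), (9, 1), (11, 1), (20, 1), (32, 1)]) (.alt
    (.leaf [(0, 4), (11, 3), (13, 4), (15, 3), (34, 1)]) (.done))))))))) (.alt (.leaf [(0, 2),
    (1, 1), (6, 2), (8, 1), (10, 1), (14, 1), (18, 1), (25, 1)]) (.done)))))))) (.alt (.leaf
    [(0, 1), (11, 1)]) (.done))))))))) (.alt (.leaf [(0, 1), (2, 1), (8, 1), (27, 1)]) (.alt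
    (.split 0 [0, 1, -1, 0] (.alt (.leaf [(0, 2), (4, 1), (6, 2), (8, 1), (27, 1)]) (.alt (.leaf
    [(0, 1), (4, 1), (26, 1)]) (.alt (.leaf [(0, 1), (1, 1), (3, 1), (5, 1), (9, 1), (14, 1),
    (30, 1)]) (.alt (.split 0 [1, 0, 1, -1] (.alt (.leaf [(0, 4), (5, 3), (9, 3), (28, 1)])
    (.alt (.leaf [(0, 2), (5, 1), (7, 1), (27, 1), (28, 1)]) (.alt (.split 2 [1, 0, 0, -1] (.alt
    (.leaf [(0, 4), (6, 5), (8, 8), (10, 9), (29, 3)]) (.alt (.leaf [(0, 2), (8, 1), (10, 1),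
    (28, 1)]) (.alt (.leaf [(0, 1), (1, 1), (11, 1), (12, 1), (25, 1)]) (.alt (.leaf [(0, 1),
    (1, 1), (5, 1), (7, 1), (9, 1), (11, 1), (20, 1)]) (.alt (.leaf [(0, 2), (1, 2), (3, 1),
    (11, 2), (12, 1), (14, 1), (20, 1), (25, 1), (27, 1)]) (.alt (.split 2 [0, 0, 1, -1] (.alt
    (.leaf [(0, 4), (7, 1), (9, 4), (11, 9), (30, 3)]) (.alt (.leaf [(0, 4), (7, 3), (9, 4),
    (11, 3), (30, 1)]) (.alt (.leaf [(0, 1), (2, 1), (8, 1), (10, 1), (12, 1), (21, 1), (26,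
    1)]) (.alt (.leaf [(0, 1), (2, 1), (6, 1), (12, 1), (13, 1)]) (.alt (.split 0 [0, 1, 1, -1]
    (.alt (.leaf [(0, 2), (10, 1), (12, 1), (30, 1)]) (.alt (.leaf [(0, 4), (8, 5), (12, 1),
    (31, 3)]) (.alt (.leaf [(0, 1), (3, 1), (4, 1), (9, 3), (11, 3), (13, 1), (22, 2), (27, 1)])
    (.alt (.leaf [(0, 1), (3, 1), (9, 1), (14, 1), (19, 1)]) (.alt (.split 1 [1, 1, 0, -1] (.alt
    (.leaf [(0, 4), (9, 3), (11, 8), (13, 3), (32, 1)]) (.alt (.leaf [(0, 2), (9, 1), (11, 1),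
    (31, 1), (32, 1)]) (.alt (.leaf [(0, 2), (5, 2), (8, 1), (10, 1), (12, 3), (14, 2), (15, 1),
    (23, 1), (28, 1)]) (.alt (.leaf [(0, 1), (4, 1), (10, 1), (12, 1), (20, 1), (23, 1)]) (.alt
    (.leaf [(0, 1), (3, 1), (8, 1), (14, 1), (21, 1)]) (.alt (.leaf [(0, 1), (1, 1), (12, 1),
    (18, 1), (23, 1), (35, 1)]) (.alt (.split 1 [] (.alt (.leaf [(0, 1), (11, 1), (14, 1), (16,
    1), (18, 2), (20, 1), (29, 1)]) (.alt (.leaf [(0, 1), (3, 1), (10, 1), (18, 1), (20, 1),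
    (21, 1), (34, 1)]) (.alt (.split 0 [0, 0, 1, -1] (.alt (.leaf [(0, 4), (16, 1), (20, 5),
    (39, 3)]) (.alt (.leaf [(0, 1), (2, 1), (16, 1), (18, 1)]) (.alt (.leaf [(0, 1), (11, 1),
    (17, 2), (19, 2), (21, 1), (30, 1), (35, 1)]) (.alt (.leaf [(0, 1), (11, 1), (15, 1), (17,
    1), (19, 1), (21, 1), (22, 1)]) (.alt (.leaf [(0, 1), (1, 1), (7, 1), (19, 1), (25, 1), (32,
    1)]) (.alt (.leaf [(0, 2), (7, 1), (8, 1), (15, 2), (17, 3), (19, 3), (21, 3), (36, 1)])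
    (.alt (.leaf [(5, 2), (12, 1), (13, 1), (22, 1), (24, 1), (26, 1), (41, 1)]) (.done)))))))))
    (.alt (.leaf [(0, 2), (5, 1), (7, 1), (14, 2), (16, 1), (18, 3), (20, 3), (36, 1)])
    (.done)))))) (.done))))))))) (.alt (.leaf [(0, 1), (1, 1), (7, 1), (9, 1), (13, 1), (21,
    1)]) (.done)))))))) (.alt (.leaf [(0, 1), (1, 1), (6, 1), (12, 2), (27, 1)]) (.alt (.leaf
    [(0, 2), (14, 1), (16, 1), (34, 1)]) (.done))))))))) (.alt (.leaf [(0, 4), (11, 3), (13, 4),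
    (15, 3), (34, 1)]) (.done))))))))) (.alt (.leaf [(0, 2), (2, 1), (4, 1), (6, 1), (8, 1),
    (10, 2), (12, 1), (23, 1), (31, 1)]) (.alt (.split 2 [1, 0, 0, -1] (.alt (.leaf [(0, 4), (6,
    5), (8, 8), (10, 9), (29, 3)]) (.alt (.leaf [(0, 2), (8, 1), (10, 1), (28, 1)]) (.alt (.leaf
    [(0, 2), (1, 2), (11, 2), (12, 1), (14, 1), (25, 1), (27, 1), (32, 1)]) (.alt (.split 2 [0,
    0, 1, -1] (.alt (.leaf [(0, 4), (7, 1), (9, 4), (11, 9), (30, 3)]) (.alt (.leaf [(0, 4), (7,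
    3), (9, 4), (11, 3), (30, 1)]) (.alt (.split 0 [0, 1, 1, -1] (.alt (.leaf [(0, 2), (10, 1),
    (12, 1), (30, 1)]) (.alt (.leaf [(0, 4), (8, 5), (12, 1), (31, 3)]) (.alt (.leaf [(0, 1),
    (2, 1), (4, 1), (9, 1), (11, 1), (15, 1), (22, 2)]) (.alt (.leaf [(0, 1), (1, 1), (7, 1),
    (9, 1), (13, 1), (19, 1)]) (.alt (.split 0 [1, -1, 0, 0] (.alt (.leaf [(0, 2), (9, 3), (13,
    1), (32, 1)]) (.alt (.leaf [(0, 1), (11, 1), (31, 1)]) (.alt (.leaf [(0, 1), (1, 1), (2, 1),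
    (3, 1), (4, 1), (10, 3), (12, 1), (14, 1), (20, 1), (21, 1), (23, 2), (30, 1), (35, 1)])
    (.alt (.leaf [(0, 1), (5, 1), (10, 1), (12, 1), (16, 1), (23, 1)]) (.alt (.leaf [(0, 1), (1,
    2), (10, 3), (12, 2), (14, 1), (21, 1), (23, 1), (30, 1), (35, 1)]) (.alt (.leaf [(0, 1),
    (4, 2), (10, 3), (12, 2), (14, 1), (21, 1), (23, 1), (30, 1), (35, 1)]) (.alt (.leaf [(0,
    1), (14, 1)]) (.done))))))))) (.alt (.leaf [(0, 1), (3, 1), (9, 1), (16, 1), (21, 1)])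
    (.done)))))))) (.alt (.leaf [(0, 1), (1, 1), (6, 1), (12, 2), (25, 1)]) (.alt (.leaf [(0,
    1), (2, 1), (8, 1), (10, 1), (12, 1), (21, 1), (28, 1), (33, 1)]) (.alt (.leaf [(0, 1), (2,
    1), (6, 1), (12, 1), (15, 1)]) (.alt (.leaf [(0, 2), (14, 1), (16, 1), (34, 1)])
    (.done))))))))) (.alt (.leaf [(0, 1), (1, 1), (11, 1), (14, 1), (27, 1)]) (.alt (.leaf [(0,
    1), (1, 1), (5, 1), (7, 1), (9, 1), (11, 1), (20, 1), (32, 1)]) (.alt (.leaf [(0, 4), (11,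
    3), (13, 4), (15, 3), (34, 1)]) (.done))))))))) (.alt (.leaf [(0, 2), (2, 1), (4, 1), (6,
    1), (8, 1), (10, 2), (14, 1), (25, 1)]) (.done)))))))) (.alt (.leaf [(0, 1), (1, 1), (3, 1),
    (5, 1), (9, 1), (16, 1)]) (.alt (.split 0 [1, 0, 1, -1] (.alt (.leaf [(0, 4), (5, 3), (9,
    3), (28, 1)]) (.alt (.leaf [(0, 2), (5, 1), (7, 1), (27, 1), (28, 1)]) (.alt (.split 2 [1,
    0, 0, -1] (.alt (.leaf [(0, 4), (6, 5), (8, 8), (10, 9), (29, 3)]) (.alt (.leaf [(0, 2), (8,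
    1), (10, 1), (28, 1)]) (.alt (.leaf [(0, 1), (1, 1), (11, 1), (12, 1), (25, 1)]) (.alt
    (.leaf [(0, 1), (1, 1), (5, 1), (7, 1), (9, 1), (11, 1), (20, 1)]) (.alt (.leaf [(0, 2), (1,
    2), (3, 1), (11, 2), (12, 1), (14, 1), (20, 1), (25, 1), (27, 1)]) (.alt (.split 2 [0, 0, 1,
    -1] (.alt (.leaf [(0, 4), (7, 1), (9, 4), (11, 9), (30, 3)]) (.alt (.leaf [(0, 4), (7, 3),
    (9, 4), (11, 3), (30, 1)]) (.alt (.leaf [(0, 1), (2, 1), (8, 1), (10, 1), (12, 1), (21, 1),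
    (26, 1)]) (.alt (.leaf [(0, 1), (2, 1), (6, 1), (12, 1), (13, 1)]) (.alt (.split 0 [0, 1, 1,
    -1] (.alt (.leaf [(0, 2), (10, 1), (12, 1), (30, 1)]) (.alt (.leaf [(0, 4), (8, 5), (12, 1),
    (31, 3)]) (.alt (.split 0 [1, -1, 0, 0] (.alt (.leaf [(0, 2), (9, 3), (13, 1), (32, 1)])
    (.alt (.leaf [(0, 1), (11, 1), (31, 1)]) (.alt (.leaf [(0, 2), (1, 2), (8, 1), (10, 3), (12,
    3), (14, 2), (15, 1), (23, 1), (28, 1)]) (.alt (.leaf [(0, 1), (4, 2), (10, 3), (12, 2),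
    (14, 1), (19, 1), (23, 1), (28, 1)]) (.alt (.leaf [(0, 1), (2, 1), (3, 1), (8, 1), (10, 1),
    (14, 1), (22, 1), (25, 1)]) (.alt (.leaf [(0, 1), (5, 1), (10, 1), (12, 1), (18, 1), (25,
    1)]) (.alt (.leaf [(0, 1), (14, 1)]) (.done))))))))) (.alt (.leaf [(0, 1), (3, 1), (9, 1),
    (14, 1), (19, 1)]) (.alt (.leaf [(0, 1), (2, 1), (4, 1), (9, 1), (11, 1), (17, 1), (22, 2),
    (34, 2)]) (.alt (.leaf [(0, 1), (1, 1), (7, 1), (9, 1), (13, 1), (21, 1)]) (.done))))))))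
    (.alt (.leaf [(0, 1), (1, 1), (6, 1), (12, 2), (27, 1)]) (.alt (.leaf [(0, 2), (14, 1), (16,
    1), (34, 1)]) (.done))))))))) (.alt (.leaf [(0, 4), (11, 3), (13, 4), (15, 3), (34, 1)])
    (.done))))))))) (.alt (.leaf [(0, 2), (2, 1), (4, 1), (6, 1), (8, 1), (10, 2), (12, 1), (23,
    1), (31, 1)]) (.alt (.split 2 [1, 0, 0, -1] (.alt (.leaf [(0, 4), (6, 5), (8, 8), (10, 9),
    (29, 3)]) (.alt (.leaf [(0, 2), (8, 1), (10, 1), (28, 1)]) (.alt (.leaf [(0, 2), (1, 2),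
    (11, 2), (12, 1), (14, 1), (25, 1), (27, 1), (32, 1)]) (.alt (.split 2 [0, 0, 1, -1] (.alt
    (.leaf [(0, 4), (7, 1), (9, 4), (11, 9), (30, 3)]) (.alt (.leaf [(0, 4), (7, 3), (9, 4),
    (11, 3), (30, 1)]) (.alt (.split 0 [0, 1, 1, -1] (.alt (.leaf [(0, 2), (10, 1), (12, 1),
    (30, 1)]) (.alt (.leaf [(0, 4), (8, 5), (12, 1), (31, 3)]) (.alt (.split 1 [1, 1, 0, -1]
    (.alt (.leaf [(0, 4), (9, 3), (11, 8), (13, 3), (32, 1)]) (.alt (.leaf [(0, 2), (9, 1), (11,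
    1), (31, 1), (32, 1)]) (.alt (.leaf [(0, 1), (3, 1), (8, 1), (14, 1), (19, 1)]) (.alt (.leaf
    [(0, 1), (1, 1), (12, 1), (16, 1), (23, 1)]) (.alt (.leaf [(0, 2), (5, 2), (8, 1), (10, 1),
    (12, 3), (14, 2), (17, 1), (23, 1), (30, 1), (35, 1)]) (.alt (.leaf [(0, 1), (4, 1), (10,
    1), (12, 1), (22, 1), (23, 1), (35, 1)]) (.alt (.split 1 [] (.alt (.split 0 [0, 0, 1, -1]
    (.alt (.leaf [(0, 4), (16, 1), (20, 5), (39, 3)]) (.alt (.leaf [(0, 1), (2, 1), (16, 1),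
    (18, 1)]) (.alt (.leaf [(0, 1), (1, 1), (5, 1), (19, 1), (23, 1), (30, 1)]) (.alt (.leaf
    [(0, 2), (5, 1), (8, 1), (15, 2), (17, 3), (19, 3), (21, 3), (34, 1)]) (.alt (.leaf [(0, 1),
    (11, 1), (17, 2), (19, 2), (21, 1), (30, 1), (37, 1), (42, 1)]) (.alt (.leaf [(0, 1), (11,
    1), (15, 1), (17, 1), (19, 1), (21, 1), (24, 1)]) (.alt (.leaf [(3, 2), (10, 1), (13, 1),
    (22, 1), (24, 1), (26, 1), (39, 1)]) (.done))))))))) (.alt (.leaf [(0, 2), (3, 1), (7, 1),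
    (14, 2), (16, 1), (18, 3), (20, 3), (34, 1)]) (.alt (.leaf [(0, 1), (11, 1), (14, 1), (16,
    1), (18, 2), (20, 1), (29, 1), (41, 1)]) (.alt (.leaf [(0, 1), (5, 1), (10, 1), (18, 1),
    (20, 1), (23, 1), (36, 1)]) (.done)))))) (.done))))))))) (.alt (.leaf [(0, 1), (1, 1), (7,
    1), (9, 1), (13, 1), (19, 1)]) (.alt (.leaf [(0, 1), (3, 1), (4, 1), (9, 3), (11, 3), (13,
    1), (22, 2), (29, 1), (34, 2)]) (.alt (.leaf [(0, 1), (3, 1), (9, 1), (16, 1), (21, 1)])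
    (.done)))))))) (.alt (.leaf [(0, 1), (1, 1), (6, 1), (12, 2), (25, 1)]) (.alt (.leaf [(0,
    1), (2, 1), (8, 1), (10, 1), (12, 1), (21, 1), (28, 1), (33, 1)]) (.alt (.leaf [(0, 1), (2,
    1), (6, 1), (12, 1), (15, 1)]) (.alt (.leaf [(0, 2), (14, 1), (16, 1), (34, 1)])
    (.done))))))))) (.alt (.leaf [(0, 1), (1, 1), (11, 1), (14, 1), (27, 1)]) (.alt (.leaf [(0,
    1), (1, 1), (5, 1), (7, 1), (9, 1), (11, 1), (20, 1), (32, 1)]) (.alt (.leaf [(0, 4), (11,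
    3), (13, 4), (15, 3), (34, 1)]) (.done))))))))) (.alt (.leaf [(0, 2), (2, 1), (4, 1), (6,
    1), (8, 1), (10, 2), (14, 1), (25, 1)]) (.done)))))))) (.alt (.leaf [(0, 1), (11, 1)])
    (.done))))))))) (.alt (.leaf [(0, 1), (2, 1), (8, 1), (28, 1)]) (.done)))))

theorem C1.chk5 : checkOne C1.D 3 [(1, 1, 0), (-1, 1, 1), (1, 0, 1), (1, -1, 2), (0, 1, 1), (1, 2, 0), (-1, 1, 2), (-1, 2, 1)] (1, 0, 1) C1.T5 = true := by decide +kernel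

end Pool.Agent.Work.MP_7453a1_st
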