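import Pool.Agent.Work.MP_7453a1_st.CertC2D

set_option autoImplicit false
set_option maxRecDepth 100000

/-! Certificates (the next point of a slow triple). -/

namespace Pool.Agent.Work.MP_7453a1_st

open Pool.Agent.Work.MP_7453a1_nt_norm Pool.Agent.Work.MP_7453a1_nt_sup

/-- Class (0, 0, 0). -/
def C2.T0 : Tree :=
  .split 2 [0, 0, 0, 1] (.alt (.leaf [(0, 2), (1, 1), (3, 1), (32, 1)]) (.alt (.leaf [(0, 2), (1,
    6), (3, 6), (5, 3), (9, 1)]) (.alt (.leaf [(0, 2), (2, 1), (8, 2), (10, 2), (27, 1)]) (.alt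
    (.leaf [(0, 2), (2, 1), (8, 2), (10, 2), (28, 1)]) (.alt (.leaf [(0, 2), (2, 1), (8, 2),
    (10, 2), (29, 1)]) (.alt (.leaf [(0, 2), (2, 1), (8, 2), (10, 2), (30, 1)]) (.alt (.leaf
    [(1, 2), (6, 2), (8, 2), (10, 1), (14, 1)]) (.done))))))))

theorem C2.chk0 : checkOne C2.D 4 [(-1, 1, 2), (-1, 2, 1), (1, 0, 2), (1, 1, 1), (1, 2, 0)] (0, 0, 0) C2.T0 = true := by decide +kernel

/-- Class (1, 0, 0). -/
def C2.T1 : Tree :=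
  .split 1 [] (.alt (.leaf [(0, 1), (6, 1), (8, 1), (23, 1), (33, 1)]) (.alt (.split 0 [0, 0, 1,
    -1] (.alt (.leaf [(0, 2), (4, 1), (10, 2), (32, 2), (33, 1)]) (.alt (.leaf [(0, 2), (4, 1),
    (33, 1)]) (.alt (.split 1 [0, 1, 0, -1] (.alt (.leaf [(0, 2), (7, 2), (11, 3), (33, 1), (34,
    2)]) (.alt (.leaf [(0, 2), (5, 1), (34, 1)]) (.alt (.leaf [(0, 1), (1, 1), (2, 1), (8, 2),
    (10, 1), (12, 1), (14, 1), (21, 1), (30, 1)]) (.alt (.leaf [(0, 1), (1, 1), (6, 1), (8, 1),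
    (18, 1), (21, 1)]) (.alt (.split 0 [0, 1, 1, -1] (.alt (.leaf [(0, 2), (12, 1), (34, 1)])
    (.alt (.leaf [(0, 2), (6, 2), (12, 1), (34, 1), (35, 2)]) (.alt (.leaf [(0, 2), (3, 2), (7,
    1), (9, 3), (11, 1), (13, 1), (15, 1), (22, 2), (31, 1)]) (.alt (.leaf [(0, 1), (2, 1), (7,
    2), (9, 2), (11, 1), (22, 1), (27, 1)]) (.alt (.split 2 [1, 0, 0, -1] (.alt (.leaf [(0, 2),
    (7, 2), (13, 5), (35, 1), (36, 4)]) (.alt (.leaf [(0, 2), (13, 1), (35, 1), (36, 2)]) (.alt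
    (.leaf [(0, 1), (3, 1), (8, 1), (10, 1), (12, 1), (14, 1), (23, 1), (32, 1)]) (.alt (.split
    0 [1, 0, 1, -1] (.alt (.leaf [(0, 2), (8, 2), (14, 1), (36, 1)]) (.alt (.leaf [(0, 2), (14,
    1), (36, 1), (37, 2)]) (.alt (.leaf [(0, 1), (1, 1), (7, 1), (9, 1), (11, 1), (13, 1), (15,
    1), (24, 1)]) (.alt (.leaf [(0, 2), (5, 2), (9, 1), (11, 3), (13, 3), (15, 1), (17, 1), (29,
    2), (32, 1)]) (.alt (.leaf [(0, 1), (3, 1), (9, 1), (11, 2), (13, 2), (15, 1), (30, 1), (35,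
    1)]) (.alt (.leaf [(0, 1), (2, 1), (9, 1), (11, 1), (13, 1), (19, 1), (30, 1), (39, 1)])
    (.done)))))))) (.alt (.leaf [(0, 1), (1, 1), (8, 1), (10, 1), (12, 2), (14, 1), (29, 1),
    (34, 1)]) (.alt (.leaf [(0, 1), (1, 1), (12, 1), (18, 1), (29, 1)]) (.alt (.leaf [(0, 2),
    (12, 1), (18, 2), (41, 1)]) (.done))))))))) (.alt (.leaf [(0, 1), (1, 1), (5, 2), (7, 1),
    (9, 2), (11, 2), (13, 2), (37, 1)]) (.alt (.leaf [(5, 1), (6, 1), (10, 1), (14, 1), (16, 1),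
    (18, 1), (42, 1)]) (.done))))))))) (.alt (.split 0 [0, 1, 1, -1] (.alt (.leaf [(0, 2), (12,
    1), (34, 1)]) (.alt (.leaf [(0, 2), (6, 2), (12, 1), (34, 1), (35, 2)]) (.alt (.leaf [(0,
    2), (3, 2), (7, 1), (9, 3), (11, 1), (13, 1), (15, 1), (22, 2), (31, 1)]) (.alt (.leaf [(0,
    1), (2, 1), (7, 2), (9, 2), (11, 1), (22, 1), (27, 1)]) (.alt (.leaf [(0, 2), (1, 2), (7,
    2), (9, 4), (11, 2), (22, 2), (26, 1), (27, 1), (38, 2)]) (.alt (.split 2 [1, 0, 0, -1]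
    (.alt (.leaf [(0, 2), (7, 2), (13, 5), (35, 1), (36, 4)]) (.alt (.leaf [(0, 2), (13, 1),
    (35, 1), (36, 2)]) (.alt (.leaf [(0, 1), (3, 1), (8, 1), (10, 1), (12, 1), (14, 1), (23, 1),
    (32, 1)]) (.alt (.split 0 [1, 0, 1, -1] (.alt (.leaf [(0, 2), (8, 2), (14, 1), (36, 1)])
    (.alt (.leaf [(0, 2), (14, 1), (36, 1), (37, 2)]) (.alt (.leaf [(0, 1), (1, 1), (7, 1), (9,
    1), (11, 1), (13, 1), (15, 1), (24, 1)]) (.alt (.leaf [(0, 2), (5, 2), (9, 1), (11, 3), (13,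
    3), (15, 1), (17, 1), (29, 2), (32, 1)]) (.alt (.leaf [(0, 1), (2, 1), (9, 1), (18, 1), (23,
    1)]) (.alt (.leaf [(0, 1), (3, 1), (9, 1), (11, 2), (13, 2), (15, 1), (31, 1), (34, 1)])
    (.done)))))))) (.alt (.leaf [(0, 1), (1, 1), (12, 1), (17, 1), (30, 1)]) (.alt (.leaf [(0,
    1), (1, 1), (8, 1), (10, 1), (12, 2), (14, 1), (30, 1), (33, 1)]) (.alt (.leaf [(0, 2), (12,
    1), (18, 2), (41, 1)]) (.done))))))))) (.alt (.leaf [(4, 1), (6, 1), (14, 1), (27, 1), (43,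
    1)]) (.done))))))))) (.alt (.leaf [(0, 2), (12, 2), (16, 1), (38, 1)]) (.done))))))))) (.alt
    (.leaf [(0, 2), (1, 2), (5, 1), (7, 3), (9, 3), (11, 1), (12, 1), (25, 2), (28, 1)]) (.alt
    (.split 1 [0, 1, 0, -1] (.alt (.leaf [(0, 2), (7, 2), (11, 3), (33, 1), (34, 2)]) (.alt
    (.leaf [(0, 2), (5, 1), (34, 1)]) (.alt (.leaf [(0, 2), (1, 2), (2, 2), (8, 4), (10, 2),
    (12, 2), (14, 1), (16, 1), (23, 2), (30, 1), (32, 1)]) (.alt (.split 0 [] (.alt (.split 0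
    [1, 1, 0, -1] (.alt (.leaf [(0, 2), (7, 1), (13, 2), (36, 1)]) (.alt (.leaf [(0, 2), (7, 1),
    (35, 2), (36, 1)]) (.alt (.leaf [(0, 2), (4, 2), (8, 1), (10, 3), (12, 3), (14, 1), (15, 1),
    (27, 1), (28, 1), (32, 1)]) (.alt (.leaf [(0, 2), (1, 1), (8, 3), (10, 1), (12, 1), (14, 1),
    (20, 2), (31, 1)]) (.alt (.leaf [(0, 1), (3, 1), (8, 2), (10, 2), (12, 2), (14, 1), (29, 1),
    (34, 1)]) (.alt (.split 0 [0, 1, 1, -1] (.alt (.leaf [(0, 2), (14, 1), (36, 1)]) (.alt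
    (.leaf [(0, 2), (8, 2), (14, 1), (36, 1), (37, 2)]) (.alt (.leaf [(0, 2), (2, 1), (9, 3),
    (11, 3), (13, 3), (15, 1), (28, 2), (33, 1)]) (.alt (.split 0 [1, 0, 1, -1] (.alt (.leaf
    [(0, 2), (9, 2), (15, 1), (37, 1)]) (.alt (.leaf [(0, 2), (15, 1), (37, 1), (38, 2)]) (.alt
    (.leaf [(0, 1), (1, 1), (10, 1), (17, 1), (22, 1)]) (.alt (.leaf [(0, 1), (4, 1), (10, 1),
    (12, 2), (14, 2), (16, 1), (30, 1), (33, 1)]) (.alt (.leaf [(0, 1), (2, 1), (10, 2), (12,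
    1), (24, 1), (25, 1), (41, 1)]) (.alt (.leaf [(0, 2), (5, 2), (10, 2), (12, 2), (14, 2),
    (20, 2), (29, 1), (30, 1)]) (.done)))))))) (.alt (.leaf [(0, 1), (1, 1), (9, 1), (11, 1),
    (19, 1), (24, 1), (40, 1)]) (.alt (.leaf [(0, 1), (4, 1), (9, 2), (11, 2), (13, 1), (26, 1),
    (31, 1)]) (.alt (.leaf [(2, 2), (7, 1), (10, 2), (14, 1), (16, 3), (18, 1), (20, 1), (29,
    2), (38, 1)]) (.done))))))))) (.done)))))))) (.alt (.leaf [(0, 1), (1, 2), (7, 1), (9, 1),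
    (11, 1), (13, 1), (19, 2), (30, 1)]) (.alt (.leaf [(0, 1), (2, 2), (7, 3), (9, 3), (11, 1),
    (13, 1), (24, 2), (33, 1)]) (.alt (.split 0 [1, 0, 1, -1] (.alt (.leaf [(0, 2), (7, 2), (13,
    1), (35, 1)]) (.alt (.leaf [(0, 2), (13, 1), (35, 1), (36, 2)]) (.alt (.split 0 [0, 1, 1,
    -1] (.alt (.leaf [(0, 2), (14, 1), (36, 1)]) (.alt (.leaf [(0, 2), (8, 2), (14, 1), (36, 1),
    (37, 2)]) (.alt (.leaf [(0, 1), (3, 1), (7, 1), (9, 1), (11, 2), (13, 1), (15, 1), (24, 1)])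
    (.alt (.leaf [(0, 1), (1, 1), (9, 1), (16, 1), (21, 1)]) (.alt (.split 0 [1, 1, 0, -1] (.alt
    (.leaf [(0, 2), (9, 1), (15, 2), (38, 1)]) (.alt (.leaf [(0, 2), (9, 1), (37, 2), (38, 1)])
    (.alt (.leaf [(0, 2), (6, 2), (10, 1), (12, 3), (14, 3), (16, 1), (17, 1), (29, 1), (30, 1),
    (34, 1)]) (.alt (.leaf [(0, 1), (2, 1), (10, 2), (12, 1), (22, 1), (25, 1)]) (.alt (.leaf
    [(0, 1), (5, 1), (10, 2), (12, 2), (14, 2), (16, 1), (31, 1), (36, 1)]) (.alt (.leaf [(0,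
    1), (1, 1), (10, 1), (12, 1), (20, 1), (27, 1)]) (.done)))))))) (.alt (.leaf [(0, 2), (2,
    1), (9, 3), (11, 3), (13, 3), (15, 1), (31, 2), (34, 1)]) (.alt (.leaf [(5, 1), (9, 1), (14,
    1), (28, 1)]) (.done))))))))) (.alt (.leaf [(0, 1), (2, 1), (8, 1), (10, 2), (12, 2), (14,
    1), (28, 1), (31, 1)]) (.alt (.leaf [(0, 2), (1, 1), (8, 3), (10, 3), (12, 1), (14, 1), (25,
    2), (34, 1)]) (.alt (.leaf [(0, 2), (3, 2), (8, 2), (10, 2), (12, 2), (18, 2), (27, 1), (28,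
    1)]) (.done)))))))) (.done)))))) (.alt (.split 0 [1, 0, 1, -1] (.alt (.leaf [(0, 2), (6, 2),
    (12, 1), (34, 1)]) (.alt (.leaf [(0, 2), (12, 1), (34, 1), (35, 2)]) (.alt (.split 0 [1, 1,
    0, -1] (.alt (.leaf [(0, 2), (7, 1), (13, 2), (36, 1)]) (.alt (.leaf [(0, 2), (7, 1), (35,
    2), (36, 1)]) (.alt (.leaf [(0, 4), (1, 2), (4, 2), (8, 3), (10, 5), (12, 5), (14, 3), (15,
    3), (27, 2), (32, 3)]) (.alt (.leaf [(0, 1), (1, 1), (8, 2), (10, 1), (20, 1), (23, 1)])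
    (.alt (.leaf [(0, 1), (3, 1), (8, 2), (10, 2), (12, 2), (14, 1), (29, 1), (34, 1)]) (.alt
    (.leaf [(0, 1), (2, 1), (6, 1), (10, 1), (12, 1), (14, 1), (18, 1)]) (.done)))))))) (.alt
    (.leaf [(0, 2), (3, 2), (7, 1), (9, 3), (11, 3), (13, 1), (15, 1), (27, 2), (30, 1)]) (.alt
    (.leaf [(0, 1), (1, 1), (7, 1), (9, 2), (11, 2), (13, 1), (28, 1), (33, 1)]) (.alt (.leaf
    [(0, 2), (2, 2), (7, 2), (9, 2), (11, 2), (17, 2), (26, 1), (27, 1)]) (.done)))))))) (.alt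
    (.leaf [(0, 1), (1, 1), (6, 1), (8, 1), (20, 1), (21, 1), (37, 1)]) (.alt (.leaf [(0, 2),
    (12, 2), (16, 1), (38, 1)]) (.done))))))))) (.alt (.leaf [(0, 2), (5, 1), (7, 1), (9, 1),
    (11, 1), (14, 1), (30, 1), (35, 2)]) (.alt (.leaf [(0, 2), (15, 1), (37, 1)])
    (.done))))))))) (.alt (.leaf [(0, 1), (6, 1), (8, 1), (25, 1), (34, 1)]) (.alt (.split 2 []
    (.alt (.split 0 [1, -1, 0, 0] (.alt (.leaf [(0, 2), (5, 3), (11, 1), (33, 1), (34, 1)])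
    (.alt (.leaf [(0, 1), (7, 1), (33, 1)]) (.alt (.split 0 [0, 0, 1, -1] (.alt (.leaf [(0, 2),
    (6, 1), (12, 2), (34, 2), (35, 1)]) (.alt (.leaf [(0, 2), (6, 1), (35, 1)]) (.alt (.split 1
    [0, 1, 0, -1] (.alt (.leaf [(0, 2), (9, 2), (13, 3), (35, 1), (36, 2)]) (.alt (.leaf [(0,
    2), (7, 1), (36, 1)]) (.alt (.leaf [(0, 6), (1, 2), (2, 4), (8, 6), (10, 12), (12, 12), (14,
    4), (27, 5), (28, 3), (32, 4)]) (.alt (.leaf [(0, 1), (1, 1), (8, 1), (10, 1), (20, 1), (23,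
    1)]) (.alt (.leaf [(0, 2), (1, 2), (2, 1), (4, 2), (8, 2), (10, 6), (12, 3), (14, 2), (18,
    1), (23, 3), (28, 1), (32, 1), (34, 1)]) (.alt (.split 0 [] (.alt (.leaf [(0, 1), (2, 2),
    (9, 3), (11, 3), (13, 1), (15, 1), (24, 2), (33, 1)]) (.alt (.leaf [(0, 1), (3, 1), (9, 2),
    (11, 2), (13, 1), (24, 1), (29, 1)]) (.alt (.split 0 [1, 0, -1, 0] (.alt (.leaf [(0, 1), (9,
    1), (15, 1), (38, 1)]) (.alt (.leaf [(0, 1), (37, 1)]) (.alt (.leaf [(0, 2), (3, 2), (10,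
    3), (12, 3), (14, 3), (16, 1), (17, 1), (29, 1), (30, 1), (34, 1)]) (.alt (.leaf [(0, 1),
    (4, 1), (10, 2), (12, 1), (22, 1), (25, 1)]) (.alt (.leaf [(0, 1), (6, 1), (12, 1), (14, 1),
    (19, 1), (32, 1)]) (.alt (.leaf [(0, 2), (1, 2), (10, 4), (12, 4), (14, 2), (27, 2), (29,
    1), (30, 1)]) (.alt (.leaf [(2, 1), (8, 2), (15, 2), (17, 2), (19, 1), (21, 1), (30, 1),
    (39, 1)]) (.done))))))))) (.alt (.leaf [(0, 1), (1, 2), (9, 1), (11, 1), (13, 1), (15, 1),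
    (23, 2), (34, 1)]) (.done)))))) (.alt (.leaf [(2, 1), (6, 1), (7, 1), (13, 2), (15, 2), (17,
    1), (19, 1), (28, 1), (37, 1)]) (.done))))))))) (.alt (.leaf [(0, 2), (2, 2), (7, 1), (9,
    1), (11, 3), (13, 1), (14, 1), (26, 1), (27, 1), (30, 1)]) (.alt (.split 0 [0, 1, 1, -1]
    (.alt (.leaf [(0, 2), (13, 1), (35, 1)]) (.alt (.leaf [(0, 2), (7, 2), (13, 1), (35, 1),
    (36, 2)]) (.alt (.leaf [(0, 2), (2, 1), (8, 3), (10, 3), (12, 2), (14, 1), (23, 1), (27, 1),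
    (32, 1)]) (.alt (.split 2 [1, 0, 0, -1] (.alt (.leaf [(0, 2), (8, 2), (14, 5), (36, 1), (37,
    4)]) (.alt (.leaf [(0, 2), (14, 1), (36, 1), (37, 2)]) (.alt (.leaf [(0, 1), (1, 1), (13,
    1), (16, 1), (29, 1)]) (.alt (.leaf [(0, 1), (1, 1), (9, 1), (11, 1), (13, 2), (15, 1), (29,
    1), (32, 1)]) (.alt (.leaf [(0, 1), (2, 1), (9, 1), (11, 1), (13, 1), (15, 1), (26, 1), (35,
    1)]) (.alt (.split 0 [1, 0, 1, -1] (.alt (.leaf [(0, 2), (9, 2), (15, 1), (37, 1)]) (.alt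
    (.leaf [(0, 2), (15, 1), (37, 1), (38, 2)]) (.alt (.leaf [(0, 1), (2, 1), (10, 1), (17, 1),
    (22, 1)]) (.alt (.leaf [(0, 2), (4, 1), (5, 1), (10, 3), (12, 3), (14, 4), (16, 1), (29, 1),
    (30, 2), (33, 1)]) (.alt (.leaf [(0, 2), (1, 2), (2, 2), (10, 3), (12, 3), (14, 3), (16, 1),
    (17, 1), (27, 2), (30, 2), (33, 1)]) (.alt (.leaf [(0, 2), (2, 2), (3, 2), (10, 3), (12, 3),
    (14, 3), (16, 1), (17, 1), (20, 2), (30, 2), (33, 1)]) (.done)))))))) (.alt (.leaf [(0, 2),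
    (13, 1), (19, 2), (42, 1)]) (.done))))))))) (.alt (.leaf [(0, 2), (4, 2), (8, 1), (10, 3),
    (12, 1), (14, 1), (18, 1), (25, 2), (34, 1)]) (.alt (.leaf [(0, 1), (1, 1), (8, 2), (10, 2),
    (12, 1), (25, 1), (30, 1)]) (.alt (.leaf [(5, 1), (6, 1), (13, 1), (27, 1)]) (.done)))))))))
    (.alt (.leaf [(0, 2), (3, 2), (7, 1), (9, 3), (11, 3), (13, 1), (16, 1), (29, 2), (32, 1)])
    (.alt (.leaf [(0, 2), (17, 1), (39, 1)]) (.done))))))))) (.alt (.leaf [(0, 1), (1, 1), (10,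
    1), (14, 1), (25, 1)]) (.alt (.split 0 [1, 0, 1, -1] (.alt (.leaf [(0, 2), (6, 2), (12, 1),
    (34, 1)]) (.alt (.leaf [(0, 2), (12, 1), (34, 1), (35, 2)]) (.alt (.split 0 [1, 0, -1, 0]
    (.alt (.leaf [(0, 1), (7, 1), (13, 1), (36, 1)]) (.alt (.leaf [(0, 1), (35, 1)]) (.alt
    (.leaf [(0, 1), (3, 1), (6, 1), (12, 1), (14, 1), (15, 1)]) (.alt (.split 0 [] (.alt (.leaf
    [(0, 2), (1, 2), (9, 4), (11, 4), (13, 2), (24, 2), (28, 1), (29, 1)]) (.alt (.leaf [(0, 1),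
    (2, 2), (9, 3), (11, 3), (13, 1), (15, 1), (24, 2), (33, 1)]) (.alt (.split 0 [1, 1, 0, -1]
    (.alt (.leaf [(0, 2), (9, 1), (15, 2), (38, 1)]) (.alt (.leaf [(0, 2), (9, 1), (37, 2), (38,
    1)]) (.alt (.leaf [(0, 6), (2, 4), (3, 2), (10, 12), (12, 12), (14, 12), (16, 4), (29, 7),
    (30, 1), (34, 4)]) (.alt (.leaf [(0, 1), (3, 1), (10, 2), (12, 1), (22, 1), (25, 1)]) (.alt
    (.leaf [(0, 2), (6, 2), (10, 1), (12, 3), (14, 3), (16, 1), (19, 1), (29, 1), (30, 1), (36,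
    1)]) (.alt (.leaf [(0, 2), (1, 1), (10, 3), (12, 1), (14, 1), (16, 1), (24, 2), (35, 1)])
    (.done)))))))) (.alt (.leaf [(0, 1), (1, 1), (2, 2), (3, 1), (9, 5), (11, 4), (13, 1), (15,
    1), (23, 1), (24, 3), (33, 1)]) (.done)))))) (.alt (.leaf [(0, 1), (4, 1), (10, 1), (12, 1),
    (17, 1), (30, 1)]) (.alt (.leaf [(0, 1), (2, 1), (8, 2), (10, 1), (22, 1), (25, 1)]) (.alt
    (.leaf [(0, 1), (12, 1), (14, 1)]) (.done))))))))) (.alt (.leaf [(0, 2), (2, 2), (5, 2), (7,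
    1), (9, 1), (11, 3), (13, 3), (15, 1), (30, 1)]) (.alt (.split 0 [0, 1, 1, -1] (.alt (.leaf
    [(0, 2), (13, 1), (35, 1)]) (.alt (.leaf [(0, 2), (7, 2), (13, 1), (35, 1), (36, 2)]) (.alt
    (.split 0 [1, 1, 0, -1] (.alt (.leaf [(0, 2), (8, 1), (14, 2), (37, 1)]) (.alt (.leaf [(0,
    2), (8, 1), (36, 2), (37, 1)]) (.alt (.leaf [(0, 1), (1, 1), (4, 1), (9, 2), (11, 2), (13,
    3), (15, 1), (28, 2), (33, 1)]) (.alt (.leaf [(0, 1), (1, 1), (9, 1), (11, 1), (17, 1), (24,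
    1)]) (.alt (.leaf [(0, 2), (5, 2), (9, 1), (11, 3), (13, 3), (15, 1), (18, 1), (28, 1), (29,
    1), (35, 1)]) (.alt (.leaf [(0, 1), (2, 1), (9, 2), (11, 1), (23, 1), (24, 1), (40, 1)])
    (.done)))))))) (.alt (.split 3 [1, 0, -1, -1] (.alt (.leaf [(0, 2), (8, 2), (14, 9), (36,
    1), (37, 6)]) (.alt (.leaf [(0, 2), (14, 1), (36, 1)]) (.alt (.leaf [(0, 2), (1, 2), (2, 2),
    (9, 1), (11, 1), (13, 1), (15, 1), (16, 2), (18, 1), (29, 2), (35, 1), (40, 2)]) (.alt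
    (.leaf [(0, 1), (1, 1), (9, 1), (15, 1), (21, 1), (32, 1)]) (.alt (.leaf [(0, 1), (2, 1),
    (15, 1), (18, 1), (35, 1)]) (.alt (.leaf [(0, 1), (1, 2), (2, 1), (9, 2), (15, 1), (16, 1),
    (21, 2), (32, 1), (40, 2)]) (.alt (.leaf [(0, 2), (13, 4), (15, 6), (19, 1), (41, 3)])
    (.done))))))))) (.alt (.leaf [(0, 4), (2, 2), (4, 2), (8, 6), (10, 8), (12, 4), (14, 2),
    (23, 4), (27, 1), (28, 1), (34, 2), (39, 4)]) (.alt (.leaf [(0, 1), (1, 1), (8, 1), (17, 1),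
    (22, 1)]) (.alt (.leaf [(1, 2), (12, 1), (41, 1)]) (.done))))))))) (.alt (.leaf [(0, 4), (1,
    2), (3, 2), (7, 6), (9, 8), (11, 8), (13, 2), (26, 1), (27, 1), (29, 4), (32, 2)])
    (.done)))))))) (.alt (.leaf [(0, 2), (2, 2), (8, 2), (10, 2), (16, 2), (25, 1), (26, 1)])
    (.alt (.leaf [(0, 1), (10, 1)]) (.done))))))))) (.alt (.leaf [(0, 1), (1, 1), (3, 1), (7,
    1), (9, 2), (11, 1), (27, 1), (36, 1)]) (.alt (.split 0 [1, -1, 0, 0] (.alt (.leaf [(0, 2),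
    (5, 3), (11, 1), (33, 1), (34, 1)]) (.alt (.leaf [(0, 1), (7, 1), (33, 1)]) (.alt (.split 0
    [0, 1, 1, -1] (.alt (.leaf [(0, 2), (12, 1), (34, 1)]) (.alt (.leaf [(0, 2), (6, 2), (12,
    1), (34, 1), (35, 2)]) (.alt (.leaf [(0, 2), (1, 1), (7, 3), (9, 3), (11, 2), (13, 1), (22,
    1), (26, 1), (31, 1)]) (.alt (.split 0 [1, 0, 1, -1] (.alt (.leaf [(0, 2), (7, 2), (13, 1),
    (35, 1)]) (.alt (.leaf [(0, 2), (13, 1), (35, 1), (36, 2)]) (.alt (.leaf [(0, 1), (1, 1),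
    (8, 1), (15, 1), (20, 1)]) (.alt (.leaf [(0, 2), (2, 2), (8, 3), (10, 3), (12, 3), (14, 1),
    (15, 1), (28, 2), (31, 1)]) (.alt (.split 3 [1, 0, -1, -1] (.alt (.leaf [(0, 2), (8, 2),
    (14, 9), (36, 1), (37, 6)]) (.alt (.leaf [(0, 2), (14, 1), (36, 1)]) (.alt (.leaf [(0, 2),
    (1, 2), (2, 2), (9, 1), (11, 1), (13, 1), (15, 1), (16, 2), (18, 1), (29, 2), (35, 1), (40,
    2)]) (.alt (.leaf [(0, 1), (2, 1), (9, 1), (15, 1), (21, 1), (32, 1)]) (.alt (.leaf [(0, 2),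
    (2, 2), (4, 2), (13, 2), (15, 2), (16, 1), (18, 1), (29, 2), (32, 1), (35, 1)]) (.alt (.leaf
    [(0, 1), (1, 1), (2, 2), (9, 2), (15, 1), (16, 1), (21, 2), (32, 1), (40, 2)]) (.alt (.leaf
    [(0, 2), (13, 4), (15, 6), (19, 1), (41, 3)]) (.done))))))))) (.alt (.leaf [(0, 2), (1, 2),
    (3, 2), (8, 2), (10, 2), (12, 4), (14, 2), (15, 1), (18, 1), (28, 2), (31, 1), (33, 1)])
    (.done)))))))) (.alt (.leaf [(0, 2), (3, 2), (7, 1), (9, 3), (11, 1), (13, 1), (17, 1), (24,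
    2), (33, 1)]) (.alt (.split 0 [1, 0, -1, 0] (.alt (.leaf [(0, 1), (7, 1), (13, 1), (36, 1)])
    (.alt (.leaf [(0, 1), (35, 1)]) (.alt (.leaf [(0, 1), (3, 1), (6, 1), (12, 1), (14, 1), (15,
    1), (39, 1)]) (.alt (.leaf [(0, 1), (2, 1), (8, 2), (10, 1), (20, 1), (23, 1)]) (.alt (.leaf
    [(0, 1), (3, 1), (6, 1), (12, 1), (14, 1), (17, 1)]) (.alt (.leaf [(0, 1), (1, 2), (8, 3),
    (10, 2), (12, 2), (14, 1), (22, 1), (30, 1), (33, 1)]) (.alt (.leaf [(5, 1), (6, 2), (8, 1),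
    (13, 2), (17, 1), (19, 1), (27, 2), (38, 1)]) (.done))))))))) (.alt (.leaf [(1, 2), (11, 1),
    (40, 1)]) (.done))))))))) (.alt (.leaf [(0, 1), (1, 1), (10, 1), (14, 1), (25, 1), (37, 1)])
    (.alt (.split 0 [1, 0, 1, -1] (.alt (.leaf [(0, 2), (6, 2), (12, 1), (34, 1)]) (.alt (.leaf
    [(0, 2), (12, 1), (34, 1), (35, 2)]) (.alt (.split 0 [1, 0, -1, 0] (.alt (.leaf [(0, 1), (7,
    1), (13, 1), (36, 1)]) (.alt (.leaf [(0, 1), (35, 1)]) (.alt (.leaf [(0, 1), (3, 1), (6, 1),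
    (12, 1), (14, 1), (15, 1), (39, 1)]) (.alt (.split 0 [] (.alt (.leaf [(0, 2), (1, 2), (9,
    4), (11, 4), (13, 2), (24, 2), (28, 1), (29, 1)]) (.alt (.leaf [(0, 1), (2, 2), (9, 3), (11,
    3), (13, 1), (15, 1), (24, 2), (33, 1)]) (.alt (.split 0 [1, 1, 0, -1] (.alt (.leaf [(0, 2),
    (9, 1), (15, 2), (38, 1)]) (.alt (.leaf [(0, 2), (9, 1), (37, 2), (38, 1)]) (.alt (.leaf
    [(0, 6), (2, 4), (3, 2), (10, 12), (12, 12), (14, 12), (16, 4), (29, 7), (30, 1), (34, 4)])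
    (.alt (.leaf [(0, 1), (3, 1), (10, 2), (12, 1), (22, 1), (25, 1)]) (.alt (.leaf [(0, 2), (6,
    2), (10, 1), (12, 3), (14, 3), (16, 1), (19, 1), (29, 1), (30, 1), (36, 1)]) (.alt (.leaf
    [(0, 2), (1, 1), (10, 3), (12, 1), (14, 1), (16, 1), (24, 2), (35, 1)]) (.done)))))))) (.alt
    (.leaf [(0, 1), (1, 1), (2, 2), (3, 1), (9, 5), (11, 4), (13, 1), (15, 1), (23, 1), (24, 3),
    (33, 1)]) (.done)))))) (.alt (.leaf [(0, 1), (3, 1), (6, 1), (12, 1), (14, 1), (17, 1)])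
    (.alt (.leaf [(0, 1), (2, 1), (8, 2), (10, 1), (22, 1), (25, 1)]) (.alt (.leaf [(0, 1), (12,
    1), (14, 1)]) (.done))))))))) (.alt (.leaf [(0, 2), (2, 2), (5, 2), (7, 1), (9, 1), (11, 3),
    (13, 3), (15, 1), (30, 1), (38, 2)]) (.alt (.split 0 [0, 1, 1, -1] (.alt (.leaf [(0, 2),
    (13, 1), (35, 1)]) (.alt (.leaf [(0, 2), (7, 2), (13, 1), (35, 1), (36, 2)]) (.alt (.split 0
    [1, 1, 0, -1] (.alt (.leaf [(0, 2), (8, 1), (14, 2), (37, 1)]) (.alt (.leaf [(0, 2), (8, 1),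
    (36, 2), (37, 1)]) (.alt (.leaf [(0, 1), (1, 1), (4, 1), (9, 2), (11, 2), (13, 3), (15, 1),
    (28, 2), (33, 1), (40, 1)]) (.alt (.leaf [(0, 1), (1, 1), (9, 1), (11, 1), (17, 1), (24,
    1)]) (.alt (.leaf [(0, 2), (5, 2), (9, 1), (11, 3), (13, 3), (15, 1), (18, 1), (28, 1), (29,
    1), (35, 1)]) (.alt (.leaf [(0, 1), (2, 1), (9, 2), (11, 1), (23, 1), (24, 1), (40, 1)])
    (.done)))))))) (.alt (.split 3 [1, 0, -1, -1] (.alt (.leaf [(0, 2), (8, 2), (14, 9), (36,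
    1), (37, 6)]) (.alt (.leaf [(0, 2), (14, 1), (36, 1)]) (.alt (.leaf [(0, 2), (1, 2), (2, 2),
    (9, 1), (11, 1), (13, 1), (15, 1), (16, 2), (18, 1), (29, 2), (35, 1), (40, 2)]) (.alt
    (.leaf [(0, 1), (1, 1), (9, 1), (15, 1), (21, 1), (32, 1)]) (.alt (.leaf [(0, 2), (1, 2),
    (4, 2), (13, 2), (15, 2), (16, 1), (18, 1), (29, 2), (32, 1), (35, 1)]) (.alt (.leaf [(0,
    1), (1, 2), (2, 1), (9, 2), (15, 1), (16, 1), (21, 2), (32, 1), (40, 2)]) (.alt (.leaf [(0,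
    2), (13, 4), (15, 6), (19, 1), (41, 3)]) (.done))))))))) (.alt (.leaf [(0, 4), (2, 2), (4,
    2), (8, 6), (10, 8), (12, 4), (14, 2), (23, 4), (27, 1), (28, 1), (34, 2), (39, 4)]) (.alt
    (.leaf [(0, 1), (1, 1), (8, 1), (17, 1), (22, 1)]) (.alt (.leaf [(1, 2), (12, 1), (41, 1)])
    (.done))))))))) (.alt (.leaf [(0, 4), (1, 2), (3, 2), (7, 6), (9, 8), (11, 8), (13, 2), (26,
    1), (27, 1), (29, 4), (32, 2)]) (.done)))))))) (.alt (.leaf [(0, 2), (2, 2), (8, 2), (10,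
    2), (16, 2), (25, 1), (26, 1)]) (.alt (.leaf [(0, 1), (10, 1)]) (.done))))))))) (.alt (.leaf
    [(0, 1), (1, 1), (3, 1), (7, 1), (9, 2), (11, 1), (27, 1)]) (.done)))))) (.done)))))

theorem C2.chk1 : checkOne C2.D 4 [(-1, 1, 2), (-1, 2, 1), (1, 0, 2), (1, 1, 1), (1, 2, 0)] (1, 0, 0) C2.T1 = true := by decide +kernel

/-- Class (0, 1, 0). -/
def C2.T2 : Tree :=
  .split 1 [0, 1, 0, -1] (.alt (.leaf [(0, 2), (9, 4), (32, 3)]) (.alt (.leaf [(0, 2), (32, 1)])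
    (.alt (.leaf [(0, 2), (6, 2), (8, 2), (10, 1), (23, 1), (28, 1), (33, 1)]) (.alt (.leaf [(0,
    2), (6, 1), (8, 1), (10, 1), (16, 1), (27, 1)]) (.alt (.leaf [(0, 2), (6, 2), (8, 2), (10,
    1), (25, 1), (30, 1), (34, 1)]) (.alt (.leaf [(0, 2), (6, 1), (8, 1), (10, 1), (18, 1), (29,
    1)]) (.alt (.leaf [(0, 2), (14, 2), (37, 1)]) (.done))))))))

theorem C2.chk2 : checkOne C2.D 4 [(-1, 1, 2), (-1, 2, 1), (1, 0, 2), (1, 1, 1), (1, 2, 0)] (0, 1, 0) C2.T2 = true := by decide +kernel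

/-- Class (0, 0, 1). -/
def C2.T3 : Tree :=
  .split 1 [0, 0, 1, -1] (.alt (.leaf [(0, 2), (3, 3), (5, 5), (9, 1), (31, 3)]) (.alt (.leaf [(0,
    2), (5, 1), (32, 1)]) (.alt (.leaf [(0, 2), (6, 2), (8, 1), (10, 1), (19, 1), (28, 1)])
    (.alt (.leaf [(0, 2), (2, 1), (6, 2), (8, 2), (10, 2), (27, 1), (33, 1)]) (.alt (.leaf [(0,
    2), (6, 2), (8, 1), (10, 1), (19, 1), (30, 1), (35, 1)]) (.alt (.leaf [(0, 2), (2, 1), (6,
    2), (8, 2), (10, 2), (29, 1), (34, 1)]) (.alt (.leaf [(0, 2), (8, 1), (10, 1), (14, 1), (36,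
    1)]) (.done))))))))

theorem C2.chk3 : checkOne C2.D 4 [(-1, 1, 2), (-1, 2, 1), (1, 0, 2), (1, 1, 1), (1, 2, 0)] (0, 0, 1) C2.T3 = true := by decide +kernel

/-- Class (1, 1, 0). -/
def C2.T4 : Tree :=
  .split 1 [] (.alt (.leaf [(0, 1), (6, 1), (8, 1), (23, 1), (33, 1)]) (.alt (.split 2 [] (.alt
    (.split 3 [] (.alt (.leaf [(0, 1), (2, 1), (4, 1), (8, 1), (12, 1), (21, 1)]) (.alt (.split
    0 [0, 1, 1, -1] (.alt (.leaf [(0, 2), (6, 1), (8, 1), (12, 1), (34, 2)]) (.alt (.leaf [(0,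
    2), (6, 2), (8, 1), (34, 1), (35, 1)]) (.alt (.leaf [(0, 2), (1, 1), (7, 1), (9, 1), (13,
    1), (15, 1), (22, 1), (31, 1)]) (.alt (.leaf [(0, 2), (2, 1), (7, 1), (9, 1), (11, 2), (13,
    1), (14, 1), (27, 1), (30, 1)]) (.alt (.split 1 [1, 1, 1, -1] (.alt (.leaf [(0, 2), (7, 1),
    (9, 1), (13, 1)]) (.alt (.leaf [(0, 2), (7, 2), (9, 5), (35, 3), (36, 1)]) (.alt (.leaf [(0,
    2), (1, 2), (2, 3), (14, 2), (15, 1), (18, 1), (20, 2), (29, 1), (32, 1), (34, 1), (39, 1)])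
    (.alt (.leaf [(0, 2), (1, 2), (2, 1), (3, 2), (12, 2), (14, 2), (16, 1), (18, 1), (20, 2),
    (29, 1), (31, 1), (34, 1), (39, 1)]) (.alt (.leaf [(0, 1), (1, 1), (2, 1), (8, 1), (10, 1),
    (12, 1), (14, 1), (20, 1), (29, 1), (34, 1), (39, 1)]) (.alt (.leaf [(0, 1), (1, 1), (6, 1),
    (10, 1), (12, 1), (14, 1), (18, 1)]) (.alt (.leaf [(1, 2), (14, 1), (40, 1), (41, 1)])
    (.done))))))))) (.alt (.leaf [(0, 2), (1, 1), (2, 1), (7, 1), (11, 1), (13, 1), (16, 1),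
    (19, 1), (29, 1), (32, 1), (37, 1)]) (.done)))))))) (.alt (.split 0 [0, 1, 1, -1] (.alt
    (.leaf [(0, 2), (6, 1), (8, 1), (12, 1), (34, 2)]) (.alt (.leaf [(0, 2), (6, 2), (8, 1),
    (34, 1), (35, 1)]) (.alt (.split 1 [1, 1, 1, -1] (.alt (.leaf [(0, 2), (7, 1), (9, 1), (13,
    1)]) (.alt (.leaf [(0, 2), (7, 2), (9, 5), (35, 3), (36, 1)]) (.alt (.leaf [(0, 1), (1, 1),
    (4, 1), (8, 1), (10, 3), (12, 1), (14, 1), (23, 2), (32, 1)]) (.alt (.leaf [(0, 2), (1, 4),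
    (8, 1), (10, 3), (12, 2), (14, 1), (16, 3), (23, 1), (27, 1), (32, 1)]) (.alt (.split 2 [0,
    1, 0, -1] (.alt (.leaf [(0, 2), (8, 5), (10, 9), (14, 1), (36, 6)]) (.alt (.leaf [(0, 2),
    (8, 2), (10, 1), (36, 1), (37, 1)]) (.alt (.leaf [(0, 1), (2, 1), (5, 1), (11, 1), (13, 1),
    (15, 1), (17, 1), (24, 1), (33, 1)]) (.alt (.leaf [(0, 1), (2, 1), (7, 1), (9, 1), (11, 1),
    (13, 1), (15, 1), (24, 1)]) (.alt (.leaf [(0, 1), (1, 1), (11, 1), (13, 2), (15, 1), (30,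
    1), (35, 1)]) (.alt (.split 2 [1, 0, 0, -1] (.alt (.leaf [(0, 2), (9, 7), (11, 9), (15, 1),
    (37, 6)]) (.alt (.leaf [(0, 2), (11, 1), (37, 1), (38, 1)]) (.alt (.leaf [(0, 1), (3, 1),
    (10, 1), (12, 1), (14, 1), (16, 1), (25, 1), (34, 1)]) (.alt (.leaf [(0, 2), (3, 2), (6, 2),
    (12, 2), (14, 2), (16, 2), (18, 2), (25, 2), (33, 1), (34, 1)]) (.alt (.leaf [(0, 1), (1,
    1), (3, 2), (4, 1), (6, 1), (12, 1), (16, 1), (18, 1), (19, 1), (25, 3), (34, 1), (41, 1)])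
    (.alt (.leaf [(0, 2), (2, 2), (12, 2), (14, 4), (29, 1), (30, 1), (31, 2)]) (.alt (.leaf
    [(0, 2), (14, 3), (16, 3), (20, 1), (42, 2)]) (.done))))))))) (.alt (.leaf [(0, 2), (13, 1),
    (15, 3), (19, 1), (41, 2)]) (.done))))))))) (.alt (.leaf [(0, 2), (1, 2), (2, 1), (4, 1),
    (10, 3), (12, 1), (14, 2), (16, 1), (18, 1), (23, 2), (32, 1), (33, 1), (38, 1)]) (.alt
    (.leaf [(1, 2), (14, 1), (40, 1), (41, 1)]) (.done))))))))) (.alt (.leaf [(0, 2), (2, 1),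
    (7, 1), (9, 1), (11, 2), (13, 1), (14, 1), (27, 1), (30, 1)]) (.alt (.split 0 [1, -1, 0, 0]
    (.alt (.leaf [(0, 1), (7, 2), (9, 1), (35, 1)]) (.alt (.leaf [(0, 1), (9, 1), (35, 1)])
    (.alt (.split 2 [1, 0, 0, -1] (.alt (.leaf [(0, 2), (8, 7), (10, 9), (14, 1), (36, 6)])
    (.alt (.leaf [(0, 2), (10, 1), (36, 1), (37, 1)]) (.alt (.split 0 [1, 1, 0, -1] (.alt (.leaf
    [(0, 2), (9, 3), (11, 3), (15, 1), (37, 2)]) (.alt (.split 1 [1, 1, 0, -1] (.alt (.leaf [(0,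
    2), (10, 3), (12, 5), (16, 1), (38, 2)]) (.alt (.leaf [(0, 2), (12, 1), (38, 1), (39, 1)])
    (.alt (.split 0 [0, 1, -1, 0] (.alt (.leaf [(0, 1), (11, 1), (13, 2), (39, 1)]) (.alt (.leaf
    [(0, 1), (11, 1), (39, 1)]) (.alt (.leaf [(0, 3), (5, 8), (8, 2), (12, 7), (14, 9), (16, 9),
    (18, 4), (22, 4), (31, 1), (33, 4), (38, 4), (43, 4)]) (.alt (.leaf [(0, 1), (1, 2), (14,
    2), (16, 1), (18, 1), (19, 1), (27, 1), (36, 1)]) (.alt (.leaf [(0, 1), (1, 4), (5, 4), (8,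
    2), (12, 1), (14, 7), (16, 7), (18, 4), (19, 2), (22, 2), (33, 3), (36, 2), (38, 2)]) (.alt
    (.leaf [(0, 1), (1, 4), (5, 2), (8, 2), (14, 6), (16, 3), (18, 3), (19, 2), (22, 1), (27,
    3), (36, 2), (38, 1), (43, 3)]) (.alt (.leaf [(2, 3), (4, 2), (10, 8), (12, 3), (13, 3),
    (17, 4), (19, 7), (21, 10), (23, 4), (27, 4), (38, 6), (43, 4)]) (.done))))))))) (.alt
    (.leaf [(0, 2), (2, 2), (4, 2), (11, 1), (13, 1), (15, 2), (17, 1), (21, 1), (23, 2), (28,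
    1), (32, 1), (37, 1)]) (.alt (.leaf [(0, 1), (4, 1), (11, 1), (13, 2), (15, 2), (17, 1),
    (32, 1), (37, 1)]) (.alt (.leaf [(0, 1), (4, 1), (13, 1), (21, 1), (28, 1)]) (.alt (.leaf
    [(0, 1), (6, 1), (15, 1), (17, 1), (43, 1)]) (.done))))))))) (.alt (.leaf [(0, 4), (6, 2),
    (10, 2), (12, 4), (14, 4), (16, 2), (17, 2), (29, 1), (30, 1), (34, 2)]) (.alt (.leaf [(0,
    2), (1, 2), (3, 2), (10, 3), (12, 1), (14, 2), (16, 1), (20, 1), (22, 2), (27, 1), (31, 1),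
    (36, 1)]) (.alt (.leaf [(0, 1), (3, 1), (10, 2), (12, 2), (14, 2), (16, 1), (31, 1), (36,
    1)]) (.alt (.leaf [(0, 1), (3, 1), (10, 1), (12, 1), (20, 1), (27, 1)]) (.alt (.leaf [(0,
    2), (14, 1), (16, 1), (20, 1)]) (.done))))))))) (.alt (.leaf [(0, 2), (1, 1), (2, 2), (9,
    2), (11, 2), (13, 3), (15, 2), (19, 1), (26, 1), (30, 1), (32, 1), (35, 1)]) (.alt (.leaf
    [(0, 1), (2, 1), (9, 1), (11, 1), (13, 1), (15, 1), (26, 1), (35, 1)]) (.alt (.leaf [(0, 1),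
    (2, 1), (13, 1), (19, 1), (30, 1)]) (.alt (.leaf [(0, 2), (13, 3), (15, 3), (19, 1), (41,
    2)]) (.done))))))))) (.alt (.leaf [(0, 1), (4, 1), (6, 1), (10, 1), (12, 1), (14, 1), (16,
    1)]) (.alt (.leaf [(0, 1), (1, 2), (8, 3), (10, 3), (12, 1), (14, 1), (23, 2), (34, 1), (39,
    2)]) (.alt (.split 1 [1, -1, 1, 0] (.alt (.leaf [(0, 1), (8, 1)]) (.alt (.leaf [(0, 1), (8,
    1), (10, 4), (36, 2)]) (.alt (.split 2 [1, 0, 0, -1] (.alt (.leaf [(0, 2), (9, 7), (11, 9),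
    (15, 1), (37, 6)]) (.alt (.leaf [(0, 2), (11, 1), (37, 1), (38, 1)]) (.alt (.split 0 [1, 1,
    0, -1] (.alt (.leaf [(0, 2), (10, 3), (12, 3), (16, 1), (38, 2)]) (.alt (.split 1 [1, 1, 0,
    -1] (.alt (.leaf [(0, 2), (11, 3), (13, 5), (17, 1), (39, 2)]) (.alt (.leaf [(0, 2), (13,
    1), (39, 1), (40, 1)]) (.alt (.split 0 [0, 1, -1, 0] (.alt (.leaf [(0, 1), (12, 1), (14, 2),
    (40, 1)]) (.alt (.leaf [(0, 1), (12, 1), (40, 1)]) (.alt (.leaf [(0, 3), (6, 8), (9, 2),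
    (13, 7), (15, 9), (17, 9), (19, 4), (23, 4), (32, 1), (34, 4), (39, 4), (44, 4)]) (.alt
    (.leaf [(0, 1), (1, 2), (15, 2), (17, 1), (19, 1), (20, 1), (28, 1), (37, 1)]) (.alt (.leaf
    [(0, 1), (1, 4), (6, 4), (9, 2), (13, 1), (15, 7), (17, 7), (19, 4), (20, 2), (23, 2), (34,
    3), (37, 2), (39, 2)]) (.alt (.leaf [(0, 1), (1, 4), (6, 2), (9, 2), (15, 6), (17, 3), (19,
    3), (20, 2), (23, 1), (28, 3), (37, 2), (39, 1), (44, 3)]) (.alt (.leaf [(2, 3), (4, 2),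
    (11, 8), (13, 3), (14, 3), (18, 4), (20, 7), (22, 10), (24, 4), (28, 4), (39, 6), (44, 4)])
    (.done))))))))) (.alt (.leaf [(0, 1), (2, 1), (14, 1), (16, 1), (27, 1), (32, 1)]) (.alt
    (.leaf [(0, 1), (5, 1), (12, 1), (14, 2), (16, 2), (18, 1), (33, 1), (38, 1)]) (.alt (.leaf
    [(0, 1), (4, 1), (5, 1), (14, 1), (16, 1), (22, 2), (33, 1)]) (.alt (.leaf [(0, 1), (6, 1),
    (16, 1), (18, 1), (44, 1)]) (.done))))))))) (.alt (.leaf [(0, 10), (4, 2), (7, 3), (11, 6),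
    (13, 8), (15, 8), (17, 6), (18, 5), (21, 1), (24, 1), (30, 2), (35, 5), (37, 1), (42, 2)])
    (.alt (.leaf [(0, 1), (1, 1), (11, 1), (13, 1), (15, 1), (26, 1), (31, 1)]) (.alt (.leaf
    [(0, 1), (4, 1), (11, 2), (13, 2), (15, 2), (17, 1), (32, 1), (37, 1)]) (.alt (.leaf [(0,
    2), (3, 1), (11, 1), (13, 1), (15, 1), (17, 1), (21, 2), (36, 1)]) (.alt (.leaf [(0, 2),
    (15, 1), (17, 1), (21, 1)]) (.done))))))))) (.alt (.leaf [(0, 2), (1, 1), (8, 1), (12, 1),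
    (14, 2), (16, 2), (25, 1), (33, 1)]) (.alt (.leaf [(0, 2), (2, 1), (10, 1), (12, 1), (14,
    3), (16, 1), (29, 1), (30, 1), (36, 1)]) (.alt (.leaf [(0, 1), (3, 1), (14, 1), (20, 1),
    (31, 1)]) (.alt (.leaf [(0, 2), (14, 3), (16, 3), (20, 1), (42, 2)]) (.done))))))))) (.alt
    (.leaf [(0, 1), (2, 2), (5, 1), (11, 2), (13, 2), (15, 1), (17, 1), (19, 1), (30, 1), (35,
    1), (40, 1)]) (.alt (.leaf [(0, 2), (1, 4), (9, 2), (11, 4), (13, 4), (19, 2), (28, 1), (29,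
    1), (30, 2)]) (.alt (.split 2 [1, 0, 0, -1] (.alt (.leaf [(0, 2), (9, 7), (11, 9), (15, 1),
    (37, 6)]) (.alt (.leaf [(0, 2), (11, 1), (37, 1), (38, 1)]) (.alt (.split 0 [1, 1, 0, -1]
    (.alt (.leaf [(0, 2), (10, 3), (12, 3), (16, 1), (38, 2)]) (.alt (.split 1 [1, 1, 0, -1]
    (.alt (.leaf [(0, 2), (11, 3), (13, 5), (17, 1), (39, 2)]) (.alt (.leaf [(0, 2), (13, 1),
    (39, 1), (40, 1)]) (.alt (.split 0 [0, 1, -1, 0] (.alt (.leaf [(0, 1), (12, 1), (14, 2),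
    (40, 1)]) (.alt (.leaf [(0, 1), (12, 1), (40, 1)]) (.alt (.leaf [(0, 1), (9, 2), (13, 1),
    (15, 3), (17, 3), (32, 1), (33, 2)]) (.alt (.leaf [(0, 1), (1, 2), (15, 2), (17, 1), (19,
    1), (20, 1), (28, 1), (37, 1)]) (.alt (.leaf [(0, 1), (1, 4), (6, 4), (9, 2), (13, 1), (15,
    7), (17, 7), (19, 4), (20, 2), (23, 2), (34, 3), (37, 2), (39, 2)]) (.alt (.leaf [(0, 1),
    (1, 4), (6, 2), (9, 2), (15, 6), (17, 3), (19, 3), (20, 2), (23, 1), (30, 3), (37, 2), (39,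
    1)]) (.alt (.leaf [(2, 3), (4, 2), (11, 8), (13, 3), (14, 3), (18, 4), (20, 7), (22, 10),
    (24, 4), (28, 4), (39, 6), (44, 4)]) (.done))))))))) (.alt (.leaf [(0, 1), (2, 1), (14, 1),
    (16, 1), (27, 1), (32, 1)]) (.alt (.leaf [(0, 1), (5, 1), (12, 1), (14, 2), (16, 2), (18,
    1), (33, 1), (38, 1)]) (.alt (.leaf [(0, 1), (4, 1), (5, 1), (14, 1), (16, 1), (22, 2), (33,
    1)]) (.alt (.leaf [(0, 1), (6, 1), (16, 1), (18, 1), (44, 1)]) (.done))))))))) (.alt (.leaf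
    [(0, 4), (7, 2), (11, 2), (13, 4), (15, 4), (17, 2), (18, 2), (30, 1), (31, 1), (35, 2)])
    (.alt (.leaf [(0, 1), (1, 1), (11, 1), (13, 1), (15, 1), (26, 1), (31, 1)]) (.alt (.leaf
    [(0, 1), (4, 1), (11, 2), (13, 2), (15, 2), (17, 1), (32, 1), (37, 1)]) (.alt (.leaf [(0,
    3), (2, 1), (4, 1), (9, 1), (11, 1), (13, 2), (15, 2), (17, 2), (21, 3), (36, 1)]) (.alt
    (.leaf [(0, 2), (15, 1), (17, 1), (21, 1)]) (.done))))))))) (.alt (.split 0 [0, 1, -1, 0]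
    (.alt (.leaf [(0, 1), (10, 1), (12, 2), (38, 1)]) (.alt (.leaf [(0, 1), (10, 1), (38, 1)])
    (.alt (.leaf [(0, 1), (7, 2), (11, 1), (13, 3), (15, 3), (30, 1), (31, 2)]) (.alt (.leaf
    [(0, 1), (1, 2), (15, 1), (17, 1), (19, 1), (26, 1), (34, 1)]) (.alt (.leaf [(0, 1), (1, 4),
    (4, 4), (7, 2), (11, 1), (13, 3), (15, 7), (17, 4), (19, 2), (21, 2), (32, 3), (34, 2), (37,
    2)]) (.alt (.leaf [(0, 1), (2, 1), (9, 1), (13, 1), (15, 1), (17, 1), (21, 1)]) (.alt (.leaf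
    [(2, 3), (4, 2), (9, 8), (11, 3), (12, 3), (16, 4), (18, 7), (20, 10), (22, 4), (26, 4),
    (37, 6), (42, 4)]) (.done))))))))) (.alt (.leaf [(0, 6), (1, 2), (3, 2), (10, 2), (12, 4),
    (14, 10), (16, 4), (29, 3), (30, 3), (36, 4)]) (.alt (.leaf [(0, 1), (3, 1), (14, 1), (20,
    1), (31, 1)]) (.alt (.leaf [(0, 2), (14, 3), (16, 3), (20, 1), (42, 2)]) (.done)))))))))
    (.alt (.leaf [(1, 1), (15, 2), (41, 1)]) (.done))))))))) (.alt (.leaf [(0, 1), (12, 1)])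
    (.done))))))))) (.alt (.leaf [(0, 2), (1, 1), (5, 1), (7, 1), (9, 1), (11, 1), (13, 2), (16,
    1), (32, 1), (37, 1)]) (.done)))))))) (.alt (.split 0 [0, 1, 1, -1] (.alt (.leaf [(0, 2),
    (6, 1), (8, 1), (12, 1), (34, 2)]) (.alt (.leaf [(0, 2), (6, 2), (8, 1), (34, 1), (35, 1)])
    (.alt (.split 2 [0, 1, 0, -1] (.alt (.leaf [(0, 2), (7, 5), (9, 9), (13, 1), (35, 6)]) (.alt
    (.leaf [(0, 2), (7, 2), (9, 1), (35, 1), (36, 1)]) (.alt (.leaf [(0, 1), (1, 1), (4, 1),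
    (10, 1), (12, 1), (14, 1), (16, 1), (23, 1), (32, 1)]) (.alt (.leaf [(0, 2), (1, 4), (8, 3),
    (10, 3), (12, 2), (14, 1), (16, 1), (23, 3), (27, 1), (32, 1)]) (.alt (.leaf [(0, 2), (1,
    2), (2, 1), (4, 1), (10, 1), (12, 1), (14, 2), (16, 1), (18, 1), (23, 2), (32, 1), (34, 1),
    (38, 1)]) (.alt (.split 1 [1, 1, 0, -1] (.alt (.leaf [(0, 2), (8, 3), (10, 5), (14, 1), (36,
    2)]) (.alt (.leaf [(0, 2), (10, 1), (36, 1), (37, 1)]) (.alt (.leaf [(0, 1), (2, 1), (9, 1),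
    (11, 2), (13, 2), (15, 1), (28, 1), (33, 1)]) (.alt (.leaf [(0, 1), (2, 1), (11, 1), (17,
    1), (24, 1)]) (.alt (.leaf [(0, 1), (1, 1), (2, 2), (5, 1), (11, 2), (13, 1), (15, 1), (17,
    1), (18, 1), (24, 2), (33, 1)]) (.alt (.leaf [(0, 1), (1, 1), (13, 1), (15, 1), (23, 1),
    (34, 1)]) (.alt (.leaf [(2, 1), (7, 1), (10, 1), (14, 1), (16, 2), (18, 1), (20, 1), (29,
    1), (38, 1)]) (.done))))))))) (.alt (.leaf [(0, 2), (12, 1), (14, 3), (18, 1), (40, 2)])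
    (.done))))))))) (.alt (.leaf [(0, 2), (2, 1), (7, 1), (9, 1), (11, 2), (13, 1), (14, 1),
    (27, 1), (30, 1)]) (.alt (.leaf [(0, 2), (1, 1), (7, 1), (9, 1), (13, 1), (17, 1), (22, 1),
    (33, 1), (38, 1)]) (.alt (.split 2 [1, 0, 0, -1] (.alt (.leaf [(0, 2), (7, 7), (9, 9), (13,
    1), (35, 6)]) (.alt (.leaf [(0, 2), (9, 1), (35, 1), (36, 1)]) (.alt (.split 1 [1, 1, 0, -1]
    (.alt (.leaf [(0, 2), (8, 3), (10, 5), (14, 1), (36, 2)]) (.alt (.leaf [(0, 2), (10, 1),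
    (36, 1), (37, 1)]) (.alt (.leaf [(0, 2), (2, 2), (5, 1), (11, 3), (13, 3), (15, 2), (16, 1),
    (18, 1), (31, 1), (33, 1), (34, 1), (39, 1)]) (.alt (.leaf [(0, 1), (1, 1), (7, 1), (13, 1),
    (15, 1), (21, 1)]) (.alt (.leaf [(0, 1), (2, 1), (7, 1), (11, 1), (13, 1), (15, 1), (18, 1),
    (39, 1)]) (.alt (.leaf [(0, 1), (2, 1), (9, 1), (11, 2), (13, 2), (15, 1), (31, 1), (34,
    1)]) (.alt (.leaf [(0, 2), (13, 1), (15, 1), (19, 1)]) (.done))))))))) (.alt (.leaf [(0, 2),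
    (1, 2), (4, 1), (10, 1), (12, 3), (14, 2), (16, 1), (17, 1), (30, 1), (31, 1), (33, 1), (38,
    1)]) (.alt (.leaf [(0, 1), (1, 1), (12, 1), (17, 1), (30, 1)]) (.alt (.leaf [(0, 1), (1, 1),
    (6, 1), (8, 1), (10, 1), (12, 2), (14, 2), (33, 1), (38, 1)]) (.alt (.leaf [(0, 2), (12, 3),
    (14, 3), (18, 1), (40, 2)]) (.done))))))))) (.done)))))))) (.done)))))) (.alt (.leaf [(0,
    2), (1, 2), (7, 2), (9, 4), (24, 1), (25, 3)]) (.alt (.split 0 [0, 1, 1, -1] (.alt (.leaf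
    [(0, 2), (5, 1), (7, 1), (11, 1), (33, 2)]) (.alt (.leaf [(0, 2), (5, 2), (7, 1), (33, 1),
    (34, 1)]) (.alt (.split 3 [] (.alt (.leaf [(0, 1), (1, 2), (3, 2), (7, 1), (9, 3), (13, 1),
    (15, 1), (22, 3), (31, 1)]) (.alt (.leaf [(0, 1), (1, 2), (7, 1), (9, 1), (13, 1), (15, 1),
    (22, 1), (31, 1)]) (.alt (.split 0 [1, -1, 0, 0] (.alt (.leaf [(0, 1), (7, 2), (9, 1), (35,
    1)]) (.alt (.leaf [(0, 1), (9, 1), (35, 1)]) (.alt (.leaf [(0, 1), (2, 2), (8, 3), (10, 3),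
    (12, 1), (14, 1), (23, 2), (32, 1)]) (.alt (.leaf [(0, 1), (4, 1), (6, 1), (10, 1), (12, 1),
    (14, 1), (16, 1)]) (.alt (.split 2 [0, 1, 0, -1] (.alt (.leaf [(0, 2), (8, 5), (10, 9), (14,
    1), (36, 6)]) (.alt (.leaf [(0, 2), (8, 2), (10, 1), (36, 1), (37, 1)]) (.alt (.leaf [(0,
    1), (3, 1), (5, 1), (11, 1), (13, 1), (15, 1), (17, 1), (24, 1), (33, 1)]) (.alt (.leaf [(0,
    2), (3, 4), (9, 3), (11, 3), (13, 2), (15, 1), (17, 1), (24, 3), (28, 1), (33, 1)]) (.alt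
    (.leaf [(0, 2), (1, 1), (3, 4), (5, 2), (9, 3), (11, 5), (13, 3), (15, 3), (17, 2), (24, 4),
    (33, 2), (35, 1)]) (.alt (.split 2 [1, 0, 0, -1] (.alt (.leaf [(0, 2), (9, 7), (11, 9), (15,
    1), (37, 6)]) (.alt (.leaf [(0, 2), (11, 1), (37, 1), (38, 1)]) (.alt (.leaf [(0, 1), (4,
    1), (10, 1), (12, 1), (14, 1), (16, 1), (25, 1), (34, 1)]) (.alt (.leaf [(0, 1), (4, 3), (6,
    2), (10, 1), (12, 3), (14, 1), (16, 1), (18, 2), (25, 3), (34, 1)]) (.alt (.leaf [(0, 1),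
    (1, 1), (3, 1), (4, 2), (6, 1), (12, 1), (16, 1), (18, 1), (19, 1), (25, 2), (27, 1), (34,
    1)]) (.alt (.leaf [(0, 2), (2, 1), (4, 2), (10, 2), (12, 2), (14, 3), (16, 2), (18, 1), (25,
    1), (29, 1), (34, 1), (35, 1)]) (.alt (.leaf [(0, 2), (14, 3), (16, 3), (20, 1), (42, 2)])
    (.done))))))))) (.alt (.leaf [(0, 2), (13, 1), (15, 3), (19, 1), (41, 2)]) (.done)))))))))
    (.alt (.leaf [(0, 1), (3, 1), (12, 1), (18, 1), (29, 1)]) (.alt (.leaf [(0, 1), (12, 1)])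
    (.done))))))))) (.alt (.leaf [(0, 1), (1, 2), (2, 1), (3, 1), (7, 1), (9, 1), (13, 1), (15,
    1), (21, 1), (22, 2), (31, 1)]) (.done)))))) (.alt (.leaf [(0, 2), (1, 1), (6, 1), (8, 1),
    (10, 2), (12, 1), (13, 1), (26, 1), (29, 1), (37, 1)]) (.alt (.split 0 [1, -1, 0, 0] (.alt
    (.leaf [(0, 1), (6, 2), (8, 1), (34, 1)]) (.alt (.leaf [(0, 1), (8, 1), (34, 1)]) (.alt
    (.split 2 [1, 0, 0, -1] (.alt (.leaf [(0, 2), (7, 7), (9, 9), (13, 1), (35, 6)]) (.alt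
    (.leaf [(0, 2), (9, 1), (35, 1), (36, 1)]) (.alt (.split 0 [1, 1, 0, -1] (.alt (.leaf [(0,
    2), (8, 3), (10, 3), (14, 1), (36, 2)]) (.alt (.split 1 [1, 1, 0, -1] (.alt (.leaf [(0, 2),
    (9, 3), (11, 5), (15, 1), (37, 2)]) (.alt (.leaf [(0, 2), (11, 1), (37, 1), (38, 1)]) (.alt
    (.split 0 [0, 1, -1, 0] (.alt (.leaf [(0, 1), (10, 1), (12, 2), (38, 1)]) (.alt (.leaf [(0,
    1), (10, 1), (38, 1)]) (.alt (.leaf [(0, 3), (5, 8), (7, 2), (11, 7), (13, 9), (15, 9), (17,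
    4), (21, 4), (30, 1), (32, 4), (37, 4), (42, 4)]) (.alt (.leaf [(0, 1), (1, 2), (13, 2),
    (15, 1), (17, 1), (18, 1), (26, 1), (35, 1)]) (.alt (.leaf [(0, 1), (1, 4), (5, 4), (7, 2),
    (11, 1), (13, 7), (15, 7), (17, 4), (18, 2), (21, 2), (32, 3), (35, 2), (37, 2)]) (.alt
    (.leaf [(0, 1), (1, 4), (5, 2), (7, 2), (13, 6), (15, 3), (17, 3), (18, 2), (21, 1), (26,
    3), (35, 2), (37, 1), (42, 3)]) (.alt (.leaf [(2, 1), (10, 2), (12, 1), (16, 1), (18, 2),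
    (20, 2), (22, 1), (26, 1), (37, 1), (42, 1), (47, 1)]) (.done))))))))) (.alt (.leaf [(0, 2),
    (2, 2), (4, 2), (10, 1), (12, 1), (14, 2), (16, 1), (20, 1), (22, 2), (27, 1), (31, 1), (36,
    1)]) (.alt (.leaf [(0, 1), (4, 1), (10, 1), (12, 2), (14, 2), (16, 1), (31, 1), (36, 1)])
    (.alt (.leaf [(0, 1), (4, 1), (12, 1), (20, 1), (27, 1)]) (.alt (.leaf [(0, 1), (6, 1), (14,
    1), (16, 1), (42, 1)]) (.done))))))))) (.alt (.leaf [(0, 4), (5, 2), (9, 2), (11, 4), (13,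
    4), (15, 2), (16, 2), (28, 1), (29, 1), (33, 2)]) (.alt (.leaf [(0, 2), (1, 2), (3, 2), (9,
    3), (11, 1), (13, 2), (15, 1), (19, 1), (21, 2), (26, 1), (30, 1), (35, 1)]) (.alt (.leaf
    [(0, 1), (3, 1), (9, 2), (11, 2), (13, 2), (15, 1), (30, 1), (35, 1)]) (.alt (.leaf [(0, 1),
    (3, 1), (9, 1), (11, 1), (19, 1), (26, 1)]) (.alt (.leaf [(0, 2), (13, 1), (15, 1), (19,
    1)]) (.done))))))))) (.alt (.leaf [(0, 2), (1, 1), (2, 2), (8, 2), (10, 2), (12, 3), (14,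
    2), (18, 1), (25, 1), (29, 1), (31, 1), (34, 1)]) (.alt (.leaf [(0, 1), (2, 1), (8, 1), (10,
    1), (12, 1), (14, 1), (25, 1), (34, 1)]) (.alt (.leaf [(0, 1), (2, 1), (12, 1), (18, 1),
    (29, 1)]) (.alt (.leaf [(0, 2), (12, 3), (14, 3), (18, 1), (40, 2)]) (.done))))))))) (.alt
    (.leaf [(0, 1), (3, 1), (5, 1), (9, 1), (11, 1), (13, 1), (15, 1)]) (.alt (.leaf [(0, 1),
    (1, 2), (7, 3), (9, 3), (11, 1), (13, 1), (22, 2), (33, 1), (38, 2)]) (.alt (.leaf [(0, 1),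
    (2, 1), (11, 1), (17, 1), (28, 1)]) (.alt (.leaf [(0, 1), (11, 1)]) (.done))))))))) (.alt
    (.leaf [(0, 2), (1, 2), (4, 1), (6, 1), (10, 2), (12, 2), (15, 1), (20, 1), (31, 1)])
    (.done)))))))) (.alt (.leaf [(0, 1), (3, 1), (9, 1), (11, 1), (35, 1)]) (.done)))))) (.alt
    (.leaf [(0, 1), (6, 1), (8, 1), (25, 1), (34, 1)]) (.alt (.split 2 [] (.alt (.split 0 [1,
    -1, 0, 0] (.alt (.leaf [(0, 1), (5, 2), (7, 1), (33, 1)]) (.alt (.leaf [(0, 1), (7, 1), (33,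
    1)]) (.alt (.split 0 [0, 1, 1, -1] (.alt (.leaf [(0, 2), (6, 1), (8, 1), (12, 1), (34, 2)])
    (.alt (.leaf [(0, 2), (6, 2), (8, 1), (34, 1), (35, 1)]) (.alt (.leaf [(0, 2), (1, 1), (7,
    3), (9, 3), (11, 1), (13, 1), (22, 2), (31, 1)]) (.alt (.leaf [(0, 2), (2, 1), (7, 1), (9,
    1), (11, 2), (13, 1), (14, 1), (27, 1), (30, 1)]) (.alt (.split 3 [] (.alt (.split 2 [0, 1,
    0, -1] (.alt (.leaf [(0, 2), (8, 5), (10, 9), (14, 1), (36, 6)]) (.alt (.leaf [(0, 2), (8,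
    2), (10, 1), (36, 1), (37, 1)]) (.alt (.leaf [(0, 2), (3, 1), (9, 1), (11, 1), (13, 3), (15,
    1), (28, 1), (29, 1), (33, 1)]) (.alt (.split 2 [1, 0, 0, -1] (.alt (.leaf [(0, 2), (9, 7),
    (11, 9), (15, 1), (37, 6)]) (.alt (.leaf [(0, 2), (11, 1), (37, 1), (38, 1)]) (.alt (.leaf
    [(0, 1), (1, 1), (2, 1), (3, 2), (6, 1), (12, 1), (16, 1), (17, 1), (20, 1), (25, 1), (27,
    2), (36, 1)]) (.alt (.leaf [(0, 2), (3, 4), (4, 1), (6, 2), (10, 3), (12, 5), (14, 3), (16,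
    3), (20, 2), (27, 4), (33, 1), (36, 2)]) (.alt (.leaf [(0, 1), (3, 1), (10, 1), (12, 1),
    (14, 1), (16, 1), (27, 1), (36, 1)]) (.alt (.leaf [(0, 1), (3, 3), (6, 2), (10, 1), (12, 3),
    (14, 1), (16, 1), (20, 2), (27, 3), (36, 1)]) (.alt (.leaf [(0, 2), (14, 3), (16, 3), (20,
    1), (42, 2)]) (.done))))))))) (.alt (.leaf [(0, 1), (2, 1), (5, 1), (11, 1), (13, 1), (15,
    1), (19, 1), (26, 1), (35, 1)]) (.alt (.leaf [(0, 1), (2, 3), (5, 1), (9, 2), (11, 3), (13,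
    1), (15, 1), (19, 1), (26, 3), (35, 1)]) (.alt (.leaf [(0, 2), (13, 1), (15, 3), (19, 1),
    (41, 2)]) (.done))))))))) (.alt (.leaf [(0, 1), (1, 2), (4, 1), (8, 1), (10, 1), (14, 1),
    (18, 1), (20, 1), (25, 1), (34, 1), (39, 1)]) (.alt (.leaf [(0, 1), (1, 2), (4, 2), (8, 1),
    (10, 3), (14, 1), (18, 1), (25, 3), (34, 1)]) (.alt (.leaf [(0, 1), (1, 2), (8, 1), (10, 1),
    (14, 1), (18, 1), (25, 1), (34, 1)]) (.done)))))) (.alt (.split 0 [1, 0, -1, 0] (.alt (.leaf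
    [(0, 1), (7, 2), (9, 2), (35, 1)]) (.alt (.leaf [(0, 1), (35, 1)]) (.alt (.leaf [(0, 1), (3,
    1), (6, 1), (12, 1), (14, 1), (15, 1)]) (.alt (.leaf [(0, 1), (2, 1), (8, 2), (10, 1), (20,
    1), (23, 1)]) (.alt (.leaf [(0, 1), (4, 1), (10, 1), (12, 1), (17, 1), (30, 1)]) (.alt
    (.leaf [(0, 2), (1, 4), (8, 6), (10, 6), (12, 6), (14, 2), (27, 1), (28, 1), (30, 2), (33,
    2)]) (.alt (.leaf [(5, 1), (6, 2), (13, 2), (15, 2), (17, 2), (19, 1), (35, 1), (38, 1)])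
    (.done))))))))) (.done)))))))) (.alt (.leaf [(0, 1), (1, 1), (10, 1), (14, 1), (25, 1)])
    (.alt (.split 0 [0, 1, 1, -1] (.alt (.leaf [(0, 2), (6, 1), (8, 1), (12, 1), (34, 2)]) (.alt
    (.leaf [(0, 2), (6, 2), (8, 1), (34, 1), (35, 1)]) (.alt (.split 0 [1, 1, 0, -1] (.alt
    (.leaf [(0, 2), (7, 3), (9, 3), (13, 1), (35, 2)]) (.alt (.split 1 [1, 1, 0, -1] (.alt
    (.leaf [(0, 2), (8, 3), (10, 5), (14, 1), (36, 2)]) (.alt (.leaf [(0, 2), (10, 1), (36, 1),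
    (37, 1)]) (.alt (.leaf [(0, 1), (2, 1), (9, 1), (11, 2), (13, 2), (15, 1), (28, 1), (33,
    1)]) (.alt (.leaf [(0, 1), (2, 1), (11, 1), (17, 1), (24, 1)]) (.alt (.split 0 [0, 1, -1, 0]
    (.alt (.leaf [(0, 1), (9, 1), (11, 2), (37, 1)]) (.alt (.leaf [(0, 1), (9, 1), (37, 1)])
    (.alt (.leaf [(0, 1), (1, 4), (3, 4), (6, 2), (10, 1), (12, 7), (14, 7), (16, 4), (18, 2),
    (19, 2), (29, 3), (34, 2), (36, 2)]) (.alt (.leaf [(0, 1), (1, 4), (3, 2), (6, 2), (12, 6),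
    (14, 3), (16, 3), (18, 1), (19, 2), (25, 3), (34, 1), (36, 2)]) (.alt (.leaf [(0, 1), (3,
    2), (6, 2), (10, 2), (12, 4), (14, 3), (16, 1), (18, 1), (25, 1), (29, 1), (32, 1), (34,
    1)]) (.alt (.leaf [(0, 1), (1, 2), (12, 2), (14, 1), (16, 1), (19, 1), (27, 1), (36, 1)])
    (.alt (.leaf [(2, 1), (4, 3), (8, 4), (11, 6), (15, 2), (17, 8), (19, 8), (21, 2), (23, 2),
    (34, 3), (37, 3), (39, 2)]) (.done))))))))) (.alt (.leaf [(0, 2), (3, 1), (9, 1), (11, 1),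
    (13, 1), (15, 1), (23, 2), (34, 1)]) (.alt (.leaf [(0, 1), (6, 1), (13, 1), (15, 1), (41,
    1)]) (.done))))))))) (.alt (.leaf [(0, 1), (1, 1), (8, 2), (10, 2), (12, 2), (14, 1), (27,
    1), (32, 1)]) (.alt (.leaf [(0, 1), (1, 1), (8, 1), (10, 1), (16, 1), (23, 1)]) (.alt (.leaf
    [(0, 4), (4, 2), (8, 2), (10, 4), (12, 4), (14, 2), (17, 2), (27, 1), (28, 1), (34, 2)])
    (.alt (.leaf [(0, 2), (2, 1), (8, 3), (10, 1), (12, 1), (14, 1), (22, 2), (33, 1)]) (.alt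
    (.leaf [(0, 2), (12, 1), (14, 1), (18, 1)]) (.done))))))))) (.alt (.leaf [(0, 2), (2, 1),
    (7, 1), (9, 1), (11, 2), (13, 1), (14, 1), (27, 1), (30, 1)]) (.alt (.leaf [(0, 2), (1, 1),
    (7, 3), (9, 3), (11, 1), (13, 1), (22, 2), (33, 1), (38, 2)]) (.alt (.split 1 [1, 1, 1, -1]
    (.alt (.leaf [(0, 2), (7, 1), (9, 1), (13, 1)]) (.alt (.leaf [(0, 2), (7, 2), (9, 5), (35,
    3), (36, 1)]) (.alt (.split 3 [0, 0, 0, 1] (.alt (.leaf [(0, 2), (8, 1), (10, 1), (14, 1)])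
    (.alt (.leaf [(0, 2), (8, 7), (10, 11), (14, 3), (36, 8)]) (.alt (.split 2 [0, 0, 1, -1]
    (.alt (.leaf [(0, 2), (9, 5), (11, 7), (15, 1), (37, 6)]) (.alt (.leaf [(0, 2), (9, 2), (11,
    3), (37, 1), (38, 1)]) (.alt (.leaf [(0, 1), (1, 1), (3, 2), (6, 1), (10, 1), (12, 2), (14,
    2), (16, 1), (19, 1), (25, 1), (32, 2), (35, 1)]) (.alt (.leaf [(0, 2), (3, 4), (5, 3), (6,
    2), (10, 1), (12, 3), (14, 8), (16, 3), (17, 1), (19, 2), (29, 1), (32, 4), (33, 1), (35,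
    2)]) (.alt (.leaf [(0, 1), (3, 3), (10, 2), (12, 2), (14, 3), (16, 1), (19, 1), (32, 2),
    (35, 1)]) (.alt (.leaf [(0, 1), (3, 1), (6, 2), (12, 2), (14, 3), (16, 1), (19, 1), (32, 2),
    (35, 1)]) (.alt (.leaf [(0, 2), (14, 1), (16, 1), (20, 1), (42, 2)]) (.done))))))))) (.alt
    (.leaf [(0, 1), (1, 1), (11, 1), (15, 1), (24, 1), (33, 1)]) (.alt (.leaf [(0, 1), (2, 1),
    (5, 1), (11, 1), (13, 1), (15, 1), (18, 1), (31, 1), (34, 1)]) (.alt (.leaf [(0, 1), (2, 1),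
    (7, 1), (9, 1), (11, 1), (13, 1), (15, 1), (31, 1)]) (.alt (.leaf [(1, 2), (13, 3), (15, 5),
    (19, 1), (41, 4)]) (.done))))))))) (.alt (.leaf [(0, 2), (1, 2), (3, 2), (4, 1), (10, 2),
    (12, 4), (14, 2), (16, 1), (17, 1), (20, 1), (30, 2), (31, 1), (33, 1)]) (.alt (.leaf [(0,
    1), (1, 1), (6, 1), (10, 1), (12, 1), (14, 1), (17, 1)]) (.alt (.leaf [(0, 2), (2, 1), (8,
    1), (10, 3), (12, 3), (14, 1), (30, 2), (33, 1)]) (.alt (.leaf [(1, 2), (14, 1), (40, 1),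
    (41, 1)]) (.done))))))))) (.done)))))))) (.alt (.leaf [(0, 2), (2, 2), (8, 2), (10, 2), (16,
    2), (25, 1), (26, 1)]) (.alt (.leaf [(0, 1), (10, 1)]) (.done))))))))) (.alt (.leaf [(0, 1),
    (1, 1), (3, 1), (7, 1), (9, 2), (11, 1), (27, 1), (36, 1)]) (.alt (.split 0 [0, 1, 1, -1]
    (.alt (.leaf [(0, 2), (5, 1), (7, 1), (11, 1), (33, 2)]) (.alt (.leaf [(0, 2), (5, 2), (7,
    1), (33, 1), (34, 1)]) (.alt (.split 0 [1, -1, 0, 0] (.alt (.leaf [(0, 1), (6, 2), (8, 1),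
    (34, 1)]) (.alt (.leaf [(0, 1), (8, 1), (34, 1)]) (.alt (.leaf [(0, 1), (1, 2), (7, 3), (9,
    3), (11, 1), (13, 1), (22, 2), (31, 1)]) (.alt (.leaf [(0, 1), (2, 1), (11, 1), (15, 1),
    (26, 1), (38, 1)]) (.alt (.split 0 [1, 1, 0, -1] (.alt (.leaf [(0, 2), (7, 3), (9, 3), (13,
    1), (35, 2)]) (.alt (.split 1 [1, 1, 0, -1] (.alt (.leaf [(0, 2), (8, 3), (10, 5), (14, 1),
    (36, 2)]) (.alt (.leaf [(0, 2), (10, 1), (36, 1), (37, 1)]) (.alt (.leaf [(0, 1), (3, 1),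
    (9, 1), (11, 2), (13, 2), (15, 1), (28, 1), (33, 1)]) (.alt (.leaf [(0, 1), (3, 1), (11, 1),
    (17, 1), (24, 1)]) (.alt (.split 0 [0, 1, -1, 0] (.alt (.leaf [(0, 1), (9, 1), (11, 2), (37,
    1)]) (.alt (.leaf [(0, 1), (9, 1), (37, 1)]) (.alt (.leaf [(0, 1), (1, 4), (4, 4), (6, 2),
    (10, 1), (12, 7), (14, 7), (16, 4), (18, 2), (19, 2), (29, 3), (34, 2), (36, 2)]) (.alt
    (.leaf [(0, 1), (1, 4), (4, 2), (6, 2), (12, 6), (14, 3), (16, 3), (18, 1), (19, 2), (25,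
    3), (34, 1), (36, 2)]) (.alt (.leaf [(0, 1), (4, 2), (6, 2), (10, 2), (12, 4), (14, 3), (16,
    1), (18, 1), (25, 1), (29, 1), (32, 1), (34, 1)]) (.alt (.leaf [(0, 1), (1, 2), (12, 2),
    (14, 1), (16, 1), (19, 1), (27, 1), (36, 1)]) (.alt (.leaf [(2, 2), (4, 3), (9, 8), (10, 3),
    (11, 3), (15, 4), (17, 7), (19, 10), (21, 4), (23, 4), (34, 6), (39, 4)]) (.done)))))))))
    (.alt (.leaf [(0, 2), (2, 1), (9, 1), (11, 1), (13, 1), (15, 1), (23, 2), (34, 1)]) (.alt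
    (.leaf [(0, 1), (6, 1), (13, 1), (15, 1), (41, 1)]) (.done))))))))) (.alt (.leaf [(0, 1),
    (2, 1), (8, 2), (10, 2), (12, 2), (14, 1), (27, 1), (32, 1)]) (.alt (.leaf [(0, 1), (2, 1),
    (8, 1), (10, 1), (16, 1), (23, 1)]) (.alt (.leaf [(0, 4), (4, 2), (8, 2), (10, 4), (12, 4),
    (14, 2), (17, 2), (27, 1), (28, 1), (34, 2)]) (.alt (.leaf [(0, 2), (1, 1), (8, 3), (10, 1),
    (12, 1), (14, 1), (22, 2), (33, 1)]) (.alt (.leaf [(0, 2), (12, 1), (14, 1), (18, 1)])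
    (.done))))))))) (.alt (.leaf [(0, 2), (1, 2), (3, 2), (7, 1), (9, 3), (11, 2), (13, 1), (15,
    1), (17, 2), (22, 1), (26, 1), (31, 1)]) (.alt (.leaf [(0, 1), (11, 1)]) (.done)))))))))
    (.alt (.leaf [(0, 2), (1, 1), (6, 1), (8, 1), (10, 2), (12, 1), (13, 1), (26, 1), (29, 1),
    (37, 1)]) (.alt (.split 3 [] (.alt (.split 0 [1, -1, 0, 0] (.alt (.leaf [(0, 1), (7, 2), (9,
    1), (35, 1)]) (.alt (.leaf [(0, 1), (9, 1), (35, 1)]) (.alt (.split 2 [0, 1, 0, -1] (.alt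
    (.leaf [(0, 2), (8, 5), (10, 9), (14, 1), (36, 6)]) (.alt (.leaf [(0, 2), (8, 2), (10, 1),
    (36, 1), (37, 1)]) (.alt (.leaf [(0, 2), (1, 1), (9, 1), (11, 1), (13, 3), (15, 1), (28, 1),
    (29, 1), (33, 1)]) (.alt (.split 2 [1, 0, 0, -1] (.alt (.leaf [(0, 2), (9, 7), (11, 9), (15,
    1), (37, 6)]) (.alt (.leaf [(0, 2), (11, 1), (37, 1), (38, 1)]) (.alt (.leaf [(0, 1), (1,
    1), (3, 1), (4, 2), (6, 1), (12, 1), (16, 1), (17, 1), (20, 1), (25, 1), (27, 2), (36, 1)])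
    (.alt (.leaf [(0, 2), (2, 1), (4, 4), (6, 2), (10, 3), (12, 5), (14, 3), (16, 3), (20, 2),
    (27, 4), (33, 1), (36, 2)]) (.alt (.leaf [(0, 1), (4, 1), (10, 1), (12, 1), (14, 1), (16,
    1), (27, 1), (36, 1)]) (.alt (.leaf [(0, 1), (4, 3), (6, 2), (10, 1), (12, 3), (14, 1), (16,
    1), (20, 2), (27, 3), (36, 1)]) (.alt (.leaf [(0, 2), (14, 3), (16, 3), (20, 1), (42, 2)])
    (.done))))))))) (.alt (.leaf [(0, 1), (3, 1), (5, 1), (11, 1), (13, 1), (15, 1), (19, 1),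
    (26, 1), (35, 1)]) (.alt (.leaf [(0, 1), (3, 3), (5, 1), (9, 2), (11, 3), (13, 1), (15, 1),
    (19, 1), (26, 3), (35, 1)]) (.alt (.leaf [(0, 2), (13, 1), (15, 3), (19, 1), (41, 2)])
    (.done))))))))) (.alt (.leaf [(0, 1), (3, 1), (12, 1), (16, 1), (27, 1), (39, 1)]) (.alt
    (.leaf [(0, 1), (2, 2), (8, 3), (10, 3), (12, 1), (14, 1), (23, 2), (34, 1), (39, 2)]) (.alt
    (.leaf [(0, 1), (4, 1), (6, 1), (10, 1), (12, 1), (14, 1), (18, 1)]) (.alt (.leaf [(0, 1),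
    (12, 1)]) (.done))))))))) (.alt (.leaf [(0, 1), (1, 2), (3, 1), (7, 1), (9, 1), (13, 1),
    (17, 1), (19, 1), (22, 1), (33, 1), (38, 2)]) (.alt (.leaf [(0, 1), (1, 2), (3, 2), (7, 1),
    (9, 3), (13, 1), (17, 1), (22, 3), (33, 1), (38, 3)]) (.alt (.leaf [(0, 1), (1, 2), (7, 1),
    (9, 1), (13, 1), (17, 1), (22, 1), (33, 1), (38, 1)]) (.done)))))) (.alt (.leaf [(0, 2), (1,
    2), (4, 1), (6, 1), (10, 2), (12, 2), (15, 1), (20, 1), (31, 1)]) (.done)))))))) (.alt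
    (.leaf [(0, 1), (1, 1), (3, 1), (7, 1), (9, 2), (11, 1), (27, 1)]) (.done)))))) (.done)))))

theorem C2.chk4 : checkOne C2.D 4 [(-1, 1, 2), (-1, 2, 1), (1, 0, 2), (1, 1, 1), (1, 2, 0)] (1, 1, 0) C2.T4 = true := by decide +kernel

end Pool.Agent.Work.MP_7453a1_st
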