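import Pool.Agent.Work.MP_7453a1_st.CertC2D

set_option autoImplicit false
set_option maxRecDepth 100000

/-! Certificates (the next point of a slow triple). -/

namespace Pool.Agent.Work.MP_7453a1_st

open Pool.Agent.Work.MP_7453a1_nt_norm Pool.Agent.Work.MP_7453a1_nt_sup

/-- Class (1, 0, 1). -/
def C2.T5 : Tree :=
  .split 1 [] (.alt (.leaf [(0, 1), (6, 1), (8, 1), (23, 1), (33, 1)]) (.alt (.split 0 [1, 0, 1,
    -1] (.alt (.leaf [(0, 2), (4, 2), (10, 2), (32, 1), (33, 1)]) (.alt (.leaf [(0, 2), (32, 1),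
    (33, 1)]) (.alt (.split 3 [] (.alt (.leaf [(0, 1), (1, 2), (2, 1), (6, 1), (8, 2), (12, 1),
    (13, 1), (21, 2), (30, 1)]) (.alt (.leaf [(0, 1), (1, 2), (6, 1), (12, 1), (13, 1), (18, 1),
    (30, 1)]) (.alt (.split 0 [0, 1, 1, -1] (.alt (.leaf [(0, 2), (12, 2), (34, 1), (35, 1)])
    (.alt (.leaf [(0, 2), (6, 2), (34, 1), (35, 1)]) (.alt (.leaf [(0, 1), (2, 1), (7, 2), (9,
    2), (11, 2), (13, 1), (26, 1), (31, 1)]) (.alt (.leaf [(0, 1), (2, 1), (7, 1), (14, 1), (19,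
    1)]) (.alt (.split 2 [1, 0, 0, -1] (.alt (.leaf [(0, 2), (7, 2), (13, 6), (35, 1), (36, 5)])
    (.alt (.leaf [(0, 2), (35, 1), (36, 1)]) (.alt (.leaf [(0, 1), (3, 1), (12, 1), (14, 1),
    (15, 1), (32, 1)]) (.alt (.leaf [(0, 1), (3, 3), (8, 2), (10, 2), (12, 1), (14, 1), (15, 1),
    (23, 2), (32, 1)]) (.alt (.leaf [(0, 1), (1, 1), (8, 1), (10, 1), (12, 2), (14, 1), (29, 1),
    (34, 1), (38, 1)]) (.alt (.leaf [(0, 1), (1, 1), (12, 1), (18, 1), (29, 1)]) (.alt (.leaf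
    [(0, 2), (12, 1), (18, 3), (41, 2)]) (.done))))))))) (.alt (.leaf [(0, 2), (1, 2), (2, 2),
    (7, 2), (9, 2), (13, 2), (14, 1), (16, 1), (22, 1), (24, 1), (31, 1), (32, 1)])
    (.done)))))))) (.alt (.split 0 [0, 1, 1, -1] (.alt (.leaf [(0, 2), (12, 2), (34, 1), (35,
    1)]) (.alt (.leaf [(0, 2), (6, 2), (34, 1), (35, 1)]) (.alt (.leaf [(0, 1), (2, 1), (7, 2),
    (9, 2), (11, 2), (13, 1), (26, 1), (31, 1)]) (.alt (.leaf [(0, 1), (2, 1), (7, 1), (14, 1),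
    (19, 1)]) (.alt (.leaf [(0, 2), (1, 2), (2, 4), (7, 3), (9, 3), (11, 1), (13, 3), (14, 2),
    (17, 1), (22, 2), (31, 2), (33, 1), (37, 1)]) (.alt (.split 2 [1, 0, 0, -1] (.alt (.leaf
    [(0, 2), (7, 2), (13, 6), (35, 1), (36, 5)]) (.alt (.leaf [(0, 2), (35, 1), (36, 1)]) (.alt
    (.leaf [(0, 1), (3, 1), (12, 1), (14, 1), (15, 1), (32, 1)]) (.alt (.leaf [(0, 1), (3, 3),
    (8, 2), (10, 2), (12, 1), (14, 1), (15, 1), (23, 2), (32, 1)]) (.alt (.leaf [(0, 1), (1, 1),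
    (12, 1), (17, 1), (30, 1)]) (.alt (.leaf [(0, 1), (1, 1), (8, 1), (12, 1), (14, 1), (22, 1),
    (33, 1)]) (.alt (.leaf [(0, 2), (12, 1), (18, 3), (41, 2)]) (.done))))))))) (.done))))))))
    (.done)))))) (.alt (.leaf [(0, 2), (1, 1), (5, 1), (7, 2), (9, 2), (11, 1), (13, 1), (25,
    1), (28, 1)]) (.alt (.split 2 [0, 0, 1, -1] (.alt (.leaf [(0, 2), (5, 1), (11, 5), (33, 2),
    (34, 4)]) (.alt (.leaf [(0, 2), (5, 1), (11, 1), (34, 2)]) (.alt (.split 0 [0, 1, 1, -1]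
    (.alt (.leaf [(0, 2), (12, 2), (34, 1), (35, 1)]) (.alt (.leaf [(0, 2), (6, 2), (34, 1),
    (35, 1)]) (.alt (.leaf [(0, 2), (3, 1), (7, 1), (9, 2), (11, 2), (13, 1), (15, 1), (26, 1),
    (31, 1)]) (.alt (.leaf [(0, 1), (1, 1), (7, 1), (9, 1), (11, 1), (22, 1), (27, 1)]) (.alt
    (.leaf [(0, 1), (2, 1), (7, 2), (9, 2), (11, 2), (13, 1), (28, 1), (33, 1)]) (.alt (.leaf
    [(0, 1), (2, 1), (7, 1), (16, 1), (21, 1)]) (.done)))))))) (.alt (.leaf [(0, 2), (1, 2),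
    (10, 2), (12, 2), (13, 1), (15, 1), (29, 1), (32, 1), (37, 1)]) (.alt (.leaf [(0, 1), (1,
    1), (6, 1), (8, 1), (10, 1), (12, 1), (21, 1), (32, 1), (37, 1)]) (.alt (.leaf [(0, 1), (1,
    3), (6, 1), (8, 1), (10, 1), (12, 1), (15, 2), (21, 1), (32, 1), (37, 1)]) (.alt (.leaf [(0,
    2), (16, 2), (38, 1), (39, 1)]) (.done))))))))) (.alt (.leaf [(0, 2), (5, 1), (7, 1), (9,
    1), (11, 1), (15, 1), (30, 1), (35, 1)]) (.alt (.leaf [(0, 2), (9, 1), (15, 1)])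
    (.done))))))))) (.alt (.leaf [(0, 1), (6, 1), (8, 1), (25, 1), (34, 1)]) (.alt (.split 2 []
    (.alt (.split 0 [1, -1, 0, 0] (.alt (.leaf [(0, 2), (5, 3), (11, 1), (33, 1), (34, 1)])
    (.alt (.leaf [(0, 1), (7, 1), (33, 1)]) (.alt (.split 0 [0, 1, 1, -1] (.alt (.leaf [(0, 2),
    (12, 2), (34, 1), (35, 1)]) (.alt (.leaf [(0, 2), (6, 2), (34, 1), (35, 1)]) (.alt (.leaf
    [(0, 4), (1, 2), (7, 6), (9, 6), (11, 6), (13, 2), (26, 3), (27, 1), (31, 2)]) (.alt (.split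
    0 [1, 0, 1, -1] (.alt (.leaf [(0, 2), (7, 2), (13, 2), (35, 1), (36, 1)]) (.alt (.leaf [(0,
    2), (35, 1), (36, 1)]) (.alt (.leaf [(0, 1), (1, 1), (8, 1), (15, 1), (20, 1)]) (.alt (.leaf
    [(0, 4), (2, 2), (8, 6), (10, 6), (12, 6), (14, 2), (27, 1), (28, 3), (31, 2)]) (.alt
    (.split 3 [] (.alt (.leaf [(0, 2), (1, 2), (2, 2), (9, 2), (11, 2), (15, 2), (16, 1), (18,
    1), (24, 1), (26, 1), (32, 1), (35, 1)]) (.alt (.leaf [(0, 1), (1, 2), (9, 1), (15, 1), (18,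
    1), (21, 1), (35, 1), (40, 1)]) (.alt (.leaf [(0, 1), (1, 2), (5, 1), (9, 1), (11, 2), (15,
    1), (18, 1), (26, 2), (35, 1)]) (.alt (.leaf [(0, 1), (1, 2), (9, 1), (15, 1), (18, 1), (23,
    1), (35, 1)]) (.done)))))) (.alt (.leaf [(0, 2), (4, 1), (8, 1), (10, 2), (12, 2), (14, 1),
    (18, 1), (30, 1), (33, 1)]) (.alt (.leaf [(3, 1), (6, 1), (8, 1), (13, 1), (17, 1), (19, 1),
    (25, 1), (36, 1)]) (.done))))))))) (.alt (.leaf [(0, 4), (3, 4), (7, 2), (9, 6), (11, 4),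
    (13, 2), (17, 2), (24, 2), (26, 1), (27, 1), (33, 2)]) (.alt (.split 0 [1, 0, -1, 0] (.alt
    (.leaf [(0, 1), (7, 1), (13, 1), (36, 1)]) (.alt (.leaf [(0, 1), (35, 1)]) (.alt (.leaf [(0,
    1), (3, 1), (6, 1), (12, 1), (14, 1), (15, 1)]) (.alt (.leaf [(0, 1), (2, 1), (8, 2), (10,
    1), (20, 1), (23, 1)]) (.alt (.leaf [(0, 1), (4, 1), (10, 1), (12, 1), (17, 1), (30, 1)])
    (.alt (.leaf [(0, 1), (1, 2), (8, 3), (10, 1), (12, 1), (14, 1), (22, 2), (33, 1)]) (.alt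
    (.leaf [(0, 1), (12, 1), (14, 1)]) (.done))))))))) (.done)))))))) (.alt (.leaf [(0, 1), (1,
    1), (10, 1), (14, 1), (25, 1)]) (.alt (.split 0 [1, 0, 1, -1] (.alt (.leaf [(0, 2), (6, 2),
    (12, 2), (34, 1), (35, 1)]) (.alt (.leaf [(0, 2), (34, 1), (35, 1)]) (.alt (.split 0 [1, 0,
    -1, 0] (.alt (.leaf [(0, 1), (7, 1), (13, 1), (36, 1)]) (.alt (.leaf [(0, 1), (35, 1)])
    (.alt (.leaf [(0, 1), (1, 2), (8, 1), (10, 1), (12, 1), (14, 1), (15, 2), (32, 1)]) (.alt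
    (.leaf [(0, 1), (1, 2), (8, 3), (10, 3), (12, 1), (14, 1), (23, 2), (32, 1)]) (.alt (.leaf
    [(0, 1), (4, 1), (10, 1), (12, 1), (17, 1), (30, 1)]) (.alt (.leaf [(0, 1), (2, 1), (8, 2),
    (10, 1), (22, 1), (25, 1)]) (.alt (.leaf [(0, 1), (12, 1), (14, 1)]) (.done))))))))) (.alt
    (.leaf [(0, 2), (2, 1), (5, 1), (7, 1), (9, 1), (11, 2), (13, 2), (15, 1), (30, 1)]) (.alt
    (.split 3 [] (.alt (.split 0 [0, 1, 1, -1] (.alt (.leaf [(0, 2), (14, 2), (36, 1), (37, 1)])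
    (.alt (.leaf [(0, 2), (8, 2), (36, 1), (37, 1)]) (.alt (.split 2 [1, 0, 0, -1] (.alt (.leaf
    [(0, 2), (9, 2), (15, 6), (37, 1), (38, 5)]) (.alt (.leaf [(0, 2), (37, 1), (38, 1)]) (.alt
    (.leaf [(0, 1), (1, 1), (3, 2), (10, 2), (12, 2), (14, 3), (16, 2), (19, 1), (29, 1), (34,
    1), (36, 1), (41, 1)]) (.alt (.leaf [(0, 1), (1, 1), (14, 1), (18, 1), (29, 1)]) (.alt
    (.leaf [(0, 1), (3, 1), (14, 1), (16, 1), (19, 1), (36, 1)]) (.alt (.leaf [(0, 1), (1, 2),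
    (3, 1), (10, 2), (12, 2), (14, 3), (16, 1), (18, 1), (29, 2), (34, 1), (41, 1)]) (.alt
    (.leaf [(2, 1), (5, 1), (6, 1), (8, 1), (15, 2), (17, 2), (19, 2), (21, 1), (34, 1), (39,
    1), (46, 1)]) (.done))))))))) (.alt (.leaf [(0, 2), (1, 2), (2, 2), (9, 2), (11, 2), (15,
    2), (16, 1), (18, 1), (24, 2), (32, 1), (35, 1), (40, 1)]) (.alt (.leaf [(0, 2), (2, 2), (5,
    2), (9, 4), (11, 6), (13, 4), (15, 2), (24, 2), (28, 1), (29, 1), (35, 2), (40, 2)]) (.alt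
    (.leaf [(0, 1), (2, 1), (9, 1), (18, 1), (23, 1)]) (.done)))))))) (.alt (.leaf [(0, 1), (1,
    2), (8, 1), (14, 1), (17, 1), (20, 1), (34, 1), (39, 1)]) (.alt (.leaf [(0, 1), (1, 2), (4,
    1), (8, 1), (10, 2), (14, 1), (17, 1), (23, 2), (34, 1), (39, 2)]) (.alt (.leaf [(0, 1), (1,
    2), (8, 1), (14, 1), (17, 1), (22, 1), (34, 1)]) (.done)))))) (.alt (.leaf [(0, 4), (1, 2),
    (7, 6), (9, 6), (11, 6), (13, 2), (26, 1), (27, 1), (29, 2), (32, 2)]) (.alt (.leaf [(0, 2),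
    (11, 1), (17, 1)]) (.done))))))))) (.alt (.leaf [(0, 2), (2, 2), (8, 2), (10, 2), (16, 2),
    (25, 1), (26, 1)]) (.alt (.leaf [(0, 1), (10, 1)]) (.done))))))))) (.alt (.leaf [(0, 1), (1,
    1), (3, 1), (7, 1), (9, 2), (11, 1), (27, 1), (36, 1)]) (.alt (.split 0 [1, -1, 0, 0] (.alt
    (.leaf [(0, 2), (5, 3), (11, 1), (33, 1), (34, 1)]) (.alt (.leaf [(0, 1), (7, 1), (33, 1)])
    (.alt (.split 0 [0, 1, 1, -1] (.alt (.leaf [(0, 2), (12, 2), (34, 1), (35, 1)]) (.alt (.leaf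
    [(0, 2), (6, 2), (34, 1), (35, 1)]) (.alt (.leaf [(0, 4), (1, 2), (7, 6), (9, 6), (11, 6),
    (13, 2), (26, 3), (27, 1), (31, 2)]) (.alt (.split 0 [1, 0, 1, -1] (.alt (.leaf [(0, 2), (7,
    2), (13, 2), (35, 1), (36, 1)]) (.alt (.leaf [(0, 2), (35, 1), (36, 1)]) (.alt (.leaf [(0,
    1), (1, 1), (8, 1), (15, 1), (20, 1)]) (.alt (.leaf [(0, 4), (2, 2), (8, 6), (10, 6), (12,
    6), (14, 2), (27, 1), (28, 3), (31, 2)]) (.alt (.split 3 [] (.alt (.leaf [(0, 2), (1, 2),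
    (2, 2), (9, 2), (11, 2), (15, 2), (16, 1), (18, 1), (24, 1), (26, 1), (32, 1), (35, 1)])
    (.alt (.leaf [(0, 1), (1, 2), (9, 1), (15, 1), (18, 1), (21, 1), (35, 1), (40, 1)]) (.alt
    (.leaf [(0, 1), (1, 2), (5, 1), (9, 1), (11, 2), (15, 1), (18, 1), (26, 2), (35, 1)]) (.alt
    (.leaf [(0, 1), (1, 2), (9, 1), (15, 1), (18, 1), (23, 1), (35, 1)]) (.done)))))) (.alt
    (.leaf [(0, 2), (3, 1), (6, 1), (8, 1), (10, 1), (12, 2), (14, 2), (18, 1), (33, 1)]) (.alt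
    (.leaf [(3, 1), (6, 1), (8, 1), (13, 1), (17, 1), (19, 1), (25, 1), (36, 1), (44, 1)])
    (.done))))))))) (.alt (.leaf [(0, 4), (3, 4), (7, 2), (9, 6), (11, 4), (13, 2), (17, 2),
    (24, 2), (26, 1), (27, 1), (33, 2)]) (.alt (.split 0 [1, 0, -1, 0] (.alt (.leaf [(0, 1), (7,
    1), (13, 1), (36, 1)]) (.alt (.leaf [(0, 1), (35, 1)]) (.alt (.leaf [(0, 1), (3, 1), (6, 1),
    (12, 1), (14, 1), (15, 1), (39, 1)]) (.alt (.leaf [(0, 1), (2, 1), (8, 2), (10, 1), (20, 1),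
    (23, 1)]) (.alt (.leaf [(0, 1), (3, 1), (6, 1), (12, 1), (14, 1), (17, 1)]) (.alt (.leaf
    [(0, 1), (1, 2), (8, 3), (10, 1), (12, 1), (14, 1), (22, 2), (33, 1)]) (.alt (.leaf [(0, 1),
    (12, 1), (14, 1)]) (.done))))))))) (.done)))))))) (.alt (.leaf [(0, 1), (1, 1), (10, 1),
    (14, 1), (25, 1), (37, 1)]) (.alt (.split 0 [1, 0, 1, -1] (.alt (.leaf [(0, 2), (6, 2), (12,
    2), (34, 1), (35, 1)]) (.alt (.leaf [(0, 2), (34, 1), (35, 1)]) (.alt (.split 2 [0, 0, 1,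
    -1] (.alt (.leaf [(0, 2), (7, 1), (13, 5), (35, 2), (36, 4)]) (.alt (.leaf [(0, 2), (7, 1),
    (13, 1), (36, 2)]) (.alt (.leaf [(0, 1), (1, 1), (8, 1), (10, 1), (12, 1), (14, 1), (23, 1),
    (32, 1)]) (.alt (.leaf [(0, 1), (1, 3), (8, 1), (10, 1), (12, 1), (14, 1), (15, 2), (23, 1),
    (32, 1)]) (.alt (.leaf [(0, 2), (2, 1), (8, 1), (12, 1), (14, 1), (22, 1), (25, 1), (34,
    1)]) (.alt (.leaf [(0, 2), (1, 2), (3, 1), (12, 2), (14, 2), (15, 1), (17, 1), (23, 1), (32,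
    1), (33, 1)]) (.alt (.leaf [(0, 2), (18, 2), (40, 1), (41, 1)]) (.done))))))))) (.alt (.leaf
    [(0, 2), (2, 1), (5, 1), (7, 1), (9, 1), (11, 2), (13, 2), (15, 1), (30, 1), (38, 1)]) (.alt
    (.split 3 [] (.alt (.split 0 [0, 1, 1, -1] (.alt (.leaf [(0, 2), (14, 2), (36, 1), (37, 1)])
    (.alt (.leaf [(0, 2), (8, 2), (36, 1), (37, 1)]) (.alt (.split 2 [1, 0, 0, -1] (.alt (.leaf
    [(0, 2), (9, 2), (15, 6), (37, 1), (38, 5)]) (.alt (.leaf [(0, 2), (37, 1), (38, 1)]) (.alt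
    (.leaf [(0, 1), (1, 1), (3, 2), (10, 2), (12, 2), (14, 3), (16, 2), (19, 1), (29, 1), (34,
    1), (36, 1), (41, 1)]) (.alt (.leaf [(0, 1), (1, 1), (14, 1), (18, 1), (29, 1)]) (.alt
    (.leaf [(0, 1), (3, 1), (14, 1), (16, 1), (19, 1), (36, 1)]) (.alt (.leaf [(0, 1), (1, 2),
    (3, 1), (10, 2), (12, 2), (14, 3), (16, 1), (18, 1), (29, 2), (34, 1), (41, 1)]) (.alt
    (.leaf [(2, 1), (5, 1), (6, 1), (8, 1), (15, 2), (17, 2), (19, 2), (21, 1), (34, 1), (39,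
    1), (46, 1)]) (.done))))))))) (.alt (.leaf [(0, 2), (1, 2), (2, 2), (9, 2), (11, 2), (15,
    2), (16, 1), (18, 1), (24, 2), (32, 1), (35, 1), (40, 1)]) (.alt (.leaf [(0, 2), (2, 2), (5,
    2), (9, 4), (11, 6), (13, 4), (15, 2), (24, 2), (28, 1), (29, 1), (35, 2), (40, 2)]) (.alt
    (.leaf [(0, 1), (2, 1), (9, 1), (18, 1), (23, 1)]) (.done)))))))) (.alt (.leaf [(0, 1), (1,
    2), (8, 1), (14, 1), (17, 1), (20, 1), (34, 1), (39, 1)]) (.alt (.leaf [(0, 1), (1, 2), (4,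
    1), (8, 1), (10, 2), (14, 1), (17, 1), (23, 2), (34, 1), (39, 2)]) (.alt (.leaf [(0, 1), (1,
    2), (8, 1), (14, 1), (17, 1), (22, 1), (34, 1)]) (.done)))))) (.alt (.leaf [(0, 4), (1, 2),
    (7, 6), (9, 6), (11, 6), (13, 2), (26, 1), (27, 1), (29, 2), (32, 2)]) (.alt (.leaf [(5, 2),
    (6, 1), (7, 1), (12, 1), (16, 1), (18, 1), (26, 1), (37, 1)]) (.done))))))))) (.alt (.leaf
    [(0, 2), (2, 2), (8, 2), (10, 2), (16, 2), (25, 1), (26, 1)]) (.alt (.leaf [(0, 1), (10,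
    1)]) (.done))))))))) (.alt (.leaf [(0, 1), (1, 1), (3, 1), (7, 1), (9, 2), (11, 1), (27,
    1)]) (.done)))))) (.done)))))

theorem C2.chk5 : checkOne C2.D 4 [(-1, 1, 2), (-1, 2, 1), (1, 0, 2), (1, 1, 1), (1, 2, 0)] (1, 0, 1) C2.T5 = true := by decide +kernel

/-- Class (0, 1, 1). -/
def C2.T6 : Tree :=
  .split 3 [0, 0, 0, 1] (.alt (.leaf [(0, 2), (9, 1)]) (.alt (.leaf [(0, 2), (3, 8), (5, 12), (9,
    3), (31, 8)]) (.alt (.leaf [(0, 2), (10, 1), (23, 1), (27, 1)]) (.alt (.leaf [(0, 2), (10,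
    1), (24, 1), (28, 1)]) (.alt (.leaf [(0, 2), (10, 1), (25, 1), (29, 1)]) (.alt (.leaf [(0,
    2), (10, 1), (26, 1), (30, 1)]) (.alt (.leaf [(1, 2), (8, 4), (10, 6), (14, 1), (36, 4)])
    (.done))))))))

theorem C2.chk6 : checkOne C2.D 4 [(-1, 1, 2), (-1, 2, 1), (1, 0, 2), (1, 1, 1), (1, 2, 0)] (0, 1, 1) C2.T6 = true := by decide +kernel

/-- Class (1, 1, 1). -/
def C2.T7 : Tree :=
  .split 1 [] (.alt (.leaf [(0, 1), (6, 1), (8, 1), (23, 1), (33, 1)]) (.alt (.split 2 [] (.alt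
    (.split 0 [1, 1, 1, -1] (.alt (.leaf [(0, 2), (5, 2), (7, 1), (11, 1), (33, 1)]) (.alt
    (.leaf [(0, 2), (5, 1), (7, 1), (33, 2), (34, 1)]) (.alt (.leaf [(0, 2), (2, 1), (6, 1), (8,
    2), (10, 1), (12, 1), (13, 1), (21, 1), (30, 1)]) (.alt (.leaf [(0, 2), (1, 1), (6, 1), (10,
    1), (12, 1), (14, 1), (18, 1), (29, 1)]) (.alt (.split 1 [0, 1, 1, -1] (.alt (.leaf [(0, 2),
    (6, 2), (8, 5), (12, 1), (34, 3)]) (.alt (.leaf [(0, 2), (6, 1), (8, 1), (35, 1)]) (.alt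
    (.split 3 [1, 0, 0, -1] (.alt (.leaf [(0, 2), (7, 8), (9, 11), (13, 3), (35, 7)]) (.alt
    (.leaf [(0, 2), (9, 1), (13, 1), (35, 1)]) (.alt (.leaf [(0, 1), (1, 1), (2, 2), (8, 1),
    (10, 2), (12, 2), (14, 2), (17, 1), (29, 1), (32, 1), (34, 1)]) (.alt (.leaf [(0, 1), (1,
    1), (2, 2), (4, 1), (10, 2), (12, 1), (14, 1), (16, 1), (17, 1), (23, 1), (29, 1), (34, 1)])
    (.alt (.leaf [(0, 1), (2, 1), (14, 1), (17, 1), (34, 1)]) (.alt (.leaf [(0, 1), (2, 3), (8,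
    2), (10, 2), (12, 2), (14, 1), (17, 1), (29, 2), (34, 1)]) (.alt (.leaf [(0, 2), (12, 4),
    (14, 5), (18, 1), (40, 3)]) (.done))))))))) (.alt (.split 2 [0, 0, 1, -1] (.alt (.leaf [(0,
    2), (7, 6), (9, 9), (13, 1), (35, 7)]) (.alt (.leaf [(0, 2), (7, 1), (9, 1), (36, 1)]) (.alt
    (.leaf [(0, 1), (1, 1), (2, 2), (8, 1), (10, 1), (12, 2), (14, 1), (17, 1), (20, 1), (29,
    1), (34, 1)]) (.alt (.leaf [(0, 2), (2, 4), (3, 1), (4, 1), (8, 1), (10, 2), (12, 5), (14,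
    3), (15, 1), (17, 2), (29, 2), (31, 1), (34, 2)]) (.alt (.leaf [(0, 1), (2, 1), (8, 1), (10,
    1), (12, 1), (14, 1), (23, 1), (34, 1), (39, 1)]) (.alt (.leaf [(0, 1), (2, 1), (12, 1),
    (17, 1), (29, 1), (38, 1)]) (.alt (.leaf [(0, 2), (12, 2), (14, 3), (18, 1), (40, 3)])
    (.done))))))))) (.alt (.leaf [(0, 1), (1, 1), (7, 1), (9, 2), (11, 2), (13, 1), (28, 1),
    (33, 1)]) (.alt (.leaf [(0, 1), (1, 3), (7, 1), (9, 2), (11, 2), (13, 1), (16, 2), (28, 1),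
    (33, 1)]) (.alt (.leaf [(0, 2), (13, 1), (17, 1), (39, 1)]) (.done))))))))) (.alt (.split 3
    [0, 1, 0, -1] (.alt (.leaf [(0, 2), (6, 6), (8, 11), (12, 3), (34, 7)]) (.alt (.leaf [(0,
    2), (6, 2), (8, 1), (12, 1), (34, 1)]) (.alt (.leaf [(0, 2), (1, 2), (3, 2), (9, 2), (11,
    2), (13, 2), (15, 1), (17, 1), (27, 1), (29, 1), (31, 1), (32, 1)]) (.alt (.split 1 [0, 1,
    1, -1] (.alt (.leaf [(0, 2), (7, 2), (9, 5), (13, 1), (35, 3)]) (.alt (.leaf [(0, 2), (7,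
    1), (9, 1), (36, 1)]) (.alt (.leaf [(0, 1), (1, 1), (6, 1), (10, 1), (14, 1), (23, 1)])
    (.alt (.split 3 [1, 0, 0, -1] (.alt (.leaf [(0, 2), (8, 8), (10, 11), (14, 3), (36, 7)])
    (.alt (.leaf [(0, 2), (10, 1), (14, 1), (36, 1)]) (.alt (.leaf [(0, 1), (1, 1), (3, 2), (4,
    1), (13, 1), (15, 1), (16, 1), (19, 1), (21, 1), (31, 1), (34, 1)]) (.alt (.leaf [(0, 2),
    (1, 2), (11, 2), (13, 2), (15, 2), (28, 1), (29, 1), (32, 2)]) (.alt (.leaf [(0, 1), (3, 1),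
    (7, 1), (9, 1), (11, 1), (13, 1), (15, 1), (31, 1)]) (.alt (.leaf [(0, 1), (3, 1), (15, 1),
    (19, 1), (34, 1)]) (.alt (.leaf [(0, 2), (13, 4), (15, 5), (19, 1), (41, 3)])
    (.done))))))))) (.alt (.leaf [(0, 2), (2, 2), (10, 2), (12, 2), (18, 2), (27, 1), (28, 1)])
    (.alt (.leaf [(0, 1), (2, 1), (8, 1), (10, 2), (12, 2), (14, 1), (30, 1), (33, 1)]) (.alt
    (.leaf [(0, 2), (14, 1), (18, 1), (40, 1)]) (.done))))))))) (.alt (.leaf [(0, 1), (1, 3),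
    (7, 1), (9, 1), (11, 1), (13, 1), (17, 2), (29, 1), (32, 1), (37, 1)]) (.alt (.leaf [(0, 1),
    (1, 1), (7, 1), (13, 1), (21, 1), (32, 1)]) (.alt (.leaf [(0, 2), (11, 2), (13, 5), (17, 1),
    (39, 3)]) (.done))))))))) (.done)))))))) (.alt (.leaf [(0, 2), (1, 2), (7, 2), (9, 4), (24,
    1), (25, 3)]) (.alt (.split 0 [1, 1, 1, -1] (.alt (.leaf [(0, 2), (5, 2), (7, 1), (11, 1),
    (33, 1)]) (.alt (.leaf [(0, 2), (5, 1), (7, 1), (33, 2), (34, 1)]) (.alt (.leaf [(0, 2), (2,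
    1), (6, 1), (8, 2), (10, 1), (12, 1), (13, 1), (21, 1), (30, 1)]) (.alt (.leaf [(0, 2), (1,
    1), (6, 1), (10, 1), (12, 1), (14, 1), (18, 1), (29, 1), (37, 1)]) (.alt (.split 0 [1, 0,
    -1, 0] (.alt (.leaf [(0, 1), (6, 2), (8, 2), (34, 1)]) (.alt (.leaf [(0, 1), (34, 1)]) (.alt
    (.leaf [(0, 1), (1, 2), (2, 1), (7, 1), (9, 1), (11, 2), (13, 1), (14, 1), (16, 1), (28, 1),
    (33, 1), (38, 1)]) (.alt (.split 1 [0, 1, 1, -1] (.alt (.leaf [(0, 2), (7, 2), (9, 5), (13,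
    1), (35, 3)]) (.alt (.leaf [(0, 2), (7, 1), (9, 1), (36, 1)]) (.alt (.split 3 [1, 0, 0, -1]
    (.alt (.leaf [(0, 2), (8, 8), (10, 11), (14, 3), (36, 7)]) (.alt (.leaf [(0, 2), (10, 1),
    (14, 1), (36, 1)]) (.alt (.leaf [(0, 1), (1, 1), (3, 2), (9, 1), (11, 2), (13, 2), (15, 2),
    (18, 1), (30, 1), (33, 1), (35, 1)]) (.alt (.leaf [(0, 1), (1, 1), (3, 2), (5, 1), (11, 2),
    (13, 1), (15, 1), (17, 1), (18, 1), (24, 1), (30, 1), (35, 1)]) (.alt (.leaf [(0, 1), (3,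
    1), (15, 1), (18, 1), (35, 1)]) (.alt (.leaf [(0, 1), (3, 3), (9, 2), (11, 2), (13, 2), (15,
    1), (18, 1), (30, 2), (35, 1)]) (.alt (.leaf [(0, 2), (13, 4), (15, 5), (19, 1), (41, 3)])
    (.done))))))))) (.alt (.leaf [(0, 2), (1, 1), (2, 2), (8, 2), (10, 3), (12, 3), (14, 2),
    (17, 1), (20, 1), (29, 1), (31, 1), (34, 1)]) (.alt (.leaf [(0, 1), (2, 1), (8, 1), (10, 2),
    (12, 2), (14, 1), (29, 1), (34, 1)]) (.alt (.leaf [(0, 1), (2, 3), (8, 1), (10, 2), (12, 2),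
    (14, 1), (17, 2), (29, 1), (34, 1)]) (.alt (.leaf [(0, 2), (14, 1), (18, 1), (40, 1)])
    (.done))))))))) (.alt (.leaf [(0, 1), (1, 2), (2, 1), (7, 1), (9, 1), (11, 2), (13, 1), (16,
    2), (28, 1), (33, 1)]) (.alt (.leaf [(0, 1), (1, 2), (7, 3), (9, 3), (11, 2), (13, 1), (22,
    1), (28, 1), (33, 1), (38, 1)]) (.alt (.leaf [(0, 1), (11, 1), (13, 1)]) (.done)))))))))
    (.alt (.leaf [(0, 2), (1, 1), (6, 1), (10, 1), (12, 1), (16, 1), (20, 1), (31, 1)])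
    (.done)))))))) (.alt (.leaf [(0, 1), (3, 1), (9, 1), (11, 1), (35, 1)]) (.done)))))) (.alt
    (.leaf [(0, 1), (6, 1), (8, 1), (25, 1), (34, 1)]) (.alt (.split 2 [] (.alt (.split 0 [1,
    -1, 0, 0] (.alt (.leaf [(0, 2), (5, 3), (11, 1), (33, 1), (34, 1)]) (.alt (.leaf [(0, 1),
    (7, 1), (33, 1)]) (.alt (.split 0 [1, 1, 1, -1] (.alt (.leaf [(0, 2), (6, 2), (8, 1), (12,
    1), (34, 1)]) (.alt (.leaf [(0, 2), (6, 1), (8, 1), (34, 2), (35, 1)]) (.alt (.split 1 [0,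
    1, 1, -1] (.alt (.leaf [(0, 2), (7, 2), (9, 5), (13, 1), (35, 3)]) (.alt (.leaf [(0, 2), (7,
    1), (9, 1), (36, 1)]) (.alt (.leaf [(0, 4), (2, 2), (8, 2), (10, 6), (12, 4), (14, 2), (23,
    2), (27, 1), (28, 1), (32, 2)]) (.alt (.leaf [(0, 1), (1, 3), (8, 1), (10, 2), (12, 2), (14,
    1), (15, 2), (27, 1), (32, 1)]) (.alt (.split 3 [1, 0, 0, -1] (.alt (.leaf [(0, 2), (8, 8),
    (10, 11), (14, 3), (36, 7)]) (.alt (.leaf [(0, 2), (10, 1), (14, 1), (36, 1)]) (.alt (.leaf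
    [(0, 1), (2, 1), (15, 1), (16, 1), (33, 1)]) (.alt (.leaf [(0, 1), (1, 4), (2, 3), (5, 2),
    (11, 6), (13, 4), (15, 3), (16, 1), (19, 2), (26, 2), (28, 2), (33, 1), (35, 2)]) (.alt
    (.leaf [(0, 1), (1, 3), (2, 2), (5, 1), (11, 4), (13, 3), (15, 3), (16, 1), (19, 1), (26,
    1), (28, 1), (33, 1), (35, 2)]) (.alt (.leaf [(0, 1), (1, 1), (2, 2), (5, 1), (11, 2), (13,
    1), (15, 1), (16, 1), (19, 1), (26, 1), (28, 1), (33, 1)]) (.alt (.leaf [(0, 2), (13, 4),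
    (15, 5), (19, 1), (41, 3)]) (.done))))))))) (.alt (.split 2 [0, 0, 1, -1] (.alt (.leaf [(0,
    2), (8, 6), (10, 9), (14, 1), (36, 7)]) (.alt (.leaf [(0, 2), (8, 1), (10, 1), (37, 1)])
    (.alt (.leaf [(0, 1), (2, 1), (9, 1), (11, 1), (13, 1), (15, 1), (24, 1), (33, 1)]) (.alt
    (.leaf [(0, 1), (2, 1), (4, 1), (7, 1), (13, 2), (15, 1), (16, 1), (28, 1)]) (.alt (.leaf
    [(0, 1), (1, 1), (2, 2), (9, 1), (11, 1), (13, 2), (15, 1), (16, 1), (23, 1), (28, 1), (33,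
    1)]) (.alt (.leaf [(0, 2), (2, 2), (5, 2), (11, 2), (13, 4), (15, 2), (16, 1), (18, 1), (28,
    1), (31, 1), (33, 1), (34, 1)]) (.alt (.leaf [(0, 2), (13, 2), (15, 3), (19, 1), (41, 3)])
    (.done))))))))) (.alt (.leaf [(0, 2), (14, 1), (18, 1), (40, 1)]) (.done))))))))) (.alt
    (.leaf [(0, 2), (1, 1), (7, 3), (9, 2), (11, 2), (13, 1), (19, 1), (27, 1), (30, 1)]) (.alt
    (.leaf [(0, 2), (3, 1), (7, 1), (9, 2), (11, 1), (13, 1), (16, 1), (24, 1), (33, 1)]) (.alt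
    (.split 1 [0, 1, 1, -1] (.alt (.leaf [(0, 2), (7, 2), (9, 5), (13, 1), (35, 3)]) (.alt
    (.leaf [(0, 2), (7, 1), (9, 1), (36, 1)]) (.alt (.leaf [(0, 4), (2, 2), (8, 2), (10, 6),
    (12, 4), (14, 2), (23, 2), (27, 1), (28, 1), (32, 2)]) (.alt (.split 3 [1, 0, 0, -1] (.alt
    (.leaf [(0, 2), (8, 8), (10, 11), (14, 3), (36, 7)]) (.alt (.leaf [(0, 2), (10, 1), (14, 1),
    (36, 1)]) (.alt (.leaf [(0, 1), (1, 1), (2, 2), (4, 1), (13, 1), (15, 1), (16, 1), (19, 1),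
    (21, 1), (31, 1), (34, 1)]) (.alt (.leaf [(0, 1), (1, 1), (7, 1), (11, 1), (13, 1), (15, 2),
    (32, 1)]) (.alt (.leaf [(0, 1), (2, 1), (7, 1), (9, 1), (11, 1), (13, 1), (15, 1), (31, 1)])
    (.alt (.leaf [(0, 1), (2, 1), (15, 1), (19, 1), (34, 1)]) (.alt (.leaf [(0, 2), (13, 4),
    (15, 5), (19, 1), (41, 3)]) (.done))))))))) (.alt (.leaf [(0, 2), (1, 2), (10, 2), (12, 2),
    (18, 2), (27, 1), (28, 1)]) (.alt (.leaf [(0, 1), (1, 1), (8, 1), (10, 2), (12, 2), (14, 1),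
    (30, 1), (33, 1)]) (.alt (.leaf [(0, 2), (14, 1), (18, 1), (40, 1)]) (.done)))))))))
    (.done)))))))) (.alt (.leaf [(0, 1), (1, 1), (10, 1), (14, 1), (25, 1)]) (.alt (.split 0 [1,
    1, 1, -1] (.alt (.leaf [(0, 2), (6, 2), (8, 1), (12, 1), (34, 1)]) (.alt (.leaf [(0, 2), (6,
    1), (8, 1), (34, 2), (35, 1)]) (.alt (.split 0 [1, 0, -1, 0] (.alt (.leaf [(0, 1), (7, 2),
    (9, 2), (35, 1)]) (.alt (.leaf [(0, 1), (35, 1)]) (.alt (.leaf [(0, 1), (1, 2), (3, 1), (8,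
    1), (10, 1), (12, 2), (14, 1), (15, 2), (27, 1), (32, 1)]) (.alt (.leaf [(0, 1), (1, 2), (8,
    3), (10, 3), (12, 2), (14, 1), (23, 1), (27, 1), (32, 1)]) (.alt (.leaf [(0, 1), (4, 1),
    (10, 1), (12, 1), (17, 1), (30, 1)]) (.alt (.leaf [(0, 1), (2, 1), (8, 2), (10, 1), (22, 1),
    (23, 1), (39, 1)]) (.alt (.leaf [(0, 1), (12, 1), (14, 1)]) (.done))))))))) (.alt (.leaf
    [(0, 2), (2, 1), (7, 1), (11, 1), (13, 1), (15, 1), (19, 1), (30, 1)]) (.alt (.leaf [(0, 2),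
    (3, 1), (7, 1), (9, 2), (11, 1), (13, 1), (16, 1), (22, 1), (33, 1), (38, 1)]) (.alt (.leaf
    [(0, 2), (1, 1), (7, 3), (9, 2), (11, 2), (13, 1), (21, 1), (29, 1), (32, 1)])
    (.done)))))))) (.alt (.leaf [(0, 2), (2, 2), (8, 2), (10, 2), (16, 2), (25, 1), (26, 1)])
    (.alt (.leaf [(0, 1), (10, 1)]) (.done))))))))) (.alt (.leaf [(0, 1), (1, 1), (3, 1), (7,
    1), (9, 2), (11, 1), (27, 1), (36, 1)]) (.alt (.split 0 [1, 1, 1, -1] (.alt (.leaf [(0, 2),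
    (5, 2), (7, 1), (11, 1), (33, 1)]) (.alt (.leaf [(0, 2), (5, 1), (7, 1), (33, 2), (34, 1)])
    (.alt (.split 1 [0, 1, 1, -1] (.alt (.leaf [(0, 2), (6, 2), (8, 5), (12, 1), (34, 3)]) (.alt
    (.leaf [(0, 2), (6, 1), (8, 1), (35, 1)]) (.alt (.leaf [(0, 1), (1, 1), (7, 1), (9, 2), (11,
    2), (13, 1), (26, 1), (31, 1)]) (.alt (.leaf [(0, 1), (1, 3), (7, 1), (9, 2), (11, 2), (13,
    1), (14, 2), (26, 1), (31, 1)]) (.alt (.split 3 [1, 0, 0, -1] (.alt (.leaf [(0, 2), (7, 8),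
    (9, 11), (13, 3), (35, 7)]) (.alt (.leaf [(0, 2), (9, 1), (13, 1), (35, 1)]) (.alt (.leaf
    [(0, 1), (2, 1), (14, 1), (15, 1), (32, 1)]) (.alt (.leaf [(0, 1), (2, 3), (8, 2), (10, 2),
    (12, 2), (14, 1), (15, 1), (27, 2), (32, 1)]) (.alt (.leaf [(0, 1), (1, 1), (2, 2), (8, 1),
    (10, 2), (12, 2), (14, 2), (15, 1), (27, 1), (32, 1), (34, 1)]) (.alt (.leaf [(0, 1), (1,
    1), (2, 2), (4, 1), (10, 2), (12, 1), (14, 1), (15, 1), (18, 1), (23, 1), (27, 1), (32, 1),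
    (39, 1)]) (.alt (.leaf [(0, 2), (12, 4), (14, 5), (18, 1), (40, 3)]) (.done))))))))) (.alt
    (.split 2 [0, 0, 1, -1] (.alt (.leaf [(0, 2), (7, 6), (9, 9), (13, 1), (35, 7)]) (.alt
    (.leaf [(0, 2), (7, 1), (9, 1), (36, 1)]) (.alt (.leaf [(0, 1), (2, 1), (8, 1), (10, 1),
    (12, 1), (14, 1), (23, 1), (32, 1)]) (.alt (.leaf [(0, 1), (2, 3), (3, 1), (8, 1), (10, 1),
    (12, 3), (14, 1), (15, 2), (27, 2), (32, 1), (39, 1)]) (.alt (.leaf [(0, 1), (1, 1), (2, 2),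
    (8, 1), (10, 1), (12, 2), (14, 1), (15, 1), (22, 1), (27, 1), (32, 1)]) (.alt (.leaf [(0,
    1), (1, 1), (2, 2), (3, 1), (10, 1), (12, 3), (14, 2), (15, 1), (17, 1), (27, 1), (32, 1),
    (33, 1)]) (.alt (.leaf [(0, 2), (12, 2), (14, 3), (18, 1), (40, 3)]) (.done))))))))) (.alt
    (.leaf [(0, 2), (13, 1), (17, 1), (39, 1)]) (.done))))))))) (.alt (.leaf [(0, 2), (1, 1),
    (6, 1), (10, 1), (12, 1), (14, 1), (18, 1), (29, 1), (37, 1)]) (.alt (.leaf [(0, 2), (2, 1),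
    (6, 1), (8, 2), (10, 1), (12, 1), (15, 1), (21, 1), (32, 1), (37, 1)]) (.alt (.leaf [(0, 2),
    (1, 1), (6, 1), (10, 1), (12, 1), (16, 1), (20, 1), (31, 1)]) (.done)))))))) (.alt (.leaf
    [(0, 1), (1, 1), (3, 1), (7, 1), (9, 2), (11, 1), (27, 1)]) (.done)))))) (.done)))))

theorem C2.chk7 : checkOne C2.D 4 [(-1, 1, 2), (-1, 2, 1), (1, 0, 2), (1, 1, 1), (1, 2, 0)] (1, 1, 1) C2.T7 = true := by decide +kernel

end Pool.Agent.Work.MP_7453a1_st
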