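import Pool.Agent.Work.MP_7453a1_st.Alph

set_option autoImplicit false
set_option maxRecDepth 100000

/-! Certificates (independence modulo 2). -/

namespace Pool.Agent.Work.MP_7453a1_st

open Pool.Agent.Work.MP_7453a1_nt_norm Pool.Agent.Work.MP_7453a1_nt_sup

/-- Case 1. -/
def J1.D : Data :=
  ⟨[some [2, 0, 0], some [0, 1, 0], some [0, 0, 1]], sup, [⟨true, [(1, 0), (1, 1), (-1, 2)], [],
    [], []⟩, ⟨false, [], [], [2, 0, 0], []⟩, ⟨false, [], [], [], [2, 0, 0]⟩, ⟨false, [], [], [2,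
    0, 0], [-2, 0, 0]⟩], []⟩

/-- Certificate. -/
def J1.T : Tree :=
  .split 0 [1, 0, 0] (.alt (.leaf [(0, 2), (1, 1), (3, 2)]) (.alt (.leaf [(0, 2), (1, 3), (3, 2)])
    (.alt (.leaf [(0, 2), (2, 1), (4, 1), (6, 1), (7, 1)]) (.alt (.leaf [(0, 2), (2, 2), (4, 2),
    (6, 2), (20, 1)]) (.alt (.leaf [(0, 2), (2, 1), (4, 1), (6, 1), (9, 1)]) (.alt (.leaf [(0,
    2), (2, 2), (4, 2), (6, 2), (21, 1)]) (.alt (.leaf [(1, 2), (10, 1), (24, 1)])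
    (.done))))))))

theorem J1.chk : check J1.D.clause J1.T J1.D.base none = true := by decide +kernel

/-- Case 2. -/
def J2.D : Data :=
  ⟨[some [1, 0, 0], some [0, 2, 0], some [0, 0, 1]], sup, [⟨true, [(1, 0), (1, 1), (-1, 2)], [],
    [], []⟩, ⟨false, [], [], [1, 0, 0], []⟩, ⟨false, [], [], [], [1, 0, 0]⟩, ⟨false, [], [], [1,
    0, 0], [-1, 0, 0]⟩], []⟩

/-- Certificate. -/
def J2.T : Tree :=
  .split 0 [0, 1, 0] (.alt (.leaf [(0, 2), (3, 1), (5, 1), (19, 1)]) (.alt (.leaf [(0, 2), (3, 3),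
    (5, 3), (19, 3)]) (.alt (.leaf [(0, 2), (2, 1), (4, 2), (6, 1), (11, 1)]) (.alt (.leaf [(0,
    2), (2, 1), (4, 2), (6, 1), (12, 1)]) (.alt (.leaf [(0, 2), (2, 1), (4, 2), (6, 1), (13,
    1)]) (.alt (.leaf [(0, 2), (2, 1), (4, 2), (6, 1), (14, 1)]) (.alt (.leaf [(1, 2), (8, 1),
    (10, 1), (24, 1)]) (.done))))))))

theorem J2.chk : check J2.D.clause J2.T J2.D.base none = true := by decide +kernel

/-- Case 3. -/
def J3.D : Data :=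
  ⟨[some [1, 0, 0], some [0, 1, 0], some [0, 0, 2]], sup, [⟨true, [(1, 0), (1, 1), (-1, 2)], [],
    [], []⟩, ⟨false, [], [], [1, 0, 0], []⟩, ⟨false, [], [], [], [1, 0, 0]⟩, ⟨false, [], [], [1,
    0, 0], [-1, 0, 0]⟩], []⟩

/-- Certificate. -/
def J3.T : Tree :=
  .split 0 [0, 0, 1] (.alt (.leaf [(0, 2), (3, 1), (19, 1)]) (.alt (.leaf [(0, 2), (1, 3), (3, 3),
    (5, 1)]) (.alt (.leaf [(0, 2), (2, 1), (4, 2), (6, 2), (15, 1)]) (.alt (.leaf [(0, 2), (2,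
    1), (4, 2), (6, 2), (16, 1)]) (.alt (.leaf [(0, 2), (2, 1), (4, 2), (6, 2), (17, 1)]) (.alt
    (.leaf [(0, 2), (2, 1), (4, 2), (6, 2), (18, 1)]) (.alt (.leaf [(1, 2), (6, 1), (8, 1), (10,
    1)]) (.done))))))))

theorem J3.chk : check J3.D.clause J3.T J3.D.base none = true := by decide +kernel

/-- Case 4. -/
def J4.D : Data :=
  ⟨[some [1, 0, 0], some [-1, 2, 0], some [0, 0, 1]], sup, [⟨true, [(1, 0), (1, 1), (-1, 2)], [],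
    [], []⟩, ⟨false, [], [], [1, 0, 0], []⟩, ⟨false, [], [], [], [1, 0, 0]⟩, ⟨false, [], [], [1,
    0, 0], [-1, 0, 0]⟩], []⟩

/-- Certificate. -/
def J4.T : Tree :=
  .split 0 [0, 1, 0] (.alt (.leaf [(0, 2), (3, 1)]) (.alt (.leaf [(0, 2), (1, 4), (3, 3)]) (.alt
    (.leaf [(0, 2), (4, 1), (7, 1), (11, 1)]) (.alt (.leaf [(0, 2), (2, 1), (4, 2), (6, 1), (12,
    1), (20, 1)]) (.alt (.leaf [(0, 2), (4, 1), (7, 1), (13, 1), (22, 1)]) (.alt (.leaf [(0, 2),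
    (2, 1), (4, 2), (6, 1), (14, 1), (21, 1)]) (.alt (.leaf [(1, 2), (6, 2), (8, 1)])
    (.done))))))))

theorem J4.chk : check J4.D.clause J4.T J4.D.base none = true := by decide +kernel

/-- Case 5. -/
def J5.D : Data :=
  ⟨[some [1, 0, 0], some [0, 1, 0], some [-1, 0, 2]], sup, [⟨true, [(1, 0), (1, 1), (-1, 2)], [],
    [], []⟩, ⟨false, [], [], [1, 0, 0], []⟩, ⟨false, [], [], [], [1, 0, 0]⟩, ⟨false, [], [], [1,
    0, 0], [-1, 0, 0]⟩], []⟩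

/-- Certificate. -/
def J5.T : Tree :=
  .split 0 [1, 0, -1] (.alt (.leaf [(0, 2), (1, 2), (3, 3), (5, 1)]) (.alt (.leaf [(0, 2), (3, 1),
    (5, 1), (19, 2)]) (.alt (.leaf [(0, 2), (4, 1), (6, 1), (7, 1), (16, 1)]) (.alt (.leaf [(0,
    2), (2, 1), (4, 2), (6, 2), (15, 1), (20, 1)]) (.alt (.leaf [(0, 2), (4, 1), (6, 1), (7, 1),
    (18, 1), (22, 1)]) (.alt (.leaf [(0, 2), (2, 1), (4, 2), (6, 2), (17, 1), (21, 1)]) (.alt
    (.leaf [(0, 2), (8, 1), (10, 1)]) (.done))))))))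

theorem J5.chk : check J5.D.clause J5.T J5.D.base none = true := by decide +kernel

/-- Case 6. -/
def J6.D : Data :=
  ⟨[some [1, 0, 0], some [0, 1, 0], some [0, -1, 2]], sup, [⟨true, [(1, 0), (1, 1), (-1, 2)], [],
    [], []⟩, ⟨false, [], [], [1, 0, 0], []⟩, ⟨false, [], [], [], [1, 0, 0]⟩, ⟨false, [], [], [1,
    0, 0], [-1, 0, 0]⟩], []⟩

/-- Certificate. -/
def J6.T : Tree :=
  .split 1 [0, 0, 1] (.alt (.leaf [(0, 2), (5, 1)]) (.alt (.leaf [(0, 2), (1, 4), (3, 4), (5, 3)])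
    (.alt (.leaf [(0, 2), (6, 1), (11, 1), (15, 1)]) (.alt (.leaf [(0, 2), (6, 1), (12, 1), (16,
    1)]) (.alt (.leaf [(0, 2), (6, 1), (13, 1), (17, 1)]) (.alt (.leaf [(0, 2), (6, 1), (14, 1),
    (18, 1)]) (.alt (.leaf [(1, 2), (6, 2), (8, 2), (10, 1)]) (.done))))))))

theorem J6.chk : check J6.D.clause J6.T J6.D.base none = true := by decide +kernel

/-- Case 7. -/
def J7.D : Data :=
  ⟨[some [1, 0, 0], some [0, 1, 0], some [-1, -1, 2]], sup, [⟨true, [(1, 0), (1, 1), (-1, 2)], [],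
    [], []⟩, ⟨false, [], [], [1, 0, 0], []⟩, ⟨false, [], [], [], [1, 0, 0]⟩, ⟨false, [], [], [1,
    0, 0], [-1, 0, 0]⟩], []⟩

/-- Certificate. -/
def J7.T : Tree :=
  .split 0 [] (.alt (.split 0 [0, 1, -1] (.alt (.leaf [(0, 2), (4, 2), (6, 4), (20, 3)]) (.alt
    (.leaf [(0, 2), (4, 2), (20, 1)]) (.alt (.leaf [(0, 2), (1, 1), (3, 1), (5, 3), (7, 2), (12,
    1), (17, 1)]) (.alt (.split 0 [1, 0, -1] (.alt (.leaf [(0, 2), (5, 4), (7, 4), (21, 3)])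
    (.alt (.leaf [(0, 2), (21, 1)]) (.alt (.leaf [(0, 1), (1, 1), (6, 1), (9, 1), (14, 1)])
    (.alt (.leaf [(0, 2), (2, 1), (4, 1), (6, 3), (8, 2), (13, 1), (17, 1)]) (.alt (.split 0 [1,
    1, -1] (.alt (.leaf [(0, 2), (6, 2), (8, 2), (22, 1)]) (.alt (.leaf [(0, 2), (6, 2), (8, 2),
    (22, 3)]) (.alt (.leaf [(0, 1), (2, 1), (5, 1), (7, 1), (9, 1), (10, 1)]) (.alt (.leaf [(0,
    2), (3, 1), (5, 1), (7, 3), (9, 2), (15, 1), (18, 1)]) (.alt (.leaf [(0, 1), (1, 1), (7, 1),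
    (9, 1), (12, 1), (21, 1)]) (.alt (.leaf [(0, 1), (1, 1), (5, 1), (7, 2), (9, 1), (17, 1)])
    (.alt (.leaf [(5, 1), (6, 1), (12, 1), (22, 1)]) (.done))))))))) (.alt (.leaf [(0, 2), (6,
    2), (8, 1), (15, 1), (19, 1), (23, 1)]) (.alt (.leaf [(0, 2), (10, 2), (12, 2), (26, 1)])
    (.done))))))))) (.alt (.leaf [(0, 2), (5, 2), (7, 1), (14, 1), (19, 1), (22, 1)]) (.alt
    (.split 0 [1, 1, -1] (.alt (.leaf [(0, 2), (5, 2), (7, 2), (21, 1)]) (.alt (.leaf [(0, 2),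
    (5, 2), (7, 2), (21, 3)]) (.alt (.split 0 [1, 0, -1] (.alt (.leaf [(0, 2), (6, 4), (8, 4),
    (22, 3)]) (.alt (.leaf [(0, 2), (22, 1)]) (.alt (.leaf [(0, 1), (1, 1), (7, 1), (9, 1), (10,
    1), (19, 1)]) (.alt (.leaf [(0, 2), (3, 1), (5, 1), (7, 3), (9, 2), (14, 1), (18, 1)]) (.alt
    (.leaf [(0, 1), (2, 1), (7, 1), (12, 1), (17, 1)]) (.alt (.leaf [(0, 1), (2, 1), (5, 1), (7,
    2), (9, 2), (20, 1)]) (.alt (.leaf [(0, 2), (11, 2), (13, 2), (27, 1)]) (.done)))))))))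
    (.alt (.leaf [(0, 2), (2, 1), (4, 1), (6, 3), (8, 2), (14, 1), (17, 1)]) (.alt (.leaf [(0,
    1), (1, 1), (4, 1), (6, 1), (8, 1), (11, 1)]) (.alt (.leaf [(0, 1), (1, 1), (6, 2), (8, 1),
    (16, 1), (19, 1)]) (.alt (.leaf [(1, 2), (26, 1)]) (.done))))))))) (.alt (.leaf [(0, 2),
    (11, 2), (25, 1)]) (.done))))))))) (.alt (.leaf [(0, 1), (2, 1), (4, 1), (6, 1), (20, 1)])
    (.alt (.split 0 [0, 1, -1] (.alt (.leaf [(0, 2), (4, 2), (6, 4), (20, 3)]) (.alt (.leaf [(0,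
    2), (4, 2), (20, 1)]) (.alt (.leaf [(0, 2), (1, 1), (3, 1), (5, 3), (7, 2), (12, 1), (17,
    1), (23, 1)]) (.alt (.split 0 [1, 1, -1] (.alt (.leaf [(0, 2), (5, 2), (7, 2), (21, 1)])
    (.alt (.leaf [(0, 2), (5, 2), (7, 2), (21, 3)]) (.alt (.leaf [(0, 1), (1, 1), (4, 1), (6,
    1), (8, 1), (9, 1)]) (.alt (.leaf [(0, 2), (2, 1), (4, 1), (6, 3), (8, 2), (14, 1), (17, 1),
    (24, 1)]) (.alt (.split 0 [1, 0, -1] (.alt (.leaf [(0, 2), (6, 4), (8, 4), (22, 3)]) (.alt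
    (.leaf [(0, 2), (22, 1)]) (.alt (.leaf [(0, 1), (2, 1), (7, 1), (10, 1), (15, 1)]) (.alt
    (.leaf [(0, 2), (3, 1), (5, 1), (7, 3), (9, 2), (14, 1), (18, 1), (25, 1)]) (.alt (.leaf
    [(0, 1), (1, 1), (7, 1), (9, 1), (10, 1), (21, 1), (25, 1)]) (.alt (.leaf [(0, 2), (3, 1),
    (5, 1), (7, 3), (9, 2), (16, 1), (20, 1)]) (.alt (.leaf [(0, 2), (11, 2), (13, 2), (27, 1)])
    (.done))))))))) (.alt (.leaf [(0, 2), (2, 1), (4, 1), (6, 3), (8, 2), (16, 1), (19, 1)])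
    (.alt (.leaf [(1, 2), (26, 1)]) (.done))))))))) (.alt (.leaf [(0, 2), (1, 1), (3, 1), (5,
    3), (7, 2), (14, 1), (19, 1)]) (.alt (.split 0 [1, 1, -1] (.alt (.leaf [(0, 2), (5, 2), (7,
    2), (21, 1)]) (.alt (.leaf [(0, 2), (5, 2), (7, 2), (21, 3)]) (.alt (.split 0 [1, 0, -1]
    (.alt (.leaf [(0, 2), (6, 4), (8, 4), (22, 3)]) (.alt (.leaf [(0, 2), (22, 1)]) (.alt (.leaf
    [(0, 1), (1, 1), (7, 1), (9, 1), (10, 1), (19, 1)]) (.alt (.leaf [(0, 2), (3, 1), (5, 1),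
    (7, 3), (9, 2), (14, 1), (18, 1), (25, 1)]) (.alt (.leaf [(0, 1), (2, 1), (7, 1), (10, 1),
    (17, 1), (25, 1)]) (.alt (.leaf [(0, 2), (3, 1), (5, 1), (7, 3), (9, 2), (16, 1), (20, 1)])
    (.alt (.leaf [(0, 2), (11, 2), (13, 2), (27, 1)]) (.done))))))))) (.alt (.leaf [(0, 2), (2,
    1), (4, 1), (6, 3), (8, 2), (14, 1), (17, 1), (24, 1)]) (.alt (.leaf [(0, 1), (1, 1), (4,
    1), (6, 1), (8, 1), (9, 1), (24, 1)]) (.alt (.leaf [(0, 2), (2, 1), (4, 1), (6, 3), (8, 2),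
    (16, 1), (19, 1)]) (.alt (.leaf [(1, 2), (26, 1)]) (.done))))))))) (.alt (.leaf [(0, 2),
    (11, 2), (25, 1)]) (.done))))))))) (.alt (.leaf [(0, 1), (2, 1), (4, 1), (6, 1), (21, 1)])
    (.done)))))

theorem J7.chk : check J7.D.clause J7.T J7.D.base none = true := by decide +kernel

end Pool.Agent.Work.MP_7453a1_st
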