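import Pool.Agent.Work.MP_7453a1_st.Alph

set_option autoImplicit false
set_option maxRecDepth 100000

/-! Certificates (words that do not occur). -/

namespace Pool.Agent.Work.MP_7453a1_st

open Pool.Agent.Work.MP_7453a1_nt_norm Pool.Agent.Work.MP_7453a1_nt_sup

/-- The word `PR`. -/
def W1.D : Data :=
  ⟨[some [1], some [0, 1], some [0, 0, 1], some [1, 1, 0], some [2, 3, -1]], sup, [⟨true, [(1, 0),
    (1, 1), (-1, 2)], [], [], []⟩, ⟨true, [(1, 1), (1, 2), (-1, 3)], [], [], []⟩, ⟨true, [(1,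
    2), (1, 3), (-1, 4)], [], [], []⟩, ⟨false, [], [], [0, 1], []⟩, ⟨false, [], [], [], [0, 1]⟩,
    ⟨false, [], [], [0, 1], [0, -1]⟩], []⟩

/-- Certificate. -/
def W1.T : Tree :=
  .split 0 [] (.alt (.leaf [(0, 2), (4, 2), (6, 2), (8, 1), (10, 1), (19, 1), (27, 1), (34, 3)])
    (.alt (.split 1 [] (.alt (.split 0 [1, 1, -1] (.alt (.leaf [(0, 3), (5, 2), (11, 1), (35,
    2)]) (.alt (.leaf [(0, 1), (3, 1), (5, 1), (9, 1)]) (.alt (.leaf [(0, 6), (2, 2), (6, 8),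
    (8, 8), (10, 4), (12, 4), (22, 4), (29, 3), (30, 1)]) (.alt (.leaf [(0, 1), (1, 1), (8, 1),
    (14, 1), (21, 1)]) (.alt (.leaf [(0, 2), (6, 2), (8, 2), (10, 1), (12, 1), (24, 1), (31, 1),
    (37, 1)]) (.alt (.split 3 [] (.alt (.leaf [(0, 2), (1, 2), (7, 2), (9, 2), (13, 2), (22, 1),
    (24, 1), (30, 1), (33, 1), (39, 1)]) (.alt (.leaf [(0, 1), (1, 3), (2, 1), (7, 1), (9, 2),
    (13, 1), (15, 1), (17, 1), (24, 2), (33, 1)]) (.alt (.leaf [(0, 1), (1, 4), (7, 3), (9, 3),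
    (13, 1), (17, 1), (24, 3), (33, 1)]) (.alt (.leaf [(0, 1), (1, 2), (7, 1), (9, 1), (13, 1),
    (17, 1), (24, 1), (33, 1)]) (.done)))))) (.alt (.leaf [(1, 1), (14, 1)]) (.done)))))))))
    (.alt (.leaf [(0, 6), (1, 4), (5, 4), (7, 10), (9, 8), (11, 8), (21, 2), (28, 3), (29, 5)])
    (.alt (.split 0 [1, 1, -1] (.alt (.leaf [(0, 3), (5, 2), (11, 1), (35, 2)]) (.alt (.leaf
    [(0, 1), (3, 1), (5, 1), (9, 1)]) (.alt (.leaf [(0, 6), (2, 2), (6, 8), (8, 8), (10, 4),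
    (12, 4), (22, 4), (29, 3), (30, 1)]) (.alt (.leaf [(0, 1), (1, 1), (8, 1), (14, 1), (21, 1),
    (38, 1)]) (.alt (.leaf [(0, 4), (1, 2), (6, 4), (8, 6), (10, 4), (12, 4), (24, 2), (29, 1),
    (30, 1), (31, 2)]) (.alt (.leaf [(0, 1), (1, 1), (8, 1), (16, 1), (23, 1)]) (.alt (.leaf
    [(1, 1), (14, 1)]) (.done))))))))) (.alt (.leaf [(0, 2), (7, 2), (9, 2), (11, 2), (28, 1),
    (29, 1), (36, 2)]) (.done)))))) (.alt (.leaf [(0, 2), (4, 2), (6, 2), (8, 1), (10, 1), (21,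
    1), (29, 1), (35, 3)]) (.alt (.split 1 [] (.alt (.split 0 [1, 1, -1] (.alt (.leaf [(0, 3),
    (5, 2), (11, 1), (35, 2)]) (.alt (.leaf [(0, 1), (3, 1), (5, 1), (9, 1)]) (.alt (.leaf [(0,
    4), (1, 2), (6, 4), (8, 6), (10, 4), (12, 4), (22, 2), (29, 3), (30, 1)]) (.alt (.leaf [(0,
    1), (1, 1), (8, 1), (14, 1), (21, 1)]) (.alt (.leaf [(0, 6), (2, 2), (6, 8), (8, 8), (10,
    4), (12, 4), (24, 4), (29, 1), (30, 1), (31, 2)]) (.alt (.split 3 [] (.alt (.leaf [(0, 2),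
    (1, 2), (7, 2), (9, 2), (13, 2), (22, 1), (24, 1), (30, 1), (33, 1), (39, 1)]) (.alt (.leaf
    [(0, 1), (1, 3), (2, 1), (7, 1), (9, 2), (13, 1), (15, 1), (17, 1), (24, 2), (33, 1)]) (.alt
    (.leaf [(0, 1), (1, 4), (7, 3), (9, 3), (13, 1), (17, 1), (24, 3), (33, 1)]) (.alt (.leaf
    [(0, 1), (1, 2), (7, 1), (9, 1), (13, 1), (17, 1), (24, 1), (33, 1)]) (.done)))))) (.alt
    (.leaf [(1, 1), (14, 1)]) (.done))))))))) (.alt (.leaf [(0, 6), (1, 4), (5, 4), (7, 10), (9,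
    8), (11, 8), (23, 2), (28, 3), (29, 3), (31, 2), (37, 6)]) (.alt (.split 0 [1, 1, -1] (.alt
    (.leaf [(0, 3), (5, 2), (11, 1), (35, 2)]) (.alt (.leaf [(0, 1), (3, 1), (5, 1), (9, 1)])
    (.alt (.leaf [(0, 6), (2, 2), (6, 8), (8, 8), (10, 4), (12, 4), (22, 3), (24, 1), (29, 3),
    (32, 1), (38, 3)]) (.alt (.leaf [(0, 1), (1, 1), (8, 1), (14, 1), (21, 1), (38, 1)]) (.alt
    (.leaf [(0, 6), (2, 2), (6, 8), (8, 8), (10, 4), (12, 4), (24, 4), (29, 1), (30, 1), (31,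
    2)]) (.alt (.leaf [(0, 1), (1, 1), (8, 1), (16, 1), (23, 1)]) (.alt (.leaf [(1, 1), (14,
    1)]) (.done))))))))) (.alt (.leaf [(0, 6), (1, 4), (5, 4), (7, 10), (9, 8), (11, 8), (23,
    2), (28, 3), (29, 3), (31, 2)]) (.done)))))) (.done)))))

theorem W1.chk : check W1.D.clause W1.T W1.D.base none = true := by decide +kernel

theorem W1.no : NoWord [0, 3] :=
  no_of_check 1 [0, 1] rfl rfl W1.chk

/-- The word `PS`. -/
def W2.D : Data :=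
  ⟨[some [1], some [0, 1], some [0, 0, 1], some [1, 1, 0], some [0, 1, 2], some [0, 0, 0, 0, 0,
    1]], sup, [⟨true, [(1, 0), (1, 1), (-1, 2)], [], [], []⟩, ⟨true, [(1, 1), (1, 2), (-1, 3)],
    [], [], []⟩, ⟨false, [], [], [0, 0, 1], []⟩, ⟨false, [], [], [], [0, 0, 1]⟩, ⟨false, [], [],
    [0, 0, 1], [0, 0, -1]⟩], []⟩

/-- Certificate. -/
def W2.T : Tree :=
  .split 1 [] (.alt (.leaf [(0, 1), (6, 1), (8, 1), (10, 1), (29, 1), (39, 2)]) (.alt (.split 2 []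
    (.alt (.split 0 [1, 0, -1, 0, 0, 0] (.alt (.leaf [(0, 1), (3, 1), (5, 2), (7, 1)]) (.alt
    (.leaf [(0, 1), (9, 1)]) (.alt (.leaf [(0, 3), (1, 1), (6, 1), (8, 1), (10, 2), (12, 1),
    (15, 2), (27, 1), (32, 1)]) (.alt (.leaf [(0, 2), (2, 1), (6, 2), (8, 3), (10, 3), (12, 1),
    (28, 2), (31, 1)]) (.alt (.split 3 [0, 1, 1, 0, 0, 0] (.alt (.leaf [(0, 1), (4, 1), (6, 1),
    (8, 1)]) (.alt (.leaf [(0, 2), (4, 7), (6, 4), (12, 3)]) (.alt (.leaf [(0, 2), (1, 2), (2,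
    2), (7, 2), (9, 1), (11, 3), (13, 3), (23, 1), (30, 2), (32, 2), (35, 1)]) (.alt (.leaf [(0,
    1), (1, 2), (2, 1), (7, 1), (11, 1), (13, 1), (18, 1), (21, 1), (30, 1), (35, 1)]) (.alt
    (.leaf [(0, 2), (1, 4), (7, 4), (9, 3), (11, 3), (13, 1), (23, 1), (30, 4), (35, 1)]) (.alt
    (.leaf [(0, 1), (1, 1), (13, 1), (18, 1), (35, 1)]) (.alt (.leaf [(1, 1), (11, 2), (13, 3),
    (15, 2)]) (.done))))))))) (.alt (.split 3 [0, 1, 1, 0, 0, 0] (.alt (.leaf [(0, 1), (4, 1),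
    (6, 1), (8, 1)]) (.alt (.leaf [(0, 2), (4, 7), (6, 4), (12, 3)]) (.alt (.leaf [(0, 2), (1,
    4), (3, 1), (7, 2), (9, 3), (11, 3), (13, 3), (19, 2), (31, 2), (32, 1), (34, 2)]) (.alt
    (.leaf [(0, 1), (1, 2), (2, 1), (7, 1), (11, 1), (13, 1), (19, 1), (21, 1), (31, 1), (34,
    1)]) (.alt (.leaf [(0, 1), (1, 1), (13, 1), (19, 1), (34, 1)]) (.alt (.leaf [(0, 2), (1, 2),
    (7, 2), (9, 2), (11, 2), (13, 2), (31, 2), (32, 1), (33, 1)]) (.alt (.leaf [(1, 1), (11, 2),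
    (13, 3), (15, 2)]) (.done))))))))) (.alt (.leaf [(0, 1), (10, 1), (12, 1)]) (.done)))))))))
    (.alt (.leaf [(0, 2), (1, 1), (7, 1), (9, 3), (11, 3), (30, 1), (31, 2)]) (.alt (.split 0
    [1, 0, -1, 0, 0, 0] (.alt (.leaf [(0, 1), (3, 1), (5, 2), (7, 1)]) (.alt (.leaf [(0, 1), (9,
    1)]) (.alt (.leaf [(0, 3), (1, 1), (6, 1), (8, 1), (10, 2), (12, 1), (15, 2), (27, 1), (32,
    1), (43, 1)]) (.alt (.leaf [(0, 2), (2, 1), (6, 2), (8, 3), (10, 3), (12, 1), (28, 2), (31,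
    1)]) (.alt (.leaf [(0, 3), (1, 1), (6, 1), (8, 1), (10, 2), (12, 1), (17, 2), (29, 1), (34,
    1)]) (.alt (.leaf [(0, 1), (1, 1), (6, 1), (8, 1), (10, 2), (12, 1), (30, 1), (33, 1)])
    (.alt (.leaf [(0, 1), (10, 1), (12, 1)]) (.done))))))))) (.alt (.leaf [(0, 1), (3, 1), (9,
    1), (11, 1), (13, 1), (41, 1)]) (.done)))))) (.alt (.leaf [(0, 1), (6, 1), (8, 1), (10, 1),
    (31, 1), (40, 2)]) (.alt (.split 0 [1, 0, -1, 0, 0, 0] (.alt (.leaf [(0, 1), (2, 1), (4, 2),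
    (6, 1)]) (.alt (.leaf [(0, 1), (8, 1)]) (.alt (.leaf [(0, 2), (1, 1), (7, 1), (9, 1), (11,
    1), (14, 2), (33, 1), (42, 2)]) (.alt (.split 2 [] (.alt (.leaf [(0, 1), (1, 1), (6, 1), (8,
    1), (10, 2), (12, 1), (28, 1), (31, 1)]) (.alt (.leaf [(0, 1), (1, 1), (2, 1), (6, 1), (8,
    2), (10, 3), (12, 2), (28, 1), (31, 1), (34, 1), (43, 2)]) (.alt (.leaf [(0, 1), (1, 1), (6,
    1), (8, 1), (10, 2), (12, 1), (28, 1), (31, 1), (43, 1)]) (.alt (.leaf [(0, 1), (1, 1), (2,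
    1), (6, 1), (8, 2), (10, 3), (12, 2), (28, 1), (31, 1), (34, 1), (43, 1)]) (.done))))))
    (.alt (.leaf [(0, 2), (1, 1), (7, 1), (9, 1), (11, 1), (16, 2), (33, 1)]) (.alt (.leaf [(0,
    2), (1, 1), (5, 2), (7, 3), (9, 3), (11, 1), (29, 2), (32, 1)]) (.alt (.leaf [(0, 1), (9,
    1), (11, 1)]) (.done))))))))) (.done)))))

theorem W2.chk : check W2.D.clause W2.T W2.D.base none = true := by decide +kernel

theorem W2.no : NoWord [0, 9] :=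
  no_of_check 2 [0, 0, 1] rfl rfl W2.chk

/-- The word `PV`. -/
def W3.D : Data :=
  ⟨[some [1], some [0, 1], some [0, 0, 1], some [1, 1, 0], some [1, 0, 2], some [0, 0, 0, 0, 0,
    1]], sup, [⟨true, [(1, 0), (1, 1), (-1, 2)], [], [], []⟩, ⟨true, [(1, 1), (1, 2), (-1, 3)],
    [], [], []⟩, ⟨false, [], [], [0, 0, 1], []⟩, ⟨false, [], [], [], [0, 0, 1]⟩, ⟨false, [], [],
    [0, 0, 1], [0, 0, -1]⟩], []⟩

/-- Certificate. -/
def W3.T : Tree :=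
  .split 0 [] (.alt (.leaf [(0, 1), (4, 1), (6, 1), (8, 1), (10, 1), (29, 1), (39, 2)]) (.alt
    (.split 0 [0, 1, -1, 0, 0, 0] (.alt (.leaf [(0, 1), (2, 1), (4, 1), (6, 1)]) (.alt (.leaf
    [(0, 1), (4, 1), (8, 1)]) (.alt (.leaf [(0, 2), (1, 1), (5, 3), (7, 1), (9, 1), (11, 1),
    (18, 2), (31, 1)]) (.alt (.leaf [(0, 2), (1, 1), (5, 3), (7, 3), (9, 3), (11, 1), (27, 2),
    (30, 1)]) (.alt (.leaf [(0, 1), (5, 1), (20, 1), (41, 1)]) (.alt (.split 2 [] (.alt (.split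
    3 [1, 0, 1, 0, 0, 0] (.alt (.leaf [(0, 1), (4, 1), (6, 1), (8, 1)]) (.alt (.leaf [(0, 2),
    (4, 7), (6, 3), (12, 3)]) (.alt (.leaf [(0, 2), (3, 1), (7, 1), (9, 1), (11, 1), (13, 3),
    (32, 2), (33, 1)]) (.alt (.leaf [(0, 1), (1, 1), (2, 1), (11, 1), (13, 1), (17, 1), (31, 1),
    (34, 1), (43, 1)]) (.alt (.leaf [(0, 1), (2, 1), (7, 1), (13, 1), (23, 1), (34, 1)]) (.alt
    (.leaf [(0, 2), (2, 2), (7, 2), (9, 2), (11, 2), (13, 2), (31, 2), (32, 1), (33, 1)]) (.alt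
    (.leaf [(2, 2), (8, 1), (12, 1), (14, 1), (16, 1), (18, 1), (37, 1)]) (.done))))))))) (.alt
    (.leaf [(0, 2), (2, 1), (6, 1), (8, 1), (10, 3), (12, 3), (31, 1), (32, 2)]) (.alt (.leaf
    [(0, 1), (1, 1), (6, 1), (8, 1), (10, 2), (12, 1), (30, 1), (33, 1)]) (.alt (.leaf [(0, 1),
    (4, 1), (10, 1), (12, 1), (14, 1), (42, 1)]) (.done)))))) (.alt (.leaf [(0, 1), (11, 1)])
    (.done))))))))) (.alt (.leaf [(0, 1), (4, 1), (6, 1), (8, 1), (10, 1), (31, 1), (40, 2)])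
    (.alt (.split 0 [0, 1, -1, 0, 0, 0] (.alt (.leaf [(0, 1), (2, 1), (4, 1), (6, 1)]) (.alt
    (.leaf [(0, 1), (4, 1), (8, 1)]) (.alt (.leaf [(0, 2), (1, 1), (5, 3), (7, 1), (9, 1), (11,
    1), (18, 2), (33, 1), (42, 2)]) (.alt (.split 2 [] (.alt (.leaf [(0, 1), (1, 1), (6, 1), (8,
    1), (10, 2), (12, 1), (28, 1), (31, 1)]) (.alt (.leaf [(0, 1), (1, 1), (2, 1), (6, 2), (8,
    2), (10, 3), (12, 2), (28, 1), (31, 1), (34, 1), (43, 2)]) (.alt (.leaf [(0, 1), (1, 1), (6,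
    1), (8, 1), (10, 2), (12, 1), (28, 1), (31, 1), (43, 1)]) (.alt (.leaf [(0, 2), (2, 1), (6,
    1), (8, 1), (10, 3), (12, 3), (31, 1), (32, 1), (34, 1)]) (.done)))))) (.alt (.leaf [(0, 2),
    (1, 1), (5, 3), (7, 1), (9, 1), (11, 1), (20, 2), (33, 1)]) (.alt (.leaf [(0, 2), (1, 1),
    (5, 3), (7, 3), (9, 3), (11, 1), (29, 2), (32, 1)]) (.alt (.leaf [(0, 1), (11, 1)])
    (.done))))))))) (.done)))))

theorem W3.chk : check W3.D.clause W3.T W3.D.base none = true := by decide +kernel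

theorem W3.no : NoWord [0, 11] :=
  no_of_check 2 [0, 0, 1] rfl rfl W3.chk

/-- The word `Pc`. -/
def W4.D : Data :=
  ⟨[some [1], some [0, 1], some [0, 0, 1], some [1, 1, 0], some [1, 1, 1], some [1, 0, 2]], sup,
    [⟨true, [(1, 0), (1, 1), (-1, 2)], [], [], []⟩, ⟨true, [(1, 1), (1, 2), (-1, 3)], [], [],
    []⟩, ⟨true, [(1, 3), (1, 4), (-1, 5)], [], [], []⟩, ⟨false, [], [], [1, 1, 0], []⟩, ⟨false,
    [], [], [], [1, 1, 0]⟩, ⟨false, [], [], [1, 1, 0], [-1, -1, 0]⟩], []⟩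

/-- Certificate. -/
def W4.T : Tree :=
  .split 2 [] (.alt (.leaf [(0, 1), (8, 1), (10, 1), (29, 1), (40, 1)]) (.alt (.split 0 [0, 1, -1]
    (.alt (.leaf [(0, 2), (4, 1), (6, 3), (40, 1)]) (.alt (.leaf [(0, 1), (4, 1), (8, 1)]) (.alt
    (.leaf [(0, 1), (1, 1), (5, 1), (7, 1), (9, 2), (11, 1), (13, 1), (26, 1), (35, 1)]) (.alt
    (.leaf [(0, 2), (1, 2), (5, 1), (7, 1), (9, 3), (11, 3), (13, 1), (14, 1), (31, 2), (34,
    1)]) (.alt (.split 3 [1, 0, 1] (.alt (.leaf [(0, 1), (5, 1), (7, 1), (9, 1)]) (.alt (.leaf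
    [(0, 2), (5, 1), (7, 9), (41, 5)]) (.alt (.leaf [(0, 1), (1, 1), (2, 1), (10, 1), (12, 2),
    (14, 1), (15, 1), (33, 1), (38, 1)]) (.alt (.leaf [(0, 4), (1, 2), (2, 2), (6, 1), (8, 1),
    (10, 3), (12, 7), (14, 5), (18, 1), (31, 2), (36, 4), (38, 1), (44, 2)]) (.alt (.leaf [(0,
    1), (1, 2), (6, 2), (8, 2), (10, 2), (12, 2), (14, 1), (27, 1), (33, 1), (38, 1), (44, 1)])
    (.alt (.leaf [(0, 1), (1, 1), (6, 1), (12, 1), (14, 1), (21, 1), (38, 1)]) (.alt (.leaf [(1,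
    1), (12, 2), (46, 1)]) (.done))))))))) (.alt (.leaf [(0, 2), (5, 2), (7, 1), (9, 1), (11,
    1), (13, 1), (21, 1), (36, 1), (42, 1)]) (.alt (.leaf [(0, 1), (11, 1)]) (.done)))))))))
    (.alt (.leaf [(0, 1), (8, 1), (10, 1), (31, 1), (41, 1)]) (.alt (.split 0 [0, 1, -1] (.alt
    (.leaf [(0, 2), (4, 1), (6, 3), (40, 1)]) (.alt (.leaf [(0, 1), (4, 1), (8, 1)]) (.alt
    (.split 3 [1, 0, 1] (.alt (.leaf [(0, 1), (5, 1), (7, 1), (9, 1)]) (.alt (.leaf [(0, 2), (5,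
    1), (7, 9), (41, 5)]) (.alt (.leaf [(0, 2), (1, 2), (2, 4), (10, 4), (12, 4), (14, 4), (17,
    2), (27, 2), (37, 1), (38, 3)]) (.alt (.leaf [(0, 1), (1, 1), (6, 1), (12, 1), (14, 1), (19,
    1), (36, 1)]) (.alt (.leaf [(0, 1), (1, 2), (2, 1), (6, 1), (10, 1), (12, 1), (14, 1), (17,
    1), (19, 1), (27, 1), (36, 1)]) (.alt (.leaf [(0, 1), (1, 2), (2, 3), (6, 1), (10, 3), (12,
    3), (14, 3), (17, 1), (19, 1), (27, 1), (36, 1), (38, 2)]) (.alt (.leaf [(2, 1), (6, 1), (7,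
    2), (15, 2), (17, 1), (19, 1), (22, 1), (32, 1), (43, 1)]) (.done))))))))) (.alt (.leaf [(0,
    2), (1, 2), (5, 1), (7, 1), (9, 3), (11, 3), (13, 1), (14, 1), (33, 2), (34, 1), (43, 2)])
    (.alt (.leaf [(0, 1), (1, 3), (9, 3), (11, 2), (13, 2), (16, 1), (28, 1), (37, 2)]) (.alt
    (.leaf [(0, 2), (1, 4), (9, 4), (11, 4), (13, 2), (16, 2), (33, 2), (36, 1), (37, 1)]) (.alt
    (.leaf [(0, 1), (11, 1)]) (.done))))))))) (.done)))))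

theorem W4.chk : check W4.D.clause W4.T W4.D.base none = true := by decide +kernel

theorem W4.no : NoWord [0, 5] :=
  no_of_check 3 [1, 1, 0] rfl rfl W4.chk

/-- The word `Pf`. -/
def W5.D : Data :=
  ⟨[some [1], some [0, 1], some [0, 0, 1], some [1, 1, 0], some [1, 1, 1], some [0, 1, 2]], sup,
    [⟨true, [(1, 0), (1, 1), (-1, 2)], [], [], []⟩, ⟨true, [(1, 1), (1, 2), (-1, 3)], [], [],
    []⟩, ⟨true, [(1, 3), (1, 4), (-1, 5)], [], [], []⟩, ⟨false, [], [], [1], []⟩, ⟨false, [],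
    [], [], [1]⟩, ⟨false, [], [], [1], [-1]⟩], []⟩

/-- Certificate. -/
def W5.T : Tree :=
  .split 0 [] (.alt (.split 2 [] (.alt (.leaf [(0, 1), (1, 1), (5, 1), (9, 1), (11, 1), (19, 1),
    (30, 1)]) (.alt (.leaf [(0, 4), (1, 2), (5, 2), (7, 2), (9, 6), (11, 4), (13, 4), (26, 2),
    (34, 1), (35, 3)]) (.alt (.split 0 [1, 0, -1] (.alt (.leaf [(0, 2), (5, 4), (7, 3), (41,
    1)]) (.alt (.leaf [(0, 1), (9, 1)]) (.alt (.split 3 [0, 1, 1] (.alt (.leaf [(0, 1), (8, 1),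
    (10, 1)]) (.alt (.leaf [(0, 2), (6, 8), (8, 9), (42, 5)]) (.alt (.leaf [(0, 4), (3, 2), (7,
    2), (9, 2), (11, 2), (13, 4), (15, 4), (28, 2), (36, 3), (37, 1)]) (.alt (.leaf [(0, 1), (1,
    1), (13, 1), (15, 1), (16, 1), (37, 1)]) (.alt (.leaf [(0, 2), (2, 2), (11, 2), (13, 4),
    (15, 4), (36, 1), (37, 1), (38, 2)]) (.alt (.leaf [(0, 1), (1, 1), (2, 1), (7, 1), (11, 1),
    (13, 2), (15, 1), (23, 1), (32, 1), (37, 1)]) (.alt (.leaf [(4, 1), (7, 1), (16, 1), (18,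
    1), (20, 1), (43, 1)]) (.done))))))))) (.alt (.leaf [(0, 4), (2, 2), (6, 6), (8, 5), (10,
    5), (12, 5), (14, 3), (20, 1), (32, 2), (35, 3)]) (.alt (.leaf [(0, 2), (1, 4), (6, 2), (10,
    4), (12, 4), (14, 2), (22, 2), (33, 2), (35, 1), (36, 1)]) (.alt (.leaf [(0, 2), (6, 2), (8,
    2), (10, 2), (12, 1), (14, 1), (30, 1), (37, 1), (43, 1)]) (.alt (.leaf [(3, 2), (7, 2),
    (11, 2), (13, 1), (15, 1), (17, 1), (19, 1), (25, 1), (40, 1)]) (.done))))))))) (.alt (.leaf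
    [(0, 2), (9, 2), (11, 1), (13, 1), (28, 1), (37, 1), (42, 1)]) (.done)))))) (.alt (.leaf
    [(0, 4), (4, 4), (6, 3), (8, 3), (10, 3), (12, 1), (17, 1), (30, 2), (33, 1), (40, 2)])
    (.alt (.split 2 [] (.alt (.leaf [(0, 1), (1, 1), (5, 1), (9, 1), (11, 1), (19, 1), (30, 1),
    (43, 1)]) (.alt (.leaf [(0, 4), (1, 2), (5, 2), (7, 2), (9, 6), (11, 4), (13, 4), (26, 2),
    (34, 1), (35, 3), (43, 2)]) (.alt (.leaf [(0, 1), (1, 1), (5, 1), (9, 1), (11, 1), (21, 1),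
    (32, 1)]) (.alt (.leaf [(0, 4), (1, 2), (5, 2), (7, 2), (9, 6), (11, 4), (13, 4), (28, 2),
    (34, 1), (35, 1), (37, 2)]) (.done)))))) (.alt (.leaf [(0, 2), (4, 2), (6, 2), (8, 2), (10,
    2), (12, 2), (33, 1), (34, 1), (41, 2)]) (.done)))))

theorem W5.chk : check W5.D.clause W5.T W5.D.base none = true := by decide +kernel

theorem W5.no : NoWord [0, 8] :=
  no_of_check 0 [1] rfl rfl W5.chk

/-- The word `Pr`. -/
def W6.D : Data :=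
  ⟨[some [1], some [0, 1], some [0, 0, 1], some [1, 1, 0], some [2, 3, -1], some [0, 0, 0, 0, 0,
    1]], sup, [⟨true, [(1, 0), (1, 1), (-1, 2)], [], [], []⟩, ⟨true, [(1, 1), (1, 2), (-1, 3)],
    [], [], []⟩, ⟨false, [(1, 4), (-1, 2), (-1, 3)], [], [], []⟩, ⟨false, [], [], [0, 1], []⟩,
    ⟨false, [], [], [], [0, 1]⟩, ⟨false, [], [], [0, 1], [0, -1]⟩], []⟩

/-- Certificate. -/
def W6.T : Tree :=
  .split 0 [] (.alt (.leaf [(0, 2), (4, 2), (6, 2), (8, 1), (10, 1), (21, 1), (29, 1), (40, 3)])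
    (.alt (.split 1 [] (.alt (.split 0 [1, 1, -1, 0, 0, 0] (.alt (.leaf [(0, 1), (5, 1), (7,
    1)]) (.alt (.leaf [(0, 1), (5, 1), (7, 1), (9, 2)]) (.alt (.leaf [(0, 3), (2, 1), (4, 1),
    (6, 4), (8, 4), (10, 2), (12, 2), (14, 1), (24, 2), (31, 1)]) (.alt (.leaf [(0, 1), (1, 1),
    (8, 1), (16, 1), (23, 1)]) (.alt (.leaf [(0, 2), (6, 2), (8, 2), (10, 1), (12, 1), (26, 1),
    (33, 1), (43, 1)]) (.alt (.split 3 [] (.alt (.leaf [(0, 2), (2, 1), (5, 1), (9, 1), (13, 2),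
    (15, 1), (24, 1), (32, 1)]) (.alt (.leaf [(0, 2), (1, 3), (2, 2), (5, 1), (9, 2), (13, 2),
    (15, 1), (17, 2), (19, 1), (26, 2), (35, 1)]) (.alt (.leaf [(0, 1), (1, 1), (5, 1), (7, 1),
    (9, 1), (13, 1), (15, 1), (26, 1)]) (.alt (.leaf [(0, 2), (1, 1), (5, 1), (13, 2), (15, 1),
    (19, 1), (35, 1)]) (.done)))))) (.alt (.leaf [(1, 1), (14, 1)]) (.done))))))))) (.alt (.leaf
    [(0, 3), (1, 2), (3, 3), (5, 2), (7, 5), (9, 4), (11, 4), (13, 3), (23, 1), (31, 1)]) (.alt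
    (.split 0 [1, 1, -1, 0, 0, 0] (.alt (.leaf [(0, 1), (5, 1), (7, 1)]) (.alt (.leaf [(0, 1),
    (5, 1), (7, 1), (9, 2)]) (.alt (.leaf [(0, 3), (2, 1), (4, 1), (6, 4), (8, 4), (10, 2), (12,
    2), (14, 1), (24, 2), (31, 1)]) (.alt (.leaf [(0, 1), (1, 1), (8, 1), (16, 1), (23, 1), (44,
    1)]) (.alt (.leaf [(0, 2), (1, 1), (4, 1), (6, 2), (8, 3), (10, 2), (12, 2), (14, 1), (26,
    1), (33, 1)]) (.alt (.leaf [(0, 1), (1, 1), (8, 1), (18, 1), (25, 1)]) (.alt (.leaf [(1, 1),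
    (14, 1)]) (.done))))))))) (.alt (.leaf [(0, 1), (3, 1), (7, 1), (9, 1), (11, 1), (13, 1),
    (42, 1)]) (.done)))))) (.alt (.leaf [(0, 2), (4, 2), (6, 2), (8, 1), (10, 1), (23, 1), (31,
    1), (41, 3)]) (.alt (.split 1 [] (.alt (.split 0 [1, 1, -1, 0, 0, 0] (.alt (.leaf [(0, 1),
    (5, 1), (7, 1)]) (.alt (.leaf [(0, 1), (5, 1), (7, 1), (9, 2)]) (.alt (.leaf [(0, 2), (1,
    1), (4, 1), (6, 2), (8, 3), (10, 2), (12, 2), (14, 1), (24, 1), (31, 1)]) (.alt (.leaf [(0,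
    1), (1, 1), (8, 1), (16, 1), (23, 1)]) (.alt (.leaf [(0, 3), (2, 1), (4, 1), (6, 4), (8, 4),
    (10, 2), (12, 2), (14, 1), (26, 2), (33, 1)]) (.alt (.split 3 [] (.alt (.leaf [(0, 2), (2,
    1), (5, 1), (9, 1), (13, 2), (15, 1), (24, 1), (32, 1)]) (.alt (.leaf [(0, 2), (1, 3), (2,
    2), (5, 1), (9, 2), (13, 2), (15, 1), (17, 2), (19, 1), (26, 2), (35, 1)]) (.alt (.leaf [(0,
    1), (1, 1), (5, 1), (7, 1), (9, 1), (13, 1), (15, 1), (26, 1)]) (.alt (.leaf [(0, 2), (1,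
    1), (5, 1), (13, 2), (15, 1), (19, 1), (35, 1)]) (.done)))))) (.alt (.leaf [(1, 1), (14,
    1)]) (.done))))))))) (.alt (.leaf [(0, 3), (1, 2), (3, 3), (5, 2), (7, 5), (9, 4), (11, 4),
    (13, 3), (25, 1), (33, 1), (43, 3)]) (.alt (.split 0 [1, 1, -1, 0, 0, 0] (.alt (.leaf [(0,
    1), (5, 1), (7, 1)]) (.alt (.leaf [(0, 1), (5, 1), (7, 1), (9, 2)]) (.alt (.leaf [(0, 2),
    (6, 2), (8, 2), (10, 1), (12, 1), (24, 1), (31, 1), (42, 1)]) (.alt (.leaf [(0, 1), (1, 1),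
    (8, 1), (16, 1), (23, 1), (44, 1)]) (.alt (.leaf [(0, 3), (2, 1), (4, 1), (6, 4), (8, 4),
    (10, 2), (12, 2), (14, 1), (26, 2), (33, 1)]) (.alt (.leaf [(0, 1), (1, 1), (8, 1), (18, 1),
    (25, 1)]) (.alt (.leaf [(1, 1), (14, 1)]) (.done))))))))) (.alt (.leaf [(0, 3), (1, 2), (3,
    3), (5, 2), (7, 5), (9, 4), (11, 4), (13, 3), (25, 1), (33, 1)]) (.done)))))) (.done)))))

theorem W6.chk : check W6.D.clause W6.T W6.D.base none = true := by decide +kernel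

theorem W6.no : NoWord [0, 12] :=
  no_of_check 1 [0, 1] rfl rfl W6.chk

/-- The word `RP`. -/
def W7.D : Data :=
  ⟨[some [1], some [0, 1], some [0, 0, 1], some [1, -1, 2], some [0, 1, 1]], sup, [⟨true, [(1, 0),
    (1, 1), (-1, 2)], [], [], []⟩, ⟨true, [(1, 1), (1, 2), (-1, 3)], [], [], []⟩, ⟨true, [(1,
    1), (1, 2), (-1, 3)], [], [], []⟩, ⟨false, [], [], [0, 1], []⟩, ⟨false, [], [], [], [0, 1]⟩,
    ⟨false, [], [], [0, 1], [0, -1]⟩], []⟩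

/-- Certificate. -/
def W7.T : Tree :=
  .split 1 [] (.alt (.split 0 [1, -1, 1] (.alt (.leaf [(0, 1), (10, 1)]) (.alt (.leaf [(0, 1), (2,
    2), (4, 1), (6, 1)]) (.alt (.leaf [(0, 2), (1, 1), (3, 1), (5, 1), (7, 2), (9, 2), (11, 1),
    (12, 1), (24, 1)]) (.alt (.leaf [(0, 1), (1, 1), (5, 1), (7, 2), (9, 2), (11, 1), (25, 1),
    (28, 1)]) (.alt (.leaf [(0, 2), (5, 1), (7, 1), (9, 1), (14, 1), (26, 1), (36, 1)]) (.alt
    (.split 2 [] (.alt (.leaf [(0, 1), (2, 1), (4, 1), (8, 1), (10, 2), (12, 2), (29, 1)]) (.alt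
    (.leaf [(0, 2), (1, 3), (2, 1), (6, 1), (8, 2), (10, 4), (12, 1), (13, 1), (16, 1), (26, 1),
    (28, 2), (31, 1)]) (.alt (.leaf [(0, 1), (1, 2), (6, 1), (8, 1), (10, 2), (12, 1), (16, 1),
    (28, 1), (31, 1)]) (.alt (.leaf [(0, 1), (1, 1), (4, 1), (6, 1), (8, 1), (10, 2), (12, 1),
    (28, 1)]) (.done)))))) (.alt (.leaf [(1, 1), (7, 1), (11, 1)]) (.done))))))))) (.alt (.leaf
    [(0, 1), (2, 1), (6, 1), (8, 1), (10, 1), (34, 1)]) (.alt (.split 0 [1, -1, 0] (.alt (.leaf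
    [(0, 1), (2, 1), (4, 2)]) (.alt (.leaf [(0, 1), (6, 1), (32, 1)]) (.alt (.leaf [(0, 1), (1,
    1), (3, 1), (7, 1), (9, 1), (11, 1), (12, 1), (37, 1)]) (.alt (.leaf [(0, 1), (1, 2), (5,
    1), (7, 3), (9, 3), (11, 2), (25, 1), (28, 2), (37, 2)]) (.alt (.leaf [(0, 1), (1, 1), (3,
    1), (7, 1), (9, 1), (11, 1), (14, 1)]) (.alt (.leaf [(0, 1), (1, 2), (5, 1), (7, 3), (9, 3),
    (11, 2), (27, 1), (30, 2)]) (.alt (.leaf [(0, 1), (11, 1), (15, 1)]) (.done))))))))) (.alt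
    (.leaf [(0, 1), (2, 1), (6, 1), (8, 1), (10, 1), (35, 1)]) (.done)))))

theorem W7.chk : check W7.D.clause W7.T W7.D.base none = true := by decide +kernel

theorem W7.no : NoWord [3, 0] :=
  no_of_check 1 [0, 1] rfl rfl W7.chk

/-- The word `RX`. -/
def W8.D : Data :=
  ⟨[some [1], some [0, 1], some [0, 0, 1], some [1, -1, 2], some [1, -2, 3]], sup, [⟨true, [(1,
    0), (1, 1), (-1, 2)], [], [], []⟩, ⟨true, [(1, 1), (1, 2), (-1, 3)], [], [], []⟩, ⟨true,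
    [(1, 1), (1, 2), (-1, 3)], [], [], []⟩, ⟨false, [], [], [1], []⟩, ⟨false, [], [], [], [1]⟩,
    ⟨false, [], [], [1], [-1]⟩], []⟩

/-- Certificate. -/
def W8.T : Tree :=
  .split 0 [0, 1, -1] (.alt (.leaf [(0, 1), (1, 1), (3, 1), (5, 1)]) (.alt (.leaf [(0, 1), (3, 1),
    (31, 1)]) (.alt (.leaf [(0, 3), (4, 2), (6, 1), (8, 1), (10, 1), (11, 1), (15, 1), (28, 1)])
    (.alt (.leaf [(0, 4), (4, 4), (6, 3), (8, 3), (10, 2), (16, 1), (24, 1), (27, 2), (34, 1)])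
    (.alt (.leaf [(0, 3), (4, 2), (6, 1), (8, 1), (10, 1), (13, 1), (17, 1), (30, 1)]) (.alt
    (.leaf [(0, 21), (4, 20), (6, 12), (8, 12), (10, 9), (11, 1), (15, 1), (18, 7), (24, 3),
    (27, 2), (29, 7), (35, 7)]) (.alt (.leaf [(0, 1), (10, 1)]) (.done))))))))

theorem W8.chk : check W8.D.clause W8.T W8.D.base none = true := by decide +kernel

theorem W8.no : NoWord [3, 1] :=
  no_of_check 0 [1] rfl rfl W8.chk

/-- The word `VP`. -/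
def W9.D : Data :=
  ⟨[some [1], some [0, 1], some [0, 0, 1], some [-1, 2, 1], some [0, 0, 0, 0, 1], some [-1, 2, 2,
    0, 0]], sup, [⟨true, [(1, 0), (1, 1), (-1, 2)], [], [], []⟩, ⟨true, [(1, 2), (1, 3), (-1,
    4)], [], [], []⟩, ⟨false, [], [], [-1, 2, 1], []⟩, ⟨false, [], [], [], [-1, 2, 1]⟩, ⟨false,
    [], [], [-1, 2, 1], [1, -2, -1]⟩], []⟩

/-- Certificate. -/
def W9.T : Tree :=
  .split 0 [1, -1, 0, 0, 0] (.alt (.leaf [(0, 2), (3, 3), (9, 1), (11, 1), (37, 1)]) (.alt (.leaf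
    [(0, 1), (5, 1), (37, 1)]) (.alt (.leaf [(0, 2), (4, 1), (6, 1), (8, 1), (10, 1), (12, 1),
    (13, 1), (33, 1), (39, 2)]) (.alt (.split 1 [] (.alt (.leaf [(0, 1), (1, 1), (5, 1), (7, 2),
    (9, 1), (23, 1), (26, 1)]) (.alt (.leaf [(0, 2), (1, 4), (5, 1), (7, 3), (9, 3), (11, 1),
    (13, 1), (15, 3), (26, 2), (35, 1)]) (.alt (.split 2 [1, -1, -1, 0, 0] (.alt (.leaf [(0, 1),
    (5, 1), (9, 1), (11, 2), (13, 2)]) (.alt (.leaf [(0, 2), (5, 1), (11, 1), (13, 1), (39, 1)])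
    (.alt (.leaf [(0, 1), (2, 1), (6, 1), (8, 1), (10, 2), (12, 1), (14, 1), (27, 1), (36, 1)])
    (.alt (.leaf [(0, 1), (2, 1), (10, 1), (16, 1), (27, 1)]) (.alt (.split 0 [0, 1, 1, 0, -1]
    (.alt (.leaf [(0, 1), (10, 1), (12, 1)]) (.alt (.split 0 [1, -2, -1, 0, 1] (.alt (.split 2
    [0, 0, 1, 0, -1] (.alt (.leaf [(0, 1), (12, 2), (14, 2), (16, 1)]) (.alt (.leaf [(0, 1),
    (16, 1)]) (.alt (.leaf [(0, 1), (5, 2), (9, 1), (11, 1), (13, 2), (15, 1), (19, 1), (30, 1),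
    (35, 1)]) (.alt (.split 1 [1, -2, -1, 0, 1] (.alt (.leaf [(0, 1), (17, 1)]) (.alt (.leaf
    [(0, 1), (15, 2), (17, 1)]) (.alt (.leaf [(0, 4), (5, 2), (6, 2), (12, 6), (14, 6), (16, 6),
    (18, 2), (20, 1), (21, 1), (35, 4), (40, 1), (42, 1), (47, 2)]) (.alt (.leaf [(0, 1), (1,
    1), (12, 1), (14, 1), (28, 1), (31, 1)]) (.alt (.leaf [(0, 1), (12, 1), (14, 1), (16, 1),
    (37, 1), (46, 1)]) (.alt (.leaf [(0, 1), (4, 1), (14, 1), (16, 1), (25, 1), (38, 1)]) (.alt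
    (.leaf [(1, 1), (7, 1), (14, 1), (16, 1), (48, 1)]) (.done))))))))) (.alt (.leaf [(0, 1),
    (3, 1), (4, 1), (5, 2), (11, 1), (13, 2), (15, 1), (19, 1), (20, 1), (27, 1), (30, 1), (37,
    1)]) (.alt (.split 1 [1, -2, -1, 0, 1] (.alt (.leaf [(0, 1), (17, 1)]) (.alt (.leaf [(0, 1),
    (15, 2), (17, 1)]) (.alt (.leaf [(0, 2), (6, 2), (10, 1), (12, 3), (14, 3), (16, 3), (18,
    1), (20, 1), (35, 2), (40, 1)]) (.alt (.split 2 [0, 1, 1, 0, -1] (.alt (.leaf [(0, 2), (4,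
    1), (14, 3), (16, 3), (18, 2)]) (.alt (.leaf [(0, 3), (14, 1), (16, 1), (18, 4), (44, 1)])
    (.alt (.leaf [(0, 1), (7, 1), (11, 1), (13, 1), (15, 2), (17, 1), (32, 1), (37, 1)]) (.alt
    (.leaf [(0, 1), (1, 1), (7, 1), (13, 1), (15, 1), (21, 1), (29, 1), (32, 1)]) (.alt (.leaf
    [(0, 1), (1, 1), (2, 1), (15, 2), (17, 1), (26, 1), (32, 1), (37, 1)]) (.alt (.leaf [(0, 1),
    (5, 1), (15, 2), (17, 2), (19, 1), (38, 1), (43, 1)]) (.alt (.leaf [(0, 1), (15, 1), (21,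
    1)]) (.done))))))))) (.alt (.leaf [(0, 1), (12, 1), (14, 1), (16, 1), (37, 1), (46, 1)])
    (.alt (.leaf [(0, 2), (1, 2), (4, 3), (6, 2), (10, 1), (14, 4), (16, 2), (18, 2), (20, 1),
    (25, 3), (30, 1), (31, 2), (40, 1), (42, 1)]) (.alt (.leaf [(1, 1), (7, 1), (14, 1), (16,
    1), (48, 1)]) (.done))))))))) (.alt (.leaf [(0, 1), (17, 1), (19, 1)]) (.done))))))))) (.alt
    (.leaf [(0, 3), (11, 1), (13, 4), (15, 1), (41, 1)]) (.alt (.leaf [(0, 2), (4, 2), (8, 3),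
    (10, 3), (12, 3), (14, 3), (16, 1), (18, 1), (33, 2), (38, 1)]) (.alt (.split 2 [0, 1, 1, 0,
    0] (.alt (.leaf [(0, 1), (8, 1)]) (.alt (.leaf [(0, 3), (12, 4), (14, 7), (16, 7), (42, 1)])
    (.alt (.leaf [(0, 3), (5, 4), (9, 4), (11, 3), (13, 6), (15, 1), (17, 1), (23, 1), (30, 5),
    (39, 1)]) (.alt (.leaf [(0, 2), (1, 1), (13, 1), (15, 1), (19, 1), (27, 1), (35, 1)]) (.alt
    (.leaf [(0, 1), (1, 1), (3, 1), (13, 2), (15, 1), (20, 1), (30, 1), (35, 1)]) (.alt (.leaf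
    [(0, 3), (3, 3), (5, 1), (9, 1), (13, 6), (15, 4), (17, 4), (23, 1), (30, 2), (39, 1), (41,
    3)]) (.alt (.leaf [(1, 3), (17, 1), (19, 4), (21, 4), (47, 1)]) (.done))))))))) (.alt (.leaf
    [(0, 2), (3, 2), (8, 1), (10, 3), (12, 3), (14, 3), (16, 1), (19, 1), (35, 2), (40, 1)])
    (.alt (.leaf [(0, 1), (2, 1), (8, 1), (12, 1), (14, 1), (23, 1), (36, 1)]) (.alt (.leaf [(1,
    1), (18, 1)]) (.done))))))))) (.alt (.leaf [(0, 1), (3, 1), (7, 2), (9, 2), (11, 2), (13,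
    1), (28, 1), (33, 1)]) (.alt (.split 1 [1, -2, -1, 0, 1] (.alt (.leaf [(0, 1), (15, 1)])
    (.alt (.leaf [(0, 1), (13, 2), (15, 1)]) (.alt (.leaf [(0, 2), (4, 2), (8, 1), (10, 3), (12,
    3), (14, 3), (16, 1), (18, 1), (33, 2), (38, 1)]) (.alt (.leaf [(0, 2), (1, 2), (8, 1), (10,
    3), (12, 3), (14, 1), (16, 1), (18, 1), (29, 2), (38, 1)]) (.alt (.leaf [(0, 1), (10, 1),
    (12, 1), (14, 1), (35, 1), (44, 1)]) (.alt (.leaf [(0, 1), (2, 1), (12, 1), (14, 1), (23,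
    1), (36, 1)]) (.alt (.leaf [(1, 1), (18, 1)]) (.done))))))))) (.alt (.leaf [(0, 1), (1, 1),
    (11, 1), (13, 1), (18, 1), (35, 1)]) (.alt (.leaf [(0, 1), (1, 1), (7, 1), (9, 1), (11, 2),
    (13, 2), (15, 1), (34, 1), (39, 1)]) (.alt (.leaf [(0, 1), (11, 1), (17, 1)])
    (.done))))))))) (.alt (.leaf [(0, 3), (1, 3), (2, 1), (6, 1), (8, 3), (10, 6), (12, 1), (14,
    1), (20, 1), (27, 2), (29, 3), (36, 1)]) (.alt (.leaf [(2, 1), (7, 1), (11, 1), (13, 1),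
    (29, 1)]) (.done))))))))) (.alt (.split 0 [0, 1, -1, 0, 0] (.alt (.leaf [(0, 1), (11, 1),
    (13, 1)]) (.alt (.leaf [(0, 1), (5, 1), (39, 1)]) (.alt (.split 2 [0, 1, 1, 0, 0] (.alt
    (.leaf [(0, 1), (6, 1)]) (.alt (.leaf [(0, 3), (10, 4), (12, 7), (14, 7), (40, 1)]) (.alt
    (.leaf [(0, 2), (3, 2), (7, 2), (9, 2), (11, 4), (13, 2), (15, 2), (28, 2), (36, 1), (37,
    1)]) (.alt (.leaf [(0, 1), (1, 1), (2, 2), (9, 2), (11, 1), (13, 1), (15, 1), (19, 1), (25,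
    2), (38, 1), (43, 2)]) (.alt (.leaf [(0, 2), (2, 2), (9, 2), (11, 4), (13, 4), (15, 4), (36,
    1), (37, 1), (38, 2), (43, 2)]) (.alt (.leaf [(0, 1), (1, 1), (2, 3), (3, 1), (9, 3), (11,
    2), (13, 1), (15, 1), (19, 2), (25, 2), (28, 1), (38, 1), (43, 3)]) (.alt (.leaf [(1, 3),
    (15, 1), (17, 4), (19, 4), (45, 1)]) (.done))))))))) (.alt (.leaf [(0, 2), (2, 8), (6, 5),
    (8, 5), (10, 5), (12, 1), (14, 1), (16, 5), (27, 4), (36, 1)]) (.alt (.leaf [(0, 6), (1,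
    12), (6, 3), (8, 15), (10, 11), (12, 7), (14, 7), (18, 3), (23, 4), (27, 4), (36, 4), (38,
    3)]) (.alt (.split 3 [] (.alt (.split 2 [0, 1, 1, 0, 0] (.alt (.leaf [(0, 1), (7, 1)]) (.alt
    (.leaf [(0, 3), (11, 4), (13, 7), (15, 7), (41, 1)]) (.alt (.leaf [(0, 3), (4, 4), (8, 4),
    (10, 3), (12, 6), (14, 1), (16, 1), (22, 1), (29, 5), (38, 1)]) (.alt (.split 0 [0, 1, 1, 0,
    -1] (.alt (.leaf [(0, 1), (12, 1), (14, 1)]) (.alt (.split 0 [1, -2, -2, 0, 1] (.alt (.leaf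
    [(0, 3), (13, 1), (15, 1), (17, 4), (43, 1)]) (.alt (.leaf [(0, 1), (1, 1), (43, 1)]) (.alt
    (.leaf [(0, 1), (3, 1), (5, 2), (12, 2), (14, 1), (16, 2), (18, 1), (22, 1), (28, 1), (35,
    1), (41, 1), (46, 2)]) (.alt (.leaf [(0, 1), (2, 1), (6, 1), (10, 1), (12, 1), (14, 2), (16,
    1), (20, 1), (31, 1), (36, 1)]) (.alt (.leaf [(0, 4), (4, 2), (10, 5), (12, 5), (14, 5),
    (16, 5), (18, 1), (22, 1), (37, 4), (42, 1), (46, 4)]) (.alt (.leaf [(0, 1), (2, 2), (3, 1),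
    (14, 1), (16, 2), (18, 1), (20, 1), (28, 1), (38, 1), (41, 1)]) (.alt (.leaf [(0, 1), (22,
    1)]) (.done))))))))) (.alt (.leaf [(0, 1), (5, 1), (9, 2), (11, 2), (13, 2), (15, 1), (30,
    1), (35, 1)]) (.alt (.leaf [(0, 1), (1, 1), (2, 1), (15, 1), (19, 1), (27, 1), (34, 1)])
    (.alt (.leaf [(0, 1), (4, 1), (9, 1), (11, 2), (13, 2), (15, 2), (17, 1), (37, 1), (40, 1),
    (45, 1)]) (.alt (.leaf [(0, 3), (1, 2), (2, 1), (3, 1), (9, 1), (11, 1), (13, 2), (15, 3),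
    (19, 1), (21, 2), (27, 1), (36, 3), (45, 2)]) (.alt (.leaf [(2, 1), (6, 1), (18, 1), (20,
    1), (40, 1)]) (.done))))))))) (.alt (.leaf [(0, 3), (3, 3), (4, 1), (8, 1), (10, 3), (12,
    6), (14, 4), (16, 4), (22, 1), (29, 2), (38, 1), (39, 3), (44, 3)]) (.alt (.leaf [(0, 3),
    (2, 1), (4, 2), (12, 3), (14, 1), (16, 1), (18, 1), (20, 2), (29, 2), (38, 1), (44, 2)])
    (.alt (.leaf [(1, 3), (16, 1), (18, 4), (20, 4), (46, 1)]) (.done))))))))) (.alt (.leaf [(0,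
    5), (3, 4), (7, 2), (9, 2), (13, 4), (15, 4), (17, 2), (24, 2), (28, 1), (37, 4)]) (.alt
    (.leaf [(0, 4), (1, 2), (3, 2), (7, 2), (9, 2), (11, 2), (13, 4), (15, 4), (17, 1), (19, 1),
    (28, 2), (37, 1), (38, 3)]) (.alt (.leaf [(0, 2), (3, 2), (7, 1), (9, 1), (11, 1), (13, 1),
    (15, 1), (17, 1), (28, 2), (37, 1), (43, 2)]) (.done)))))) (.alt (.leaf [(4, 2), (6, 4), (7,
    2), (13, 4), (15, 4), (17, 2), (19, 2), (21, 1), (23, 1), (32, 2), (41, 1), (43, 1)])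
    (.done))))))))) (.done)))))) (.alt (.leaf [(0, 2), (4, 1), (6, 1), (8, 1), (10, 1), (12, 1),
    (15, 1), (35, 1), (40, 2)]) (.alt (.split 1 [] (.alt (.split 2 [1, -1, -1, 0, 0] (.alt
    (.leaf [(0, 1), (5, 1), (9, 1), (11, 2), (13, 2)]) (.alt (.leaf [(0, 2), (5, 1), (11, 1),
    (13, 1), (39, 1)]) (.alt (.leaf [(0, 1), (2, 2), (6, 1), (18, 1), (19, 1), (26, 1), (43,
    1)]) (.alt (.leaf [(0, 3), (1, 3), (8, 3), (10, 5), (12, 1), (14, 1), (23, 1), (27, 4), (36,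
    1)]) (.alt (.leaf [(0, 4), (2, 2), (6, 2), (10, 4), (12, 4), (14, 4), (21, 2), (35, 1), (36,
    1), (38, 2)]) (.alt (.leaf [(0, 1), (2, 1), (10, 1), (18, 1), (29, 1)]) (.alt (.leaf [(3,
    1), (6, 1), (13, 1), (15, 1), (32, 1)]) (.done))))))))) (.alt (.leaf [(0, 2), (1, 2), (7,
    2), (9, 2), (11, 2), (13, 2), (15, 1), (17, 1), (34, 1), (37, 1), (42, 2)]) (.alt (.leaf
    [(0, 1), (1, 1), (5, 1), (7, 2), (9, 1), (25, 1), (28, 1)]) (.alt (.leaf [(0, 2), (1, 2),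
    (7, 2), (9, 2), (11, 2), (13, 2), (17, 2), (34, 1), (35, 1)]) (.done)))))) (.alt (.leaf [(0,
    1), (8, 1)]) (.done))))))))

theorem W9.chk : check W9.D.clause W9.T W9.D.base none = true := by decide +kernel

theorem W9.no : NoWord [11, 0] :=
  no_of_check 3 [-1, 2, 1] rfl rfl W9.chk

/-- The word `VQ`. -/
def W10.D : Data :=
  ⟨[some [1], some [0, 1], some [0, 0, 1], some [-1, 2, 1], some [0, 0, 0, 0, 1], some [0, 0, 1,
    0, 1]], sup, [⟨true, [(1, 0), (1, 1), (-1, 2)], [], [], []⟩, ⟨true, [(1, 2), (1, 3), (-1,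
    4)], [], [], []⟩, ⟨false, [], [], [-1, 2, 1], []⟩, ⟨false, [], [], [], [-1, 2, 1]⟩, ⟨false,
    [], [], [-1, 2, 1], [1, -2, -1]⟩], []⟩

/-- Certificate. -/
def W10.T : Tree :=
  .split 3 [] (.alt (.split 0 [1, -1, 0, 0, 0] (.alt (.leaf [(0, 2), (4, 3), (10, 1), (38, 1),
    (39, 1)]) (.alt (.leaf [(0, 1), (6, 1), (38, 1)]) (.alt (.leaf [(0, 2), (1, 1), (5, 1), (7,
    1), (9, 1), (11, 2), (13, 1), (14, 1), (31, 1), (34, 1)]) (.alt (.split 1 [] (.alt (.leaf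
    [(0, 1), (1, 1), (6, 1), (8, 2), (10, 1), (24, 1), (27, 1)]) (.alt (.leaf [(0, 2), (1, 4),
    (6, 1), (8, 3), (10, 3), (12, 2), (14, 1), (16, 3), (27, 1), (31, 1), (36, 1)]) (.alt
    (.split 2 [1, -1, -1, 0, 0] (.alt (.leaf [(0, 1), (6, 1), (10, 1), (12, 2), (41, 2)]) (.alt
    (.leaf [(0, 2), (6, 1), (12, 1), (40, 1), (41, 1)]) (.alt (.leaf [(0, 1), (2, 1), (7, 1),
    (9, 1), (11, 2), (13, 2), (15, 1), (32, 1), (37, 1)]) (.alt (.leaf [(0, 1), (2, 1), (11, 1),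
    (17, 1), (28, 1)]) (.alt (.split 1 [1, -2, -1, 0, 1] (.alt (.leaf [(0, 1), (42, 1)]) (.alt
    (.leaf [(0, 1), (13, 2), (42, 1)]) (.alt (.leaf [(0, 3), (3, 1), (4, 2), (8, 1), (10, 3),
    (12, 3), (14, 5), (16, 1), (22, 1), (33, 4), (38, 1)]) (.alt (.split 2 [0, 1, 1, 0, 0] (.alt
    (.leaf [(0, 1), (8, 1)]) (.alt (.leaf [(0, 3), (12, 4), (14, 7), (42, 1), (43, 7)]) (.alt
    (.leaf [(0, 1), (1, 1), (4, 3), (9, 2), (11, 3), (13, 4), (15, 1), (17, 1), (19, 1), (30,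
    3), (39, 1)]) (.alt (.leaf [(0, 1), (1, 1), (4, 1), (11, 1), (13, 2), (15, 1), (17, 1), (19,
    1), (30, 1), (39, 1)]) (.alt (.leaf [(0, 1), (1, 1), (2, 1), (4, 2), (11, 1), (13, 3), (15,
    1), (17, 1), (19, 1), (20, 1), (30, 2), (39, 1)]) (.alt (.leaf [(0, 1), (3, 1), (11, 1),
    (13, 2), (15, 2), (17, 1), (36, 1), (41, 1)]) (.alt (.leaf [(1, 3), (17, 1), (19, 4), (47,
    1), (48, 4)]) (.done))))))))) (.alt (.leaf [(0, 1), (10, 1), (12, 1), (14, 1), (35, 1), (44,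
    1)]) (.alt (.leaf [(0, 1), (1, 2), (3, 2), (10, 1), (12, 2), (14, 1), (16, 1), (18, 1), (19,
    1), (26, 1), (29, 1), (40, 1)]) (.alt (.leaf [(1, 1), (18, 1)]) (.done))))))))) (.alt (.leaf
    [(0, 3), (1, 3), (2, 1), (7, 1), (9, 3), (11, 6), (13, 2), (15, 1), (21, 1), (28, 1), (30,
    3), (32, 1), (37, 1)]) (.alt (.leaf [(2, 1), (7, 1), (12, 1), (14, 1), (30, 1)])
    (.done))))))))) (.alt (.split 0 [1, -3, -1, 0, 1] (.alt (.leaf [(0, 1), (6, 1), (40, 1),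
    (41, 1)]) (.alt (.leaf [(0, 1), (12, 1)]) (.alt (.leaf [(0, 2), (3, 2), (7, 1), (9, 1), (11,
    1), (13, 2), (15, 1), (17, 1), (29, 1), (32, 1), (36, 1)]) (.alt (.split 2 [0, 1, 1, 0, -1]
    (.alt (.leaf [(0, 1), (7, 1), (11, 1), (13, 2), (42, 1)]) (.alt (.leaf [(0, 3), (11, 1),
    (13, 1), (41, 1), (42, 4)]) (.alt (.leaf [(0, 1), (3, 3), (8, 2), (10, 2), (12, 3), (14, 1),
    (16, 1), (18, 1), (29, 2), (38, 1)]) (.alt (.leaf [(0, 1), (1, 1), (8, 1), (10, 1), (12, 1),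
    (26, 1), (29, 1)]) (.alt (.leaf [(0, 1), (2, 1), (10, 1), (12, 1), (14, 1), (27, 1), (36,
    1)]) (.alt (.leaf [(0, 1), (1, 1), (2, 3), (3, 1), (10, 3), (12, 4), (14, 2), (16, 2), (20,
    2), (29, 2), (38, 1), (39, 1), (44, 2)]) (.alt (.leaf [(0, 1), (12, 1), (18, 1)])
    (.done))))))))) (.alt (.leaf [(0, 1), (1, 1), (9, 1), (11, 1), (13, 1), (15, 1), (19, 1),
    (38, 1), (43, 2)]) (.alt (.leaf [(0, 1), (1, 3), (9, 3), (11, 3), (13, 3), (15, 1), (19, 1),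
    (35, 2), (38, 1)]) (.alt (.leaf [(2, 1), (7, 1), (8, 1), (18, 1), (22, 1), (37, 1)])
    (.done))))))))) (.done)))))) (.alt (.leaf [(0, 2), (5, 1), (7, 1), (16, 1), (24, 1), (41,
    1)]) (.alt (.split 1 [] (.alt (.split 2 [1, -1, -1, 0, 0] (.alt (.leaf [(0, 1), (6, 1), (10,
    1), (12, 2), (41, 2)]) (.alt (.leaf [(0, 3), (10, 1), (12, 1), (40, 1), (41, 1)]) (.alt
    (.leaf [(0, 1), (2, 2), (7, 1), (19, 1), (20, 1), (27, 1), (44, 1)]) (.alt (.leaf [(0, 5),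
    (1, 7), (2, 1), (9, 6), (11, 11), (13, 4), (15, 2), (16, 1), (23, 1), (28, 6), (30, 1), (32,
    1), (34, 1), (37, 1), (39, 1)]) (.alt (.leaf [(0, 1), (2, 1), (7, 1), (9, 1), (11, 2), (13,
    2), (15, 1), (34, 1), (39, 1)]) (.alt (.leaf [(0, 1), (2, 1), (11, 1), (19, 1), (30, 1)])
    (.alt (.leaf [(3, 1), (6, 1), (14, 1), (16, 1), (33, 1)]) (.done))))))))) (.alt (.leaf [(0,
    2), (1, 2), (8, 2), (16, 1), (18, 1), (23, 1), (26, 1), (43, 1)]) (.alt (.leaf [(0, 1), (1,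
    1), (6, 1), (8, 2), (10, 1), (26, 1), (29, 1)]) (.alt (.leaf [(0, 2), (1, 4), (6, 1), (8,
    3), (10, 3), (12, 2), (14, 1), (18, 3), (29, 1), (33, 1), (38, 1)]) (.done)))))) (.alt
    (.leaf [(0, 1), (9, 1)]) (.done))))))))) (.alt (.leaf [(0, 2), (10, 2), (12, 2), (33, 1),
    (34, 1), (39, 2)]) (.alt (.split 0 [1, -1, 0, 0, 0] (.alt (.leaf [(0, 2), (4, 3), (10, 1),
    (38, 1), (39, 1)]) (.alt (.leaf [(0, 1), (6, 1), (38, 1)]) (.alt (.leaf [(0, 2), (1, 1), (5,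
    1), (7, 1), (9, 1), (11, 2), (13, 1), (14, 1), (31, 1), (34, 1), (42, 1)]) (.alt (.split 1
    [] (.alt (.leaf [(0, 1), (1, 1), (6, 1), (8, 2), (10, 1), (24, 1), (27, 1)]) (.alt (.leaf
    [(0, 2), (1, 4), (6, 1), (8, 3), (10, 3), (12, 2), (14, 1), (16, 3), (27, 1), (31, 1), (36,
    1)]) (.alt (.split 2 [1, -1, -1, 0, 0] (.alt (.leaf [(0, 1), (6, 1), (10, 1), (12, 2), (41,
    2)]) (.alt (.leaf [(0, 2), (6, 1), (12, 1), (40, 1), (41, 1)]) (.alt (.leaf [(0, 1), (2, 1),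
    (7, 1), (9, 1), (11, 2), (13, 2), (15, 1), (32, 1), (37, 1)]) (.alt (.leaf [(0, 1), (2, 1),
    (11, 1), (17, 1), (28, 1)]) (.alt (.leaf [(0, 1), (2, 2), (3, 1), (7, 1), (17, 1), (22, 1),
    (25, 1), (28, 1)]) (.alt (.leaf [(0, 3), (1, 3), (2, 1), (7, 1), (9, 3), (11, 6), (13, 2),
    (15, 1), (21, 1), (28, 1), (30, 3), (32, 1), (37, 1)]) (.alt (.leaf [(2, 1), (7, 1), (12,
    1), (14, 1), (30, 1)]) (.done))))))))) (.alt (.leaf [(0, 2), (1, 2), (2, 1), (8, 2), (16,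
    1), (18, 1), (24, 1), (25, 1), (27, 1)]) (.done)))))) (.alt (.leaf [(0, 2), (1, 1), (5, 1),
    (7, 1), (9, 1), (11, 2), (13, 1), (16, 1), (33, 1), (36, 1)]) (.alt (.split 1 [] (.alt
    (.split 2 [1, -1, -1, 0, 0] (.alt (.leaf [(0, 1), (6, 1), (10, 1), (12, 2), (41, 2)]) (.alt
    (.leaf [(0, 3), (10, 1), (12, 1), (40, 1), (41, 1)]) (.alt (.leaf [(0, 1), (2, 2), (7, 1),
    (19, 1), (20, 1), (27, 1), (44, 1)]) (.alt (.leaf [(0, 5), (1, 7), (2, 1), (9, 6), (11, 11),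
    (13, 4), (15, 2), (16, 1), (23, 1), (28, 6), (30, 1), (32, 1), (34, 1), (37, 1), (39, 1)])
    (.alt (.leaf [(0, 3), (2, 1), (3, 1), (11, 3), (13, 4), (15, 2), (18, 1), (34, 2), (39, 2)])
    (.alt (.leaf [(0, 1), (2, 1), (11, 1), (19, 1), (30, 1)]) (.alt (.leaf [(3, 1), (6, 1), (14,
    1), (16, 1), (33, 1)]) (.done))))))))) (.alt (.leaf [(0, 2), (1, 2), (8, 2), (16, 1), (18,
    1), (23, 1), (26, 1), (43, 1)]) (.alt (.leaf [(0, 1), (1, 1), (6, 1), (8, 2), (10, 1), (26,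
    1), (29, 1)]) (.alt (.leaf [(0, 2), (1, 4), (6, 1), (8, 3), (10, 3), (12, 2), (14, 1), (18,
    3), (29, 1), (33, 1), (38, 1)]) (.done)))))) (.alt (.leaf [(0, 1), (9, 1)]) (.done)))))))))
    (.alt (.leaf [(0, 2), (10, 2), (12, 2), (33, 1), (34, 1), (40, 2)]) (.done)))))

theorem W10.chk : check W10.D.clause W10.T W10.D.base none = true := by decide +kernel

theorem W10.no : NoWord [11, 2] :=
  no_of_check 3 [-1, 2, 1] rfl rfl W10.chk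

end Pool.Agent.Work.MP_7453a1_st
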