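import Pool.Agent.Work.MP_7453a1_st.Alph

set_option autoImplicit false
set_option maxRecDepth 100000

/-! Certificates (words that do not occur). -/

namespace Pool.Agent.Work.MP_7453a1_st

open Pool.Agent.Work.MP_7453a1_nt_norm Pool.Agent.Work.MP_7453a1_nt_sup

/-- The word `XR`. -/
def W11.D : Data :=
  ⟨[some [1], some [0, 1], some [0, 0, 1], some [-1, 1, 1], some [-2, 3, 1]], sup, [⟨true, [(1,
    0), (1, 1), (-1, 2)], [], [], []⟩, ⟨true, [(1, 1), (1, 2), (-1, 3)], [], [], []⟩, ⟨true,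
    [(1, 2), (1, 3), (-1, 4)], [], [], []⟩, ⟨false, [], [], [1], []⟩, ⟨false, [], [], [], [1]⟩,
    ⟨false, [], [], [1], [-1]⟩], []⟩

/-- Certificate. -/
def W11.T : Tree :=
  .split 0 [1, -1, 0] (.alt (.leaf [(0, 1), (1, 1), (3, 2)]) (.alt (.leaf [(0, 1), (5, 1), (31,
    1)]) (.alt (.leaf [(0, 3), (4, 2), (6, 2), (8, 1), (10, 1), (11, 1), (19, 1), (28, 1)])
    (.alt (.leaf [(0, 6), (4, 6), (6, 6), (8, 4), (10, 4), (20, 2), (27, 3), (28, 1), (34, 2)])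
    (.alt (.leaf [(0, 3), (4, 2), (6, 2), (8, 1), (10, 1), (11, 1), (21, 1), (30, 1), (36, 1)])
    (.alt (.leaf [(0, 6), (4, 6), (6, 6), (8, 4), (10, 4), (22, 2), (27, 1), (28, 1), (29, 2),
    (35, 2)]) (.alt (.leaf [(0, 1), (8, 1)]) (.done))))))))

theorem W11.chk : check W11.D.clause W11.T W11.D.base none = true := by decide +kernel

theorem W11.no : NoWord [1, 3] :=
  no_of_check 0 [1] rfl rfl W11.chk

/-- The word `XT`. -/
def W12.D : Data :=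
  ⟨[some [1], some [0, 1], some [0, 0, 1], some [-1, 1, 1], some [-2, 1, 3], some [0, 0, 0, 0, 0,
    1]], sup, [⟨true, [(1, 0), (1, 1), (-1, 2)], [], [], []⟩, ⟨true, [(1, 1), (1, 2), (-1, 3)],
    [], [], []⟩, ⟨false, [], [], [1], []⟩, ⟨false, [], [], [], [1]⟩, ⟨false, [], [], [1],
    [-1]⟩], []⟩

/-- Certificate. -/
def W12.T : Tree :=
  .split 0 [1, 0, -1, 0, 0, 0] (.alt (.leaf [(0, 1), (1, 1), (3, 2), (5, 1)]) (.alt (.leaf [(0,
    1), (37, 1)]) (.alt (.leaf [(0, 3), (4, 2), (6, 1), (8, 1), (10, 1), (13, 1), (17, 1), (30,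
    1)]) (.alt (.leaf [(0, 3), (2, 1), (4, 3), (6, 2), (8, 2), (10, 2), (12, 1), (18, 1), (29,
    1), (39, 1)]) (.alt (.leaf [(0, 3), (4, 2), (6, 1), (8, 1), (10, 1), (13, 1), (19, 1), (32,
    1), (41, 1)]) (.alt (.leaf [(0, 3), (2, 1), (4, 3), (6, 2), (8, 2), (10, 2), (12, 1), (20,
    1), (31, 1), (40, 1)]) (.alt (.leaf [(0, 1), (8, 1), (10, 1)]) (.done))))))))

theorem W12.chk : check W12.D.clause W12.T W12.D.base none = true := by decide +kernel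

theorem W12.no : NoWord [1, 10] :=
  no_of_check 0 [1] rfl rfl W12.chk

/-- The word `XV`. -/
def W13.D : Data :=
  ⟨[some [1], some [0, 1], some [0, 0, 1], some [-1, 1, 1], some [-1, 0, 3], some [0, 0, 0, 0, 0,
    1]], sup, [⟨true, [(1, 0), (1, 1), (-1, 2)], [], [], []⟩, ⟨true, [(1, 1), (1, 2), (-1, 3)],
    [], [], []⟩, ⟨false, [], [], [1], []⟩, ⟨false, [], [], [], [1]⟩, ⟨false, [], [], [1],
    [-1]⟩], []⟩

/-- Certificate. -/
def W13.T : Tree :=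
  .split 0 [1, 0, -1, 0, 0, 0] (.alt (.leaf [(0, 2), (1, 1), (3, 3), (9, 1)]) (.alt (.leaf [(0,
    1), (37, 1)]) (.alt (.leaf [(0, 3), (4, 1), (6, 1), (8, 1), (10, 1), (13, 2), (30, 1)])
    (.alt (.leaf [(0, 3), (2, 2), (4, 3), (6, 3), (8, 3), (10, 3), (12, 2), (29, 1), (39, 2)])
    (.alt (.leaf [(0, 3), (4, 1), (6, 1), (8, 1), (10, 1), (15, 2), (32, 1)]) (.alt (.leaf [(0,
    3), (2, 2), (4, 3), (6, 3), (8, 3), (10, 3), (12, 2), (31, 1), (40, 2)]) (.alt (.leaf [(0,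
    1), (8, 1), (10, 1)]) (.done))))))))

theorem W13.chk : check W13.D.clause W13.T W13.D.base none = true := by decide +kernel

theorem W13.no : NoWord [1, 11] :=
  no_of_check 0 [1] rfl rfl W13.chk

/-- The word `XX`. -/
def W14.D : Data :=
  ⟨[some [1], some [0, 1], some [0, 0, 1], some [-1, 1, 1], some [-1, 0, 2]], sup, [⟨true, [(1,
    0), (1, 1), (-1, 2)], [], [], []⟩, ⟨true, [(1, 1), (1, 2), (-1, 3)], [], [], []⟩, ⟨false,
    [], [], [1], []⟩, ⟨false, [], [], [], [1]⟩, ⟨false, [], [], [1], [-1]⟩], []⟩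

/-- Certificate. -/
def W14.T : Tree :=
  .split 0 [1, 0, -1] (.alt (.leaf [(0, 1), (1, 1), (3, 2), (5, 1)]) (.alt (.leaf [(0, 1), (31,
    1)]) (.alt (.leaf [(0, 2), (4, 1), (6, 1), (8, 1), (10, 1), (11, 1), (28, 1)]) (.alt (.leaf
    [(0, 2), (2, 1), (4, 2), (6, 2), (8, 2), (10, 2), (27, 1), (33, 1)]) (.alt (.leaf [(0, 2),
    (4, 1), (6, 1), (8, 1), (10, 1), (11, 1), (30, 1), (35, 1)]) (.alt (.leaf [(0, 2), (2, 1),
    (4, 2), (6, 2), (8, 2), (10, 2), (29, 1), (34, 1)]) (.alt (.leaf [(0, 1), (8, 1), (10, 1)])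
    (.done))))))))

theorem W14.chk : check W14.D.clause W14.T W14.D.base none = true := by decide +kernel

theorem W14.no : NoWord [1, 1] :=
  no_of_check 0 [1] rfl rfl W14.chk

/-- The word `Xb`. -/
def W15.D : Data :=
  ⟨[some [1], some [0, 1], some [0, 0, 1], some [-1, 1, 1], some [-1, 1, 2], some [-2, 1, 3]],
    sup, [⟨true, [(1, 0), (1, 1), (-1, 2)], [], [], []⟩, ⟨true, [(1, 1), (1, 2), (-1, 3)], [],
    [], []⟩, ⟨true, [(1, 3), (1, 4), (-1, 5)], [], [], []⟩, ⟨false, [], [], [1], []⟩, ⟨false,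
    [], [], [], [1]⟩, ⟨false, [], [], [1], [-1]⟩], []⟩

/-- Certificate. -/
def W15.T : Tree :=
  .split 0 [1, 0, -1] (.alt (.leaf [(0, 1), (1, 1), (3, 2), (5, 1)]) (.alt (.leaf [(0, 1), (37,
    1)]) (.alt (.leaf [(0, 3), (4, 2), (6, 1), (8, 1), (10, 1), (12, 1), (13, 1), (17, 1), (34,
    1)]) (.alt (.leaf [(0, 4), (4, 4), (6, 3), (8, 3), (10, 3), (12, 2), (18, 1), (30, 1), (33,
    2), (40, 1)]) (.alt (.leaf [(0, 3), (4, 2), (6, 1), (8, 1), (10, 1), (12, 1), (13, 1), (19,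
    1), (36, 1), (42, 1)]) (.alt (.leaf [(0, 21), (4, 20), (6, 12), (8, 12), (10, 12), (12, 9),
    (13, 1), (17, 1), (20, 7), (30, 3), (33, 2), (35, 7), (41, 7)]) (.alt (.leaf [(0, 1), (8,
    1), (10, 1)]) (.done))))))))

theorem W15.chk : check W15.D.clause W15.T W15.D.base none = true := by decide +kernel

theorem W15.no : NoWord [1, 4] :=
  no_of_check 0 [1] rfl rfl W15.chk

/-- The word `Xc`. -/
def W16.D : Data :=
  ⟨[some [1], some [0, 1], some [0, 0, 1], some [-1, 1, 1], some [-1, 1, 2], some [-1, 0, 3]],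
    sup, [⟨true, [(1, 0), (1, 1), (-1, 2)], [], [], []⟩, ⟨true, [(1, 1), (1, 2), (-1, 3)], [],
    [], []⟩, ⟨true, [(1, 3), (1, 4), (-1, 5)], [], [], []⟩, ⟨false, [], [], [1], []⟩, ⟨false,
    [], [], [], [1]⟩, ⟨false, [], [], [1], [-1]⟩], []⟩

/-- Certificate. -/
def W16.T : Tree :=
  .split 0 [1, 0, -1] (.alt (.leaf [(0, 1), (5, 1), (39, 1)]) (.alt (.leaf [(0, 1), (37, 1)])
    (.alt (.leaf [(0, 3), (4, 1), (6, 1), (8, 1), (10, 1), (12, 1), (13, 2), (34, 1)]) (.alt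
    (.leaf [(0, 3), (4, 3), (6, 3), (8, 3), (10, 3), (12, 1), (29, 1), (30, 1), (33, 1), (40,
    2)]) (.alt (.leaf [(0, 3), (4, 1), (6, 1), (8, 1), (10, 1), (12, 1), (13, 2), (36, 1), (42,
    2)]) (.alt (.leaf [(0, 3), (4, 3), (6, 3), (8, 3), (10, 3), (12, 1), (29, 1), (30, 1), (35,
    1), (41, 2)]) (.alt (.leaf [(0, 1), (8, 1), (10, 1)]) (.done))))))))

theorem W16.chk : check W16.D.clause W16.T W16.D.base none = true := by decide +kernel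

theorem W16.no : NoWord [1, 5] :=
  no_of_check 0 [1] rfl rfl W16.chk

/-- The word `Xr`. -/
def W17.D : Data :=
  ⟨[some [1], some [0, 1], some [0, 0, 1], some [-1, 1, 1], some [-2, 3, 1], some [0, 0, 0, 0, 0,
    1]], sup, [⟨true, [(1, 0), (1, 1), (-1, 2)], [], [], []⟩, ⟨true, [(1, 1), (1, 2), (-1, 3)],
    [], [], []⟩, ⟨false, [(1, 4), (-1, 2), (-1, 3)], [], [], []⟩, ⟨false, [], [], [1], []⟩,
    ⟨false, [], [], [], [1]⟩, ⟨false, [], [], [1], [-1]⟩], []⟩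

/-- Certificate. -/
def W17.T : Tree :=
  .split 0 [1, -1, 0, 0, 0, 0] (.alt (.leaf [(0, 1), (1, 1), (3, 2)]) (.alt (.leaf [(0, 1), (5,
    1), (37, 1)]) (.alt (.leaf [(0, 3), (4, 2), (6, 2), (8, 1), (10, 1), (13, 1), (21, 1), (30,
    1)]) (.alt (.leaf [(0, 3), (2, 1), (4, 3), (6, 3), (8, 2), (10, 2), (12, 1), (22, 1), (29,
    1), (40, 1)]) (.alt (.leaf [(0, 3), (4, 2), (6, 2), (8, 1), (10, 1), (13, 1), (23, 1), (32,
    1), (42, 1)]) (.alt (.leaf [(0, 3), (2, 1), (4, 3), (6, 3), (8, 2), (10, 2), (12, 1), (24,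
    1), (31, 1), (41, 1)]) (.alt (.leaf [(0, 1), (8, 1)]) (.done))))))))

theorem W17.chk : check W17.D.clause W17.T W17.D.base none = true := by decide +kernel

theorem W17.no : NoWord [1, 12] :=
  no_of_check 0 [1] rfl rfl W17.chk

/-- The word `dP`. -/
def W18.D : Data :=
  ⟨[some [1], some [0, 1], some [0, 0, 1], some [0, 1, 1], some [1, 0, 2], some [0, 1, 2]], sup,
    [⟨true, [(1, 0), (1, 1), (-1, 2)], [], [], []⟩, ⟨true, [(1, 2), (1, 3), (-1, 4)], [], [],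
    []⟩, ⟨true, [(1, 2), (1, 3), (-1, 4)], [], [], []⟩, ⟨false, [], [], [0, 1, 2], []⟩, ⟨false,
    [], [], [], [0, 1, 2]⟩, ⟨false, [], [], [0, 1, 2], [0, -1, -2]⟩], []⟩

/-- Certificate. -/
def W18.T : Tree :=
  .split 2 [] (.alt (.split 0 [1, -1, 0] (.alt (.leaf [(0, 1), (2, 1), (4, 2)]) (.alt (.leaf [(0,
    1), (6, 1), (38, 1)]) (.alt (.leaf [(0, 2), (1, 2), (5, 2), (7, 1), (9, 3), (11, 3), (13,
    1), (19, 1), (30, 2), (35, 1)]) (.alt (.leaf [(0, 2), (1, 2), (5, 1), (7, 1), (9, 3), (11,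
    3), (13, 2), (15, 1), (31, 1), (34, 2)]) (.alt (.leaf [(0, 1), (5, 1), (7, 1), (9, 1), (11,
    1), (32, 1), (42, 1)]) (.alt (.split 3 [] (.alt (.leaf [(0, 1), (1, 1), (2, 1), (6, 1), (8,
    1), (10, 2), (12, 3), (14, 2), (34, 1), (35, 1), (37, 1)]) (.alt (.leaf [(0, 2), (1, 2), (6,
    2), (8, 1), (10, 1), (12, 3), (14, 1), (20, 1), (34, 2), (37, 1), (44, 1)]) (.alt (.split 2
    [1, 0, 1] (.alt (.leaf [(0, 1), (6, 1)]) (.alt (.leaf [(0, 1), (4, 4), (6, 3), (8, 2)])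
    (.alt (.leaf [(0, 1), (2, 1), (3, 1), (7, 1), (9, 1), (11, 3), (13, 3), (15, 1), (32, 1),
    (35, 1), (38, 1)]) (.alt (.leaf [(0, 1), (2, 1), (3, 1), (11, 2), (13, 2), (15, 1), (17, 1),
    (35, 1), (38, 1)]) (.alt (.leaf [(0, 2), (2, 4), (7, 4), (9, 3), (11, 5), (13, 5), (15, 3),
    (22, 1), (35, 2), (38, 3)]) (.alt (.leaf [(0, 1), (1, 1), (11, 1), (13, 2), (15, 1), (35,
    1), (38, 1)]) (.alt (.leaf [(4, 2), (7, 2), (12, 2), (14, 1), (16, 1), (18, 1), (20, 1),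
    (27, 1), (43, 1)]) (.done))))))))) (.alt (.leaf [(0, 2), (1, 4), (6, 3), (8, 3), (10, 3),
    (12, 5), (14, 2), (18, 1), (34, 3), (37, 2)]) (.done)))))) (.alt (.leaf [(0, 1), (9, 1)])
    (.done))))))))) (.alt (.leaf [(0, 1), (8, 1), (25, 1), (40, 1)]) (.alt (.split 0 [1, -1, 0]
    (.alt (.leaf [(0, 1), (2, 1), (4, 2)]) (.alt (.leaf [(0, 1), (6, 1), (38, 1)]) (.alt (.leaf
    [(0, 2), (1, 2), (5, 2), (7, 1), (9, 3), (11, 3), (13, 1), (21, 1), (30, 2), (35, 1), (43,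
    1)]) (.alt (.split 3 [] (.alt (.split 2 [1, 0, 1] (.alt (.leaf [(0, 1), (6, 1)]) (.alt
    (.leaf [(0, 1), (4, 4), (6, 3), (8, 2)]) (.alt (.leaf [(0, 2), (2, 4), (7, 4), (9, 3), (11,
    5), (13, 5), (15, 3), (20, 1), (33, 2), (36, 3)]) (.alt (.leaf [(0, 1), (1, 1), (11, 1),
    (13, 2), (15, 1), (33, 1), (36, 1)]) (.alt (.leaf [(0, 1), (2, 1), (3, 1), (7, 1), (9, 1),
    (11, 3), (13, 3), (15, 1), (33, 1), (34, 1), (36, 1)]) (.alt (.leaf [(0, 1), (2, 1), (3, 1),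
    (11, 2), (13, 2), (15, 1), (19, 1), (33, 1), (36, 1)]) (.alt (.leaf [(2, 2), (7, 2), (12,
    2), (14, 1), (16, 1), (18, 1), (20, 1), (25, 1), (41, 1)]) (.done))))))))) (.alt (.leaf [(0,
    2), (1, 4), (6, 3), (8, 3), (10, 3), (12, 5), (14, 2), (16, 1), (32, 3), (35, 2)]) (.alt
    (.leaf [(0, 1), (1, 1), (2, 1), (6, 1), (8, 1), (10, 2), (12, 3), (14, 2), (32, 1), (35, 1),
    (37, 1)]) (.alt (.leaf [(0, 1), (1, 1), (2, 1), (6, 1), (10, 1), (12, 2), (14, 1), (22, 1),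
    (32, 1), (35, 1)]) (.done)))))) (.alt (.leaf [(0, 2), (1, 2), (5, 2), (7, 1), (9, 3), (11,
    3), (13, 1), (21, 1), (32, 2), (37, 1)]) (.alt (.leaf [(0, 2), (1, 2), (5, 1), (7, 1), (9,
    3), (11, 3), (13, 2), (17, 1), (33, 1), (36, 2)]) (.alt (.leaf [(0, 1), (9, 1)])
    (.done))))))))) (.alt (.leaf [(0, 1), (8, 1), (27, 1), (41, 1)]) (.done)))))

theorem W18.chk : check W18.D.clause W18.T W18.D.base none = true := by decide +kernel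

theorem W18.no : NoWord [6, 0] :=
  no_of_check 5 [0, 1, 2] rfl rfl W18.chk

/-- The word `fP`. -/
def W19.D : Data :=
  ⟨[some [1], some [0, 1], some [0, 0, 1], some [0, 1, 1], some [1, 2, 0], some [0, 1, 2]], sup,
    [⟨true, [(1, 0), (1, 1), (-1, 2)], [], [], []⟩, ⟨true, [(1, 2), (1, 3), (-1, 4)], [], [],
    []⟩, ⟨true, [(1, 2), (1, 3), (-1, 4)], [], [], []⟩, ⟨false, [], [], [0, 0, 1], []⟩, ⟨false,
    [], [], [], [0, 0, 1]⟩, ⟨false, [], [], [0, 0, 1], [0, 0, -1]⟩], []⟩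

/-- Certificate. -/
def W19.T : Tree :=
  .split 1 [] (.alt (.leaf [(0, 1), (6, 1), (8, 1), (10, 1), (12, 1), (33, 1), (40, 2)]) (.alt
    (.split 0 [1, 1, -1] (.alt (.leaf [(0, 1), (4, 1), (6, 1)]) (.alt (.leaf [(0, 1), (2, 1),
    (4, 1), (10, 1)]) (.alt (.leaf [(0, 2), (1, 1), (5, 1), (7, 2), (9, 2), (11, 2), (13, 1),
    (14, 1), (30, 1), (35, 1)]) (.alt (.leaf [(0, 2), (1, 1), (5, 2), (7, 3), (9, 3), (11, 3),
    (13, 1), (31, 2), (34, 1)]) (.alt (.leaf [(0, 2), (1, 2), (7, 2), (9, 2), (11, 2), (14, 1),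
    (16, 1), (31, 1), (32, 1), (42, 2)]) (.alt (.split 3 [] (.alt (.leaf [(0, 2), (1, 4), (2,
    1), (6, 3), (8, 4), (10, 4), (12, 6), (14, 3), (18, 1), (34, 3), (35, 1), (37, 2)]) (.alt
    (.leaf [(0, 2), (1, 2), (12, 2), (15, 1), (18, 1), (32, 1), (34, 1), (44, 2)]) (.alt (.leaf
    [(0, 2), (1, 2), (6, 1), (8, 1), (10, 1), (12, 3), (14, 2), (18, 1), (34, 1), (37, 2)])
    (.alt (.leaf [(0, 2), (1, 6), (6, 5), (8, 5), (10, 5), (12, 7), (14, 2), (18, 1), (34, 5),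
    (37, 2)]) (.done)))))) (.alt (.leaf [(1, 1), (15, 1)]) (.done))))))))) (.alt (.leaf [(0, 1),
    (6, 1), (8, 1), (10, 1), (12, 1), (35, 1), (41, 2)]) (.alt (.split 0 [1, 0, -1] (.alt (.leaf
    [(0, 2), (2, 2), (4, 3), (12, 1)]) (.alt (.leaf [(0, 1), (10, 1)]) (.alt (.leaf [(0, 2), (1,
    1), (7, 1), (9, 1), (11, 1), (13, 1), (14, 2), (37, 1), (43, 2)]) (.alt (.split 2 [] (.alt
    (.leaf [(0, 6), (1, 2), (6, 2), (8, 2), (10, 8), (12, 8), (14, 4), (31, 1), (32, 3), (35,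
    4)]) (.alt (.leaf [(0, 4), (1, 2), (2, 5), (6, 2), (8, 7), (10, 11), (12, 11), (14, 9), (32,
    2), (35, 4), (38, 5), (44, 10)]) (.alt (.leaf [(0, 4), (1, 2), (2, 1), (6, 2), (8, 3), (10,
    7), (12, 7), (14, 5), (32, 2), (35, 4), (38, 1), (44, 6)]) (.alt (.leaf [(0, 2), (2, 1), (8,
    1), (10, 3), (12, 3), (14, 1), (31, 1), (32, 1), (38, 1)]) (.done)))))) (.alt (.leaf [(0,
    2), (1, 1), (7, 1), (9, 1), (11, 1), (13, 1), (16, 2), (37, 1)]) (.alt (.leaf [(0, 2), (1,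
    3), (5, 2), (7, 5), (9, 5), (11, 5), (13, 1), (30, 1), (31, 1), (33, 2), (36, 1)]) (.alt
    (.leaf [(5, 2), (6, 3), (12, 3), (14, 3), (16, 3), (18, 1), (38, 2), (41, 1)])
    (.done))))))))) (.done)))))

theorem W19.chk : check W19.D.clause W19.T W19.D.base none = true := by decide +kernel

theorem W19.no : NoWord [8, 0] :=
  no_of_check 2 [0, 0, 1] rfl rfl W19.chk

/-- The word `PPQ`. -/
def W20.D : Data :=
  ⟨[some [1], some [0, 1], some [0, 0, 1], some [1, 1, 0], some [0, 1, 1], some [0, 1, 2]], sup,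
    [⟨true, [(1, 0), (1, 1), (-1, 2)], [], [], []⟩, ⟨true, [(1, 1), (1, 2), (-1, 3)], [], [],
    []⟩, ⟨true, [(1, 2), (1, 3), (-1, 4)], [], [], []⟩, ⟨false, [], [], [0, 1, 1], []⟩, ⟨false,
    [], [], [], [0, 1, 1]⟩, ⟨false, [], [], [0, 1, 1], [0, -1, -1]⟩], []⟩

/-- Certificate. -/
def W20.T : Tree :=
  .split 1 [] (.alt (.split 0 [1, 0, -1] (.alt (.leaf [(0, 1), (2, 1), (4, 2), (6, 1)]) (.alt
    (.leaf [(0, 1), (8, 1)]) (.alt (.leaf [(0, 2), (1, 1), (5, 2), (7, 3), (9, 3), (11, 1), (13,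
    1), (26, 2), (35, 1)]) (.alt (.leaf [(0, 2), (1, 1), (7, 1), (9, 1), (11, 1), (13, 1), (15,
    2), (34, 1)]) (.alt (.leaf [(0, 1), (5, 1), (7, 1), (9, 1), (28, 1), (42, 1)]) (.alt (.split
    2 [] (.alt (.leaf [(0, 2), (2, 1), (8, 1), (10, 3), (12, 3), (14, 3), (35, 2), (36, 1)])
    (.alt (.leaf [(0, 1), (1, 1), (6, 1), (10, 1), (19, 1), (30, 1), (44, 1)]) (.alt (.leaf [(0,
    1), (1, 1), (6, 1), (8, 1), (10, 2), (12, 1), (14, 1), (30, 1), (37, 1)]) (.alt (.leaf [(0,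
    1), (1, 3), (6, 1), (8, 1), (10, 2), (12, 1), (14, 1), (18, 2), (30, 1), (37, 1)])
    (.done)))))) (.alt (.leaf [(0, 1), (9, 1), (11, 1)]) (.done))))))))) (.alt (.leaf [(0, 1),
    (6, 1), (8, 1), (10, 1), (12, 1), (33, 1), (40, 2)]) (.alt (.split 0 [1, 0, -1] (.alt (.leaf
    [(0, 1), (2, 1), (4, 2), (6, 1)]) (.alt (.leaf [(0, 1), (8, 1)]) (.alt (.leaf [(0, 2), (1,
    1), (5, 2), (7, 3), (9, 3), (11, 1), (13, 1), (26, 2), (37, 1), (43, 2)]) (.alt (.split 4 []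
    (.alt (.leaf [(0, 1), (1, 1), (14, 1), (16, 1), (35, 1)]) (.alt (.leaf [(0, 2), (1, 2), (6,
    2), (8, 2), (10, 2), (14, 2), (28, 2), (35, 1), (36, 1)]) (.alt (.leaf [(0, 1), (1, 1), (14,
    1), (16, 1), (35, 1), (44, 1)]) (.alt (.leaf [(0, 2), (2, 1), (8, 1), (10, 1), (12, 1), (14,
    3), (35, 1), (36, 1), (38, 1)]) (.done)))))) (.alt (.leaf [(0, 2), (1, 1), (5, 2), (7, 3),
    (9, 3), (11, 1), (13, 1), (28, 2), (37, 1)]) (.alt (.leaf [(0, 2), (1, 1), (7, 1), (9, 1),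
    (11, 1), (13, 1), (17, 2), (36, 1)]) (.alt (.leaf [(0, 1), (9, 1), (11, 1)]) (.done)))))))))
    (.alt (.leaf [(0, 1), (6, 1), (8, 1), (10, 1), (12, 1), (35, 1), (41, 2)]) (.done)))))

theorem W20.chk : check W20.D.clause W20.T W20.D.base none = true := by decide +kernel

theorem W20.no : NoWord [0, 0, 2] :=
  no_of_check 4 [0, 1, 1] rfl rfl W20.chk

/-- The word `PQX`. -/
def W21.D : Data :=
  ⟨[some [1], some [0, 1], some [0, 0, 1], some [1, 1, 0], some [1, 2, 0], some [2, 3, -1]], sup,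
    [⟨true, [(1, 0), (1, 1), (-1, 2)], [], [], []⟩, ⟨true, [(1, 1), (1, 2), (-1, 3)], [], [],
    []⟩, ⟨true, [(1, 2), (1, 3), (-1, 4)], [], [], []⟩, ⟨false, [], [], [1, 2, 0], []⟩, ⟨false,
    [], [], [], [1, 2, 0]⟩, ⟨false, [], [], [1, 2, 0], [-1, -2, 0]⟩], []⟩

/-- Certificate. -/
def W21.T : Tree :=
  .split 1 [] (.alt (.split 0 [1, 1, -1] (.alt (.leaf [(0, 1), (4, 1), (6, 1)]) (.alt (.leaf [(0,
    1), (2, 1), (4, 1), (8, 1)]) (.alt (.leaf [(0, 4), (1, 2), (5, 4), (7, 6), (9, 4), (11, 4),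
    (13, 4), (23, 2), (34, 3), (35, 1)]) (.alt (.leaf [(0, 1), (1, 1), (7, 1), (15, 1), (22,
    1)]) (.alt (.leaf [(0, 1), (5, 1), (7, 1), (9, 1), (11, 1), (13, 1), (36, 1), (42, 1)])
    (.alt (.split 3 [] (.alt (.leaf [(0, 1), (1, 1), (2, 1), (6, 1), (8, 2), (10, 2), (12, 3),
    (14, 1), (31, 2), (38, 1), (44, 1)]) (.alt (.leaf [(0, 2), (1, 2), (6, 1), (8, 1), (10, 1),
    (12, 3), (14, 2), (16, 1), (31, 1), (38, 2), (44, 2)]) (.alt (.leaf [(0, 1), (1, 2), (6, 2),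
    (8, 2), (10, 1), (12, 2), (14, 1), (25, 1), (31, 1), (38, 1), (44, 1)]) (.alt (.leaf [(0,
    2), (1, 2), (6, 1), (8, 1), (10, 1), (12, 3), (14, 2), (18, 1), (31, 1), (38, 2), (44, 1)])
    (.done)))))) (.alt (.leaf [(1, 1), (13, 1)]) (.done))))))))) (.alt (.leaf [(0, 1), (6, 1),
    (8, 1), (25, 1), (40, 1)]) (.alt (.split 0 [1, 1, -1] (.alt (.leaf [(0, 1), (4, 1), (6, 1)])
    (.alt (.leaf [(0, 1), (2, 1), (4, 1), (8, 1)]) (.alt (.leaf [(0, 1), (5, 1), (7, 1), (9, 1),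
    (11, 1), (13, 1), (34, 1), (41, 1)]) (.alt (.leaf [(0, 2), (1, 2), (7, 2), (15, 1), (17, 1),
    (22, 2), (43, 1)]) (.alt (.leaf [(0, 4), (1, 2), (5, 4), (7, 6), (9, 4), (11, 4), (13, 4),
    (25, 2), (34, 1), (35, 1), (36, 2)]) (.alt (.leaf [(0, 1), (1, 1), (7, 1), (17, 1), (24,
    1)]) (.alt (.leaf [(1, 1), (13, 1)]) (.done))))))))) (.alt (.leaf [(0, 1), (6, 1), (8, 1),
    (27, 1), (41, 1)]) (.done)))))

theorem W21.chk : check W21.D.clause W21.T W21.D.base none = true := by decide +kernel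

theorem W21.no : NoWord [0, 2, 1] :=
  no_of_check 4 [1, 2, 0] rfl rfl W21.chk

/-- The word `PXQ`. -/
def W22.D : Data :=
  ⟨[some [1], some [0, 1], some [0, 0, 1], some [1, 1, 0], some [1, 0, 1], some [1, 0, 2]], sup,
    [⟨true, [(1, 0), (1, 1), (-1, 2)], [], [], []⟩, ⟨true, [(1, 1), (1, 2), (-1, 3)], [], [],
    []⟩, ⟨true, [(1, 2), (1, 3), (-1, 4)], [], [], []⟩, ⟨false, [], [], [1, 0, 1], []⟩, ⟨false,
    [], [], [], [1, 0, 1]⟩, ⟨false, [], [], [1, 0, 1], [-1, 0, -1]⟩], []⟩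

/-- Certificate. -/
def W22.T : Tree :=
  .split 0 [] (.alt (.split 0 [0, 1, -1] (.alt (.leaf [(0, 1), (2, 1), (4, 1), (6, 1)]) (.alt
    (.leaf [(0, 1), (4, 1), (8, 1)]) (.alt (.leaf [(0, 2), (1, 1), (5, 3), (7, 3), (9, 3), (11,
    1), (13, 1), (26, 2), (35, 1)]) (.alt (.leaf [(0, 2), (1, 1), (5, 3), (7, 1), (9, 1), (11,
    1), (13, 1), (19, 2), (34, 1)]) (.alt (.leaf [(0, 1), (5, 1), (7, 1), (9, 1), (28, 1), (42,
    1)]) (.alt (.split 2 [] (.alt (.leaf [(0, 2), (2, 1), (6, 1), (8, 1), (10, 3), (12, 3), (14,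
    3), (35, 2), (36, 1)]) (.alt (.leaf [(0, 1), (1, 1), (10, 1), (15, 1), (30, 1), (44, 1)])
    (.alt (.leaf [(0, 1), (1, 1), (6, 1), (8, 1), (10, 2), (12, 1), (14, 1), (30, 1), (37, 1)])
    (.alt (.leaf [(0, 1), (1, 3), (6, 3), (8, 1), (10, 2), (12, 1), (14, 1), (22, 2), (30, 1),
    (37, 1)]) (.done)))))) (.alt (.leaf [(0, 1), (11, 1)]) (.done))))))))) (.alt (.leaf [(0, 1),
    (4, 1), (6, 1), (8, 1), (10, 1), (12, 1), (33, 1), (40, 2)]) (.alt (.split 0 [0, 1, -1]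
    (.alt (.leaf [(0, 1), (2, 1), (4, 1), (6, 1)]) (.alt (.leaf [(0, 1), (4, 1), (8, 1)]) (.alt
    (.leaf [(0, 2), (1, 1), (5, 3), (7, 3), (9, 3), (11, 1), (13, 1), (26, 2), (37, 1), (43,
    2)]) (.alt (.split 4 [] (.alt (.leaf [(0, 1), (1, 1), (6, 1), (14, 1), (20, 1), (35, 1)])
    (.alt (.leaf [(0, 1), (1, 3), (6, 3), (8, 2), (10, 2), (14, 1), (20, 1), (28, 2), (35, 1)])
    (.alt (.leaf [(0, 1), (1, 1), (6, 1), (14, 1), (20, 1), (35, 1), (44, 1)]) (.alt (.leaf [(0,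
    2), (1, 4), (2, 1), (6, 5), (8, 3), (10, 3), (12, 1), (14, 3), (20, 2), (28, 2), (35, 2),
    (38, 1)]) (.done)))))) (.alt (.leaf [(0, 2), (1, 1), (5, 3), (7, 3), (9, 3), (11, 1), (13,
    1), (28, 2), (37, 1)]) (.alt (.leaf [(0, 2), (1, 1), (5, 3), (7, 1), (9, 1), (11, 1), (13,
    1), (21, 2), (36, 1)]) (.alt (.leaf [(0, 1), (11, 1)]) (.done))))))))) (.alt (.leaf [(0, 1),
    (4, 1), (6, 1), (8, 1), (10, 1), (12, 1), (35, 1), (41, 2)]) (.done)))))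

theorem W22.chk : check W22.D.clause W22.T W22.D.base none = true := by decide +kernel

theorem W22.no : NoWord [0, 1, 2] :=
  no_of_check 4 [1, 0, 1] rfl rfl W22.chk

/-- The word `TQX`. -/
def W23.D : Data :=
  ⟨[some [1], some [0, 1], some [0, 0, 1], some [-1, 1, 2], some [0, 0, 0, 0, 1], some [0, 0, 1,
    0, 1], some [1, -1, -1, 0, 2]], sup, [⟨true, [(1, 0), (1, 1), (-1, 2)], [], [], []⟩, ⟨true,
    [(1, 2), (1, 3), (-1, 4)], [], [], []⟩, ⟨true, [(1, 3), (1, 4), (-1, 5)], [], [], []⟩,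
    ⟨false, [], [], [0, 0, 0, 0, 1], []⟩, ⟨false, [], [], [], [0, 0, 0, 0, 1]⟩, ⟨false, [], [],
    [0, 0, 0, 0, 1], [0, 0, 0, 0, -1]⟩], []⟩

/-- Certificate. -/
def W23.T : Tree :=
  .split 2 [] (.alt (.leaf [(0, 1), (8, 1), (10, 1), (12, 1), (35, 1), (46, 1)]) (.alt (.split 0
    [1, 0, -1, 0, 0] (.alt (.leaf [(0, 1), (4, 2), (6, 2), (44, 1)]) (.alt (.leaf [(0, 1), (44,
    1)]) (.alt (.leaf [(0, 1), (1, 1), (5, 1), (9, 1), (20, 1), (29, 1)]) (.alt (.leaf [(0, 1),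
    (1, 1), (3, 1), (9, 1), (11, 1), (13, 1), (15, 1), (17, 1)]) (.alt (.split 2 [1, -1, -1, 0,
    1] (.alt (.leaf [(0, 1), (5, 1), (46, 1)]) (.alt (.leaf [(0, 1), (5, 4), (7, 6), (11, 1),
    (45, 3)]) (.alt (.leaf [(0, 4), (2, 2), (10, 6), (12, 4), (14, 4), (16, 2), (30, 2), (39,
    1), (40, 1), (41, 2)]) (.alt (.split 0 [1, -2, -2, 0, 1] (.alt (.leaf [(0, 1), (6, 1), (46,
    1), (47, 1)]) (.alt (.leaf [(0, 1), (12, 1)]) (.alt (.leaf [(0, 1), (1, 3), (11, 3), (13,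
    3), (15, 3), (17, 1), (19, 1), (40, 1), (41, 1), (43, 1)]) (.alt (.split 1 [1, -1, -2, 0, 1]
    (.alt (.leaf [(0, 1), (48, 1)]) (.alt (.leaf [(0, 1), (7, 1), (9, 2), (13, 1), (47, 1)])
    (.alt (.leaf [(0, 5), (1, 6), (8, 5), (10, 5), (12, 5), (14, 5), (16, 2), (18, 2), (19, 1),
    (23, 5), (35, 3), (44, 2)]) (.alt (.leaf [(0, 7), (1, 1), (4, 2), (10, 7), (12, 9), (14, 4),
    (16, 4), (18, 4), (19, 1), (31, 5), (44, 4)]) (.alt (.split 4 [] (.alt (.leaf [(0, 1), (1,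
    2), (2, 1), (4, 1), (5, 2), (9, 1), (13, 2), (17, 1), (19, 1), (21, 1), (24, 2), (26, 1),
    (35, 2), (46, 1)]) (.alt (.leaf [(0, 3), (1, 1), (2, 1), (11, 1), (13, 1), (15, 1), (17, 4),
    (19, 3), (20, 1), (43, 1), (45, 2), (46, 1)]) (.alt (.leaf [(0, 8), (1, 2), (4, 4), (9, 4),
    (11, 2), (13, 2), (17, 8), (19, 6), (26, 4), (32, 1), (33, 1), (43, 2), (46, 6)]) (.alt
    (.leaf [(0, 1), (1, 2), (11, 2), (13, 2), (15, 1), (17, 2), (19, 1), (35, 1), (43, 1), (46,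
    1)]) (.done)))))) (.alt (.leaf [(0, 10), (1, 1), (3, 15), (8, 5), (10, 10), (12, 10), (14,
    10), (16, 7), (18, 7), (19, 1), (21, 10), (25, 5), (35, 3), (44, 2), (46, 5)]) (.alt (.leaf
    [(5, 1), (8, 2), (13, 1), (26, 1), (30, 1), (56, 1)]) (.done))))))))) (.alt (.leaf [(0, 2),
    (2, 3), (7, 4), (9, 4), (11, 4), (13, 1), (15, 1), (17, 1), (20, 1), (33, 3), (44, 1)])
    (.alt (.leaf [(0, 1), (2, 2), (7, 2), (20, 1), (24, 2), (50, 1)]) (.alt (.leaf [(2, 2), (4,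
    2), (6, 6), (7, 3), (16, 6), (18, 3), (20, 3), (22, 3), (24, 2), (25, 1), (38, 3), (48, 2),
    (49, 1)]) (.done))))))))) (.alt (.leaf [(0, 2), (1, 1), (10, 2), (12, 1), (14, 1), (16, 1),
    (19, 1), (32, 1), (43, 1)]) (.alt (.leaf [(0, 4), (1, 2), (6, 2), (10, 4), (12, 4), (14, 4),
    (16, 2), (23, 2), (39, 1), (40, 1), (44, 2)]) (.alt (.leaf [(1, 1), (10, 1), (12, 2), (16,
    1), (50, 1)]) (.done))))))))) (.alt (.split 1 [1, -1, -2, 0, 1] (.alt (.leaf [(0, 1), (46,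
    1)]) (.alt (.leaf [(0, 1), (5, 1), (7, 2), (11, 1), (45, 1)]) (.alt (.split 4 [] (.alt
    (.leaf [(0, 1), (1, 1), (9, 1), (15, 1), (17, 1), (27, 1), (42, 1)]) (.alt (.leaf [(0, 1),
    (1, 1), (5, 1), (9, 1), (11, 1), (15, 1), (17, 1), (31, 1)]) (.alt (.leaf [(0, 1), (1, 1),
    (9, 1), (15, 1), (17, 1), (27, 1), (42, 1), (51, 1)]) (.alt (.leaf [(0, 2), (2, 1), (5, 1),
    (7, 1), (15, 2), (17, 2), (25, 1), (45, 1)]) (.done)))))) (.alt (.leaf [(0, 4), (2, 2), (8,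
    4), (10, 6), (12, 4), (14, 4), (16, 4), (29, 2), (41, 1), (42, 3)]) (.alt (.leaf [(0, 3),
    (1, 3), (6, 1), (8, 3), (10, 3), (12, 3), (14, 3), (16, 2), (20, 2), (24, 1), (40, 1), (43,
    2)]) (.alt (.leaf [(0, 1), (8, 1), (10, 1), (31, 1), (49, 1)]) (.alt (.leaf [(1, 1), (16,
    1)]) (.done))))))))) (.alt (.leaf [(0, 1), (9, 1), (11, 1)]) (.done))))))))) (.alt (.leaf
    [(0, 1), (8, 1), (10, 1), (12, 1), (37, 1), (47, 1)]) (.alt (.split 0 [1, 0, -1, 0, 0] (.alt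
    (.leaf [(0, 1), (4, 2), (6, 2), (44, 1)]) (.alt (.leaf [(0, 1), (44, 1)]) (.alt (.split 4 []
    (.alt (.leaf [(0, 1), (1, 1), (2, 1), (6, 1), (10, 1), (12, 1), (14, 2), (16, 1), (21, 1),
    (40, 1), (41, 1), (50, 1)]) (.alt (.leaf [(0, 1), (1, 1), (2, 3), (6, 1), (10, 3), (12, 3),
    (14, 4), (16, 1), (21, 1), (40, 3), (41, 1), (50, 3)]) (.alt (.leaf [(0, 1), (1, 1), (2, 1),
    (6, 1), (10, 1), (12, 1), (14, 2), (16, 1), (21, 1), (40, 1), (41, 1), (50, 2)]) (.alt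
    (.leaf [(0, 1), (2, 1), (4, 1), (10, 1), (12, 1), (14, 2), (16, 1), (40, 1)]) (.done))))))
    (.alt (.split 4 [] (.alt (.leaf [(0, 1), (1, 1), (14, 1), (18, 1), (37, 1)]) (.alt (.leaf
    [(0, 2), (1, 1), (4, 1), (6, 1), (14, 2), (16, 2), (22, 1), (42, 1)]) (.alt (.leaf [(0, 1),
    (1, 1), (14, 1), (18, 1), (37, 1), (50, 1)]) (.alt (.leaf [(0, 1), (2, 1), (4, 1), (10, 1),
    (12, 1), (14, 2), (16, 1), (40, 1)]) (.done)))))) (.alt (.leaf [(0, 1), (1, 1), (5, 1), (9,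
    1), (22, 1), (31, 1)]) (.alt (.leaf [(0, 1), (1, 1), (3, 1), (9, 1), (11, 1), (13, 1), (15,
    1), (19, 1)]) (.alt (.leaf [(0, 1), (9, 1), (11, 1)]) (.done))))))))) (.done)))))

theorem W23.chk : check W23.D.clause W23.T W23.D.base none = true := by decide +kernel

theorem W23.no : NoWord [10, 2, 1] :=
  no_of_check 4 [0, 0, 0, 0, 1] rfl rfl W23.chk

/-- The word `XQP`. -/
def W24.D : Data :=
  ⟨[some [1], some [0, 1], some [0, 0, 1], some [-1, 1, 1], some [-1, 2, 1], some [-1, 1, 2]],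
    sup, [⟨true, [(1, 0), (1, 1), (-1, 2)], [], [], []⟩, ⟨true, [(1, 1), (1, 2), (-1, 3)], [],
    [], []⟩, ⟨true, [(1, 2), (1, 3), (-1, 4)], [], [], []⟩, ⟨false, [], [], [-1, 1, 1], []⟩,
    ⟨false, [], [], [], [-1, 1, 1]⟩, ⟨false, [], [], [-1, 1, 1], [1, -1, -1]⟩], []⟩

/-- Certificate. -/
def W24.T : Tree :=
  .split 1 [] (.alt (.leaf [(0, 1), (6, 1), (8, 1), (10, 1), (29, 1), (40, 1)]) (.alt (.split 0
    [1, -1, 0] (.alt (.leaf [(0, 1), (2, 1), (4, 2)]) (.alt (.leaf [(0, 1), (6, 1), (38, 1)])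
    (.alt (.leaf [(0, 1), (1, 2), (5, 1), (7, 3), (9, 3), (11, 3), (13, 1), (31, 2), (34, 1)])
    (.alt (.leaf [(0, 2), (1, 2), (7, 2), (9, 2), (11, 2), (15, 2), (30, 1), (31, 1)]) (.alt
    (.leaf [(0, 1), (5, 1), (7, 1), (9, 1), (11, 1), (13, 1), (36, 1), (42, 2)]) (.alt (.split 3
    [] (.alt (.leaf [(0, 2), (1, 2), (2, 1), (8, 1), (12, 2), (14, 1), (16, 1), (18, 1), (26,
    1), (33, 1), (35, 1)]) (.alt (.leaf [(0, 2), (2, 2), (8, 2), (10, 2), (12, 4), (31, 1), (32,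
    3)]) (.alt (.leaf [(0, 1), (1, 1), (2, 1), (8, 1), (12, 1), (14, 1), (16, 1), (26, 1), (35,
    1), (44, 2)]) (.alt (.leaf [(0, 2), (1, 1), (6, 1), (8, 1), (10, 1), (12, 3), (14, 1), (31,
    1), (32, 1), (38, 1)]) (.done)))))) (.alt (.leaf [(0, 1), (9, 1)]) (.done))))))))) (.alt
    (.leaf [(0, 1), (6, 1), (8, 1), (10, 1), (31, 1), (41, 1)]) (.alt (.split 0 [1, -1, 0] (.alt
    (.leaf [(0, 1), (2, 1), (4, 2)]) (.alt (.leaf [(0, 1), (6, 1), (38, 1)]) (.alt (.leaf [(0,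
    1), (1, 2), (5, 1), (7, 3), (9, 3), (11, 3), (13, 1), (33, 2), (34, 1), (43, 2)]) (.alt
    (.split 3 [] (.alt (.leaf [(0, 1), (1, 1), (12, 1), (16, 1), (31, 1)]) (.alt (.leaf [(0, 2),
    (1, 1), (6, 1), (8, 1), (10, 1), (12, 3), (14, 1), (31, 1), (32, 1), (36, 1)]) (.alt (.leaf
    [(0, 2), (1, 2), (2, 1), (8, 1), (12, 2), (14, 1), (16, 1), (18, 1), (24, 1), (31, 1), (37,
    1)]) (.alt (.leaf [(0, 2), (2, 2), (8, 2), (10, 2), (12, 4), (31, 1), (32, 1), (34, 2)])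
    (.done)))))) (.alt (.leaf [(0, 1), (1, 2), (5, 1), (7, 3), (9, 3), (11, 3), (13, 1), (33,
    2), (36, 1)]) (.alt (.leaf [(0, 5), (1, 2), (5, 1), (7, 3), (9, 3), (11, 3), (13, 1), (17,
    4), (32, 2), (37, 1)]) (.alt (.leaf [(0, 1), (9, 1)]) (.done))))))))) (.done)))))

theorem W24.chk : check W24.D.clause W24.T W24.D.base none = true := by decide +kernel

theorem W24.no : NoWord [1, 2, 0] :=
  no_of_check 3 [-1, 1, 1] rfl rfl W24.chk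

/-- The word `XQX`. -/
def W25.D : Data :=
  ⟨[some [1], some [0, 1], some [0, 0, 1], some [-1, 1, 1], some [-1, 2, 1], some [-2, 3, 1]],
    sup, [⟨true, [(1, 0), (1, 1), (-1, 2)], [], [], []⟩, ⟨true, [(1, 1), (1, 2), (-1, 3)], [],
    [], []⟩, ⟨true, [(1, 2), (1, 3), (-1, 4)], [], [], []⟩, ⟨false, [], [], [1], []⟩, ⟨false,
    [], [], [], [1]⟩, ⟨false, [], [], [1], [-1]⟩], []⟩

/-- Certificate. -/
def W25.T : Tree :=
  .split 0 [1, -1, 0] (.alt (.leaf [(0, 1), (1, 1), (3, 2)]) (.alt (.leaf [(0, 1), (5, 1), (37,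
    1)]) (.alt (.leaf [(0, 3), (4, 2), (6, 2), (8, 1), (10, 1), (12, 1), (13, 1), (21, 1), (34,
    1)]) (.alt (.leaf [(0, 4), (4, 4), (6, 4), (8, 3), (10, 3), (12, 2), (22, 1), (30, 1), (33,
    2), (40, 1)]) (.alt (.leaf [(0, 3), (4, 2), (6, 2), (8, 1), (10, 1), (12, 1), (15, 1), (23,
    1), (36, 1)]) (.alt (.leaf [(0, 21), (4, 20), (6, 20), (8, 12), (10, 12), (12, 9), (13, 1),
    (21, 1), (24, 7), (30, 3), (33, 2), (35, 7), (41, 7)]) (.alt (.leaf [(0, 1), (8, 1)])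
    (.done))))))))

theorem W25.chk : check W25.D.clause W25.T W25.D.base none = true := by decide +kernel

theorem W25.no : NoWord [1, 2, 1] :=
  no_of_check 0 [1] rfl rfl W25.chk

/-- The word `XeP`. -/
def W26.D : Data :=
  ⟨[some [1], some [0, 1], some [0, 0, 1], some [-1, 1, 1], some [-1, 1, 2], some [-1, 2, 2], some
    [-2, 2, 3]], sup, [⟨true, [(1, 0), (1, 1), (-1, 2)], [], [], []⟩, ⟨true, [(1, 1), (1, 2),
    (-1, 3)], [], [], []⟩, ⟨true, [(1, 3), (1, 4), (-1, 5)], [], [], []⟩, ⟨true, [(1, 3), (1,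
    4), (-1, 5)], [], [], []⟩, ⟨false, [], [], [-1, 1, 2], []⟩, ⟨false, [], [], [], [-1, 1, 2]⟩,
    ⟨false, [], [], [-1, 1, 2], [1, -1, -2]⟩], []⟩

/-- Certificate. -/
def W26.T : Tree :=
  .split 1 [] (.alt (.leaf [(0, 1), (6, 1), (8, 1), (10, 1), (12, 1), (35, 1), (47, 1)]) (.alt
    (.split 3 [] (.alt (.leaf [(0, 1), (1, 1), (7, 1), (9, 1), (11, 2), (13, 2), (15, 1), (37,
    1), (40, 1)]) (.alt (.leaf [(0, 1), (1, 1), (7, 1), (11, 1), (13, 1), (24, 1), (37, 1)])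
    (.alt (.leaf [(0, 1), (11, 1), (13, 1), (15, 1), (42, 1), (49, 1)]) (.alt (.split 0 [1, 0,
    -1] (.alt (.leaf [(0, 1), (3, 1), (5, 2), (7, 1)]) (.alt (.leaf [(0, 1), (45, 1)]) (.alt
    (.leaf [(0, 2), (2, 2), (6, 1), (8, 3), (10, 3), (12, 3), (14, 3), (17, 1), (37, 1), (38,
    2)]) (.alt (.split 4 [] (.alt (.leaf [(0, 1), (1, 1), (7, 1), (15, 1), (17, 1), (23, 1),
    (42, 1)]) (.alt (.leaf [(0, 2), (1, 4), (7, 3), (9, 3), (11, 3), (13, 3), (15, 5), (17, 2),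
    (19, 1), (39, 3), (42, 2)]) (.alt (.leaf [(0, 1), (1, 1), (2, 1), (7, 1), (9, 1), (13, 1),
    (15, 2), (17, 1), (28, 1), (39, 1), (42, 1)]) (.alt (.leaf [(0, 1), (1, 1), (2, 1), (7, 1),
    (9, 1), (11, 1), (13, 2), (15, 3), (17, 2), (39, 1), (42, 1), (45, 1)]) (.done)))))) (.alt
    (.leaf [(0, 2), (1, 2), (6, 1), (8, 1), (10, 1), (12, 3), (14, 3), (16, 2), (19, 1), (39,
    1), (44, 2)]) (.alt (.leaf [(0, 2), (1, 2), (6, 2), (8, 2), (10, 1), (12, 3), (14, 3), (16,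
    1), (27, 1), (40, 2), (43, 1)]) (.alt (.leaf [(2, 1), (7, 2), (13, 2), (15, 1), (17, 1),
    (19, 1), (30, 1), (43, 1)]) (.done))))))))) (.done)))))) (.alt (.leaf [(0, 1), (6, 1), (8,
    1), (10, 1), (12, 1), (37, 1), (48, 1)]) (.alt (.split 3 [] (.alt (.leaf [(0, 1), (1, 1),
    (7, 1), (9, 1), (11, 2), (13, 2), (15, 1), (39, 1), (40, 1), (50, 1)]) (.alt (.leaf [(0, 1),
    (1, 1), (7, 1), (11, 1), (13, 1), (24, 1), (39, 1), (50, 1)]) (.alt (.leaf [(0, 1), (1, 1),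
    (7, 1), (9, 1), (11, 2), (13, 2), (15, 1), (39, 1), (42, 1)]) (.alt (.leaf [(0, 1), (1, 1),
    (7, 1), (11, 1), (13, 1), (26, 1), (39, 1)]) (.done)))))) (.done)))))

theorem W26.chk : check W26.D.clause W26.T W26.D.base none = true := by decide +kernel

theorem W26.no : NoWord [1, 7, 0] :=
  no_of_check 4 [-1, 1, 2] rfl rfl W26.chk

/-- The word `bQX`. -/
def W27.D : Data :=
  ⟨[some [1], some [0, 1], some [0, 0, 1], some [0, 1, 1], some [-1, 1, 2], some [-1, 1, 3], some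
    [-2, 1, 4]], sup, [⟨true, [(1, 0), (1, 1), (-1, 2)], [], [], []⟩, ⟨true, [(1, 2), (1, 3),
    (-1, 4)], [], [], []⟩, ⟨true, [(1, 2), (1, 3), (-1, 4)], [], [], []⟩, ⟨true, [(1, 3), (1,
    4), (-1, 5)], [], [], []⟩, ⟨false, [], [], [1], []⟩, ⟨false, [], [], [], [1]⟩, ⟨false, [],
    [], [1], [-1]⟩], []⟩

/-- Certificate. -/
def W27.T : Tree :=
  .split 0 [1, 0, -1] (.alt (.leaf [(0, 1), (1, 1), (3, 2), (5, 1)]) (.alt (.leaf [(0, 1), (43,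
    1)]) (.alt (.leaf [(0, 3), (4, 2), (6, 2), (8, 2), (10, 1), (12, 1), (14, 1), (15, 1), (27,
    1), (40, 1)]) (.alt (.leaf [(0, 6), (4, 6), (6, 5), (8, 5), (10, 5), (12, 5), (14, 3), (20,
    1), (36, 2), (39, 3), (47, 2)]) (.alt (.leaf [(0, 3), (4, 2), (6, 2), (8, 2), (10, 1), (12,
    1), (14, 1), (17, 1), (29, 1), (42, 1)]) (.alt (.leaf [(0, 6), (4, 6), (6, 5), (8, 5), (10,
    5), (12, 5), (14, 3), (22, 1), (38, 2), (41, 3), (48, 2)]) (.alt (.leaf [(0, 1), (8, 1),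
    (10, 1)]) (.done))))))))

theorem W27.chk : check W27.D.clause W27.T W27.D.base none = true := by decide +kernel

theorem W27.no : NoWord [4, 2, 1] :=
  no_of_check 0 [1] rfl rfl W27.chk

/-- The word `cQX`. -/
def W28.D : Data :=
  ⟨[some [1], some [0, 1], some [0, 0, 1], some [0, 1, 1], some [-1, 2, 1], some [-1, 2, 2], some
    [-2, 3, 2]], sup, [⟨true, [(1, 0), (1, 1), (-1, 2)], [], [], []⟩, ⟨true, [(1, 2), (1, 3),
    (-1, 4)], [], [], []⟩, ⟨true, [(1, 2), (1, 3), (-1, 4)], [], [], []⟩, ⟨true, [(1, 3), (1,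
    4), (-1, 5)], [], [], []⟩, ⟨false, [], [], [-1, 2, 1], []⟩, ⟨false, [], [], [], [-1, 2, 1]⟩,
    ⟨false, [], [], [-1, 2, 1], [1, -2, -1]⟩], []⟩

/-- Certificate. -/
def W28.T : Tree :=
  .split 1 [] (.alt (.split 0 [1, -1, 0] (.alt (.leaf [(0, 1), (2, 1), (4, 2)]) (.alt (.leaf [(0,
    1), (6, 1), (44, 1)]) (.alt (.leaf [(0, 2), (1, 2), (7, 2), (9, 2), (11, 2), (13, 2), (15,
    2), (16, 2), (40, 1), (41, 1)]) (.alt (.leaf [(0, 2), (1, 1), (5, 2), (7, 3), (9, 1), (11,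
    1), (13, 1), (15, 1), (25, 2), (40, 1)]) (.alt (.leaf [(0, 2), (5, 1), (7, 1), (9, 1), (11,
    1), (13, 1), (18, 1), (38, 1), (49, 2)]) (.alt (.split 2 [1, -1, -1] (.alt (.leaf [(0, 1),
    (3, 3), (5, 4), (7, 2)]) (.alt (.leaf [(0, 1), (3, 1)]) (.alt (.leaf [(0, 1), (1, 1), (6,
    1), (10, 1), (21, 1), (32, 1), (51, 1)]) (.alt (.leaf [(0, 6), (1, 2), (2, 5), (8, 5), (10,
    11), (12, 11), (14, 11), (16, 7), (17, 2), (38, 2), (40, 2), (41, 5), (43, 2)]) (.alt (.leaf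
    [(0, 4), (1, 2), (2, 1), (6, 1), (10, 4), (12, 4), (14, 4), (16, 1), (17, 1), (23, 2), (38,
    1), (40, 2), (41, 1)]) (.alt (.leaf [(0, 2), (1, 2), (6, 1), (8, 1), (10, 3), (12, 3), (14,
    3), (16, 2), (20, 1), (40, 1), (43, 2)]) (.alt (.leaf [(3, 2), (7, 1), (13, 1), (15, 1),
    (17, 1), (19, 1), (21, 1), (46, 1)]) (.done))))))))) (.alt (.leaf [(0, 1), (9, 1)])
    (.done))))))))) (.alt (.leaf [(0, 1), (6, 1), (8, 1), (10, 1), (12, 1), (14, 1), (39, 1),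
    (48, 2), (49, 2)]) (.alt (.split 0 [1, -1, 0] (.alt (.leaf [(0, 1), (2, 1), (4, 2)]) (.alt
    (.leaf [(0, 1), (6, 1), (44, 1)]) (.alt (.leaf [(0, 2), (1, 1), (5, 2), (7, 3), (9, 3), (11,
    1), (13, 1), (15, 1), (28, 2), (43, 1), (50, 2)]) (.alt (.split 4 [] (.alt (.leaf [(0, 1),
    (1, 1), (6, 1), (8, 1), (14, 1), (16, 1), (26, 1), (41, 1)]) (.alt (.leaf [(0, 2), (1, 2),
    (2, 1), (6, 2), (8, 3), (10, 3), (12, 3), (14, 5), (16, 3), (38, 2), (41, 2), (44, 1), (51,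
    2)]) (.alt (.leaf [(0, 1), (1, 1), (6, 1), (8, 1), (14, 1), (16, 1), (26, 1), (41, 1), (51,
    1)]) (.alt (.leaf [(0, 2), (1, 2), (2, 1), (6, 2), (8, 3), (10, 3), (12, 3), (14, 5), (16,
    3), (38, 2), (41, 2), (44, 1)]) (.done)))))) (.alt (.leaf [(0, 2), (1, 1), (5, 2), (7, 3),
    (9, 3), (11, 1), (13, 1), (15, 1), (30, 2), (43, 1)]) (.alt (.leaf [(0, 2), (1, 1), (5, 2),
    (7, 3), (9, 1), (11, 1), (13, 1), (15, 1), (27, 2), (42, 1)]) (.alt (.leaf [(0, 1), (9, 1)])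
    (.done))))))))) (.alt (.leaf [(0, 1), (6, 1), (8, 1), (10, 1), (12, 1), (14, 1), (41, 1),
    (48, 2)]) (.done)))))

theorem W28.chk : check W28.D.clause W28.T W28.D.base none = true := by decide +kernel

theorem W28.no : NoWord [5, 2, 1] :=
  no_of_check 4 [-1, 2, 1] rfl rfl W28.chk

/-- The word `PPPX`. -/
def W29.D : Data :=
  ⟨[some [1], some [0, 1], some [0, 0, 1], some [1, 1, 0], some [0, 1, 1], some [1, 1, 1], some
    [0, 1, 2]], sup, [⟨true, [(1, 0), (1, 1), (-1, 2)], [], [], []⟩, ⟨true, [(1, 1), (1, 2),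
    (-1, 3)], [], [], []⟩, ⟨true, [(1, 2), (1, 3), (-1, 4)], [], [], []⟩, ⟨true, [(1, 3), (1,
    4), (-1, 5)], [], [], []⟩, ⟨false, [], [], [1], []⟩, ⟨false, [], [], [], [1]⟩, ⟨false, [],
    [], [1], [-1]⟩], []⟩

/-- Certificate. -/
def W29.T : Tree :=
  .split 0 [] (.alt (.split 2 [] (.alt (.leaf [(0, 1), (1, 1), (5, 1), (9, 1), (11, 1), (13, 1),
    (21, 1), (36, 1)]) (.alt (.leaf [(0, 1), (1, 1), (5, 1), (7, 1), (9, 2), (11, 2), (13, 2),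
    (15, 1), (36, 1), (41, 1)]) (.alt (.split 0 [1, 0, -1] (.alt (.leaf [(0, 1), (3, 1), (5, 2),
    (7, 1)]) (.alt (.leaf [(0, 1), (9, 1)]) (.alt (.split 4 [] (.alt (.leaf [(0, 2), (3, 4), (7,
    4), (9, 3), (11, 3), (13, 3), (15, 5), (17, 1), (23, 1), (38, 4), (43, 1)]) (.alt (.leaf
    [(0, 1), (1, 1), (15, 1), (17, 1), (18, 1), (43, 1)]) (.alt (.leaf [(0, 2), (2, 2), (3, 2),
    (7, 2), (9, 1), (11, 3), (13, 3), (15, 5), (17, 3), (23, 1), (38, 2), (43, 1), (44, 2)])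
    (.alt (.leaf [(0, 1), (1, 1), (2, 1), (7, 1), (11, 1), (13, 1), (15, 2), (17, 1), (25, 1),
    (38, 1), (43, 1)]) (.done)))))) (.alt (.leaf [(0, 4), (2, 2), (6, 6), (8, 5), (10, 5), (12,
    5), (14, 5), (16, 3), (22, 1), (38, 2), (41, 3)]) (.alt (.leaf [(0, 2), (1, 4), (2, 2), (6,
    4), (8, 1), (10, 5), (12, 5), (14, 5), (16, 1), (22, 1), (24, 2), (37, 2), (39, 2), (42,
    1)]) (.alt (.leaf [(0, 2), (6, 2), (8, 2), (10, 2), (12, 1), (14, 1), (16, 1), (32, 1), (43,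
    1), (50, 1)]) (.alt (.leaf [(3, 1), (7, 2), (11, 2), (13, 1), (15, 1), (17, 1), (19, 1),
    (27, 1), (42, 1)]) (.done))))))))) (.alt (.leaf [(0, 2), (9, 2), (11, 1), (13, 1), (15, 1),
    (30, 1), (43, 1), (49, 1)]) (.done)))))) (.alt (.leaf [(0, 4), (4, 4), (6, 3), (8, 3), (10,
    3), (12, 3), (14, 1), (19, 1), (36, 2), (39, 1), (47, 2)]) (.alt (.split 2 [] (.alt (.leaf
    [(0, 1), (1, 1), (5, 1), (9, 1), (11, 1), (13, 1), (21, 1), (36, 1), (50, 1)]) (.alt (.leaf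
    [(0, 1), (1, 1), (5, 1), (7, 1), (9, 2), (11, 2), (13, 2), (15, 1), (36, 1), (41, 1), (50,
    1)]) (.alt (.leaf [(0, 1), (1, 1), (5, 1), (9, 1), (11, 1), (13, 1), (23, 1), (38, 1)])
    (.alt (.leaf [(0, 4), (1, 4), (5, 4), (7, 3), (9, 7), (11, 5), (13, 5), (15, 3), (21, 1),
    (30, 2), (36, 2), (41, 1), (43, 2), (50, 2)]) (.done)))))) (.alt (.leaf [(0, 2), (4, 2), (6,
    2), (8, 2), (10, 2), (12, 2), (35, 1), (36, 1), (48, 2)]) (.done)))))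

theorem W29.chk : check W29.D.clause W29.T W29.D.base none = true := by decide +kernel

theorem W29.no : NoWord [0, 0, 0, 1] :=
  no_of_check 0 [1] rfl rfl W29.chk

/-- The word `PPeP`. -/
def W30.D : Data :=
  ⟨[some [1], some [0, 1], some [0, 0, 1], some [1, 1, 0], some [0, 1, 1], some [1, 2, 1], some
    [1, 2, 2], some [1, 3, 2]], sup, [⟨true, [(1, 0), (1, 1), (-1, 2)], [], [], []⟩, ⟨true, [(1,
    1), (1, 2), (-1, 3)], [], [], []⟩, ⟨true, [(1, 2), (1, 3), (-1, 4)], [], [], []⟩, ⟨true,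
    [(1, 4), (1, 5), (-1, 6)], [], [], []⟩, ⟨true, [(1, 4), (1, 5), (-1, 6)], [], [], []⟩,
    ⟨false, [], [], [0, 1, 1], []⟩, ⟨false, [], [], [], [0, 1, 1]⟩, ⟨false, [], [], [0, 1, 1],
    [0, -1, -1]⟩], []⟩

/-- Certificate. -/
def W30.T : Tree :=
  .split 1 [] (.alt (.split 5 [] (.alt (.leaf [(0, 1), (1, 1), (7, 1), (15, 1), (17, 1), (27, 1),
    (46, 1)]) (.alt (.leaf [(0, 2), (1, 2), (7, 2), (9, 2), (11, 1), (13, 1), (15, 3), (17, 1),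
    (31, 1), (43, 2), (46, 1)]) (.alt (.leaf [(0, 1), (15, 1), (17, 1), (48, 1), (56, 1)]) (.alt
    (.split 4 [] (.alt (.split 0 [1, 0, -1] (.alt (.leaf [(0, 2), (6, 3), (8, 2), (14, 1)])
    (.alt (.leaf [(0, 1), (10, 1)]) (.alt (.leaf [(0, 2), (1, 6), (7, 2), (9, 2), (11, 2), (13,
    2), (15, 8), (17, 8), (19, 8), (48, 5), (49, 3)]) (.alt (.leaf [(0, 2), (3, 2), (9, 2), (11,
    2), (13, 1), (15, 1), (17, 1), (19, 1), (21, 2), (33, 1), (48, 1)]) (.alt (.leaf [(0, 1),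
    (2, 3), (3, 2), (7, 1), (9, 3), (11, 3), (13, 3), (15, 3), (17, 6), (19, 4), (45, 2), (48,
    2), (51, 2)]) (.alt (.leaf [(0, 1), (1, 2), (2, 1), (3, 2), (9, 2), (11, 2), (15, 2), (17,
    3), (19, 2), (21, 1), (35, 2), (45, 1), (48, 2)]) (.alt (.leaf [(2, 1), (6, 3), (8, 2), (14,
    2), (16, 2), (18, 2), (20, 5), (22, 5), (24, 3), (50, 2), (53, 3)]) (.done))))))))) (.alt
    (.leaf [(0, 2), (2, 2), (8, 2), (10, 2), (12, 1), (14, 3), (16, 3), (18, 1), (31, 1), (44,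
    2), (47, 1)]) (.alt (.leaf [(0, 1), (1, 1), (2, 1), (8, 1), (10, 1), (14, 1), (16, 2), (18,
    1), (34, 1), (44, 1), (47, 1)]) (.alt (.leaf [(0, 1), (1, 1), (2, 1), (8, 1), (10, 1), (12,
    1), (14, 2), (16, 3), (18, 2), (44, 1), (47, 1), (50, 1)]) (.done)))))) (.done)))))) (.alt
    (.leaf [(0, 1), (6, 1), (25, 1), (55, 1), (56, 1)]) (.alt (.split 5 [] (.alt (.leaf [(0, 1),
    (1, 1), (7, 1), (15, 1), (17, 1), (29, 1), (46, 1), (57, 1)]) (.alt (.split 4 [] (.alt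
    (.leaf [(0, 1), (1, 1), (2, 1), (8, 1), (10, 1), (14, 1), (16, 2), (18, 1), (32, 1), (46,
    1), (49, 1)]) (.alt (.leaf [(0, 1), (1, 1), (2, 1), (8, 1), (10, 1), (12, 1), (14, 2), (16,
    3), (18, 2), (46, 1), (48, 1), (49, 1)]) (.alt (.leaf [(0, 1), (1, 1), (2, 1), (8, 1), (10,
    1), (14, 1), (16, 2), (18, 1), (32, 1), (46, 1), (49, 1), (58, 1)]) (.alt (.leaf [(0, 2),
    (2, 2), (8, 2), (10, 2), (12, 1), (14, 3), (16, 3), (18, 1), (33, 1), (46, 2), (49, 1)])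
    (.done)))))) (.alt (.leaf [(0, 1), (1, 1), (7, 1), (15, 1), (17, 1), (29, 1), (48, 1)])
    (.alt (.leaf [(0, 2), (1, 2), (7, 2), (9, 2), (11, 1), (13, 1), (15, 3), (17, 1), (33, 1),
    (45, 2), (48, 1)]) (.done)))))) (.alt (.leaf [(0, 1), (6, 1), (27, 1), (55, 1)]) (.done)))))

theorem W30.chk : check W30.D.clause W30.T W30.D.base none = true := by decide +kernel

theorem W30.no : NoWord [0, 0, 7, 0] :=
  no_of_check 4 [0, 1, 1] rfl rfl W30.chk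

/-- The word `PQQP`. -/
def W31.D : Data :=
  ⟨[some [1], some [0, 1], some [0, 0, 1], some [1, 1, 0], some [1, 2, 0], some [1, 2, 1], some
    [2, 3, 0]], sup, [⟨true, [(1, 0), (1, 1), (-1, 2)], [], [], []⟩, ⟨true, [(1, 1), (1, 2),
    (-1, 3)], [], [], []⟩, ⟨true, [(1, 2), (1, 3), (-1, 4)], [], [], []⟩, ⟨true, [(1, 3), (1,
    4), (-1, 5)], [], [], []⟩, ⟨false, [], [], [2, 3, 0], []⟩, ⟨false, [], [], [], [2, 3, 0]⟩,
    ⟨false, [], [], [2, 3, 0], [-2, -3, 0]⟩], []⟩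

/-- Certificate. -/
def W31.T : Tree :=
  .split 3 [] (.alt (.split 0 [1, 1, -1] (.alt (.leaf [(0, 1), (4, 1), (6, 1)]) (.alt (.leaf [(0,
    1), (2, 1), (4, 1), (8, 1)]) (.alt (.leaf [(0, 1), (1, 3), (11, 3), (13, 3), (15, 2), (16,
    1), (37, 1), (40, 2)]) (.alt (.leaf [(0, 1), (1, 1), (3, 1), (5, 1), (7, 1), (11, 1), (13,
    1), (15, 1), (24, 1)]) (.alt (.leaf [(0, 1), (1, 3), (11, 3), (13, 3), (15, 2), (16, 1),
    (39, 1), (40, 2), (50, 1)]) (.alt (.leaf [(0, 1), (1, 3), (11, 3), (13, 3), (15, 2), (16,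
    1), (38, 1), (40, 1), (43, 1)]) (.alt (.leaf [(1, 1), (13, 1)]) (.done))))))))) (.alt (.leaf
    [(0, 1), (10, 1), (31, 1), (47, 1)]) (.alt (.split 0 [1, 1, -1] (.alt (.leaf [(0, 1), (4,
    1), (6, 1)]) (.alt (.leaf [(0, 1), (2, 1), (4, 1), (8, 1)]) (.alt (.leaf [(0, 1), (1, 3),
    (11, 3), (13, 3), (15, 2), (18, 1), (37, 1), (40, 1), (42, 1)]) (.alt (.leaf [(0, 1), (1,
    3), (3, 2), (11, 3), (13, 3), (15, 2), (18, 1), (36, 1), (50, 1)]) (.alt (.leaf [(0, 1), (1,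
    3), (11, 3), (13, 3), (15, 2), (18, 1), (39, 1), (40, 2), (50, 2)]) (.alt (.leaf [(0, 1),
    (1, 3), (3, 2), (11, 3), (13, 3), (15, 2), (18, 1), (38, 1)]) (.alt (.leaf [(1, 1), (13,
    1)]) (.done))))))))) (.alt (.leaf [(0, 1), (10, 1), (33, 1), (48, 1)]) (.done)))))

theorem W31.chk : check W31.D.clause W31.T W31.D.base none = true := by decide +kernel

theorem W31.no : NoWord [0, 2, 2, 0] :=
  no_of_check 6 [2, 3, 0] rfl rfl W31.chk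

end Pool.Agent.Work.MP_7453a1_st
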