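import Pool.Agent.Work.MP_7453a1_st.Alph

set_option autoImplicit false
set_option maxRecDepth 100000

/-! Certificates (words that do not occur). -/

namespace Pool.Agent.Work.MP_7453a1_st

open Pool.Agent.Work.MP_7453a1_nt_norm Pool.Agent.Work.MP_7453a1_nt_sup

/-- The word `PXPX`. -/
def W32.D : Data :=
  ⟨[some [1], some [0, 1], some [0, 0, 1], some [1, 1, 0], some [1, 0, 1], some [1, 1, 1], some
    [1, 0, 2]], sup, [⟨true, [(1, 0), (1, 1), (-1, 2)], [], [], []⟩, ⟨true, [(1, 1), (1, 2),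
    (-1, 3)], [], [], []⟩, ⟨true, [(1, 2), (1, 3), (-1, 4)], [], [], []⟩, ⟨true, [(1, 3), (1,
    4), (-1, 5)], [], [], []⟩, ⟨false, [], [], [1, 1, 0], []⟩, ⟨false, [], [], [], [1, 1, 0]⟩,
    ⟨false, [], [], [1, 1, 0], [-1, -1, 0]⟩], []⟩

/-- Certificate. -/
def W32.T : Tree :=
  .split 2 [] (.alt (.leaf [(0, 1), (8, 1), (10, 1), (12, 1), (35, 1), (47, 1)]) (.alt (.split 0
    [0, 1, -1] (.alt (.leaf [(0, 1), (2, 1), (4, 1), (6, 1)]) (.alt (.leaf [(0, 1), (4, 1), (8,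
    1)]) (.alt (.leaf [(0, 1), (1, 3), (9, 3), (11, 2), (13, 2), (15, 2), (16, 1), (28, 1), (41,
    2)]) (.alt (.leaf [(0, 2), (1, 2), (5, 1), (7, 1), (9, 3), (11, 3), (13, 3), (15, 1), (16,
    1), (37, 2), (40, 1)]) (.alt (.split 4 [] (.alt (.leaf [(0, 1), (1, 1), (2, 1), (10, 1),
    (12, 1), (14, 2), (16, 1), (17, 1), (39, 1), (44, 1)]) (.alt (.leaf [(0, 1), (1, 1), (2, 1),
    (6, 1), (8, 1), (10, 2), (12, 2), (14, 3), (16, 2), (39, 1), (42, 1), (44, 1)]) (.alt (.leaf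
    [(0, 1), (1, 2), (6, 2), (8, 2), (10, 2), (12, 1), (14, 2), (16, 1), (29, 1), (39, 1), (44,
    1), (51, 1)]) (.alt (.leaf [(0, 1), (1, 1), (6, 1), (14, 1), (16, 1), (23, 1), (44, 1)])
    (.done)))))) (.alt (.leaf [(0, 2), (1, 2), (5, 1), (9, 2), (11, 2), (13, 2), (15, 2), (16,
    1), (23, 1), (41, 1), (42, 1), (49, 1)]) (.alt (.leaf [(0, 1), (11, 1)]) (.done)))))))))
    (.alt (.leaf [(0, 1), (8, 1), (10, 1), (12, 1), (37, 1), (48, 1)]) (.alt (.split 0 [0, 1,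
    -1] (.alt (.leaf [(0, 1), (2, 1), (4, 1), (6, 1)]) (.alt (.leaf [(0, 1), (4, 1), (8, 1)])
    (.alt (.split 4 [] (.alt (.leaf [(0, 1), (1, 1), (2, 3), (10, 3), (12, 2), (14, 2), (16, 2),
    (19, 1), (29, 1), (35, 1), (44, 2)]) (.alt (.leaf [(0, 1), (1, 1), (6, 1), (14, 1), (16, 1),
    (21, 1), (42, 1)]) (.alt (.leaf [(0, 1), (1, 1), (2, 1), (10, 1), (12, 1), (14, 2), (16, 1),
    (19, 1), (37, 1), (42, 1)]) (.alt (.leaf [(0, 1), (2, 2), (10, 2), (12, 2), (14, 2), (16,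
    2), (35, 1), (44, 2)]) (.done)))))) (.alt (.leaf [(0, 2), (1, 3), (5, 1), (9, 3), (11, 3),
    (13, 3), (15, 2), (16, 1), (23, 1), (39, 1), (40, 1), (43, 1), (50, 2)]) (.alt (.leaf [(0,
    1), (1, 1), (5, 1), (7, 1), (9, 2), (11, 1), (13, 1), (15, 1), (28, 1), (43, 1), (50, 1)])
    (.alt (.leaf [(0, 2), (1, 4), (9, 4), (11, 4), (13, 4), (15, 2), (18, 2), (39, 2), (40, 1),
    (41, 1)]) (.alt (.leaf [(0, 1), (11, 1)]) (.done))))))))) (.done)))))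

theorem W32.chk : check W32.D.clause W32.T W32.D.base none = true := by decide +kernel

theorem W32.no : NoWord [0, 1, 0, 1] :=
  no_of_check 3 [1, 1, 0] rfl rfl W32.chk

/-- The word `XPQP`. -/
def W33.D : Data :=
  ⟨[some [1], some [0, 1], some [0, 0, 1], some [-1, 1, 1], some [0, 1, 1], some [0, 1, 2], some
    [-1, 2, 2]], sup, [⟨true, [(1, 0), (1, 1), (-1, 2)], [], [], []⟩, ⟨true, [(1, 1), (1, 2),
    (-1, 3)], [], [], []⟩, ⟨true, [(1, 2), (1, 3), (-1, 4)], [], [], []⟩, ⟨true, [(1, 3), (1,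
    4), (-1, 5)], [], [], []⟩, ⟨false, [], [], [0, 1, 1], []⟩, ⟨false, [], [], [], [0, 1, 1]⟩,
    ⟨false, [], [], [0, 1, 1], [0, -1, -1]⟩], []⟩

/-- Certificate. -/
def W33.T : Tree :=
  .split 0 [] (.alt (.split 2 [] (.alt (.leaf [(0, 2), (1, 1), (5, 1), (7, 1), (9, 3), (11, 3),
    (13, 3), (15, 1), (36, 2), (41, 1)]) (.alt (.leaf [(0, 1), (1, 1), (5, 1), (9, 1), (20, 1),
    (29, 1)]) (.alt (.leaf [(0, 1), (9, 1), (11, 1), (13, 1), (38, 1), (49, 1)]) (.alt (.split 0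
    [1, -1, 0] (.alt (.leaf [(0, 1), (3, 1), (5, 2)]) (.alt (.leaf [(0, 1), (7, 1), (45, 1)])
    (.alt (.split 4 [] (.alt (.leaf [(0, 2), (1, 2), (7, 1), (9, 1), (11, 1), (13, 1), (15, 3),
    (17, 1), (18, 1), (38, 2), (43, 1)]) (.alt (.leaf [(0, 2), (1, 2), (3, 1), (7, 3), (9, 3),
    (11, 3), (13, 3), (15, 5), (17, 3), (38, 2), (43, 3)]) (.alt (.leaf [(0, 1), (1, 1), (2, 1),
    (7, 1), (11, 1), (13, 1), (15, 2), (17, 1), (24, 1), (38, 1), (43, 1)]) (.alt (.leaf [(0,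
    1), (1, 1), (2, 1), (7, 1), (9, 1), (11, 2), (13, 2), (15, 3), (17, 1), (38, 1), (41, 1),
    (43, 1)]) (.done)))))) (.alt (.leaf [(0, 2), (2, 2), (6, 4), (8, 2), (10, 2), (12, 2), (14,
    2), (21, 2), (37, 1), (38, 1)]) (.alt (.leaf [(0, 2), (1, 2), (6, 1), (8, 1), (10, 3), (12,
    3), (14, 3), (16, 1), (19, 1), (37, 1), (38, 1), (44, 1)]) (.alt (.split 4 [] (.alt (.split
    3 [] (.alt (.leaf [(0, 2), (4, 2), (8, 2), (10, 1), (12, 1), (14, 3), (16, 3), (23, 1), (39,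
    2), (40, 1)]) (.alt (.leaf [(0, 1), (1, 1), (2, 1), (14, 1), (16, 2), (18, 1), (19, 1), (42,
    1), (45, 1)]) (.alt (.leaf [(0, 1), (3, 1), (12, 1), (14, 2), (16, 2), (18, 1), (42, 1),
    (45, 1)]) (.alt (.leaf [(0, 2), (2, 4), (8, 4), (10, 3), (12, 3), (14, 5), (16, 5), (18, 2),
    (25, 1), (42, 3), (45, 2)]) (.done)))))) (.alt (.leaf [(0, 2), (1, 2), (3, 1), (7, 3), (9,
    3), (11, 3), (13, 3), (15, 5), (17, 3), (41, 2), (43, 1), (44, 2)]) (.alt (.leaf [(0, 2),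
    (1, 2), (7, 2), (9, 1), (11, 1), (13, 1), (15, 3), (17, 2), (24, 1), (41, 1), (44, 2)])
    (.alt (.leaf [(0, 1), (1, 1), (2, 1), (7, 1), (9, 1), (11, 2), (13, 2), (15, 3), (17, 1),
    (41, 2), (44, 1)]) (.done)))))) (.alt (.leaf [(4, 1), (6, 1), (15, 1), (37, 1)])
    (.done))))))))) (.done)))))) (.alt (.leaf [(0, 1), (4, 1), (6, 1), (8, 1), (10, 1), (12, 1),
    (14, 1), (39, 1), (47, 2)]) (.alt (.split 2 [] (.alt (.leaf [(0, 2), (1, 1), (5, 1), (7, 1),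
    (9, 3), (11, 3), (13, 3), (15, 1), (36, 2), (43, 1), (50, 2)]) (.alt (.leaf [(0, 1), (1, 1),
    (5, 1), (9, 1), (20, 1), (31, 1), (50, 1)]) (.alt (.leaf [(0, 2), (1, 1), (5, 1), (7, 1),
    (9, 3), (11, 3), (13, 3), (15, 1), (38, 2), (43, 1)]) (.alt (.leaf [(0, 1), (1, 1), (5, 1),
    (9, 1), (22, 1), (31, 1)]) (.done)))))) (.alt (.leaf [(0, 1), (4, 1), (6, 1), (8, 1), (10,
    1), (12, 1), (14, 1), (41, 1), (48, 2)]) (.done)))))

theorem W33.chk : check W33.D.clause W33.T W33.D.base none = true := by decide +kernel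

theorem W33.no : NoWord [1, 0, 2, 0] :=
  no_of_check 4 [0, 1, 1] rfl rfl W33.chk

/-- The word `PPXPPP`. -/
def W34.D : Data :=
  ⟨[some [1], some [0, 1], some [0, 0, 1], some [1, 1, 0], some [0, 1, 1], some [1, 2, 0], some
    [1, 2, 1], some [1, 3, 1], some [2, 4, 1]], sup, [⟨true, [(1, 0), (1, 1), (-1, 2)], [], [],
    []⟩, ⟨true, [(1, 1), (1, 2), (-1, 3)], [], [], []⟩, ⟨true, [(1, 2), (1, 3), (-1, 4)], [],
    [], []⟩, ⟨true, [(1, 3), (1, 4), (-1, 5)], [], [], []⟩, ⟨true, [(1, 4), (1, 5), (-1, 6)],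
    [], [], []⟩, ⟨true, [(1, 5), (1, 6), (-1, 7)], [], [], []⟩, ⟨false, [], [], [1, 2, 1], []⟩,
    ⟨false, [], [], [], [1, 2, 1]⟩, ⟨false, [], [], [1, 2, 1], [-1, -2, -1]⟩], []⟩

/-- Certificate. -/
def W34.T : Tree :=
  .split 1 [] (.alt (.leaf [(0, 1), (6, 1), (8, 1), (10, 1), (12, 1), (14, 1), (16, 1), (47, 1),
    (61, 1)]) (.alt (.split 5 [] (.alt (.leaf [(0, 1), (1, 1), (7, 1), (9, 1), (11, 1), (13, 1),
    (15, 2), (17, 2), (19, 1), (49, 1), (52, 1)]) (.alt (.leaf [(0, 1), (1, 1), (7, 1), (15, 1),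
    (17, 1), (28, 1), (49, 1)]) (.alt (.leaf [(0, 1), (15, 1), (17, 1), (19, 1), (54, 1), (63,
    1)]) (.alt (.split 3 [] (.alt (.split 0 [1, 0, -1] (.alt (.leaf [(0, 2), (6, 3), (8, 2),
    (20, 1)]) (.alt (.leaf [(0, 1), (10, 1)]) (.alt (.leaf [(0, 1), (3, 2), (9, 2), (11, 2),
    (13, 1), (15, 1), (17, 1), (19, 1), (22, 1), (34, 1), (51, 1)]) (.alt (.leaf [(0, 2), (1,
    4), (5, 4), (7, 2), (9, 2), (11, 1), (13, 5), (15, 5), (17, 5), (19, 5), (21, 5), (30, 1),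
    (54, 1)]) (.alt (.leaf [(0, 4), (2, 6), (3, 4), (5, 4), (9, 4), (11, 3), (13, 3), (15, 3),
    (17, 9), (19, 9), (21, 5), (22, 2), (24, 2), (30, 1), (53, 4), (55, 1)]) (.alt (.leaf [(0,
    1), (1, 1), (2, 1), (3, 1), (9, 1), (11, 1), (13, 2), (17, 1), (19, 1), (21, 1), (22, 1),
    (40, 2), (57, 1)]) (.alt (.leaf [(3, 1), (6, 2), (10, 1), (18, 2), (20, 2), (22, 2), (24,
    1), (26, 1), (51, 1)]) (.done))))))))) (.alt (.leaf [(0, 2), (2, 2), (4, 2), (8, 2), (10,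
    1), (12, 3), (14, 3), (16, 3), (18, 3), (20, 3), (29, 1), (54, 1)]) (.alt (.leaf [(0, 1),
    (1, 2), (2, 1), (8, 1), (12, 1), (14, 1), (16, 3), (18, 2), (31, 1), (45, 1), (50, 1), (52,
    1)]) (.alt (.leaf [(0, 1), (1, 1), (12, 1), (16, 1), (18, 1), (20, 1), (39, 1), (56, 1)])
    (.done)))))) (.done)))))) (.alt (.leaf [(0, 1), (6, 1), (8, 1), (10, 1), (12, 1), (14, 1),
    (16, 1), (49, 1), (62, 1)]) (.alt (.split 5 [] (.alt (.leaf [(0, 1), (1, 1), (7, 1), (9, 1),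
    (11, 1), (13, 1), (15, 2), (17, 2), (19, 1), (51, 1), (52, 1), (64, 1)]) (.alt (.leaf [(0,
    1), (1, 1), (7, 1), (15, 1), (17, 1), (28, 1), (51, 1), (64, 1)]) (.alt (.leaf [(0, 2), (1,
    1), (3, 1), (7, 1), (9, 1), (11, 1), (15, 2), (17, 2), (19, 2), (39, 1), (54, 1)]) (.alt
    (.leaf [(0, 1), (1, 1), (7, 1), (15, 1), (17, 1), (30, 1), (51, 1)]) (.done))))))
    (.done)))))

theorem W34.chk : check W34.D.clause W34.T W34.D.base none = true := by decide +kernel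

theorem W34.no : NoWord [0, 0, 1, 0, 0, 0] :=
  no_of_check 6 [1, 2, 1] rfl rfl W34.chk

/-- The word `PPXPPX`. -/
def W35.D : Data :=
  ⟨[some [1], some [0, 1], some [0, 0, 1], some [1, 1, 0], some [0, 1, 1], some [1, 2, 0], some
    [1, 2, 1], some [1, 3, 1], some [1, 3, 2]], sup, [⟨true, [(1, 0), (1, 1), (-1, 2)], [], [],
    []⟩, ⟨true, [(1, 1), (1, 2), (-1, 3)], [], [], []⟩, ⟨true, [(1, 2), (1, 3), (-1, 4)], [],
    [], []⟩, ⟨true, [(1, 3), (1, 4), (-1, 5)], [], [], []⟩, ⟨true, [(1, 4), (1, 5), (-1, 6)],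
    [], [], []⟩, ⟨true, [(1, 5), (1, 6), (-1, 7)], [], [], []⟩, ⟨false, [], [], [0, 1], []⟩,
    ⟨false, [], [], [], [0, 1]⟩, ⟨false, [], [], [0, 1], [0, -1]⟩], []⟩

/-- Certificate. -/
def W35.T : Tree :=
  .split 1 [] (.alt (.split 4 [] (.alt (.leaf [(0, 1), (1, 1), (7, 1), (9, 1), (13, 1), (15, 1),
    (17, 1), (33, 1), (48, 1)]) (.alt (.leaf [(0, 1), (1, 1), (7, 1), (9, 1), (11, 1), (13, 2),
    (15, 2), (17, 2), (19, 1), (48, 1), (53, 1)]) (.alt (.split 2 [] (.alt (.leaf [(0, 1), (2,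
    1), (8, 1), (10, 2), (12, 2), (14, 2), (16, 1), (18, 1), (42, 1), (49, 1)]) (.alt (.split 6
    [] (.alt (.leaf [(0, 3), (3, 4), (9, 4), (11, 4), (13, 4), (15, 4), (17, 3), (19, 6), (21,
    1), (43, 1), (50, 5), (55, 1)]) (.alt (.split 0 [1, 1, -1] (.alt (.leaf [(0, 1), (7, 1), (9,
    1)]) (.alt (.leaf [(0, 1), (7, 1), (9, 1), (11, 2)]) (.alt (.leaf [(0, 1), (1, 2), (8, 1),
    (10, 1), (12, 1), (14, 1), (16, 1), (18, 1), (20, 3), (22, 2), (51, 1), (56, 2)]) (.alt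
    (.leaf [(0, 1), (4, 2), (10, 2), (12, 2), (14, 2), (16, 2), (18, 1), (20, 1), (24, 1), (44,
    1), (51, 1)]) (.alt (.leaf [(0, 3), (3, 6), (4, 10), (10, 10), (12, 10), (14, 10), (16, 16),
    (18, 15), (20, 15), (22, 4), (24, 3), (44, 1), (51, 8), (53, 3), (56, 4)]) (.alt (.leaf [(0,
    1), (1, 2), (3, 1), (4, 1), (10, 1), (12, 1), (16, 1), (20, 2), (22, 2), (24, 1), (38, 1),
    (46, 1), (56, 1), (57, 1)]) (.alt (.leaf [(2, 1), (4, 3), (8, 6), (9, 2), (15, 2), (17, 2),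
    (19, 2), (21, 8), (23, 8), (25, 8), (27, 2), (56, 3), (58, 3), (61, 2)]) (.done)))))))))
    (.alt (.leaf [(0, 2), (2, 2), (3, 2), (9, 2), (11, 2), (13, 1), (15, 3), (17, 3), (19, 5),
    (21, 3), (35, 1), (50, 2), (55, 1), (56, 2)]) (.alt (.leaf [(0, 1), (1, 1), (2, 1), (11, 1),
    (15, 1), (17, 1), (19, 2), (21, 1), (37, 1), (50, 1), (55, 1)]) (.done)))))) (.alt (.leaf
    [(0, 2), (10, 2), (12, 2), (14, 2), (16, 1), (18, 1), (20, 1), (44, 1), (55, 1), (64, 1)])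
    (.alt (.leaf [(0, 2), (1, 4), (2, 2), (8, 2), (10, 4), (12, 1), (14, 5), (16, 5), (18, 5),
    (20, 1), (34, 1), (36, 2), (49, 2), (51, 2), (54, 1)]) (.done)))))) (.alt (.leaf [(0, 2),
    (13, 2), (15, 1), (17, 1), (19, 1), (42, 1), (55, 1), (63, 1)]) (.done)))))) (.alt (.leaf
    [(0, 2), (6, 2), (8, 2), (10, 2), (12, 2), (14, 2), (16, 2), (18, 2), (51, 1), (52, 1), (61,
    2)]) (.alt (.split 4 [] (.alt (.leaf [(0, 1), (1, 1), (7, 1), (9, 1), (13, 1), (15, 1), (17,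
    1), (33, 1), (48, 1), (64, 1)]) (.alt (.leaf [(0, 1), (1, 1), (7, 1), (9, 1), (11, 1), (13,
    2), (15, 2), (17, 2), (19, 1), (48, 1), (53, 1), (64, 1)]) (.alt (.leaf [(0, 1), (1, 1), (7,
    1), (9, 1), (13, 1), (15, 1), (17, 1), (35, 1), (50, 1)]) (.alt (.leaf [(0, 1), (1, 1), (7,
    1), (9, 1), (11, 1), (13, 2), (15, 2), (17, 2), (19, 1), (50, 1), (55, 1)]) (.done))))))
    (.alt (.leaf [(0, 6), (6, 6), (8, 6), (10, 5), (12, 5), (14, 3), (16, 3), (18, 1), (31, 1),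
    (40, 2), (47, 2), (52, 1), (62, 6)]) (.done)))))

theorem W35.chk : check W35.D.clause W35.T W35.D.base none = true := by decide +kernel

theorem W35.no : NoWord [0, 0, 1, 0, 0, 1] :=
  no_of_check 1 [0, 1] rfl rfl W35.chk

/-- The word `XPXPPX`. -/
def W36.D : Data :=
  ⟨[some [1], some [0, 1], some [0, 0, 1], some [-1, 1, 1], some [0, 1, 1], some [-1, 2, 1], some
    [-1, 2, 2], some [-1, 3, 2], some [-1, 3, 3]], sup, [⟨true, [(1, 0), (1, 1), (-1, 2)], [],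
    [], []⟩, ⟨true, [(1, 1), (1, 2), (-1, 3)], [], [], []⟩, ⟨true, [(1, 2), (1, 3), (-1, 4)],
    [], [], []⟩, ⟨true, [(1, 3), (1, 4), (-1, 5)], [], [], []⟩, ⟨true, [(1, 4), (1, 5), (-1,
    6)], [], [], []⟩, ⟨true, [(1, 5), (1, 6), (-1, 7)], [], [], []⟩, ⟨false, [], [], [0, 1],
    []⟩, ⟨false, [], [], [], [0, 1]⟩, ⟨false, [], [], [0, 1], [0, -1]⟩], []⟩

/-- Certificate. -/
def W36.T : Tree :=
  .split 1 [] (.alt (.split 4 [] (.alt (.leaf [(0, 1), (1, 1), (7, 1), (9, 1), (13, 1), (15, 1),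
    (17, 1), (33, 1), (48, 1)]) (.alt (.leaf [(0, 1), (1, 1), (7, 1), (9, 1), (11, 1), (13, 2),
    (15, 2), (17, 2), (19, 1), (48, 1), (53, 1)]) (.alt (.split 0 [1, -1, 0] (.alt (.leaf [(0,
    1), (3, 1), (5, 2)]) (.alt (.leaf [(0, 1), (7, 1), (57, 1)]) (.alt (.leaf [(0, 2), (2, 2),
    (8, 2), (10, 2), (12, 2), (14, 2), (21, 2), (41, 1), (42, 1)]) (.alt (.leaf [(0, 5), (1,
    12), (2, 4), (8, 4), (10, 4), (12, 4), (14, 16), (16, 7), (18, 7), (20, 7), (21, 1), (23,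
    4), (41, 9), (54, 3), (55, 4)]) (.alt (.leaf [(0, 1), (1, 2), (14, 2), (16, 1), (18, 1),
    (20, 1), (23, 1), (44, 1), (55, 1)]) (.alt (.leaf [(0, 2), (1, 3), (6, 2), (8, 1), (10, 1),
    (12, 1), (14, 4), (16, 4), (18, 4), (20, 1), (28, 1), (51, 3), (56, 1)]) (.alt (.leaf [(3,
    1), (5, 3), (6, 6), (7, 2), (13, 2), (15, 2), (17, 2), (19, 8), (21, 8), (23, 8), (25, 2),
    (54, 3), (56, 3), (59, 2)]) (.done))))))))) (.alt (.leaf [(0, 2), (13, 2), (15, 1), (17, 1),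
    (19, 1), (42, 1), (55, 1), (63, 1)]) (.done)))))) (.alt (.leaf [(0, 2), (6, 2), (8, 2), (10,
    2), (12, 2), (39, 1), (40, 1), (61, 2)]) (.alt (.split 4 [] (.alt (.leaf [(0, 1), (1, 1),
    (7, 1), (9, 1), (13, 1), (15, 1), (17, 1), (33, 1), (48, 1), (64, 1)]) (.alt (.leaf [(0, 4),
    (1, 4), (7, 4), (9, 4), (11, 3), (13, 7), (15, 5), (17, 5), (19, 3), (35, 1), (40, 2), (50,
    2), (53, 2), (55, 1), (64, 2)]) (.alt (.leaf [(0, 1), (1, 1), (7, 1), (9, 1), (13, 1), (15,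
    1), (17, 1), (35, 1), (50, 1)]) (.alt (.leaf [(0, 1), (1, 1), (7, 1), (9, 1), (11, 1), (13,
    2), (15, 2), (17, 2), (19, 1), (50, 1), (55, 1)]) (.done)))))) (.alt (.leaf [(0, 2), (6, 2),
    (8, 2), (10, 2), (12, 2), (39, 1), (40, 1), (62, 2)]) (.done)))))

theorem W36.chk : check W36.D.clause W36.T W36.D.base none = true := by decide +kernel

theorem W36.no : NoWord [1, 0, 1, 0, 0, 1] :=
  no_of_check 1 [0, 1] rfl rfl W36.chk

/-- The word `bPXPPX`. -/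
def W37.D : Data :=
  ⟨[some [1], some [0, 1], some [0, 0, 1], some [0, 1, 1], some [-1, 1, 2], some [0, 1, 2], some
    [-1, 1, 3], some [-1, 2, 4], some [-1, 2, 5], some [-1, 3, 6]], sup, [⟨true, [(1, 0), (1,
    1), (-1, 2)], [], [], []⟩, ⟨true, [(1, 2), (1, 3), (-1, 4)], [], [], []⟩, ⟨true, [(1, 2),
    (1, 3), (-1, 4)], [], [], []⟩, ⟨true, [(1, 3), (1, 4), (-1, 5)], [], [], []⟩, ⟨true, [(1,
    4), (1, 5), (-1, 6)], [], [], []⟩, ⟨true, [(1, 5), (1, 6), (-1, 7)], [], [], []⟩, ⟨true,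
    [(1, 6), (1, 7), (-1, 8)], [], [], []⟩, ⟨false, [], [], [-1, 1, 3], []⟩, ⟨false, [], [], [],
    [-1, 1, 3]⟩, ⟨false, [], [], [-1, 1, 3], [1, -1, -3]⟩], []⟩

/-- Certificate. -/
def W37.T : Tree :=
  .split 2 [] (.alt (.split 6 [] (.alt (.leaf [(0, 1), (1, 1), (9, 1), (17, 1), (19, 1), (35, 1),
    (54, 1)]) (.alt (.leaf [(0, 2), (1, 4), (9, 4), (11, 4), (13, 1), (15, 1), (17, 3), (19, 3),
    (21, 1), (39, 3), (54, 2), (59, 1)]) (.alt (.leaf [(0, 1), (1, 1), (9, 1), (17, 1), (19, 1),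
    (35, 1), (54, 1), (71, 1)]) (.alt (.leaf [(0, 2), (1, 2), (9, 2), (11, 2), (13, 1), (15, 1),
    (17, 3), (19, 3), (21, 1), (39, 1), (54, 2), (59, 1), (70, 2)]) (.done)))))) (.alt (.leaf
    [(0, 1), (8, 1), (10, 1), (37, 1), (68, 1)]) (.alt (.split 5 [] (.alt (.leaf [(0, 1), (1,
    1), (9, 1), (11, 1), (15, 1), (17, 1), (19, 1), (41, 1), (54, 1), (71, 1)]) (.alt (.split 0
    [1, 0, -1] (.alt (.leaf [(0, 1), (5, 2), (7, 2), (63, 1)]) (.alt (.leaf [(0, 1), (63, 1)])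
    (.alt (.leaf [(0, 6), (1, 1), (2, 9), (10, 9), (12, 9), (14, 9), (16, 10), (18, 8), (20, 8),
    (22, 3), (25, 6), (48, 2), (55, 5), (62, 3), (72, 9)]) (.alt (.leaf [(0, 1), (1, 2), (16,
    2), (18, 1), (20, 1), (22, 1), (24, 1), (47, 1), (60, 1)]) (.alt (.leaf [(0, 6), (2, 6),
    (10, 6), (12, 6), (14, 5), (16, 5), (18, 3), (20, 3), (22, 1), (25, 6), (39, 1), (48, 2),
    (55, 2), (60, 1)]) (.alt (.leaf [(0, 7), (2, 11), (6, 5), (10, 11), (12, 11), (14, 11), (16,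
    11), (18, 9), (20, 9), (22, 3), (24, 2), (30, 5), (47, 2), (55, 6), (60, 2), (62, 1), (72,
    8)]) (.alt (.leaf [(2, 1), (5, 1), (6, 1), (7, 1), (15, 1), (17, 1), (19, 1), (21, 2), (23,
    2), (25, 2), (27, 1), (62, 1), (67, 1), (77, 1)]) (.done))))))))) (.alt (.leaf [(0, 1), (1,
    1), (9, 1), (11, 1), (15, 1), (17, 1), (19, 1), (41, 1), (56, 1)]) (.alt (.leaf [(0, 4), (1,
    2), (9, 2), (11, 2), (13, 2), (15, 6), (17, 5), (19, 4), (21, 3), (48, 1), (50, 1), (54, 1),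
    (59, 1), (61, 2), (71, 1)]) (.done)))))) (.alt (.leaf [(0, 1), (8, 1), (10, 1), (39, 1),
    (69, 1)]) (.done)))))

theorem W37.chk : check W37.D.clause W37.T W37.D.base none = true := by decide +kernel

theorem W37.no : NoWord [4, 0, 1, 0, 0, 1] :=
  no_of_check 6 [-1, 1, 3] rfl rfl W37.chk

/-- The word `bPXPPPPPP`. -/
def W38.D : Data :=
  ⟨[some [1], some [0, 1], some [0, 0, 1], some [0, 1, 1], some [-1, 1, 2], some [0, 1, 2], some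
    [-1, 1, 3], some [-1, 2, 4], some [-1, 2, 5], some [-2, 3, 7], some [-2, 4, 9], some [-3, 5,
    12], some [-4, 7, 16]], sup, [⟨true, [(1, 0), (1, 1), (-1, 2)], [], [], []⟩, ⟨true, [(1, 2),
    (1, 3), (-1, 4)], [], [], []⟩, ⟨true, [(1, 2), (1, 3), (-1, 4)], [], [], []⟩, ⟨true, [(1,
    3), (1, 4), (-1, 5)], [], [], []⟩, ⟨true, [(1, 4), (1, 5), (-1, 6)], [], [], []⟩, ⟨true,
    [(1, 5), (1, 6), (-1, 7)], [], [], []⟩, ⟨true, [(1, 6), (1, 7), (-1, 8)], [], [], []⟩,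
    ⟨true, [(1, 7), (1, 8), (-1, 9)], [], [], []⟩, ⟨true, [(1, 8), (1, 9), (-1, 10)], [], [],
    []⟩, ⟨true, [(1, 9), (1, 10), (-1, 11)], [], [], []⟩, ⟨false, [], [], [-4, 7, 16], []⟩,
    ⟨false, [], [], [], [-4, 7, 16]⟩, ⟨false, [], [], [-4, 7, 16], [4, -7, -16]⟩], []⟩

/-- Certificate. -/
def W38.T : Tree :=
  .split 7 [] (.alt (.split 9 [] (.alt (.leaf [(0, 1), (1, 1), (19, 1), (23, 1), (25, 1), (27, 1),
    (61, 1), (76, 1)]) (.alt (.leaf [(0, 1), (1, 1), (19, 1), (21, 1), (23, 2), (25, 1), (68,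
    1), (73, 1)]) (.alt (.split 0 [] (.alt (.leaf [(0, 1), (2, 6), (4, 1), (6, 1), (20, 6), (22,
    6), (24, 6), (26, 2), (28, 1), (33, 1), (69, 4), (74, 1)]) (.alt (.leaf [(0, 1), (2, 7), (6,
    1), (20, 7), (22, 3), (24, 3), (26, 3), (28, 3), (33, 1), (62, 4), (77, 3)]) (.alt (.leaf
    [(0, 4), (1, 16), (4, 12), (6, 4), (8, 3), (10, 3), (12, 3), (14, 3), (16, 3), (18, 3), (20,
    3), (22, 3), (24, 19), (26, 19), (28, 19), (36, 1), (77, 7), (93, 7)]) (.alt (.split 11 []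
    (.alt (.leaf [(0, 1), (3, 1), (5, 1), (21, 1), (23, 1), (25, 1), (27, 1), (29, 2), (78, 1)])
    (.alt (.split 0 [1, 0, -1] (.alt (.leaf [(0, 1), (7, 2), (9, 2), (83, 1)]) (.alt (.leaf [(0,
    1), (83, 1)]) (.alt (.leaf [(0, 1), (4, 4), (8, 1), (22, 4), (24, 4), (26, 4), (28, 1), (35,
    1), (71, 3), (76, 1)]) (.alt (.leaf [(0, 4), (4, 7), (6, 6), (8, 1), (10, 1), (12, 1), (14,
    1), (16, 1), (18, 1), (20, 1), (22, 8), (24, 8), (26, 8), (28, 8), (30, 8), (32, 3), (79,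
    2)]) (.alt (.leaf [(0, 16), (2, 12), (6, 20), (8, 28), (10, 21), (12, 21), (14, 21), (16,
    21), (18, 21), (20, 21), (22, 21), (24, 21), (26, 21), (28, 21), (30, 21), (37, 7), (82,
    1)]) (.alt (.leaf [(0, 1), (1, 1), (2, 1), (4, 7), (8, 2), (22, 7), (24, 7), (26, 3), (30,
    1), (35, 2), (69, 4), (74, 3), (79, 1)]) (.alt (.leaf [(0, 1), (12, 1), (14, 1)])
    (.done))))))))) (.alt (.leaf [(0, 1), (1, 1), (3, 4), (7, 1), (21, 4), (23, 4), (25, 1),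
    (29, 1), (34, 1), (68, 3), (73, 1), (78, 1)]) (.alt (.leaf [(0, 2), (1, 1), (3, 4), (5, 1),
    (7, 1), (21, 4), (23, 1), (25, 1), (29, 2), (34, 1), (65, 3), (73, 1), (78, 1)])
    (.done)))))) (.done)))))) (.alt (.leaf [(0, 1), (23, 1), (70, 1), (91, 1)]) (.done))))))
    (.alt (.leaf [(0, 1), (18, 1), (20, 1), (22, 1), (24, 1), (71, 1), (90, 1), (91, 1)]) (.alt
    (.split 0 [] (.alt (.leaf [(0, 1), (1, 5), (5, 1), (19, 5), (21, 4), (23, 4), (25, 1), (34,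
    1), (60, 1), (68, 3), (75, 1), (92, 2)]) (.alt (.leaf [(0, 1), (1, 4), (5, 1), (19, 4), (21,
    3), (34, 1), (61, 1), (64, 3), (92, 1)]) (.alt (.leaf [(0, 1), (1, 6), (3, 1), (5, 1), (19,
    6), (21, 6), (23, 6), (25, 2), (27, 1), (34, 1), (70, 4), (75, 1)]) (.alt (.leaf [(0, 1),
    (1, 7), (5, 1), (19, 7), (21, 3), (23, 3), (25, 3), (27, 3), (34, 1), (63, 4), (76, 3), (92,
    3)]) (.done)))))) (.alt (.leaf [(0, 1), (18, 1), (20, 1), (22, 1), (24, 1), (73, 1), (90,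
    1)]) (.done)))))

theorem W38.chk : check W38.D.clause W38.T W38.D.base none = true := by decide +kernel

theorem W38.no : NoWord [4, 0, 1, 0, 0, 0, 0, 0, 0] :=
  no_of_check 12 [-4, 7, 16] rfl rfl W38.chk

/-- The word `PPPPPPPPPP`. -/
def W39.D : Data :=
  ⟨[some [1], some [0, 1], some [0, 0, 1], some [1, 1, 0], some [0, 1, 1], some [1, 1, 1], some
    [1, 2, 1], some [1, 2, 2], some [2, 3, 2], some [2, 4, 3], some [3, 5, 4], some [4, 7, 5],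
    some [5, 9, 7]], sup, [⟨true, [(1, 0), (1, 1), (-1, 2)], [], [], []⟩, ⟨true, [(1, 1), (1,
    2), (-1, 3)], [], [], []⟩, ⟨true, [(1, 2), (1, 3), (-1, 4)], [], [], []⟩, ⟨true, [(1, 3),
    (1, 4), (-1, 5)], [], [], []⟩, ⟨true, [(1, 4), (1, 5), (-1, 6)], [], [], []⟩, ⟨true, [(1,
    5), (1, 6), (-1, 7)], [], [], []⟩, ⟨true, [(1, 6), (1, 7), (-1, 8)], [], [], []⟩, ⟨true,
    [(1, 7), (1, 8), (-1, 9)], [], [], []⟩, ⟨true, [(1, 8), (1, 9), (-1, 10)], [], [], []⟩,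
    ⟨true, [(1, 9), (1, 10), (-1, 11)], [], [], []⟩, ⟨false, [], [], [1], []⟩, ⟨false, [], [],
    [], [1]⟩, ⟨false, [], [], [1], [-1]⟩], []⟩

/-- Certificate. -/
def W39.T : Tree :=
  .split 0 [] (.alt (.split 1 [] (.alt (.leaf [(0, 13), (1, 17), (5, 17), (7, 30), (9, 23), (11,
    1), (13, 1), (15, 1), (17, 1), (19, 1), (21, 1), (23, 1), (25, 1), (27, 1), (36, 7), (40,
    22), (77, 1)]) (.alt (.split 0 [1, 0, -1] (.alt (.leaf [(0, 1), (5, 2), (7, 2), (9, 1)])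
    (.alt (.leaf [(0, 1), (9, 1)]) (.alt (.leaf [(0, 1), (1, 1), (8, 1), (10, 1), (12, 1), (29,
    1), (46, 1)]) (.alt (.leaf [(0, 22), (2, 17), (6, 39), (8, 30), (10, 1), (12, 1), (14, 1),
    (16, 1), (18, 1), (20, 1), (22, 1), (24, 1), (26, 1), (28, 1), (33, 9), (37, 29), (78, 1)])
    (.alt (.split 2 [] (.alt (.leaf [(0, 1), (3, 1), (7, 1), (11, 1), (13, 1), (15, 1), (35, 1),
    (50, 1)]) (.alt (.leaf [(0, 14), (2, 8), (9, 8), (11, 22), (13, 12), (15, 12), (17, 12),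
    (19, 12), (21, 12), (23, 12), (25, 12), (27, 12), (29, 12), (42, 10), (78, 5), (79, 7)])
    (.alt (.leaf [(0, 2), (1, 2), (11, 2), (13, 2), (15, 2), (17, 2), (19, 2), (21, 2), (23, 2),
    (25, 2), (27, 2), (29, 2), (30, 2), (78, 1), (79, 1), (94, 2)]) (.alt (.split 4 [] (.alt
    (.leaf [(0, 24), (4, 16), (8, 16), (10, 16), (12, 6), (16, 24), (18, 24), (20, 24), (22,
    24), (24, 24), (26, 24), (28, 24), (30, 24), (39, 10), (43, 6), (79, 13), (80, 11)]) (.alt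
    (.split 6 [] (.alt (.leaf [(0, 14), (4, 6), (11, 6), (13, 6), (15, 2), (17, 2), (19, 2),
    (21, 16), (23, 16), (25, 16), (27, 16), (29, 16), (31, 16), (44, 4), (80, 9), (81, 7)])
    (.alt (.leaf [(0, 1), (1, 1), (17, 1), (21, 1), (23, 1), (25, 1), (52, 1), (69, 1)]) (.alt
    (.split 8 [] (.alt (.leaf [(0, 2), (1, 4), (4, 1), (5, 1), (12, 1), (22, 4), (24, 1), (26,
    3), (28, 3), (30, 2), (33, 1), (44, 1), (64, 3), (73, 1), (79, 2)]) (.alt (.leaf [(0, 7),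
    (6, 4), (10, 4), (12, 1), (14, 1), (16, 1), (18, 1), (20, 1), (22, 1), (24, 1), (26, 8),
    (28, 8), (30, 8), (32, 8), (38, 3), (81, 3), (82, 5)]) (.alt (.leaf [(0, 1), (1, 1), (22,
    1), (26, 1), (28, 1), (30, 1), (64, 1), (79, 1)]) (.alt (.leaf [(0, 6), (4, 2), (10, 2),
    (12, 2), (14, 2), (16, 2), (18, 2), (20, 2), (22, 2), (24, 2), (26, 8), (28, 8), (30, 8),
    (32, 8), (81, 3), (82, 3), (84, 2)]) (.done)))))) (.alt (.leaf [(0, 5), (2, 3), (13, 3),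
    (15, 3), (17, 2), (19, 2), (21, 7), (23, 7), (25, 7), (27, 7), (29, 7), (31, 7), (51, 1),
    (80, 3), (81, 3), (83, 1)]) (.done)))))) (.alt (.leaf [(0, 144), (2, 60), (4, 8), (8, 68),
    (10, 32), (12, 18), (16, 144), (18, 144), (20, 144), (22, 144), (24, 144), (26, 144), (28,
    144), (30, 144), (37, 36), (39, 14), (43, 18), (79, 65), (80, 67), (81, 12)]) (.alt (.leaf
    [(0, 1), (1, 1), (12, 1), (16, 1), (18, 1), (20, 1), (45, 1), (62, 1)]) (.done))))))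
    (.done)))))) (.alt (.leaf [(0, 1), (6, 1), (8, 1), (39, 1), (92, 1)]) (.alt (.leaf [(3, 7),
    (7, 12), (11, 12), (13, 3), (15, 3), (17, 3), (19, 3), (21, 3), (23, 3), (25, 3), (27, 3),
    (29, 3), (31, 3), (33, 3), (39, 9), (82, 2), (83, 1)]) (.done))))))))) (.alt (.leaf [(0,
    12), (7, 12), (9, 4), (11, 4), (13, 4), (15, 4), (17, 4), (19, 4), (21, 4), (23, 4), (25,
    4), (27, 1), (39, 8), (74, 3), (79, 1), (91, 7)]) (.alt (.split 2 [] (.alt (.leaf [(0, 1),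
    (2, 1), (6, 1), (10, 1), (12, 1), (14, 1), (34, 1), (49, 1)]) (.alt (.leaf [(0, 49), (1, 3),
    (2, 28), (6, 28), (8, 31), (10, 80), (12, 15), (14, 15), (16, 15), (18, 8), (20, 8), (22,
    8), (24, 8), (26, 8), (28, 8), (41, 63), (43, 2), (56, 7), (78, 7), (79, 1)]) (.alt (.split
    3 [] (.alt (.split 5 [] (.alt (.leaf [(0, 1), (1, 1), (14, 1), (18, 1), (20, 1), (22, 1),
    (48, 1), (63, 1)]) (.alt (.leaf [(0, 97), (3, 30), (4, 68), (8, 68), (10, 98), (12, 76),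
    (18, 97), (20, 27), (22, 27), (24, 27), (26, 27), (28, 27), (30, 27), (39, 22), (43, 56),
    (45, 20), (58, 70), (80, 17), (81, 10)]) (.alt (.split 7 [] (.alt (.leaf [(0, 7), (2, 3),
    (3, 4), (4, 1), (13, 4), (15, 7), (17, 7), (19, 7), (23, 7), (25, 7), (27, 7), (29, 7), (31,
    5), (37, 1), (59, 7), (79, 2), (80, 2), (82, 3)]) (.alt (.split 9 [] (.alt (.leaf [(0, 28),
    (4, 11), (5, 2), (6, 8), (10, 8), (12, 10), (14, 21), (16, 17), (18, 17), (20, 17), (28,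
    28), (30, 28), (32, 21), (45, 4), (60, 17), (80, 7), (81, 12), (83, 9)]) (.alt (.leaf [(0,
    1), (1, 1), (24, 1), (28, 1), (30, 1), (32, 1), (65, 1), (82, 1)]) (.alt (.leaf [(0, 4), (4,
    1), (5, 2), (12, 2), (14, 3), (16, 3), (18, 3), (20, 3), (28, 4), (30, 4), (32, 3), (60, 3),
    (80, 1), (83, 3)]) (.alt (.leaf [(0, 2), (1, 4), (4, 1), (6, 1), (10, 1), (14, 1), (24, 4),
    (26, 1), (28, 3), (30, 3), (32, 2), (40, 1), (45, 1), (65, 3), (80, 1), (82, 2)])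
    (.done)))))) (.alt (.leaf [(0, 1), (1, 1), (19, 1), (23, 1), (25, 1), (27, 1), (59, 1), (74,
    1)]) (.alt (.leaf [(0, 2), (3, 3), (13, 3), (15, 3), (17, 3), (19, 3), (23, 2), (25, 2),
    (27, 2), (29, 2), (31, 1), (59, 3), (79, 1), (82, 1)]) (.done)))))) (.alt (.leaf [(0, 7),
    (3, 10), (10, 10), (12, 10), (14, 8), (16, 8), (18, 15), (20, 1), (22, 1), (24, 1), (26, 1),
    (28, 1), (30, 1), (45, 2), (58, 14), (81, 1)]) (.done)))))) (.alt (.leaf [(0, 3), (1, 2),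
    (2, 1), (3, 3), (7, 3), (9, 1), (11, 3), (13, 6), (15, 6), (17, 6), (19, 1), (21, 1), (23,
    1), (25, 1), (27, 1), (29, 1), (35, 3), (57, 5), (80, 1)]) (.alt (.leaf [(0, 18), (1, 14),
    (3, 8), (11, 14), (13, 28), (15, 28), (17, 14), (19, 14), (21, 14), (23, 14), (25, 14), (27,
    14), (29, 14), (32, 8), (42, 4), (50, 14), (78, 5), (79, 7), (80, 2)]) (.alt (.leaf [(0, 1),
    (2, 1), (9, 1), (13, 1), (15, 1), (17, 1), (40, 1), (57, 1)]) (.done)))))) (.alt (.leaf [(0,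
    13), (1, 13), (2, 4), (6, 4), (8, 17), (10, 23), (12, 14), (14, 1), (16, 1), (18, 1), (20,
    1), (22, 1), (24, 1), (26, 1), (28, 1), (37, 7), (41, 9), (48, 13), (78, 1)]) (.done))))))
    (.done)))))) (.alt (.leaf [(0, 10), (4, 10), (6, 10), (8, 10), (10, 8), (12, 1), (14, 1),
    (16, 1), (18, 1), (20, 1), (22, 1), (24, 1), (26, 1), (39, 2), (43, 7), (76, 1), (89, 7)])
    (.alt (.split 2 [] (.alt (.leaf [(0, 1), (1, 1), (5, 1), (9, 1), (11, 1), (13, 1), (33, 1),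
    (48, 1), (92, 1)]) (.alt (.leaf [(0, 14), (1, 8), (5, 8), (7, 8), (9, 22), (11, 4), (13, 4),
    (15, 4), (17, 4), (19, 4), (21, 4), (23, 4), (25, 4), (27, 4), (40, 18), (76, 1), (77, 3),
    (92, 8)]) (.alt (.leaf [(0, 1), (1, 1), (5, 1), (9, 1), (11, 1), (13, 1), (35, 1), (50, 1)])
    (.alt (.leaf [(0, 9), (1, 5), (5, 5), (7, 5), (9, 14), (11, 3), (13, 3), (15, 3), (17, 3),
    (19, 3), (21, 3), (23, 3), (25, 3), (27, 2), (42, 11), (74, 1), (79, 2)]) (.done)))))) (.alt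
    (.leaf [(0, 2), (4, 2), (6, 2), (8, 2), (10, 2), (12, 2), (14, 2), (16, 2), (18, 2), (20,
    2), (22, 2), (24, 2), (26, 2), (75, 1), (76, 1), (90, 2)]) (.done)))))

theorem W39.chk : check W39.D.clause W39.T W39.D.base none = true := by decide +kernel

theorem W39.no : NoWord [0, 0, 0, 0, 0, 0, 0, 0, 0, 0] :=
  no_of_check 0 [1] rfl rfl W39.chk

/-- The word `QXPXPPPPPP`. -/
def W40.D : Data :=
  ⟨[some [1], some [0, 1], some [0, 0, 1], some [1, 0, 1], some [1, -1, 2], some [1, 0, 2], some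
    [1, -1, 3], some [2, -1, 4], some [2, -1, 5], some [3, -2, 7], some [4, -2, 9], some [5, -3,
    12], some [7, -4, 16]], sup, [⟨true, [(1, 0), (1, 1), (-1, 2)], [], [], []⟩, ⟨true, [(1, 1),
    (1, 2), (-1, 3)], [], [], []⟩, ⟨true, [(1, 2), (1, 3), (-1, 4)], [], [], []⟩, ⟨true, [(1,
    3), (1, 4), (-1, 5)], [], [], []⟩, ⟨true, [(1, 4), (1, 5), (-1, 6)], [], [], []⟩, ⟨true,
    [(1, 5), (1, 6), (-1, 7)], [], [], []⟩, ⟨true, [(1, 6), (1, 7), (-1, 8)], [], [], []⟩,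
    ⟨true, [(1, 7), (1, 8), (-1, 9)], [], [], []⟩, ⟨true, [(1, 8), (1, 9), (-1, 10)], [], [],
    []⟩, ⟨true, [(1, 9), (1, 10), (-1, 11)], [], [], []⟩, ⟨false, [], [], [7, -4, 16], []⟩,
    ⟨false, [], [], [], [7, -4, 16]⟩, ⟨false, [], [], [7, -4, 16], [-7, 4, -16]⟩], []⟩

/-- Certificate. -/
def W40.T : Tree :=
  .split 7 [] (.alt (.split 9 [] (.alt (.leaf [(0, 1), (1, 1), (19, 1), (23, 1), (25, 1), (27, 1),
    (61, 1), (76, 1)]) (.alt (.leaf [(0, 1), (1, 1), (19, 1), (21, 1), (23, 2), (25, 1), (68,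
    1), (73, 1)]) (.alt (.split 5 [] (.alt (.leaf [(0, 1), (2, 1), (16, 1), (20, 1), (22, 1),
    (24, 1), (54, 1), (69, 1)]) (.alt (.leaf [(0, 1), (2, 2), (16, 1), (18, 1), (20, 3), (22,
    1), (24, 1), (26, 1), (28, 1), (62, 2), (77, 1)]) (.alt (.leaf [(0, 1), (1, 2), (4, 2), (16,
    1), (18, 1), (20, 1), (22, 1), (24, 3), (26, 3), (28, 3), (77, 1), (93, 1)]) (.alt (.split 0
    [0, 1, -1] (.alt (.leaf [(0, 1), (6, 1), (8, 2), (82, 1)]) (.alt (.leaf [(0, 1), (6, 1),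
    (82, 1)]) (.alt (.leaf [(0, 2), (1, 1), (3, 7), (17, 1), (21, 7), (23, 7), (25, 7), (30, 2),
    (55, 1), (70, 5), (73, 2), (94, 1)]) (.alt (.leaf [(0, 4), (3, 7), (5, 6), (7, 4), (9, 1),
    (11, 1), (13, 1), (15, 1), (17, 1), (19, 1), (21, 8), (23, 8), (25, 8), (27, 8), (29, 8),
    (35, 3), (78, 2)]) (.alt (.leaf [(0, 4), (1, 6), (5, 8), (7, 3), (9, 3), (11, 3), (13, 3),
    (15, 3), (17, 9), (19, 9), (21, 9), (23, 9), (25, 9), (27, 9), (29, 9), (32, 1), (81, 1)])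
    (.alt (.split 2 [] (.alt (.leaf [(0, 4), (1, 1), (4, 7), (6, 7), (8, 1), (12, 4), (14, 3),
    (16, 2), (18, 2), (20, 2), (22, 9), (24, 9), (26, 9), (28, 9), (30, 9), (35, 1), (46, 1),
    (49, 1), (79, 2)]) (.alt (.split 11 [] (.alt (.leaf [(0, 7), (1, 4), (2, 1), (7, 4), (9, 1),
    (13, 4), (15, 3), (17, 2), (19, 2), (21, 2), (23, 2), (25, 2), (27, 2), (29, 2), (31, 9),
    (37, 1), (47, 1), (50, 1), (80, 5)]) (.alt (.leaf [(0, 1), (2, 1), (5, 3), (23, 3), (25, 3),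
    (27, 2), (32, 1), (70, 1), (75, 2), (78, 1)]) (.alt (.leaf [(0, 1), (1, 1), (2, 1), (5, 3),
    (13, 1), (23, 3), (25, 2), (31, 1), (32, 1), (47, 1), (65, 1), (70, 2), (80, 1)]) (.alt
    (.leaf [(0, 77), (1, 16), (2, 44), (7, 93), (9, 37), (13, 16), (15, 16), (17, 16), (19, 16),
    (21, 16), (23, 16), (25, 16), (27, 16), (29, 16), (31, 93), (32, 7), (37, 4), (39, 33), (94,
    1), (95, 55)]) (.done)))))) (.alt (.leaf [(0, 9), (1, 4), (6, 5), (12, 9), (14, 6), (16, 6),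
    (18, 6), (20, 6), (22, 6), (24, 6), (26, 6), (28, 6), (30, 6), (34, 4), (46, 3), (79, 1),
    (95, 1)]) (.alt (.leaf [(0, 1), (1, 1), (6, 1), (8, 1), (12, 1), (14, 1), (16, 1), (18, 1),
    (20, 1), (22, 1), (24, 1), (26, 1), (28, 1), (30, 1), (38, 1)]) (.done)))))) (.alt (.leaf
    [(4, 1), (6, 2), (10, 1), (22, 2), (24, 2), (26, 2), (28, 1), (30, 1), (32, 1), (34, 1),
    (70, 1)]) (.done))))))))) (.done)))))) (.alt (.leaf [(0, 1), (23, 1), (70, 1), (91, 1)])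
    (.done)))))) (.alt (.leaf [(0, 1), (18, 1), (20, 1), (22, 1), (24, 1), (71, 1), (90, 1),
    (91, 1)]) (.alt (.split 0 [0, 1, -1] (.alt (.leaf [(0, 1), (4, 1), (6, 2), (80, 1)]) (.alt
    (.leaf [(0, 1), (4, 1), (80, 1)]) (.alt (.leaf [(0, 1), (1, 4), (19, 4), (21, 4), (23, 4),
    (25, 1), (30, 1), (68, 3), (73, 1), (92, 1)]) (.alt (.leaf [(0, 1), (1, 5), (19, 5), (21,
    5), (23, 2), (25, 2), (30, 1), (64, 3), (72, 1), (75, 1), (92, 2)]) (.alt (.leaf [(0, 1),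
    (1, 4), (19, 4), (21, 4), (23, 4), (25, 1), (30, 1), (70, 3), (75, 1)]) (.alt (.leaf [(0,
    4), (1, 7), (3, 6), (5, 4), (7, 1), (9, 1), (11, 1), (13, 1), (15, 1), (17, 1), (19, 8),
    (21, 8), (23, 8), (25, 8), (27, 8), (35, 3), (76, 2), (92, 2)]) (.alt (.leaf [(0, 1), (11,
    1)]) (.done))))))))) (.alt (.leaf [(0, 1), (18, 1), (20, 1), (22, 1), (24, 1), (73, 1), (90,
    1)]) (.done)))))

theorem W40.chk : check W40.D.clause W40.T W40.D.base none = true := by decide +kernel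

theorem W40.no : NoWord [2, 1, 0, 1, 0, 0, 0, 0, 0, 0] :=
  no_of_check 12 [7, -4, 16] rfl rfl W40.chk

end Pool.Agent.Work.MP_7453a1_st
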