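import Pool.Agent.Work.MP_7453a1_st.CertW1
import Pool.Agent.Work.MP_7453a1_st.CertW2
import Pool.Agent.Work.MP_7453a1_st.CertW3

set_option autoImplicit false

/-! The words of the list do not occur. -/

namespace Pool.Agent.Work.MP_7453a1_st

theorem forb_no : ∀ w ∈ forb, NoWord w := by
  unfold forb
  refine List.forall_mem_cons.mpr ⟨W1.no, List.forall_mem_cons.mpr ⟨W2.no, List.forall_mem_cons.mpr
    ⟨W3.no, List.forall_mem_cons.mpr ⟨W4.no, List.forall_mem_cons.mpr ⟨W5.no,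
    List.forall_mem_cons.mpr ⟨W6.no, List.forall_mem_cons.mpr ⟨W7.no, List.forall_mem_cons.mpr
    ⟨W8.no, List.forall_mem_cons.mpr ⟨W9.no, List.forall_mem_cons.mpr ⟨W10.no,
    List.forall_mem_cons.mpr ⟨W11.no, List.forall_mem_cons.mpr ⟨W12.no, List.forall_mem_cons.mpr
    ⟨W13.no, List.forall_mem_cons.mpr ⟨W14.no, List.forall_mem_cons.mpr ⟨W15.no,
    List.forall_mem_cons.mpr ⟨W16.no, List.forall_mem_cons.mpr ⟨W17.no, List.forall_mem_cons.mpr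
    ⟨W18.no, List.forall_mem_cons.mpr ⟨W19.no, List.forall_mem_cons.mpr ⟨W20.no,
    List.forall_mem_cons.mpr ⟨W21.no, List.forall_mem_cons.mpr ⟨W22.no, List.forall_mem_cons.mpr
    ⟨W23.no, List.forall_mem_cons.mpr ⟨W24.no, List.forall_mem_cons.mpr ⟨W25.no,
    List.forall_mem_cons.mpr ⟨W26.no, List.forall_mem_cons.mpr ⟨W27.no, List.forall_mem_cons.mpr
    ⟨W28.no, List.forall_mem_cons.mpr ⟨W29.no, List.forall_mem_cons.mpr ⟨W30.no,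
    List.forall_mem_cons.mpr ⟨W31.no, List.forall_mem_cons.mpr ⟨W32.no, List.forall_mem_cons.mpr
    ⟨W33.no, List.forall_mem_cons.mpr ⟨W34.no, List.forall_mem_cons.mpr ⟨W35.no,
    List.forall_mem_cons.mpr ⟨W36.no, List.forall_mem_cons.mpr ⟨W37.no, List.forall_mem_cons.mpr
    ⟨W38.no, List.forall_mem_cons.mpr ⟨W39.no, List.forall_mem_cons.mpr ⟨W40.no,
    ?_⟩⟩⟩⟩⟩⟩⟩⟩⟩⟩⟩⟩⟩⟩⟩⟩⟩⟩⟩⟩⟩⟩⟩⟩⟩⟩⟩⟩⟩⟩⟩⟩⟩⟩⟩⟩⟩⟩⟩⟩
  intro w hw
  simp at hw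

end Pool.Agent.Work.MP_7453a1_st
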