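import Pool.Agent.Work.MP_7453a1_st.CertI
import Pool.Agent.Work.MP_7453a1_st.CertC1a
import Pool.Agent.Work.MP_7453a1_st.CertC1b
import Pool.Agent.Work.MP_7453a1_st.CertC1c
import Pool.Agent.Work.MP_7453a1_st.CertC2a
import Pool.Agent.Work.MP_7453a1_st.CertC2b

set_option autoImplicit false
set_option linter.unusedSimpArgs false

/-!
The point after a slow triple.
-/

namespace Pool.Agent.Work.MP_7453a1_st

open Pool.Agent.Work.MP_7453a1_nt_norm Pool.Agent.Work.MP_7453a1_nt_sup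

variable {X Y : Pt 2 →+ ℝ} {z : ℕ → Pt 2} {r : ℕ → ℝ} {p : ℕ}

/-- The triple at `p` is slow. -/
def Slow (z : ℕ → Pt 2) (p : ℕ) : Prop := (z (p + 2)).1 < (z p).1 + (z (p + 1)).1

lemma dval_nil (z : ℕ → Pt 2) (p : ℕ) : dval z p [] = 0 := rfl

lemma dval_cons (z : ℕ → Pt 2) (p : ℕ) (a : ℤ × ℕ) (l : List (ℤ × ℕ)) :
    dval z p (a :: l) = a.1 * ((z (p + a.2)).1 : ℝ) + dval z p l := rfl

lemma slow_condH (h : Slow z p) : condH z p slowC := by
  have h1 : ((z (p + 2)).1 : ℝ) < ((z p).1 : ℝ) + ((z (p + 1)).1 : ℝ) := by exact_mod_cast h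
  simp only [condH, slowC, if_true, dval_cons, dval_nil]
  push_cast
  simp only [add_zero]
  linarith

lemma slow_ext (h : Slow z p) (g : ℕ → Pt 2) :
    (⟨true, [(1, 0), (1, 1), (-1, 2)], [], [], []⟩ : Ext).holds X Y z p g :=
  holds_ms (slow_condH h)

lemma slow_sym_ext (h : Slow z p) {g : ℕ → Pt 2} {c : List ℤ} {P : Pt 2} (hc : lc c g = P)
    (h1 : 0 ≤ X P) (h2 : 0 ≤ Y P) (h3 : Y P ≤ X P) :
    ∀ e ∈ (⟨true, [(1, 0), (1, 1), (-1, 2)], [], [], []⟩ :: symExt c : List Ext),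
      e.holds X Y z p g :=
  cons_holds (slow_ext h g) (symExt_holds hc h1 h2 h3)

/-- Independence modulo 2. -/
lemma slow_classes (h : Mod sup X Y z r) (hs : Slow z p) :
    Classes (z p) (z (p + 1)) (z (p + 2)) := by
  obtain ⟨X', Y', h', h1, h2, h3⟩ := exists_signs h (z p)
  refine Pool.Agent.Work.MP_7453a1_nt_h45.classes ?_ ?_ ?_ ?_ ?_ ?_ ?_
  · intro s e
    refine refute h' J1.D rfl p (gen4 s (z (p + 1)) (z (p + 2)) 0) (known_get0 ?_)
      (slow_sym_ext hs (c := [2, 0, 0]) (P := z p) ?_ h1 h2 h3) (by simp [J1.D]) _ J1.chk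
    · simp only [J1.D, Known, lc, gen4, Nat.zero_add, Nat.reduceAdd, and_true, e, add_zero]
      refine ⟨?_, ?_, ?_⟩ <;> module
    · simp only [lc, gen4, e]; module
  · intro s e
    refine refute h' J2.D rfl p (gen4 (z p) s (z (p + 2)) 0) (known_get0 ?_)
      (slow_sym_ext hs (c := [1, 0, 0]) (P := z p) ?_ h1 h2 h3) (by simp [J2.D]) _ J2.chk
    · simp only [J2.D, Known, lc, gen4, Nat.zero_add, Nat.reduceAdd, and_true, e, add_zero]
      refine ⟨?_, ?_, ?_⟩ <;> module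
    · simp only [lc, gen4, e]; module
  · intro s e
    refine refute h' J3.D rfl p (gen4 (z p) (z (p + 1)) s 0) (known_get0 ?_)
      (slow_sym_ext hs (c := [1, 0, 0]) (P := z p) ?_ h1 h2 h3) (by simp [J3.D]) _ J3.chk
    · simp only [J3.D, Known, lc, gen4, Nat.zero_add, Nat.reduceAdd, and_true, e, add_zero]
      refine ⟨?_, ?_, ?_⟩ <;> module
    · simp only [lc, gen4, e]; module
  · intro s e
    have hv : z (p + 1) = s + s - z p := by rw [← e]; abel
    refine refute h' J4.D rfl p (gen4 (z p) s (z (p + 2)) 0) (known_get0 ?_)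
      (slow_sym_ext hs (c := [1, 0, 0]) (P := z p) ?_ h1 h2 h3) (by simp [J4.D]) _ J4.chk
    · simp only [J4.D, Known, lc, gen4, Nat.zero_add, Nat.reduceAdd, and_true, hv, add_zero]
      refine ⟨?_, ?_, ?_⟩ <;> module
    · simp only [lc, gen4]; module
  · intro s e
    have hv : z (p + 2) = s + s - z p := by rw [← e]; abel
    refine refute h' J5.D rfl p (gen4 (z p) (z (p + 1)) s 0) (known_get0 ?_)
      (slow_sym_ext hs (c := [1, 0, 0]) (P := z p) ?_ h1 h2 h3) (by simp [J5.D]) _ J5.chk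
    · simp only [J5.D, Known, lc, gen4, Nat.zero_add, Nat.reduceAdd, and_true, hv, add_zero]
      refine ⟨?_, ?_, ?_⟩ <;> module
    · simp only [lc, gen4]; module
  · intro s e
    have hv : z (p + 2) = s + s - z (p + 1) := by rw [← e]; abel
    refine refute h' J6.D rfl p (gen4 (z p) (z (p + 1)) s 0) (known_get0 ?_)
      (slow_sym_ext hs (c := [1, 0, 0]) (P := z p) ?_ h1 h2 h3) (by simp [J6.D]) _ J6.chk
    · simp only [J6.D, Known, lc, gen4, Nat.zero_add, Nat.reduceAdd, and_true, hv, add_zero]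
      refine ⟨?_, ?_, ?_⟩ <;> module
    · simp only [lc, gen4]; module
  · intro s e
    have hv : z (p + 2) = s + s - z p - z (p + 1) := by rw [← e]; abel
    refine refute h' J7.D rfl p (gen4 (z p) (z (p + 1)) s 0) (known_get0 ?_)
      (slow_sym_ext hs (c := [1, 0, 0]) (P := z p) ?_ h1 h2 h3) (by simp [J7.D]) _ J7.chk
    · simp only [J7.D, Known, lc, gen4, Nat.zero_add, Nat.reduceAdd, and_true, hv, add_zero]
      refine ⟨?_, ?_, ?_⟩ <;> module
    · simp only [lc, gen4]; module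

/-- The certificates of the first classification. -/
def C1.T : ℕ → Tree
  | 0 => C1.T0
  | 1 => C1.T1
  | 2 => C1.T2
  | 3 => C1.T3
  | 4 => C1.T4
  | 5 => C1.T5
  | 6 => C1.T6
  | 7 => C1.T7
  | _ => .done

/-- The certificates of the second classification. -/
def C2.T : ℕ → Tree
  | 0 => C2.T0
  | 1 => C2.T1
  | 2 => C2.T2
  | 3 => C2.T3
  | 4 => C2.T4
  | 5 => C2.T5
  | 6 => C2.T6
  | 7 => C2.T7
  | _ => .done

lemma C1.chk : checkCls C1.D 3 [(1, 1, 0), (-1, 1, 1), (1, 0, 1), (1, -1, 2), (0, 1, 1),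
    (1, 2, 0), (-1, 1, 2), (-1, 2, 1)] C1.T = true := by
  simp only [checkCls, C1.T, C1.chk0, C1.chk1, C1.chk2, C1.chk3, C1.chk4, C1.chk5, C1.chk6,
    C1.chk7, Bool.and_true]

lemma C2.chk : checkCls C2.D 4 [(-1, 1, 2), (-1, 2, 1), (1, 0, 2), (1, 1, 1), (1, 2, 0)]
    C2.T = true := by
  simp only [checkCls, C2.T, C2.chk0, C2.chk1, C2.chk2, C2.chk3, C2.chk4, C2.chk5, C2.chk6,
    C2.chk7, Bool.and_true]

/-- The point `z (p + k)` is the combination `v` of the triple. -/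
def Is (z : ℕ → Pt 2) (p k : ℕ) (v : ℤ × ℤ × ℤ) : Prop :=
  z (p + k) = v.1 • z p + (v.2.1 • z (p + 1) + v.2.2 • z (p + 2))

lemma is_of_tl {k : ℕ} {v : ℤ × ℤ × ℤ}
    (h : z (p + k) = lc (tl v) (gen4 (z p) (z (p + 1)) (z (p + 2)) 0)) : Is z p k v := by
  unfold Is
  rw [h]
  simp only [tl, lc, gen4]
  module

/-- First classification. -/
theorem c1_cases (h : Mod sup X Y z r) (hs : Slow z p)
    (ht : (z (p + 3)).1 < (z p).1 + (z (p + 1)).1 + (z (p + 2)).1) :
    ∃ v ∈ ([(1, 1, 0), (-1, 1, 1), (1, 0, 1), (1, -1, 2), (0, 1, 1), (1, 2, 0), (-1, 1, 2),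
      (-1, 2, 1)] : List (ℤ × ℤ × ℤ)), Is z p 3 v := by
  by_contra hcon
  push Not at hcon
  obtain ⟨X', Y', h', h1, h2, h3⟩ := exists_signs h (z (p + 2))
  refine class_refute h' C1.D rfl p 3 (z p) (z (p + 1)) (z (p + 2)) (slow_classes h hs)
    (fun s => known_get0 ?_) (fun s => cons_holds (slow_ext hs _) (cons_holds ?_
      (symExt_holds (c := [0, 0, 1]) (P := z (p + 2)) ?_ h1 h2 h3))) _
    (fun v hv e => hcon v hv (is_of_tl e)) _ C1.chk
  · simp only [C1.D, Known, lc, gen4, Nat.zero_add, Nat.reduceAdd, and_true, add_zero]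
    refine ⟨?_, ?_, ?_⟩ <;> module
  · apply holds_ms
    have h1 : ((z (p + 3)).1 : ℝ) < ((z p).1 : ℝ) + ((z (p + 1)).1 : ℝ) + ((z (p + 2)).1 : ℝ) := by
      exact_mod_cast ht
    simp only [condH, if_true, dval_cons, dval_nil]
    push_cast
    simp only [add_zero]
    linarith
  · simp only [lc, gen4]; module

/-- Second classification. -/
theorem c2_cases (h : Mod sup X Y z r) (hs : Slow z p) (hD : Is z p 3 (0, 1, 1))
    (ht : (z (p + 4)).1 < (z (p + 1)).1 + 2 * (z (p + 2)).1) :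
    ∃ v ∈ ([(-1, 1, 2), (-1, 2, 1), (1, 0, 2), (1, 1, 1), (1, 2, 0)] : List (ℤ × ℤ × ℤ)),
      Is z p 4 v := by
  by_contra hcon
  push Not at hcon
  obtain ⟨X', Y', h', h1, h2, h3⟩ := exists_signs h (z (p + 2))
  unfold Is at hD
  refine class_refute h' C2.D rfl p 4 (z p) (z (p + 1)) (z (p + 2)) (slow_classes h hs)
    (fun s => known_get0 ?_) (fun s => cons_holds (slow_ext hs _) (cons_holds ?_
      (symExt_holds (c := [0, 0, 1]) (P := z (p + 2)) ?_ h1 h2 h3))) _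
    (fun v hv e => hcon v hv (is_of_tl e)) _ C2.chk
  · simp only [C2.D, Known, lc, gen4, Nat.zero_add, Nat.reduceAdd, and_true, add_zero, hD]
    refine ⟨?_, ?_, ?_⟩ <;> module
  · apply holds_ms
    have h1 : ((z (p + 4)).1 : ℝ) < ((z (p + 1)).1 : ℝ) + 2 * ((z (p + 2)).1 : ℝ) := by
      exact_mod_cast ht
    simp only [condH, if_true, dval_cons, dval_nil]
    push_cast
    simp only [add_zero]
    linarith
  · simp only [lc, gen4]; module

end Pool.Agent.Work.MP_7453a1_st
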