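import Pool.Agent.Work.MP_7453a1_st.TabAll
import Pool.Agent.Work.MP_7453a1_st.Forb
import Pool.Agent.Work.MP_7453a1_st.Points

set_option autoImplicit false

/-!
Growth of the denominators.
-/

namespace Pool.Agent.Work.MP_7453a1_st

open Pool.Agent.Work.MP_7453a1_nt_norm Pool.Agent.Work.MP_7453a1_nt_sup

variable {X Y : Pt 2 →+ ℝ} {z : ℕ → Pt 2} {r : ℕ → ℝ} {p : ℕ}

lemma holds_none {f : ℕ} {cs : List (Bool × List (ℤ × ℕ))} (hc : ∀ c ∈ cs, condH z p c) :
    (⟨[], f, cs⟩ : Letter).holds z p := by
  refine ⟨fun i v hv => ?_, hc⟩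
  simp at hv

lemma holds_one {v : ℤ × ℤ × ℤ} {f : ℕ} {cs : List (Bool × List (ℤ × ℕ))} (h : Is z p 3 v)
    (hc : ∀ c ∈ cs, condH z p c) : (⟨[v], f, cs⟩ : Letter).holds z p := by
  refine ⟨fun i v' hv => ?_, hc⟩
  cases i with
  | zero =>
    simp only [List.getElem?_cons_zero, Option.some.injEq] at hv
    subst hv
    exact h
  | succ i => simp at hv

lemma holds_two {v v' : ℤ × ℤ × ℤ} {f : ℕ} {cs : List (Bool × List (ℤ × ℕ))} (h : Is z p 3 v)
    (h' : Is z p 4 v') (hc : ∀ c ∈ cs, condH z p c) : (⟨[v, v'], f, cs⟩ : Letter).holds z p := by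
  refine ⟨fun i v'' hv => ?_, hc⟩
  cases i with
  | zero =>
    simp only [List.getElem?_cons_zero, Option.some.injEq] at hv
    subst hv
    exact h
  | succ i =>
    cases i with
    | zero =>
      simp only [List.getElem?_cons_succ, List.getElem?_cons_zero, Option.some.injEq] at hv
      subst hv
      exact h'
    | succ i => simp at hv

lemma all_nil {P : Bool × List (ℤ × ℕ) → Prop} : ∀ c ∈ ([] : List (Bool × List (ℤ × ℕ))), P c := by
  intro c hc
  simp at hc

lemma all_cons {P : Bool × List (ℤ × ℕ) → Prop} {a : Bool × List (ℤ × ℕ)}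
    {l : List (Bool × List (ℤ × ℕ))} (h : P a) (hl : ∀ c ∈ l, P c) : ∀ c ∈ a :: l, P c := by
  intro c hc
  rcases List.mem_cons.mp hc with rfl | hc
  · exact h
  · exact hl c hc

lemma fast_condH (h : ¬ Slow z p) : condH z p fastC := by
  unfold Slow at h
  push Not at h
  have h1 : ((z p).1 : ℝ) + ((z (p + 1)).1 : ℝ) ≤ ((z (p + 2)).1 : ℝ) := by exact_mod_cast h
  simp only [condH, fastC, Bool.false_eq_true, if_false, dval_cons, dval_nil]
  push_cast
  simp only [add_zero]
  linarith

lemma condH_slow (h : condH z p slowC) : Slow z p := by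
  simp only [condH, slowC, if_true, dval_cons, dval_nil, add_zero] at h
  unfold Slow
  push_cast at h
  have h1 : ((z (p + 2)).1 : ℝ) < ((z p).1 : ℝ) + ((z (p + 1)).1 : ℝ) := by linarith
  exact_mod_cast h1

lemma flag_cases (z : ℕ → Pt 2) (p : ℕ) : ∃ f, condH z p (flagC f) := by
  by_cases h : Slow z p
  · exact ⟨false, slow_condH h⟩
  · exact ⟨true, fast_condH h⟩

/-- Denominators of a combination. -/
lemma Is.fst {k : ℕ} {v : ℤ × ℤ × ℤ} (h : Is z p k v) :
    (z (p + k)).1 = v.1 * (z p).1 + (v.2.1 * (z (p + 1)).1 + v.2.2 * (z (p + 2)).1) := by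
  have := congrArg Prod.fst h
  simpa using this

/-- A move takes place. -/
theorem next_move (h : Mod sup X Y z r) {f : Bool} (hf : condH z p (flagC f)) :
    ∃ x ∈ slots f, (lt x.1).holds z p ∧ condH z (p + (lt x.1).step) (flagC x.2) := by
  have m0 := h.pos p
  have m1 := h.mono p
  have m2 := h.mono (p + 1)
  cases f with
  | true =>
    obtain ⟨f', hf'⟩ := flag_cases z (p + 1)
    have hl : (lt 15).holds z p := holds_none (all_cons hf all_nil)
    cases f' with
    | true => exact ⟨(15, true), by simp [slots], hl, hf'⟩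
    | false => exact ⟨(15, false), by simp [slots], hl, hf'⟩
  | false =>
    have hs := condH_slow hf
    have both : ∀ l : ℕ, (l, false) ∈ slots false → (l, true) ∈ slots false →
        (lt l).holds z p → ∃ x ∈ slots false, (lt x.1).holds z p ∧
          condH z (p + (lt x.1).step) (flagC x.2) := by
      intro l h1 h2 h3
      obtain ⟨f', hf'⟩ := flag_cases z (p + (lt l).step)
      cases f' with
      | true => exact ⟨(l, true), h2, h3, hf'⟩
      | false => exact ⟨(l, false), h1, h3, hf'⟩
    unfold Slow at hs
    by_cases ht : (z (p + 3)).1 < (z p).1 + (z (p + 1)).1 + (z (p + 2)).1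
    · obtain ⟨v, hv, e⟩ := c1_cases h hs ht
      have e1 := e.fst
      simp only [List.mem_cons, List.not_mem_nil, or_false] at hv
      rcases hv with rfl | rfl | rfl | rfl | rfl | rfl | rfl | rfl
      · refine ⟨(0, false), by simp [slots], holds_one e (all_cons hf all_nil), slow_condH ?_⟩
        show (z (p + 3)).1 < (z (p + 1)).1 + (z (p + 2)).1
        simp only at e1
        linarith
      · refine ⟨(1, false), by simp [slots], holds_one e (all_cons hf all_nil), slow_condH ?_⟩
        show (z (p + 3)).1 < (z (p + 1)).1 + (z (p + 2)).1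
        simp only at e1
        linarith
      · refine ⟨(2, false), by simp [slots], holds_one e (all_cons hf all_nil), slow_condH ?_⟩
        show (z (p + 3)).1 < (z (p + 1)).1 + (z (p + 2)).1
        simp only at e1
        linarith
      · by_cases h3 : (z (p + 3)).1 < (z (p + 1)).1 + (z (p + 2)).1
        · refine ⟨(3, false), by simp [slots], holds_one e (all_cons hf (all_cons ?_ all_nil)),
            slow_condH h3⟩
          have h4 : ((z (p + 3)).1 : ℝ) < ((z (p + 1)).1 : ℝ) + ((z (p + 2)).1 : ℝ) := by
            exact_mod_cast h3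
          simp only [condH, if_true, dval_cons, dval_nil]
          push_cast
          simp only [add_zero]
          linarith
        · refine both 12 (by simp [slots]) (by simp [slots])
            (holds_one e (all_cons hf (all_cons ?_ all_nil)))
          push Not at h3
          have h4 : ((z (p + 1)).1 : ℝ) + ((z (p + 2)).1 : ℝ) ≤ ((z (p + 3)).1 : ℝ) := by
            exact_mod_cast h3
          simp only [condH, Bool.false_eq_true, if_false, dval_cons, dval_nil]
          push_cast
          simp only [add_zero]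
          linarith
      · simp only at e1
        by_cases h3 : (z (p + 4)).1 < (z (p + 2)).1 + (z (p + 3)).1
        · have hk : condH z p (true, [(1, 2), (1, 3), (-1, 4)]) := by
            have h4 : ((z (p + 4)).1 : ℝ) < ((z (p + 2)).1 : ℝ) + ((z (p + 3)).1 : ℝ) := by
              exact_mod_cast h3
            simp only [condH, if_true, dval_cons, dval_nil]
            push_cast
            simp only [add_zero]
            linarith
          have hsl : Slow z (p + 2) := h3
          obtain ⟨v, hv, e'⟩ := c2_cases h hs e (by linarith)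
          simp only [List.mem_cons, List.not_mem_nil, or_false] at hv
          rcases hv with rfl | rfl | rfl | rfl | rfl
          · exact ⟨(4, false), by simp [slots],
              holds_two e e' (all_cons hf (all_cons hk all_nil)), slow_condH hsl⟩
          · exact ⟨(5, false), by simp [slots],
              holds_two e e' (all_cons hf (all_cons hk all_nil)), slow_condH hsl⟩
          · exact ⟨(6, false), by simp [slots],
              holds_two e e' (all_cons hf (all_cons hk all_nil)), slow_condH hsl⟩
          · exact ⟨(7, false), by simp [slots],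
              holds_two e e' (all_cons hf (all_cons hk all_nil)), slow_condH hsl⟩
          · exact ⟨(8, false), by simp [slots],
              holds_two e e' (all_cons hf (all_cons hk all_nil)), slow_condH hsl⟩
        · refine both 14 (by simp [slots]) (by simp [slots])
            (holds_one e (all_cons hf (all_cons ?_ all_nil)))
          push Not at h3
          have h4 : ((z (p + 2)).1 : ℝ) + ((z (p + 3)).1 : ℝ) ≤ ((z (p + 4)).1 : ℝ) := by
            exact_mod_cast h3
          simp only [condH, Bool.false_eq_true, if_false, dval_cons, dval_nil]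
          push_cast
          simp only [add_zero]
          linarith
      · exact both 9 (by simp [slots]) (by simp [slots]) (holds_one e (all_cons hf all_nil))
      · exact both 10 (by simp [slots]) (by simp [slots]) (holds_one e (all_cons hf all_nil))
      · exact both 11 (by simp [slots]) (by simp [slots]) (holds_one e (all_cons hf all_nil))
    · refine both 13 (by simp [slots]) (by simp [slots])
        (holds_none (all_cons hf (all_cons ?_ all_nil)))
      push Not at ht
      have h4 : ((z p).1 : ℝ) + ((z (p + 1)).1 : ℝ) + ((z (p + 2)).1 : ℝ) ≤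
          ((z (p + 3)).1 : ℝ) := by
        exact_mod_cast ht
      simp only [condH, Bool.false_eq_true, if_false, dval_cons, dval_nil]
      push_cast
      simp only [add_zero]
      linarith

/-- All moves have length one, two or three. -/
lemma step_bnd : ∀ l, 1 ≤ (lt l).step ∧ (lt l).step ≤ 3 := by
  intro l
  by_cases hl : l < 16
  · interval_cases l <;> simp [lt, letters, Letter.step]
  · have : lt l = ⟨[], 1, []⟩ := by
      unfold lt
      rw [List.getD_eq_getElem?_getD, List.getElem?_eq_none]
      · rfl
      · simp [letters]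
        omega
    rw [this]
    simp [Letter.step]

/-- The base of the growth. -/
noncomputable def tau : ℝ := 1337 / 1000

/-- The growth of the linear forms. -/
lemma chain (h : Mod sup X Y z r) : ∀ k, ∃ p, p ≤ k ∧ k ≤ p + 2 ∧ ∃ S ∈ sts, Inv z p S ∧
    tau ^ p * ((z 0).1 : ℝ) ≤ lv z p S.v := by
  intro k
  induction k with
  | zero =>
    obtain ⟨f, hf⟩ := flag_cases z 0
    refine ⟨0, le_rfl, by omega, ?_⟩
    simp only [pow_zero, one_mul]
    cases f with
    | false => exact start_sound h start_slow hf
    | true => exact start_sound h start_fast hf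
  | succ k ih =>
    obtain ⟨p, h1, h2, S, hS, hI, hv⟩ := ih
    by_cases hk : k + 1 ≤ p + 2
    · exact ⟨p, by omega, hk, S, hS, hI, hv⟩
    · obtain ⟨x, hx, hl, hf⟩ := next_move h hI.2
      obtain ⟨e, he⟩ := sts_ok S hS x hx
      obtain ⟨S', hS', hI', hv'⟩ := entry_sound h forb_no hI he hl hf
      obtain ⟨b1, b2⟩ := step_bnd x.1
      refine ⟨p + (lt x.1).step, by omega, by omega, S', hS', hI', ?_⟩
      set j := (lt x.1).step
      have h3 : (1337 : ℝ) ^ j * lv z p S.v ≤ (1000 : ℝ) ^ j * lv z (p + j) S'.v := by
        exact_mod_cast hv'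
      have h4 : tau ^ j * lv z p S.v ≤ lv z (p + j) S'.v := by
        unfold tau
        rw [div_pow, div_mul_eq_mul_div, div_le_iff₀ (by positivity)]
        linarith
      have h5 : tau ^ j * (tau ^ p * ((z 0).1 : ℝ)) ≤ tau ^ j * lv z p S.v :=
        mul_le_mul_of_nonneg_left hv (by unfold tau; positivity)
      calc tau ^ (p + j) * ((z 0).1 : ℝ) = tau ^ j * (tau ^ p * ((z 0).1 : ℝ)) := by
            rw [pow_add]; ring
        _ ≤ _ := h5
        _ ≤ _ := h4

/-- Growth of the denominators. -/
theorem growth (h : Mod sup X Y z r) (k : ℕ) :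
    tau ^ k * ((z 0).1 : ℝ) ≤ 1646357 * tau ^ 4 * ((z k).1 : ℝ) := by
  have ht : (1 : ℝ) ≤ tau := by unfold tau; norm_num
  have hM0 : (0 : ℝ) < ((z 0).1 : ℝ) := by exact_mod_cast h.pos 0
  have hge : ∀ t, ((z 0).1 : ℝ) ≤ ((z t).1 : ℝ) := by
    intro t
    induction t with
    | zero => exact le_rfl
    | succ t ih => exact ih.trans (by exact_mod_cast (h.mono t).le)
  have hmon : ∀ a b, a ≤ b → ((z a).1 : ℝ) ≤ ((z b).1 : ℝ) := by
    intro a b hab
    induction b, hab using Nat.le_induction with
    | base => exact le_rfl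
    | succ b _ ih => exact ih.trans (by exact_mod_cast (h.mono b).le)
  rcases Nat.lt_or_ge k 2 with hk | hk
  · have h1 : tau ^ k ≤ tau ^ 4 := pow_le_pow_right₀ ht (by omega)
    have h2 := hge k
    have h3 : tau ^ k * ((z 0).1 : ℝ) ≤ tau ^ 4 * ((z k).1 : ℝ) :=
      mul_le_mul h1 h2 hM0.le (by positivity)
    have h4 : (0 : ℝ) ≤ tau ^ 4 * ((z k).1 : ℝ) := by
      have : (0 : ℝ) < ((z k).1 : ℝ) := by linarith
      positivity
    linarith
  · obtain ⟨j, rfl⟩ : ∃ j, k = j + 2 := ⟨k - 2, by omega⟩
    obtain ⟨p, h1, h2, S, hS, hI, hv⟩ := chain h j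
    have h3 := bnd_sound sts_bnd hS (h.pos p) (h.mono p) (h.mono (p + 1))
    have h4 := hmon (p + 2) (j + 2) (by omega)
    have h5 : tau ^ (j + 2) ≤ tau ^ (p + 4) := pow_le_pow_right₀ ht (by omega)
    have h6 : tau ^ (j + 2) * ((z 0).1 : ℝ) ≤ tau ^ (p + 4) * ((z 0).1 : ℝ) :=
      mul_le_mul_of_nonneg_right h5 hM0.le
    have h7 : tau ^ (p + 4) * ((z 0).1 : ℝ) = tau ^ 4 * (tau ^ p * ((z 0).1 : ℝ)) := by
      rw [pow_add]; ring
    have h8 : tau ^ 4 * (tau ^ p * ((z 0).1 : ℝ)) ≤ tau ^ 4 * lv z p S.v :=
      mul_le_mul_of_nonneg_left hv (by positivity)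
    have h9 : lv z p S.v ≤ 1646357 * ((z (j + 2)).1 : ℝ) := by
      push_cast at h3
      linarith
    have h10 : tau ^ 4 * lv z p S.v ≤ tau ^ 4 * (1646357 * ((z (j + 2)).1 : ℝ)) :=
      mul_le_mul_of_nonneg_left h9 (by positivity)
    linarith

end Pool.Agent.Work.MP_7453a1_st
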