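import Pool.Agent.Work.MP_7453a1_st.Tab

set_option autoImplicit false
set_option maxRecDepth 100000

/-! The states. -/

namespace Pool.Agent.Work.MP_7453a1_st

/-- The states. -/
def sts : List St :=
  [⟨[], false, (-143473, -161147, 304630)⟩, ⟨[], true, (-10, -10, 20)⟩, ⟨[0], false, (-39875,
    83436, 148303)⟩, ⟨[1], false, (105704, 90521, 60293)⟩, ⟨[2], false, (45533, 24182, 122135)⟩,
    ⟨[3], false, (65591, 14675, 131359)⟩, ⟨[4], false, (60259, 96150, 81117)⟩, ⟨[5], false,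
    (47577, 112766, 62398)⟩, ⟨[6], false, (-10, 79733, 109429)⟩, ⟨[7], false, (98699, -13876,
    129785)⟩, ⟨[8], false, (91343, 34056, 109429)⟩, ⟨[9], false, (91343, 61501, 81985)⟩, ⟨[9],
    true, (-10, 25787, 107307)⟩, ⟨[10], false, (284116, 56885, 10)⟩, ⟨[10], true, (-38756,
    49094, 107307)⟩, ⟨[11], false, (47577, 62374, 112790)⟩, ⟨[11], true, (-10, 32030, 107307)⟩,
    ⟨[12], false, (-9121, 193708, 10)⟩, ⟨[12], true, (-10, 28206, 107307)⟩, ⟨[13], false,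
    (74320, 44467, 99016)⟩, ⟨[13], true, (-10, 21685, 107307)⟩, ⟨[14], false, (91347, 143473,
    10)⟩, ⟨[14], true, (-10, 25549, 107307)⟩, ⟨[15], false, (48367, 30694, 112790)⟩, ⟨[15],
    true, (-58935, 36176, 107307)⟩, ⟨[0, 0], false, (-34838, 104136, 142596)⟩, ⟨[0, 1], false,
    (58241, 138012, 60282)⟩, ⟨[0, 2], false, (109464, 79640, 63853)⟩, ⟨[1, 0], false, (-20307,
    80618, 141337)⟩, ⟨[1, 2], false, (73593, 20129, 124631)⟩, ⟨[1, 7], false, (-10, 79733,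
    109429)⟩, ⟨[2, 1], false, (93209, 147024, 16284)⟩, ⟨[4, 0], false, (-4920, 108463, 115841)⟩,
    ⟨[4, 2], false, (77690, -10, 133083)⟩, ⟨[5, 2], false, (-10, -10, 177357)⟩, ⟨[10, 2], false,
    (38313, -493060, 493087)⟩, ⟨[0, 0, 0], false, (156594, 157895, 1291)⟩, ⟨[0, 0, 1], false,
    (92652, 144083, 46581)⟩, ⟨[0, 0, 7], false, (91343, 34056, 109429)⟩, ⟨[0, 1, 0], false,
    (106654, 80597, 77878)⟩, ⟨[0, 2, 2], false, (78637, 21350, 122135)⟩, ⟨[1, 0, 1], false,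
    (80635, 132379, 56601)⟩, ⟨[1, 0, 2], false, (43258, -11271, 168598)⟩, ⟨[2, 1, 0], false,
    (71947, 21776, 124631)⟩, ⟨[4, 0, 1], false, (138437, 148314, 6579)⟩, ⟨[0, 0, 0, 0], false,
    (1743, 1733, 209370)⟩, ⟨[0, 0, 1, 0], false, (68764, 62280, 123886)⟩, ⟨[1, 0, 1, 0], false,
    (69181, 75676, 107820)⟩, ⟨[2, 1, 0, 1], false, (125307, 166652, -7)⟩, ⟨[4, 0, 1, 0], false,
    (-3, -10, 198309)⟩, ⟨[0, 0, 0, 0, 0], false, (-10, 279935, 2333)⟩, ⟨[0, 0, 1, 0, 0], false,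
    (-10, 41732, 190871)⟩, ⟨[1, 0, 1, 0, 0], false, (-10, 118089, 118575)⟩, ⟨[2, 1, 0, 1, 0],
    false, (55278, -10, 167546)⟩, ⟨[4, 0, 1, 0, 0], false, (-10, 265152, -3)⟩, ⟨[0, 0, 0, 0, 0,
    0], false, (374290, 3126, -10)⟩, ⟨[2, 1, 0, 1, 0, 0], false, (-73919, 224022, 73906)⟩, ⟨[4,
    0, 1, 0, 0, 0], false, (354526, -10, -2)⟩, ⟨[0, 0, 0, 0, 0, 0, 0], false, (-496255, -10,
    500438)⟩, ⟨[2, 1, 0, 1, 0, 0, 0], false, (299526, 49415, -8)⟩, ⟨[4, 0, 1, 0, 0, 0, 0],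
    false, (-869237, -48993, 728127)⟩, ⟨[0, 0, 0, 0, 0, 0, 0, 0], false, (98251, 103871,
    90145)⟩, ⟨[2, 1, 0, 1, 0, 0, 0, 0], false, (-334399, -10, 400476)⟩, ⟨[4, 0, 1, 0, 0, 0, 0,
    0], false, (-10, 96178, 153841)⟩, ⟨[0, 0, 0, 0, 0, 0, 0, 0, 0], false, (7513, 120537,
    131362)⟩, ⟨[2, 1, 0, 1, 0, 0, 0, 0, 0], false, (50610, 62190, 151309)⟩]

end Pool.Agent.Work.MP_7453a1_st
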