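import Pool.Agent.Work.MP_7453a1_st.Tab1
import Pool.Agent.Work.MP_7453a1_st.Tab2
import Pool.Agent.Work.MP_7453a1_st.Tab3
import Pool.Agent.Work.MP_7453a1_st.Tab4

set_option autoImplicit false
set_option maxRecDepth 100000

/-! The complete table. -/

namespace Pool.Agent.Work.MP_7453a1_st

lemma sts_eq : sts = tab1.map Prod.fst ++ (tab2.map Prod.fst ++ (tab3.map Prod.fst ++ (tab4.map Prod.fst))) := by rfl

/-- All states are correct. -/
theorem sts_ok : ∀ S ∈ sts, StOK 1337 1000 forb sts S := by
  intro S hS
  rw [sts_eq] at hS
  simp only [List.mem_append] at hS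
  rcases hS with hS | hS | hS | hS
  · exact chkTab_sound tab1.chk S hS
  · exact chkTab_sound tab2.chk S hS
  · exact chkTab_sound tab3.chk S hS
  · exact chkTab_sound tab4.chk S hS

/-- The initial states. -/
theorem start_slow : startOK sts 0 false [(0, 9), (2, 143483), (4, 304630), (19, 1)] = true := by decide +kernel

theorem start_fast : startOK sts 1 true [(2, 10), (4, 19), (18, 1), (19, 1)] = true := by decide +kernel

theorem sts_bnd : bndOK 1646357 sts = true := by decide +kernel

end Pool.Agent.Work.MP_7453a1_st
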