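import Pool.Agent.Work.MP_7453a1_nt_sup.Facts

set_option autoImplicit false

/-!
Words in a finite alphabet of moves, describing the passage from a triple of consecutive minimal
points to a later one.
-/

namespace Pool.Agent.Work.MP_7453a1_st

open Pool.Agent.Work.MP_7453a1_nt_norm Pool.Agent.Work.MP_7453a1_nt_sup

/-- A move: the points after the triple that are known combinations of the triple, the number of
further points, and linear inequalities between the denominators. -/
structure Letter where
  vecs : List (ℤ × ℤ × ℤ)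
  free : ℕ
  conds : List (Bool × List (ℤ × ℕ))

/-- The number of indices by which the triple moves. -/
def Letter.step (l : Letter) : ℕ := l.vecs.length + l.free

/-- Linear form in the denominators after the index `p`. -/
noncomputable def dval (z : ℕ → Pt 2) (p : ℕ) (ms : List (ℤ × ℕ)) : ℝ :=
  ms.foldr (fun a s => (a.1 : ℝ) * den (z (p + a.2)) + s) 0

/-- The inequality holds. -/
def condH (z : ℕ → Pt 2) (p : ℕ) (c : Bool × List (ℤ × ℕ)) : Prop :=
  if c.1 then 0 < dval z p c.2 else 0 ≤ dval z p c.2

/-- The move takes place at `p`. -/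
def Letter.holds (z : ℕ → Pt 2) (p : ℕ) (l : Letter) : Prop :=
  (∀ i v, l.vecs[i]? = some v → z (p + 3 + i) = v.1 • z p + (v.2.1 • z (p + 1) +
    v.2.2 • z (p + 2))) ∧ ∀ c ∈ l.conds, condH z p c

/-- The moves of the word take place from `p` on. -/
def Rel (z : ℕ → Pt 2) : ℕ → List Letter → Prop
  | _, [] => True
  | p, l :: w => l.holds z p ∧ Rel z (p + l.step) w

/-- Total number of indices. -/
def steps : List Letter → ℕ
  | [] => 0
  | l :: w => l.step + steps w

lemma steps_append (u w : List Letter) : steps (u ++ w) = steps u + steps w := by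
  induction u with
  | nil => simp [steps]
  | cons l u ih => simp [steps, ih, Nat.add_assoc]

lemma rel_append {z : ℕ → Pt 2} {p : ℕ} {u w : List Letter} :
    Rel z p (u ++ w) ↔ Rel z p u ∧ Rel z (p + steps u) w := by
  induction u generalizing p with
  | nil => simp [Rel, steps]
  | cons l u ih => simp only [List.cons_append, Rel, steps, ih, and_assoc, Nat.add_assoc]

/-- Combination of three coordinate lists. -/
def comb (A B C : List ℤ) (v : ℤ × ℤ × ℤ) : List ℤ :=
  ladd (lmul v.1 A) (ladd (lmul v.2.1 B) (lmul v.2.2 C))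

/-- The points of the triple and the points reached by a move. -/
def full (l : Letter) (j : ℕ) (A B C : List ℤ) : List (List ℤ) :=
  A :: B :: C :: (l.vecs.map (comb A B C) ++
    (List.range l.free).map fun i => unit (j + 3 + l.vecs.length + i))

/-- The coordinates of the points along a word. -/
def kn : List Letter → ℕ → List ℤ → List ℤ → List ℤ → List (List ℤ)
  | [], _, A, B, C => [A, B, C]
  | l :: w, j, A, B, C =>
    (full l j A B C).take l.step ++ kn w (j + l.step) ((full l j A B C).getD l.step [])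
      ((full l j A B C).getD (l.step + 1) []) ((full l j A B C).getD (l.step + 2) [])

/-- The inequalities along a word. -/
def wExt : List Letter → ℕ → List Ext
  | [], _ => []
  | l :: w, j => l.conds.map (fun c => ⟨c.1, c.2.map (fun a => (a.1, j + a.2)), [], [], []⟩) ++
    wExt w (j + l.step)

/-- The list gives the points from `p` on. -/
def KL (z : ℕ → Pt 2) (p : ℕ) (g : ℕ → Pt 2) (L : List (List ℤ)) : Prop :=
  ∀ t c, L[t]? = some c → z (p + t) = lc c g

lemma KL.append {z : ℕ → Pt 2} {p : ℕ} {g : ℕ → Pt 2} {L L' : List (List ℤ)}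
    (h : KL z p g L) (h' : KL z (p + L.length) g L') : KL z p g (L ++ L') := by
  intro t c hc
  rcases Nat.lt_or_ge t L.length with ht | ht
  · rw [List.getElem?_append_left ht] at hc
    exact h t c hc
  · rw [List.getElem?_append_right ht] at hc
    have := h' _ c hc
    rwa [Nat.add_assoc, Nat.add_sub_cancel' ht] at this

lemma KL.cons {z : ℕ → Pt 2} {p : ℕ} {g : ℕ → Pt 2} {A : List ℤ} {L : List (List ℤ)}
    (h : z p = lc A g) (h' : KL z (p + 1) g L) : KL z p g (A :: L) := by
  intro t c hc
  cases t with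
  | zero =>
    simp only [List.getElem?_cons_zero, Option.some.injEq] at hc
    subst hc
    exact h
  | succ t =>
    simp only [List.getElem?_cons_succ] at hc
    have := h' t c hc
    rwa [Nat.add_assoc, Nat.add_comm 1] at this

lemma KL.nil {z : ℕ → Pt 2} {p : ℕ} {g : ℕ → Pt 2} : KL z p g [] := by
  intro t c hc
  simp at hc

lemma KL.take {z : ℕ → Pt 2} {p : ℕ} {g : ℕ → Pt 2} {L : List (List ℤ)} (h : KL z p g L)
    (n : ℕ) : KL z p g (L.take n) := by
  intro t c hc
  rw [List.getElem?_take] at hc
  split_ifs at hc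
  exact h t c hc

lemma KL.getD {z : ℕ → Pt 2} {p : ℕ} {g : ℕ → Pt 2} {L : List (List ℤ)} (h : KL z p g L)
    {n : ℕ} (hn : n < L.length) : z (p + n) = lc (L.getD n []) g := by
  apply h n
  rw [List.getD_eq_getElem?_getD, List.getElem?_eq_getElem hn]
  rfl

lemma lc_ladd (l m : List ℤ) (g : ℕ → Pt 2) : lc (ladd l m) g = lc l g + lc m g := by
  induction l generalizing m g with
  | nil => simp [ladd, lc]
  | cons a l ih =>
    cases m with
    | nil => simp [ladd, lc]
    | cons b m =>
      simp only [ladd, lc, ih, add_smul]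
      abel

lemma lc_unit (t : ℕ) (g : ℕ → Pt 2) : lc (unit t) g = g t := by
  induction t generalizing g with
  | zero => simp [unit, lc]
  | succ t ih => simp [unit, lc, ih]

lemma lc_comb (A B C : List ℤ) (v : ℤ × ℤ × ℤ) (g : ℕ → Pt 2) :
    lc (comb A B C v) g = v.1 • lc A g + (v.2.1 • lc B g + v.2.2 • lc C g) := by
  simp only [comb, lc_ladd, lc_lmul]

section
variable {z : ℕ → Pt 2} {s : ℕ}

lemma full_length (l : Letter) (j : ℕ) (A B C : List ℤ) :
    (full l j A B C).length = l.step + 3 := by
  simp [full, Letter.step]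

lemma full_KL {l : Letter} {j : ℕ} {A B C : List ℤ} (hl : l.holds z (s + j))
    (hA : z (s + j) = lc A (fun i => z (s + i))) (hB : z (s + j + 1) = lc B (fun i => z (s + i)))
    (hC : z (s + j + 2) = lc C (fun i => z (s + i))) :
    KL z (s + j) (fun i => z (s + i)) (full l j A B C) := by
  refine KL.cons hA (KL.cons hB (KL.cons hC (KL.append ?_ ?_)))
  · intro t c hc
    rw [List.getElem?_map, Option.map_eq_some_iff] at hc
    obtain ⟨v, hv, rfl⟩ := hc
    rw [lc_comb, ← hA, ← hB, ← hC]
    exact hl.1 t v hv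
  · intro t c hc
    rw [List.getElem?_map, Option.map_eq_some_iff] at hc
    obtain ⟨v, hv, rfl⟩ := hc
    have hv' : v = t := by
      rw [List.getElem?_range] at hv
      · simpa using hv.symm
      · by_contra hcon
        rw [List.getElem?_eq_none (by simpa using hcon)] at hv
        simp at hv
    subst hv'
    rw [lc_unit, List.length_map]
    congr 1
    omega

lemma kn_KL {w : List Letter} {j : ℕ} {A B C : List ℤ} (hw : Rel z (s + j) w)
    (hA : z (s + j) = lc A (fun i => z (s + i))) (hB : z (s + j + 1) = lc B (fun i => z (s + i)))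
    (hC : z (s + j + 2) = lc C (fun i => z (s + i))) :
    KL z (s + j) (fun i => z (s + i)) (kn w j A B C) := by
  induction w generalizing j A B C with
  | nil => exact KL.cons hA (KL.cons hB (KL.cons hC KL.nil))
  | cons l w ih =>
    have hf := full_KL hw.1 hA hB hC
    have hlen := full_length l j A B C
    refine KL.append (hf.take _) ?_
    rw [List.length_take, hlen, Nat.min_eq_left (by omega), Nat.add_assoc]
    refine ih ?_ ?_ ?_ ?_
    · rw [← Nat.add_assoc]; exact hw.2
    · rw [← Nat.add_assoc]; exact hf.getD (by omega)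
    · rw [← Nat.add_assoc, Nat.add_assoc _ l.step 1]; exact hf.getD (by omega)
    · rw [← Nat.add_assoc, Nat.add_assoc _ l.step 2]; exact hf.getD (by omega)

lemma foldr_shift (z : ℕ → Pt 2) (s j : ℕ) (ms : List (ℤ × ℕ)) :
    (ms.map fun a => (a.1, j + a.2)).foldr (fun a x => (a.1 : ℝ) * den (z (s + a.2)) + x) 0 =
      dval z (s + j) ms := by
  unfold dval
  induction ms with
  | nil => rfl
  | cons a l ih => simp only [List.map_cons, List.foldr_cons, ih, Nat.add_assoc]

lemma value_ms (X Y : Pt 2 →+ ℝ) (g : ℕ → Pt 2) (b : Bool) (ms : List (ℤ × ℕ)) :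
    (⟨b, ms, [], [], []⟩ : Ext).value X Y z s g = dval z s ms := by
  simp [Ext.value, lc, dval]

lemma holds_ms {X Y : Pt 2 →+ ℝ} {g : ℕ → Pt 2} {b : Bool} {ms : List (ℤ × ℕ)}
    (h : condH z s (b, ms)) : (⟨b, ms, [], [], []⟩ : Ext).holds X Y z s g := by
  unfold Ext.holds
  rw [value_ms]
  exact h

lemma wExt_holds {X Y : Pt 2 →+ ℝ} {g : ℕ → Pt 2} {w : List Letter} {j : ℕ}
    (hw : Rel z (s + j) w) : ∀ e ∈ wExt w j, e.holds X Y z s g := by
  induction w generalizing j with
  | nil => intro e he; simp [wExt] at he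
  | cons l w ih =>
    intro e he
    rw [wExt, List.mem_append] at he
    rcases he with he | he
    · obtain ⟨c, hc, rfl⟩ := List.mem_map.mp he
      apply holds_ms
      have := hw.1.2 c hc
      unfold condH at this ⊢
      have e1 : dval z s (c.2.map fun a => (a.1, j + a.2)) = dval z (s + j) c.2 :=
        foldr_shift z s j c.2
      simp only [e1]
      exact this
    · exact ih (by rw [← Nat.add_assoc]; exact hw.2) e he

end

/-- The points along a word. -/
def pts (w : List Letter) : List (List ℤ) := kn w 0 (unit 0) (unit 1) (unit 2)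

/-- The refutation problem for a word. -/
def wd (w : List Letter) (ext : List Ext) : Data := ⟨(pts w).map some, sup, wExt w 0 ++ ext, []⟩

lemma pts_KL {z : ℕ → Pt 2} {s : ℕ} {w : List Letter} (hw : Rel z s w) :
    KL z s (fun i => z (s + i)) (pts w) := by
  have := kn_KL (z := z) (s := s) (w := w) (j := 0) (A := unit 0) (B := unit 1) (C := unit 2)
    hw (by rw [lc_unit]) (by rw [lc_unit]) (by rw [lc_unit])
  exact this

/-- The general refutation of a word. -/
theorem word_refute {X Y : Pt 2 →+ ℝ} {z : ℕ → Pt 2} {r : ℕ → ℝ} (h : Mod sup X Y z r) {s : ℕ}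
    {w : List Letter} (hw : Rel z s w) (ext : List Ext)
    (hx : ∀ e ∈ ext, e.holds X Y z s (fun i => z (s + i))) (T : Tree)
    (hT : check (wd w ext).clause T (wd w ext).base none = true) : False := by
  refine refute h (wd w ext) rfl s (fun i => z (s + i)) ?_ ?_ (by simp [wd]) T hT
  · intro t c hc
    simp only [wd, List.getElem?_map, Option.map_eq_some_iff, Option.some.injEq] at hc
    obtain ⟨c', hc', rfl⟩ := hc
    exact pts_KL hw t c' hc'
  · intro e he
    rcases List.mem_append.mp he with he | he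
    · exact wExt_holds (j := 0) hw e he
    · exact hx e he

/-- Normalised signs of a point. -/
def symExt (c : List ℤ) : List Ext :=
  [⟨false, [], [], c, []⟩, ⟨false, [], [], [], c⟩, ⟨false, [], [], c, lmul (-1) c⟩]

lemma symExt_holds {X Y : Pt 2 →+ ℝ} {z : ℕ → Pt 2} {s : ℕ} {g : ℕ → Pt 2} {c : List ℤ}
    {P : Pt 2} (hc : lc c g = P) (h1 : 0 ≤ X P) (h2 : 0 ≤ Y P) (h3 : Y P ≤ X P) :
    ∀ e ∈ symExt c, e.holds X Y z s g := by
  refine cons_holds ?_ (cons_holds ?_ (singleton_holds ?_)) <;>
  · simp only [Ext.holds, Ext.value, lc, List.foldr_nil, map_zero, lc_lmul, hc, neg_smul,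
      one_smul, map_neg]
    simp
    assumption

/-- Normalisation of the signs. -/
lemma exists_signs {X Y : Pt 2 →+ ℝ} {z : ℕ → Pt 2} {r : ℕ → ℝ} (h : Mod sup X Y z r)
    (P : Pt 2) : ∃ X' Y' : Pt 2 →+ ℝ, Mod sup X' Y' z r ∧ 0 ≤ X' P ∧ 0 ≤ Y' P ∧ Y' P ≤ X' P := by
  have key : ∀ X Y : Pt 2 →+ ℝ, Mod sup X Y z r → 0 ≤ X P → 0 ≤ Y P →
      ∃ X' Y' : Pt 2 →+ ℝ, Mod sup X' Y' z r ∧ 0 ≤ X' P ∧ 0 ≤ Y' P ∧ Y' P ≤ X' P := by
    intro X Y h x2 y2
    rcases le_total (Y P) (X P) with h1 | h1
    · exact ⟨X, Y, h, x2, y2, h1⟩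
    · exact ⟨Y, X, h.swap, y2, x2, h1⟩
  rcases le_total 0 (X P) with hX | hX <;> rcases le_total 0 (Y P) with hY | hY
  · exact key X Y h hX hY
  · exact key X (-Y) h.swap.negX.swap hX (by simpa using hY)
  · exact key (-X) Y h.negX (by simpa using hX) hY
  · exact key (-X) (-Y) h.negX.swap.negX.swap (by simpa using hX) (by simpa using hY)

/-- A word that does not occur. -/
theorem forb_of_check {w : List Letter} {n : ℕ} {c : List ℤ} (hc : (pts w)[n]? = some c)
    {D : Data} (hD : wd w (symExt c) = D) {T : Tree}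
    (hT : check D.clause T D.base none = true) {X Y : Pt 2 →+ ℝ} {z : ℕ → Pt 2} {r : ℕ → ℝ}
    (h : Mod sup X Y z r) (s : ℕ) : ¬ Rel z s w := by
  intro hw
  obtain ⟨X', Y', h', h1, h2, h3⟩ := exists_signs h (z (s + n))
  refine word_refute h' hw (symExt c) (symExt_holds (pts_KL hw n c hc).symm h1 h2 h3) T ?_
  rw [hD]
  exact hT

end Pool.Agent.Work.MP_7453a1_st
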